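import Pool.Agent.NewtonCov.Stmts

/-!
Modules CNT, EXM, GR of MP_a2070a_co (helper48).
-/

set_option autoImplicit false

namespace Pool.Agent.NC

open MeasureTheory Finset

/-- Marginals of the uniform measure on functions. -/
theorem cnt : S_CNT := by
  classical
  intro X _ u r φ hφ F
  let p : Fin u → Prop := fun i => i ∈ Set.range φ
  let e : (Fin u → X) ≃ (({i // p i} → X) × ({i // ¬ p i} → X)) :=
    Equiv.piEquivPiSubtypeProd p (fun _ => X)
  let e1 : Fin r ≃ {i // p i} := Equiv.ofInjective φ hφ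
  have h1 : ∑ f : Fin u → X, F (fun j => f (φ j)) =
      ∑ q : ({i // p i} → X) × ({i // ¬ p i} → X), F (fun j => q.1 (e1 j)) := by
    refine Fintype.sum_equiv e _ _ fun f => ?_
    rfl
  rw [h1, Fintype.sum_prod_type]
  simp only [Finset.sum_const, Finset.card_univ, nsmul_eq_mul]
  have h2 : Fintype.card ({i // ¬ p i} → X) = Fintype.card X ^ (u - r) := by
    rw [Fintype.card_fun, Fintype.card_subtype_compl, Fintype.card_fin,
      Fintype.card_congr e1.symm, Fintype.card_fin]
  rw [← Finset.mul_sum, h2]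
  push_cast
  congr 1
  refine Fintype.sum_equiv (Equiv.arrowCongr e1.symm (Equiv.refl X)) _ _ fun g => ?_
  rfl

/-- Exponential moment bound. -/
theorem exm : S_EXM := by
  intro X _ _ u a S P _ b lam t hb hlam hS
  have hN : (0 : ℝ) ≤ Fintype.card X := Nat.cast_nonneg _
  have h1l : (1 : ℝ) ≤ 1 + lam := by linarith
  let g : X → Fin u → X → ℝ := fun x c y =>
    if c = a then (if y = x ∧ P x then 1 else 0) else 1 + (if y ∈ S x then lam else 0)
  have hg0 : ∀ x c y, 0 ≤ g x c y := by
    intro x c y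
    simp only [g]
    split_ifs <;> linarith
  -- pointwise lower bound
  have h1 : ∀ f : Fin u → X, (P (f a) ∧
      t ≤ ((univ.filter (fun c => c ≠ a ∧ f c ∈ S (f a))).card : ℝ)) →
      (1 + lam) ^ t ≤ ∑ x, ∏ c, g x c (f c) := by
    rintro f ⟨hP, ht⟩
    have h2 : (1 + lam) ^ t ≤ ∏ c, g (f a) c (f c) := by
      have h3 : ∏ c, g (f a) c (f c) =
          (1 + lam) ^ (univ.filter (fun c => c ≠ a ∧ f c ∈ S (f a))).card := by
        rw [← Finset.prod_const, Finset.prod_filter]
        refine Finset.prod_congr rfl fun c _ => ?_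
        simp only [g]
        by_cases hc : c = a
        · subst hc
          simp [hP]
        · by_cases hm : f c ∈ S (f a)
          · simp [hc, hm]
          · simp [hc, hm]
      rw [h3, ← Real.rpow_natCast]
      exact Real.rpow_le_rpow_of_exponent_le h1l ht
    refine h2.trans ?_
    exact Finset.single_le_sum (f := fun x => ∏ c, g x c (f c))
      (fun x _ => Finset.prod_nonneg fun c _ => hg0 _ _ _) (Finset.mem_univ (f a))
  have h2 : ((univ.filter (fun f : Fin u → X => P (f a) ∧
      t ≤ ((univ.filter (fun c => c ≠ a ∧ f c ∈ S (f a))).card : ℝ))).card : ℝ) *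
      (1 + lam) ^ t ≤ ∑ f : Fin u → X, ∑ x, ∏ c, g x c (f c) := by
    rw [← nsmul_eq_mul, ← Finset.sum_const]
    refine (Finset.sum_le_sum fun f hf => h1 f (Finset.mem_filter.1 hf).2).trans ?_
    refine Finset.sum_le_sum_of_subset_of_nonneg (Finset.filter_subset _ _) fun f _ _ => ?_
    exact Finset.sum_nonneg fun x _ => Finset.prod_nonneg fun c _ => hg0 _ _ _
  refine h2.trans ?_
  rw [Finset.sum_comm]
  have hu : 0 < u := Fin.pos a
  have h3 : ∀ x, ∑ f : Fin u → X, ∏ c, g x c (f c) ≤
      ((Fintype.card X : ℝ) * (1 + lam * b)) ^ (u - 1) := by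
    intro x
    have h4 : ∑ f : Fin u → X, ∏ c, g x c (f c) = ∏ c, ∑ y, g x c y := by
      rw [Finset.prod_univ_sum, Fintype.piFinset_univ]
    rw [h4, ← Finset.mul_prod_erase _ _ (Finset.mem_univ a)]
    have h5 : ∑ y, g x a y = if P x then 1 else 0 := by
      simp only [g, if_true]
      by_cases hP : P x <;> simp [hP]
    have h6 : ∀ c ∈ univ.erase a, ∑ y, g x c y = (Fintype.card X : ℝ) + lam * (S x).card := by
      intro c hc
      have hca : c ≠ a := Finset.ne_of_mem_erase hc
      simp only [g, if_neg hca]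
      rw [Finset.sum_add_distrib, Finset.sum_const, Finset.card_univ, nsmul_eq_mul, mul_one,
        ← Finset.sum_filter, Finset.sum_const, nsmul_eq_mul]
      have : univ.filter (fun y => y ∈ S x) = S x := by
        ext y
        simp
      rw [this]
      ring
    rw [h5, Finset.prod_congr rfl h6, Finset.prod_const, Finset.card_erase_of_mem
      (Finset.mem_univ a), Finset.card_univ, Fintype.card_fin]
    by_cases hP : P x
    · rw [if_pos hP, one_mul]
      have h7 := hS x hP
      refine pow_le_pow_left₀ (by positivity) ?_ _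
      have h8 := mul_le_mul_of_nonneg_left h7 hlam
      nlinarith
    · rw [if_neg hP, zero_mul]
      positivity
  refine (Finset.sum_le_sum fun x _ => h3 x).trans ?_
  rw [Finset.sum_const, Finset.card_univ, nsmul_eq_mul, mul_pow]
  have h9 : (1 + lam * b) ^ (u - 1) ≤ (1 + lam * b) ^ u :=
    pow_le_pow_right₀ (by nlinarith [mul_nonneg hlam hb]) (Nat.sub_le u 1)
  have h10 : (Fintype.card X : ℝ) ^ u = Fintype.card X * (Fintype.card X : ℝ) ^ (u - 1) := by
    conv_lhs => rw [← Nat.sub_add_cancel hu, pow_succ]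
    ring
  rw [h10]
  have h11 : 0 ≤ (Fintype.card X : ℝ) * (Fintype.card X : ℝ) ^ (u - 1) := by positivity
  calc (Fintype.card X : ℝ) * ((Fintype.card X : ℝ) ^ (u - 1) * (1 + lam * b) ^ (u - 1))
      = (1 + lam * b) ^ (u - 1) * ((Fintype.card X : ℝ) * (Fintype.card X : ℝ) ^ (u - 1)) := by
        ring
    _ ≤ _ := mul_le_mul_of_nonneg_right h9 h11

/-- Powers of the logarithm are negligible. -/
theorem gr : S_GR := by
  intro K B
  have hl2 : 0 < Real.log 2 := Real.log_pos (by norm_num)
  let c0 : ℝ := |B| * (8 / Real.log 2) ^ K + 1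
  have hc0 : 0 < c0 := by positivity
  have h1 := (Real.isLittleO_pow_log_id_atTop (n := K)).bound (c := 1 / c0) (by positivity)
  rw [Filter.eventually_atTop] at h1
  obtain ⟨y0, hy0⟩ := h1
  refine ⟨⌈(max y0 1) ^ 8⌉₊, fun d hd y hy hyd => ?_⟩
  have h2 : (max y0 1) ^ 8 ≤ y ^ 8 := by
    rw [hyd]
    exact (Nat.le_ceil _).trans (by exact_mod_cast hd)
  have h3 : max y0 1 ≤ y := by
    by_contra hcon
    rw [not_le] at hcon
    exact absurd h2 (not_le.2 (pow_lt_pow_left₀ hcon hy (by norm_num)))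
  have hy1 : 1 ≤ y := (le_max_right _ _).trans h3
  have h4 := hy0 y ((le_max_left _ _).trans h3)
  rw [Real.norm_eq_abs, Real.norm_eq_abs, id, abs_of_nonneg hy] at h4
  have hd0 : d ≠ 0 := by
    rintro rfl
    have : y ^ 8 = 0 := by rw [hyd]; simp
    have h5 : 1 ≤ y ^ 8 := one_le_pow₀ hy1
    linarith
  have hL : (Nat.log 2 d : ℝ) ≤ 8 / Real.log 2 * Real.log y := by
    have h5 : (2 : ℝ) ^ Nat.log 2 d ≤ y ^ 8 := by
      rw [hyd]
      exact_mod_cast Nat.pow_log_le_self 2 hd0
    have h6 := Real.log_le_log (by positivity) h5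
    rw [Real.log_pow, Real.log_pow] at h6
    rw [div_mul_eq_mul_div, le_div_iff₀ hl2]
    exact_mod_cast h6
  have hlog : 0 ≤ Real.log y := Real.log_nonneg hy1
  calc B * (Nat.log 2 d : ℝ) ^ K ≤ |B| * (Nat.log 2 d : ℝ) ^ K :=
        mul_le_mul_of_nonneg_right (le_abs_self B) (by positivity)
    _ ≤ |B| * (8 / Real.log 2 * Real.log y) ^ K :=
        mul_le_mul_of_nonneg_left (pow_le_pow_left₀ (Nat.cast_nonneg _) hL _) (abs_nonneg _)
    _ = (|B| * (8 / Real.log 2) ^ K) * Real.log y ^ K := by
        rw [mul_pow]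
        ring
    _ ≤ c0 * |Real.log y ^ K| := by
        refine mul_le_mul (by simp only [c0]; linarith) (le_abs_self _) (by positivity) hc0.le
    _ ≤ c0 * (1 / c0 * y) := mul_le_mul_of_nonneg_left h4 hc0.le
    _ = y := by field_simp

end Pool.Agent.NC
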