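import Pool.Agent.NewtonCov.Stmts2

/-!
MP_a2070a_co: the choice of `U` (S_COMB) from the union bound.
-/

set_option autoImplicit false

namespace Pool.Agent.NC

open Finset

theorem cb_w32 {thr m : ℝ} (h0 : 0 < thr) (h1 : thr ≤ 1/2) (hm : thr < m) :
    thr * Real.sqrt thr ≤ w32 m := by
  unfold w32
  have h2 : thr ≤ min m (1/2) := le_min hm.le h1
  exact mul_le_mul h2 (Real.sqrt_le_sqrt h2) (Real.sqrt_nonneg _) (h0.le.trans h2)

theorem cb_w32_nonneg {m : ℝ} (h : 0 ≤ m) : 0 ≤ w32 m :=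
  mul_nonneg (le_min h (by norm_num)) (Real.sqrt_nonneg _)

theorem cb_sum_sub {d : ℕ} (X : Finset (Fin d)) (F : Fin d → ℝ) (hF : ∀ k, 0 ≤ F k) :
    ∑ x : {x // x ∈ X}, F x ≤ ∑ k, F k := by
  rw [Finset.sum_coe_sort X F]
  exact sum_le_sum_of_subset_of_nonneg (subset_univ X) fun k _ _ => hF k

theorem cb_card {d : ℕ} (X : Finset (Fin d)) (m : Fin d → ℝ) (hm : ∀ k, 0 ≤ m k)
    {B thr v : ℝ} (hB : ∑ k, w32 (m k) ≤ B) (h0 : 0 < thr) (h1 : thr ≤ 1/2)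
    (hv : v ≤ thr * Real.sqrt thr) :
    ((univ.filter (fun x : {x // x ∈ X} => thr < m x)).card : ℝ) * v ≤ B := by
  calc ((univ.filter (fun x : {x // x ∈ X} => thr < m x)).card : ℝ) * v
      = ∑ x ∈ univ.filter (fun x : {x // x ∈ X} => thr < m x), v := by
        rw [sum_const, nsmul_eq_mul]
    _ ≤ ∑ x ∈ univ.filter (fun x : {x // x ∈ X} => thr < m x), w32 (m x) := by
        refine sum_le_sum fun x hx => hv.trans (cb_w32 h0 h1 ?_)
        exact (mem_filter.mp hx).2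
    _ ≤ ∑ x : {x // x ∈ X}, w32 (m x) :=
        sum_le_sum_of_subset_of_nonneg (filter_subset _ _) fun x _ _ => cb_w32_nonneg (hm x)
    _ ≤ ∑ k, w32 (m k) := cb_sum_sub X (fun k => w32 (m k)) fun k => cb_w32_nonneg (hm k)
    _ ≤ B := hB

theorem cb_row {d : ℕ} (X : Finset (Fin d)) (p : Fin d → ℝ) (hp : ∀ k, 0 ≤ p k)
    (hs : ∑ k, p k ≤ 1) (thr : ℝ) :
    ((univ.filter (fun x : {x // x ∈ X} => thr ≤ p x)).card : ℝ) * thr ≤ 1 := by
  calc ((univ.filter (fun x : {x // x ∈ X} => thr ≤ p x)).card : ℝ) * thr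
      = ∑ x ∈ univ.filter (fun x : {x // x ∈ X} => thr ≤ p x), thr := by
        rw [sum_const, nsmul_eq_mul]
    _ ≤ ∑ x ∈ univ.filter (fun x : {x // x ∈ X} => thr ≤ p x), p x := by
        refine sum_le_sum fun x hx => ?_
        exact (mem_filter.mp hx).2
    _ ≤ ∑ x : {x // x ∈ X}, p x :=
        sum_le_sum_of_subset_of_nonneg (filter_subset _ _) fun x _ _ => hp x
    _ ≤ ∑ k, p k := cb_sum_sub X p hp
    _ ≤ 1 := hs

/-- popular columns -/
theorem cb_pop {Y : Type} [Fintype Y] [DecidableEq Y] (R : Y → Y → Prop) [∀ a b, Decidable (R a b)]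
    {h q : ℝ} (hrow : ∀ a, ((univ.filter (fun b => R a b)).card : ℝ) ≤ h)
    (S : Finset Y) (hS : ∀ b ∈ S, q ≤ ((univ.filter (fun a => R a b)).card : ℝ)) :
    (S.card : ℝ) * q ≤ Fintype.card Y * h := by
  calc (S.card : ℝ) * q = ∑ b ∈ S, q := by rw [sum_const, nsmul_eq_mul]
    _ ≤ ∑ b ∈ S, ((univ.filter (fun a => R a b)).card : ℝ) := sum_le_sum hS
    _ ≤ ∑ b, ((univ.filter (fun a => R a b)).card : ℝ) :=
        sum_le_sum_of_subset_of_nonneg (subset_univ S) fun b _ _ => Nat.cast_nonneg _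
    _ = ∑ a, ((univ.filter (fun b => R a b)).card : ℝ) := by
        simp only [card_filter]
        push_cast
        rw [sum_comm]
    _ ≤ ∑ a : Y, h := sum_le_sum fun a _ => hrow a
    _ = Fintype.card Y * h := by rw [sum_const, nsmul_eq_mul, card_univ]

/-- `exp (4 L)` dominates `48 n u`. -/
theorem cb_exp4 {d n u L : ℕ} {y : ℝ} (hL : L = Nat.log 2 d) (hd : 32 ≤ d) (hn : (n : ℝ) ≤ d)
    (hu : (u : ℝ) ≤ y) (hyd : y ≤ d) : 48 * ((n : ℝ) * u) ≤ Real.exp (4 * L) := by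
  have h1 : d < 2 ^ (L + 1) := hL ▸ Nat.lt_pow_succ_log_self (by norm_num) d
  have h2 : (d : ℝ) ≤ 2 ^ (L + 1) := by exact_mod_cast h1.le
  have h3 : (2 : ℝ) ≤ Real.exp 1 := by
    have := Real.add_one_le_exp (1 : ℝ)
    linarith
  have h4 : (2 : ℝ) ^ (4 * L) ≤ Real.exp (4 * L) := by
    have : Real.exp (4 * L) = Real.exp 1 ^ (4 * L) := by
      rw [← Real.exp_nat_mul]
      congr 1
      push_cast
      ring
    rw [this]
    exact pow_le_pow_left₀ (by norm_num) h3 _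
  refine le_trans ?_ h4
  have hd' : (32 : ℝ) ≤ d := by exact_mod_cast hd
  have h5 : (d : ℝ) ^ 4 ≤ 16 * 2 ^ (4 * L) := by
    calc (d : ℝ) ^ 4 ≤ (2 ^ (L + 1)) ^ 4 := pow_le_pow_left₀ (by positivity) h2 4
      _ = 16 * 2 ^ (4 * L) := by
        rw [← pow_mul, show (L + 1) * 4 = 4 * L + 4 by ring, pow_add]
        norm_num
        ring
  have h6 : (n : ℝ) * u ≤ d * d := mul_le_mul hn (hu.trans hyd) (by positivity) (by positivity)
  have h7 : 768 * ((d : ℝ) * d) ≤ d ^ 4 := by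
    have : (32 : ℝ) * 32 ≤ d * d := mul_le_mul hd' hd' (by norm_num) (by positivity)
    nlinarith [mul_nonneg (by positivity : (0 : ℝ) ≤ d * d) (sub_nonneg.mpr this)]
  linarith

/-- The Chernoff bound for the dominating columns. -/
theorem cb_cher2 {n u L A : ℕ} {δ : ℝ} (hδ0 : 0 < δ) (hδ1 : δ ≤ 1/4)
    (hA : 32 ≤ δ ^ 2 * A) (hu : u = A * L) (hexp : 48 * ((n : ℝ) * u) ≤ Real.exp (4 * L)) :
    16 * ((n : ℝ) * u * (1 + δ/2 * (1 - δ)) ^ u) ≤ (1 + δ/2) ^ ((1 - δ/2) * u) := by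
  have hu' : (u : ℝ) = A * L := by rw [hu]; push_cast; ring
  have h1 : (1 + δ/2 * (1 - δ)) ^ u ≤ Real.exp (δ/2 * (1 - δ) * u) := by
    have h2 : 1 + δ/2 * (1 - δ) ≤ Real.exp (δ/2 * (1 - δ)) := by
      have := Real.add_one_le_exp (δ/2 * (1 - δ))
      linarith
    calc (1 + δ/2 * (1 - δ)) ^ u ≤ Real.exp (δ/2 * (1 - δ)) ^ u :=
          pow_le_pow_left₀ (by nlinarith) h2 u
      _ = Real.exp (δ/2 * (1 - δ) * u) := by
          rw [← Real.exp_nat_mul]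
          congr 1
          ring
  have h3 : Real.exp ((1 - δ/2) * u * (δ/2 * (1 - δ/4))) ≤ (1 + δ/2) ^ ((1 - δ/2) * u) := by
    rw [Real.rpow_def_of_pos (by linarith), Real.exp_le_exp]
    have h4 := Real.le_log_one_add_of_nonneg (by linarith : 0 ≤ δ/2)
    have h5 : δ/2 * (1 - δ/4) ≤ 2 * (δ/2) / (δ/2 + 2) := by
      rw [le_div_iff₀ (by linarith)]
      nlinarith [pow_pos hδ0 3]
    have h6 : 0 ≤ (1 - δ/2) * (u : ℝ) := mul_nonneg (by linarith) (Nat.cast_nonneg u)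
    nlinarith [mul_le_mul_of_nonneg_left (h5.trans h4) h6]
  have h7 : 4 * (L : ℝ) + δ/2 * (1 - δ) * u ≤ (1 - δ/2) * u * (δ/2 * (1 - δ/4)) := by
    have h8 : 32 * (L : ℝ) ≤ δ ^ 2 * u := by
      rw [hu', ← mul_assoc]
      exact mul_le_mul_of_nonneg_right hA (Nat.cast_nonneg L)
    have h9 : 0 ≤ δ ^ 3 * (u : ℝ) := by positivity
    nlinarith
  calc 16 * ((n : ℝ) * u * (1 + δ/2 * (1 - δ)) ^ u)
      ≤ 16 * ((n : ℝ) * u * Real.exp (δ/2 * (1 - δ) * u)) := by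
        have : (0 : ℝ) ≤ n * u := by positivity
        nlinarith [mul_le_mul_of_nonneg_left h1 this]
    _ ≤ Real.exp (4 * L) * Real.exp (δ/2 * (1 - δ) * u) := by
        have h10 : 16 * ((n : ℝ) * u) ≤ Real.exp (4 * L) := by
          have : (0 : ℝ) ≤ n * u := by positivity
          linarith
        nlinarith [mul_le_mul_of_nonneg_right h10 (Real.exp_pos (δ/2 * (1 - δ) * u)).le]
    _ = Real.exp (4 * L + δ/2 * (1 - δ) * u) := by rw [← Real.exp_add]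
    _ ≤ Real.exp ((1 - δ/2) * u * (δ/2 * (1 - δ/4))) := Real.exp_le_exp.mpr h7
    _ ≤ _ := h3

/-- The Chernoff bound for the unpopular columns. -/
theorem cb_cher1 {n u L A : ℕ} {δ : ℝ} (hδ0 : 0 < δ)
    (hA : 32 ≤ δ * A) (hu : u = A * L) (hu8 : 8 ≤ u)
    (hexp : 48 * ((n : ℝ) * u) ≤ Real.exp (4 * L)) :
    16 * ((n : ℝ) * u * (1 + (u : ℝ) ^ 2 * (1 / (u : ℝ) ^ 3)) ^ u) ≤
      (1 + (u : ℝ) ^ 2) ^ (δ * u / 8) := by
  have hu' : (u : ℝ) = A * L := by rw [hu]; push_cast; ring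
  have hu0 : (8 : ℝ) ≤ u := by exact_mod_cast hu8
  have hupos : (0 : ℝ) < u := by linarith
  have h1 : (1 + (u : ℝ) ^ 2 * (1 / (u : ℝ) ^ 3)) ^ u ≤ 3 := by
    have h2 : 1 + (u : ℝ) ^ 2 * (1 / (u : ℝ) ^ 3) ≤ Real.exp (1 / u) := by
      have h3 := Real.add_one_le_exp (1 / (u : ℝ))
      have h4 : (u : ℝ) ^ 2 * (1 / (u : ℝ) ^ 3) = 1 / u := by
        field_simp
      rw [h4]
      linarith
    calc (1 + (u : ℝ) ^ 2 * (1 / (u : ℝ) ^ 3)) ^ u ≤ Real.exp (1 / u) ^ u :=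
          pow_le_pow_left₀ (by positivity) h2 u
      _ = Real.exp 1 := by
          rw [← Real.exp_nat_mul]
          congr 1
          field_simp
      _ ≤ 3 := by
          have := Real.exp_one_lt_d9
          linarith
  have h3 : Real.exp (4 * L) ≤ (1 + (u : ℝ) ^ 2) ^ (δ * u / 8) := by
    rw [Real.rpow_def_of_pos (by positivity), Real.exp_le_exp]
    have h4 : (1 : ℝ) ≤ Real.log (1 + (u : ℝ) ^ 2) := by
      rw [Real.le_log_iff_exp_le (by positivity)]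
      have := Real.exp_one_lt_d9
      nlinarith
    have h5 : 4 * (L : ℝ) ≤ δ * u / 8 := by
      have : 32 * (L : ℝ) ≤ δ * u := by
        rw [hu', ← mul_assoc]
        exact mul_le_mul_of_nonneg_right hA (Nat.cast_nonneg L)
      linarith
    have h6 : 0 ≤ δ * (u : ℝ) / 8 := by positivity
    nlinarith [mul_le_mul_of_nonneg_right h4 h6]
  refine le_trans ?_ h3
  refine le_trans ?_ hexp
  have : (0 : ℝ) ≤ n * u := by positivity
  nlinarith [mul_le_mul_of_nonneg_left h1 this]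

theorem cb_image_card {d u : ℕ} {X : Finset (Fin d)} {f : Fin u → {x // x ∈ X}}
    (hf : Function.Injective f) (J : Finset (Fin u)) :
    (J.image (fun a => (f a : Fin d))).card = J.card :=
  card_image_of_injective J (Subtype.val_injective.comp hf)

theorem cb_image_sum {d u : ℕ} {X : Finset (Fin d)} {f : Fin u → {x // x ∈ X}}
    (hf : Function.Injective f) (J : Finset (Fin u)) (F : Fin d → ℝ) :
    ∑ l ∈ J.image (fun a => (f a : Fin d)), F l = ∑ a ∈ J, F (f a) :=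
  sum_image fun _ _ _ _ h => hf (Subtype.ext h)

/-- The second alternative of `S_COMB` for an exceptional cube. -/
theorem cb_core {d u : ℕ} (X : Finset (Fin d)) (f : Fin u → {x // x ∈ X})
    (hf : Function.Injective f) (m : Fin d → ℝ) (p : Fin d → Fin d → ℝ)
    (hpk : ∀ k, p k k = 0) {y C r : ℝ} {L : ℕ} (hC : 0 < C) (hy : 2 ≤ y)
    (hyL : y ≤ 2 ^ (L + 1)) (hL : 1 ≤ L) (S J : Finset (Fin u))
    (h1 : ∀ c ∈ J, m (f c) ≤ 1 / y ^ 2)
    (h2 : ∀ c ∈ J, ∀ e, e ∉ S → e ≠ c → p (f c) (f e) ≤ 1 / y ^ 4)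
    (hJS : ∀ c ∈ J, c ∉ S)
    (h3 : ∀ c ∈ J, ∑ e ∈ S, p (f c) (f e) ≤ 1/2 + r)
    (hr : 1/2 + r + u / y ^ 4 ≤ 3/5) (hJ : L ≤ J.card) (huy : 1 ≤ u) :
    ∃ G ⊆ univ.image (fun a => (f a : Fin d)), G.Nonempty ∧ ∃ m₁ κ : ℝ, 0 ≤ m₁ ∧ 0 ≤ κ ∧
      (∀ k ∈ G, m k ≤ m₁ ∧ m k < 1/2 ∧ ∑ l ∈ G, p k l ≤ κ ^ 2 ∧
        ∑ l ∈ univ.image (fun a => (f a : Fin d)), p k l ≤ 3/5) ∧
      (1/2) ^ G.card + C * G.card * (Real.sqrt m₁ + Real.sqrt G.card * κ) ≤
        (2 + 2 * C * u ^ 2) / y := by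
  have hy0 : 0 < y := by linarith
  have hu1 : (1 : ℝ) ≤ u := by exact_mod_cast huy
  have hcard := cb_image_card hf J
  have hJu : J.card ≤ u := by
    have := card_le_univ J
    rwa [Fintype.card_fin] at this
  have hJu' : (J.card : ℝ) ≤ u := by exact_mod_cast hJu
  have hsmall : ∀ c ∈ J, ∀ e, e ∉ S → p (f c) (f e) ≤ 1 / y ^ 4 := by
    intro c hc e he
    by_cases hec : e = c
    · rw [hec, hpk]
      positivity
    · exact h2 c hc e he hec
  refine ⟨J.image (fun a => (f a : Fin d)), image_subset_image (subset_univ J), ?_, 1 / y ^ 2,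
    Real.sqrt u / y ^ 2, by positivity, by positivity, ?_, ?_⟩
  · rw [image_nonempty]
    exact card_pos.mp (by omega)
  · intro k hk
    obtain ⟨c, hc, rfl⟩ := mem_image.mp hk
    have e1 : (Real.sqrt u / y ^ 2) ^ 2 = u / y ^ 4 := by
      rw [div_pow, Real.sq_sqrt (Nat.cast_nonneg u)]
      ring
    refine ⟨h1 c hc, ?_, ?_, ?_⟩
    · refine lt_of_le_of_lt (h1 c hc) ?_
      rw [div_lt_div_iff₀ (by positivity) (by norm_num)]
      nlinarith
    · rw [e1, cb_image_sum hf]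
      calc ∑ a ∈ J, p (f c) (f a) ≤ ∑ a ∈ J, 1 / y ^ 4 :=
            sum_le_sum fun a ha => hsmall c hc a (hJS a ha)
        _ = J.card * (1 / y ^ 4) := by rw [sum_const, nsmul_eq_mul]
        _ ≤ u * (1 / y ^ 4) := mul_le_mul_of_nonneg_right hJu' (by positivity)
        _ = u / y ^ 4 := by ring
    · rw [cb_image_sum hf]
      have h4 : ∑ a ∈ univ \ S, p (f c) (f a) ≤ u / y ^ 4 := by
        calc ∑ a ∈ univ \ S, p (f c) (f a) ≤ ∑ a ∈ univ \ S, 1 / y ^ 4 :=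
              sum_le_sum fun a ha => hsmall c hc a (mem_sdiff.mp ha).2
          _ = (univ \ S).card * (1 / y ^ 4) := by rw [sum_const, nsmul_eq_mul]
          _ ≤ u * (1 / y ^ 4) := by
              refine mul_le_mul_of_nonneg_right ?_ (by positivity)
              have := card_le_univ (univ \ S)
              rw [Fintype.card_fin] at this
              exact_mod_cast this
          _ = u / y ^ 4 := by ring
      have h5 : ∑ a, p (f c) (f a) = ∑ a ∈ univ \ S, p (f c) (f a) + ∑ a ∈ S, p (f c) (f a) :=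
        (sum_sdiff (subset_univ S)).symm
      rw [h5]
      have := h3 c hc
      linarith
  · rw [hcard]
    have e2 : Real.sqrt (1 / y ^ 2) = 1 / y := by
      rw [Real.sqrt_div zero_le_one, Real.sqrt_one, Real.sqrt_sq hy0.le]
    have e3 : Real.sqrt J.card * (Real.sqrt u / y ^ 2) ≤ u / y ^ 2 := by
      have h6 : Real.sqrt J.card ≤ Real.sqrt u := Real.sqrt_le_sqrt hJu'
      calc Real.sqrt J.card * (Real.sqrt u / y ^ 2) ≤ Real.sqrt u * (Real.sqrt u / y ^ 2) :=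
            mul_le_mul_of_nonneg_right h6 (by positivity)
        _ = u / y ^ 2 := by
            rw [← mul_div_assoc, Real.mul_self_sqrt (Nat.cast_nonneg u)]
    have e4 : (u : ℝ) / y ^ 2 ≤ u / y := by
      rw [div_le_div_iff₀ (by positivity) hy0]
      nlinarith [mul_nonneg (by positivity : (0 : ℝ) ≤ u * y) (by linarith : (0 : ℝ) ≤ y - 1)]
    have e5 : (1/2 : ℝ) ^ J.card ≤ 2 / y := by
      calc (1/2 : ℝ) ^ J.card ≤ (1/2) ^ L :=
            pow_le_pow_of_le_one (by norm_num) (by norm_num) hJ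
        _ = 2 / 2 ^ (L + 1) := by
            rw [pow_succ, one_div, inv_pow]
            field_simp
        _ ≤ 2 / y := div_le_div_of_nonneg_left (by norm_num) hy0 hyL
    have e6 : C * J.card * (Real.sqrt (1 / y ^ 2) + Real.sqrt J.card * (Real.sqrt u / y ^ 2)) ≤
        C * u * (1 / y + u / y) := by
      rw [e2]
      refine mul_le_mul (mul_le_mul_of_nonneg_left hJu' hC.le) (by linarith) (by positivity)
        (by positivity)
    have e7 : C * u * (1 / y + u / y) ≤ 2 * C * u ^ 2 / y := by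
      rw [← add_div, mul_div_assoc', div_le_div_iff_of_pos_right hy0]
      nlinarith [mul_nonneg (mul_nonneg hC.le (Nat.cast_nonneg (α := ℝ) u)) (by linarith : (0 : ℝ) ≤ u - 1)]
    calc (1/2 : ℝ) ^ J.card +
          C * J.card * (Real.sqrt (1 / y ^ 2) + Real.sqrt J.card * (Real.sqrt u / y ^ 2))
        ≤ 2 / y + 2 * C * u ^ 2 / y := by linarith
      _ = (2 + 2 * C * u ^ 2) / y := by ring

theorem cb_big {E N ε t y : ℝ} (hE : E ≤ 10 ^ 9 * t ^ 20 * y ^ 15)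
    (hty : 10 ^ 9 * t ^ 20 ≤ ε ^ 2 * y) (hε : 0 < ε) (hy : 0 ≤ y) (hN : ε * y ^ 8 ≤ N) :
    E ≤ N ^ 2 := by
  calc E ≤ 10 ^ 9 * t ^ 20 * y ^ 15 := hE
    _ ≤ ε ^ 2 * y * y ^ 15 := mul_le_mul_of_nonneg_right hty (by positivity)
    _ = (ε * y ^ 8) ^ 2 := by ring
    _ ≤ N ^ 2 := pow_le_pow_left₀ (by positivity) hN 2

theorem cb_mono {c t y : ℝ} {k j : ℕ} (hc : c ≤ 10 ^ 9) (ht : 1 ≤ t) (hy : 1 ≤ y)
    (hk : k ≤ 20) (hj : j ≤ 15) : c * t ^ k * y ^ j ≤ 10 ^ 9 * t ^ 20 * y ^ 15 := by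
  have h1 : t ^ k ≤ t ^ 20 := pow_le_pow_right₀ ht hk
  have h2 : y ^ j ≤ y ^ 15 := pow_le_pow_right₀ hy hj
  have h3 : 0 ≤ t ^ k := by positivity
  exact mul_le_mul (mul_le_mul hc h1 h3 (by norm_num)) h2 (by positivity) (by positivity)

theorem cb_thr {x : ℝ} (h0 : 0 ≤ x) (h1 : x ≤ 1) : x ^ 2 ≤ x * Real.sqrt x := by
  have h2 : x ≤ Real.sqrt x := Real.le_sqrt_of_sq_le (by nlinarith)
  nlinarith

theorem cb_T1 {d : ℕ} (X : Finset (Fin d)) (m : Fin d → ℝ) (hm : ∀ k, 0 ≤ m k)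
    {B v : ℝ} (hB : ∑ k, w32 (m k) ≤ B) (hv : 2 ≤ v) :
    ((univ.filter (fun x : {x // x ∈ X} => 1 / v < m x)).card : ℝ) ≤ B * v ^ 2 := by
  have hv0 : 0 < v := by linarith
  have h1 : 1 / v ≤ 1/2 := one_div_le_one_div_of_le (by norm_num) hv
  have h2 := cb_card X m hm hB (by positivity : 0 < 1 / v) h1
    (cb_thr (by positivity) (by linarith))
  rw [one_div, inv_pow, ← div_eq_mul_inv, div_le_iff₀ (by positivity)] at h2
  rw [one_div]
  exact h2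

theorem cb_T2 {d : ℕ} (X : Finset (Fin d)) (m : Fin d → ℝ) (hm : ∀ k, 0 ≤ m k)
    {B v : ℝ} (hB : ∑ k, w32 (m k) ≤ B) (hv : 2 ≤ v) :
    ((univ.filter (fun x : {x // x ∈ X} => 1 / v ^ 2 < m x)).card : ℝ) ≤ B * v ^ 3 := by
  have hv0 : 0 < v := by linarith
  have h1 : 1 / v ^ 2 ≤ 1/2 := one_div_le_one_div_of_le (by norm_num) (by nlinarith)
  have e2 : Real.sqrt (1 / v ^ 2) = 1 / v := by
    rw [Real.sqrt_div zero_le_one, Real.sqrt_one, Real.sqrt_sq hv0.le]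
  have h2 := cb_card (v := (v ^ 3)⁻¹) X m hm hB (by positivity : 0 < 1 / v ^ 2) h1
    (le_of_eq (by rw [e2]; field_simp))
  rw [← div_eq_mul_inv, div_le_iff₀ (by positivity)] at h2
  exact h2

theorem cb_row' {d : ℕ} (X : Finset (Fin d)) (p : Fin d → ℝ) (hp : ∀ k, 0 ≤ p k)
    (hs : ∑ k, p k ≤ 1) {v : ℝ} (hv : 0 < v) :
    ((univ.filter (fun x : {x // x ∈ X} => 1 / v ≤ p x)).card : ℝ) ≤ v := by
  have h := cb_row X p hp hs (1 / v)
  rw [mul_one_div, div_le_one hv] at h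
  exact h

theorem cb_filter_card {d : ℕ} (X : Finset (Fin d)) (P : Fin d → Prop) [DecidablePred P] :
    (univ.filter (fun x : {x // x ∈ X} => P x)).card ≤ (X.filter P).card := by
  rw [← card_image_of_injective _ (Subtype.val_injective (p := fun x => x ∈ X))]
  refine card_le_card fun k hk => ?_
  obtain ⟨x, hx, rfl⟩ := mem_image.mp hk
  exact mem_filter.mpr ⟨x.2, (mem_filter.mp hx).2⟩

theorem cb_Gam {d : ℕ} (X : Finset (Fin d)) (m : Fin d → ℝ) (p : Fin d → Fin d → ℝ)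
    (hm : ∀ k, 0 ≤ m k) (hm1 : ∀ k, m k ≤ 1) (hp : ∀ k l, 0 ≤ p k l)
    (hs : ∀ k, ∑ l, p k l ≤ 1) {B y : ℝ} (hB : ∑ k, w32 (m k) ≤ B) (hy : 2 ≤ y)
    (hd : (d : ℝ) = y ^ 8) :
    ∑ x : {x // x ∈ X}, ∑ z : {x // x ∈ X}, p x z * Real.sqrt (m x) ≤ y ^ 6 * (1 + B) := by
  have hy0 : 0 < y := by linarith
  have h1 : ∀ x : {x // x ∈ X}, ∑ z : {x // x ∈ X}, p x z * Real.sqrt (m x) ≤
      1 / y ^ 2 + (if 1 / (y ^ 2) ^ 2 < m x then 1 else 0) := by
    intro x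
    rw [← sum_mul]
    have h2 : ∑ z : {x // x ∈ X}, p x z ≤ 1 := (cb_sum_sub X (p x) (hp x)).trans (hs x)
    have h3 : (∑ z : {x // x ∈ X}, p x z) * Real.sqrt (m x) ≤ Real.sqrt (m x) :=
      mul_le_of_le_one_left (Real.sqrt_nonneg _) h2
    refine h3.trans ?_
    split_ifs with h
    · have h4 : Real.sqrt (m x) ≤ 1 := Real.sqrt_le_one.mpr (hm1 x)
      have : 0 ≤ 1 / y ^ 2 := by positivity
      linarith
    · push Not at h
      rw [add_zero]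
      calc Real.sqrt (m x) ≤ Real.sqrt (1 / (y ^ 2) ^ 2) := Real.sqrt_le_sqrt h
        _ = 1 / y ^ 2 := by
          rw [Real.sqrt_div zero_le_one, Real.sqrt_one, Real.sqrt_sq (by positivity)]
  have h5 := cb_T2 X m hm hB (v := y ^ 2) (by nlinarith)
  calc ∑ x : {x // x ∈ X}, ∑ z : {x // x ∈ X}, p x z * Real.sqrt (m x)
      ≤ ∑ x : {x // x ∈ X}, (1 / y ^ 2 + (if 1 / (y ^ 2) ^ 2 < m x then (1 : ℝ) else 0)) :=
        sum_le_sum fun x _ => h1 x
    _ = X.card * (1 / y ^ 2) +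
        ((univ.filter (fun x : {x // x ∈ X} => 1 / (y ^ 2) ^ 2 < m x)).card : ℝ) := by
        rw [sum_add_distrib, sum_const, nsmul_eq_mul, card_univ, Fintype.card_coe, sum_boole]
    _ ≤ y ^ 8 * (1 / y ^ 2) + B * (y ^ 2) ^ 3 := by
        have h6 : (X.card : ℝ) ≤ y ^ 8 := by
          rw [← hd]
          have := card_le_univ X
          rw [Fintype.card_fin] at this
          exact_mod_cast this
        have h7 : (X.card : ℝ) * (1 / y ^ 2) ≤ y ^ 8 * (1 / y ^ 2) :=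
          mul_le_mul_of_nonneg_right h6 (by positivity)
        linarith
    _ = y ^ 6 * (1 + B) := by
        field_simp

/-- All numerical conditions. -/
theorem cb_num {ε A C : ℝ} (hε : 0 < ε) (hA : 8 ≤ A) (hC : 0 < C)
    {L u y : ℝ} (hL : 1 ≤ L) (hu : u = A * L)
    (hy : 10 ^ 9 * ((A + 1) * (C + 1)) ^ 20 / ε ^ 2 * L ^ 20 ≤ y) :
    ∃ t : ℝ, 1 ≤ t ∧ u ≤ t ∧ L ≤ t ∧ C ≤ t ∧ C * L ≤ t ∧ 10 ^ 9 * t ^ 20 ≤ ε ^ 2 * y := by
  refine ⟨(A + 1) * L * (C + 1), ?_, ?_, ?_, ?_, ?_, ?_⟩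
  · have h1 : 1 ≤ (A + 1) * L := by nlinarith
    nlinarith
  · rw [hu]
    have h1 : 0 ≤ A * L := by positivity
    have h2 : 0 ≤ A * L * C := by positivity
    nlinarith [mul_nonneg (by linarith : (0:ℝ) ≤ L) hC.le]
  · have h1 : L ≤ (A + 1) * L := by nlinarith
    have h2 : 0 ≤ (A + 1) * L * C := by positivity
    nlinarith
  · have h1 : 1 ≤ (A + 1) * L := by nlinarith
    nlinarith
  · have h1 : 0 ≤ A * L * C := by positivity
    have h2 : 0 ≤ A * L := by positivity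
    nlinarith
  · have h0 : (A + 1) * L * (C + 1) = ((A + 1) * (C + 1)) * L := by ring
    rw [h0, mul_pow]
    generalize ((A + 1) * (C + 1)) ^ 20 = Z at hy ⊢
    generalize L ^ 20 = W at hy ⊢
    rw [div_mul_eq_mul_div, div_le_iff₀ (by positivity)] at hy
    linarith

/-- The numerical hypotheses of the union bound. -/
theorem cb_conds {ε C L u y t N n : ℝ} (hε : 0 < ε) (hε1 : ε ≤ 1) (hC : 0 < C) (hL : 1 ≤ L)
    (hu : 8 ≤ u) (hy1 : 1 ≤ y) (hn : n ≤ y ^ 8) (hN : ε * y ^ 8 ≤ N) (ht : 1 ≤ t)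
    (hut : u ≤ t) (hCL : C * L ≤ t) (hty : 10 ^ 9 * t ^ 20 ≤ ε ^ 2 * y) :
    16 * u ^ 2 ≤ N ∧
    16 * (n * u ^ 2 * (C * L * (100 * u) ^ 2) * (C * L * y ^ 3)) ≤ N ^ 2 ∧
    16 * (n * u ^ 3 * (C * L * (100 * u) ^ 2) * y ^ 4) ≤ N ^ 2 ∧
    16 * (n * u ^ 3 * (100 * u ^ 3) * (C * L * y ^ 3)) ≤ N ^ 2 ∧
    16 * (n * u ^ 4 * (100 * u ^ 3) * y ^ 4) ≤ N ^ 2 ∧
    16 * (n * u ^ 2 * (100 * u ^ 6) ^ 2) ≤ N ^ 2 := by
  have hy0 : 0 ≤ y := by linarith
  have hu0 : 0 ≤ u := by linarith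
  have hL0 : 0 ≤ L := by linarith
  have ht0 : 0 ≤ t := by linarith
  have hτ1 : C * L * (100 * u) ^ 2 ≤ 10 ^ 4 * t ^ 3 := by
    calc C * L * (100 * u) ^ 2 ≤ t * (100 * t) ^ 2 := by gcongr
      _ = 10 ^ 4 * t ^ 3 := by ring
  have hτ2 : C * L * y ^ 3 ≤ t * y ^ 3 := by gcongr
  refine ⟨?_, ?_, ?_, ?_, ?_, ?_⟩
  · have h1 : 16 * u ^ 2 ≤ 16 * t ^ 2 := by gcongr
    have h2 : t ^ 2 ≤ t ^ 20 := pow_le_pow_right₀ ht (by norm_num)
    have h3 : y ≤ y ^ 8 := le_self_pow₀ hy1 (by norm_num)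
    have h4 : ε ^ 2 * y ≤ ε * y ^ 8 := by
      have : ε ^ 2 ≤ ε := by nlinarith
      exact mul_le_mul this h3 hy0 hε.le
    have h5 : 0 ≤ t ^ 20 := by positivity
    linarith
  · refine cb_big (t := t) (y := y) ?_ hty hε hy0 hN
    calc 16 * (n * u ^ 2 * (C * L * (100 * u) ^ 2) * (C * L * y ^ 3))
        ≤ 16 * (y ^ 8 * t ^ 2 * (10 ^ 4 * t ^ 3) * (t * y ^ 3)) := by gcongr
      _ = 160000 * t ^ 6 * y ^ 11 := by ring
      _ ≤ 10 ^ 9 * t ^ 20 * y ^ 15 := cb_mono (by norm_num) ht hy1 (by norm_num) (by norm_num)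
  · refine cb_big (t := t) (y := y) ?_ hty hε hy0 hN
    calc 16 * (n * u ^ 3 * (C * L * (100 * u) ^ 2) * y ^ 4)
        ≤ 16 * (y ^ 8 * t ^ 3 * (10 ^ 4 * t ^ 3) * y ^ 4) := by gcongr
      _ = 160000 * t ^ 6 * y ^ 12 := by ring
      _ ≤ 10 ^ 9 * t ^ 20 * y ^ 15 := cb_mono (by norm_num) ht hy1 (by norm_num) (by norm_num)
  · refine cb_big (t := t) (y := y) ?_ hty hε hy0 hN
    calc 16 * (n * u ^ 3 * (100 * u ^ 3) * (C * L * y ^ 3))
        ≤ 16 * (y ^ 8 * t ^ 3 * (100 * t ^ 3) * (t * y ^ 3)) := by gcongr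
      _ = 1600 * t ^ 7 * y ^ 11 := by ring
      _ ≤ 10 ^ 9 * t ^ 20 * y ^ 15 := cb_mono (by norm_num) ht hy1 (by norm_num) (by norm_num)
  · refine cb_big (t := t) (y := y) ?_ hty hε hy0 hN
    calc 16 * (n * u ^ 4 * (100 * u ^ 3) * y ^ 4)
        ≤ 16 * (y ^ 8 * t ^ 4 * (100 * t ^ 3) * y ^ 4) := by gcongr
      _ = 1600 * t ^ 7 * y ^ 12 := by ring
      _ ≤ 10 ^ 9 * t ^ 20 * y ^ 15 := cb_mono (by norm_num) ht hy1 (by norm_num) (by norm_num)
  · refine cb_big (t := t) (y := y) ?_ hty hε hy0 hN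
    calc 16 * (n * u ^ 2 * (100 * u ^ 6) ^ 2)
        ≤ 16 * (y ^ 8 * t ^ 2 * (100 * t ^ 6) ^ 2) := by gcongr
      _ = 160000 * t ^ 14 * y ^ 8 := by ring
      _ ≤ 10 ^ 9 * t ^ 20 * y ^ 15 := cb_mono (by norm_num) ht hy1 (by norm_num) (by norm_num)

/-- The final numerical bounds. -/
theorem cb_final {ε C L u y t N n K s : ℝ} (hε : 0 < ε) (hε1 : ε ≤ 1) (hC : 0 < C) (hL : 1 ≤ L)
    (hu : 8 ≤ u) (hy1 : 1 ≤ y) (hn : n ≤ y ^ 8) (hN : ε * y ^ 8 ≤ N) (ht : 1 ≤ t)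
    (hut : u ≤ t) (hCL : C * L ≤ t) (hCt : C ≤ t) (hty : 10 ^ 9 * t ^ 20 ≤ ε ^ 2 * y)
    (hK : K * N ≤ 16 * (n * (u * (C * L * (100 * u) ^ 2) + u ^ 2 * (100 * u ^ 3))))
    (hs : s * N ^ 2 ≤ 16 * (n * u ^ 2 * (y ^ 6 * (1 + C * L)))) :
    K * ((2 + 2 * C * u ^ 2) / y) ≤ 1/8 ∧ C * u * s ≤ 1/8 := by
  have hy0 : 0 < y := by linarith
  have hu0 : 0 ≤ u := by linarith
  have hL0 : 0 ≤ L := by linarith
  have ht0 : 0 ≤ t := by linarith
  have hN0 : 0 < N := lt_of_lt_of_le (by positivity) hN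
  have hty' : 10 ^ 9 * t ^ 20 ≤ ε * y := by
    have h1 : ε ^ 2 * y ≤ ε * y := by
      have : ε ^ 2 ≤ ε := by nlinarith
      exact mul_le_mul_of_nonneg_right this hy0.le
    linarith
  constructor
  · -- K ≤ 16 (…)/ε
    have h1 : K * ε ≤ 16 * (10100 * t ^ 5) := by
      have h2 : 16 * (n * (u * (C * L * (100 * u) ^ 2) + u ^ 2 * (100 * u ^ 3))) ≤
          16 * (10100 * t ^ 5) * y ^ 8 := by
        calc 16 * (n * (u * (C * L * (100 * u) ^ 2) + u ^ 2 * (100 * u ^ 3)))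
            ≤ 16 * (y ^ 8 * (t * (t * (100 * t) ^ 2) + t ^ 2 * (100 * t ^ 3))) := by gcongr
          _ = 16 * (10000 * t ^ 4 + 100 * t ^ 5) * y ^ 8 := by ring
          _ ≤ 16 * (10100 * t ^ 5) * y ^ 8 := by
              have : t ^ 4 ≤ t ^ 5 := pow_le_pow_right₀ ht (by norm_num)
              have h5 : 10000 * t ^ 4 + 100 * t ^ 5 ≤ 10100 * t ^ 5 := by linarith
              gcongr
      have h3 : K * N ≤ 16 * (10100 * t ^ 5) * (N / ε) := by
        have h4 : y ^ 8 ≤ N / ε := by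
          rw [le_div_iff₀ hε]
          linarith
        exact (hK.trans h2).trans (mul_le_mul_of_nonneg_left h4 (by positivity))
      have h6 : K ≤ 16 * (10100 * t ^ 5) / ε := by
        refine le_of_mul_le_mul_right (h3.trans (le_of_eq ?_)) hN0
        ring
      rwa [le_div_iff₀ hε] at h6
    have h7 : 2 + 2 * C * u ^ 2 ≤ 4 * t ^ 3 := by
      have h8 : C * u ^ 2 ≤ t * t ^ 2 := by gcongr
      have h9 : 1 ≤ t ^ 3 := one_le_pow₀ ht
      nlinarith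
    have h10 : K * (2 + 2 * C * u ^ 2) * ε ≤ 10 ^ 6 * t ^ 8 := by
      calc K * (2 + 2 * C * u ^ 2) * ε = (K * ε) * (2 + 2 * C * u ^ 2) := by ring
        _ ≤ (16 * (10100 * t ^ 5)) * (2 + 2 * C * u ^ 2) :=
            mul_le_mul_of_nonneg_right h1 (by positivity)
        _ ≤ (16 * (10100 * t ^ 5)) * (4 * t ^ 3) :=
            mul_le_mul_of_nonneg_left h7 (by positivity)
        _ = 646400 * t ^ 8 := by ring
        _ ≤ 10 ^ 6 * t ^ 8 := by
            have : 0 ≤ t ^ 8 := by positivity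
            linarith
    have h11 : t ^ 8 ≤ t ^ 20 := pow_le_pow_right₀ ht (by norm_num)
    rw [mul_div_assoc', div_le_iff₀ hy0]
    have h12 : K * (2 + 2 * C * u ^ 2) * ε ≤ (1/8 * y) * ε := by
      have : 0 ≤ t ^ 20 := by positivity
      linarith
    exact le_of_mul_le_mul_right h12 hε
  · have h1 : 16 * (n * u ^ 2 * (y ^ 6 * (1 + C * L))) ≤ 32 * t ^ 3 * y ^ 14 := by
      calc 16 * (n * u ^ 2 * (y ^ 6 * (1 + C * L)))
          ≤ 16 * (y ^ 8 * t ^ 2 * (y ^ 6 * (t + t))) := by gcongr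
        _ = 32 * t ^ 3 * y ^ 14 := by ring
    have h2 : C * u * s * N ^ 2 ≤ 32 * t ^ 5 * y ^ 14 := by
      calc C * u * s * N ^ 2 = C * u * (s * N ^ 2) := by ring
        _ ≤ C * u * (32 * t ^ 3 * y ^ 14) :=
            mul_le_mul_of_nonneg_left (hs.trans h1) (by positivity)
        _ ≤ t * t * (32 * t ^ 3 * y ^ 14) := by gcongr
        _ = 32 * t ^ 5 * y ^ 14 := by ring
    have h3 : 32 * t ^ 5 * y ^ 14 ≤ 1/8 * N ^ 2 := by
      have h4 : (ε * y ^ 8) ^ 2 ≤ N ^ 2 := pow_le_pow_left₀ (by positivity) hN 2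
      have h5 : t ^ 5 ≤ t ^ 20 := pow_le_pow_right₀ ht (by norm_num)
      have h6 : 256 * t ^ 5 ≤ ε ^ 2 * y := by
        have : 0 ≤ t ^ 20 := by positivity
        linarith
      have h7 : y ≤ y ^ 2 := le_self_pow₀ hy1 (by norm_num)
      calc 32 * t ^ 5 * y ^ 14 = 1/8 * (256 * t ^ 5 * y ^ 14) := by ring
        _ ≤ 1/8 * (ε ^ 2 * y * y ^ 14) := by gcongr
        _ ≤ 1/8 * (ε ^ 2 * y ^ 2 * y ^ 14) := by gcongr
        _ = 1/8 * (ε * y ^ 8) ^ 2 := by ring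
        _ ≤ 1/8 * N ^ 2 := by linarith
    exact le_of_mul_le_mul_right (h2.trans h3) (by positivity)

set_option maxHeartbeats 4000000 in
theorem cb_choice (hev : S_EV) {d n u L A : ℕ} {ε δ C t y : ℝ} (X : Finset (Fin d))
    (m : Fin n → Fin d → ℝ) (p : Fin n → Fin d → Fin d → ℝ)
    (hm0 : ∀ i k, 0 ≤ m i k) (hm1 : ∀ i k, m i k ≤ 1) (hp0 : ∀ i k l, 0 ≤ p i k l)
    (hps : ∀ i k, ∑ l, p i k l ≤ 1) (hw : ∀ i, ∑ k, w32 (m i k) ≤ C * L)
    (hδ0 : 0 < δ) (hδ1 : δ ≤ 1/4) (hAδ2 : 32 ≤ δ ^ 2 * A) (hAδ : 32 ≤ δ * A)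
    (hX : ∀ i, ∀ l ∈ X, ((X.filter (fun k => 1/2 < p i k l)).card : ℝ) ≤ (1 - δ) * X.card)
    (hε : 0 < ε) (hε1 : ε ≤ 1) (hC : 0 < C) (hL : 1 ≤ (L : ℝ)) (hu : u = A * L) (hu8 : 8 ≤ u)
    (hy2 : 2 ≤ y) (hyd : (d : ℝ) = y ^ 8)
    (hn : (n : ℝ) ≤ y ^ 8) (hN : ε * y ^ 8 ≤ X.card) (ht : 1 ≤ t)
    (hut : (u : ℝ) ≤ t) (hCL : C * L ≤ t) (hty : 10 ^ 9 * t ^ 20 ≤ ε ^ 2 * y)
    (hexp : 48 * ((n : ℝ) * u) ≤ Real.exp (4 * L)) :
    ∃ f : Fin u → {x // x ∈ X}, Function.Injective f ∧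
      (∀ i a b, a ≠ b → 1 / (100 * (u : ℝ)) < m i (f a) → m i (f b) ≤ 1 / y ^ 2) ∧
      (∀ i a b c, a ≠ b → a ≠ c → b ≠ c → 1 / (100 * (u : ℝ)) < m i (f a) →
        p i (f b) (f c) ≤ 1 / y ^ 4) ∧
      (∀ i a b c, a ≠ b → a ≠ c → b ≠ c → 1 / (100 * (u : ℝ) ^ 3) ≤ p i (f a) (f b) →
        m i (f c) ≤ 1 / y ^ 2) ∧
      (∀ i a b c e, a ≠ b → a ≠ c → a ≠ e → b ≠ c → b ≠ e → c ≠ e →
        1 / (100 * (u : ℝ) ^ 3) ≤ p i (f a) (f b) → p i (f c) (f e) ≤ 1 / y ^ 4) ∧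
      (∀ i a b, a ≠ b →
        ((univ.filter (fun c => c ≠ a ∧ 1 / (100 * (u : ℝ) ^ 3) ≤ p i (f c) (f a))).card : ℝ) <
          δ * u / 8 ∨
        ((univ.filter (fun c => c ≠ b ∧ 1 / (100 * (u : ℝ) ^ 3) ≤ p i (f c) (f b))).card : ℝ) <
          δ * u / 8) ∧
      (∀ i a, ((univ.filter (fun c => c ≠ a ∧ 1/2 < p i (f c) (f a))).card : ℝ) <
        (1 - δ/2) * u) ∧
      ((univ.filter (fun i => (∃ a, 1 / (100 * (u : ℝ)) < m i (f a)) ∨
        ∃ a b, a ≠ b ∧ 1 / (100 * (u : ℝ) ^ 3) ≤ p i (f a) (f b))).card : ℝ) * X.card ≤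
        16 * (n * (u * (C * L * (100 * u) ^ 2) + u ^ 2 * (100 * u ^ 3))) ∧
      (∑ i, ∑ a, ∑ b ∈ univ.erase a, p i (f a) (f b) * Real.sqrt (m i (f a))) *
        (X.card : ℝ) ^ 2 ≤ 16 * (n * u ^ 2 * (y ^ 6 * (1 + C * L))) := by
  classical
  have hu8r : (8 : ℝ) ≤ u := by exact_mod_cast hu8
  have hupos : (0 : ℝ) < u := by linarith
  have hy0 : 0 < y := by linarith
  have hy1 : 1 ≤ y := by linarith
  have hNpos : (0 : ℝ) < X.card := lt_of_lt_of_le (by positivity) hN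
  have hL0 : (0 : ℝ) ≤ L := by linarith
  have hcard : (X.card : ℝ) = Fintype.card {x // x ∈ X} := by rw [Fintype.card_coe]
  obtain ⟨e0, e1, e2, e3, e4, e5⟩ := cb_conds hε hε1 hC hL hu8r hy1 hn hN ht hut hCL hty
  have hv100 : (2 : ℝ) ≤ 100 * u := by linarith
  have hδ' : 0 ≤ 1 - δ := by linarith
  obtain ⟨f, hf, c1, c2, c3, c4, c5, c6, c7, c8, c9⟩ := hev {x // x ∈ X} n u
    (fun i => univ.filter (fun x => 1 / (100 * (u : ℝ)) < m i x))
    (fun i => univ.filter (fun x => 1 / y ^ 2 < m i x))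
    (fun i => univ.filter (fun l => (X.card : ℝ) / (u : ℝ) ^ 3 ≤
      ((univ.filter (fun k : {x // x ∈ X} => 1 / (100 * (u : ℝ) ^ 3) ≤ p i k l)).card : ℝ)))
    (fun i k => univ.filter (fun l => 1 / (100 * (u : ℝ) ^ 3) ≤ p i k l))
    (fun i k => univ.filter (fun l => 1 / y ^ 4 ≤ p i k l))
    (fun i l => univ.filter (fun k => 1 / (100 * (u : ℝ) ^ 3) ≤ p i k l))
    (fun i l => univ.filter (fun k => 1/2 < p i k l))
    (fun i x z => p i x z * Real.sqrt (m i x))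
    X.card (C * L * (100 * u) ^ 2) (C * L * y ^ 3) (100 * u ^ 3) (y ^ 4) (100 * u ^ 6)
    ((u : ℝ) ^ 2) (δ * u / 8) (1 / (u : ℝ) ^ 3) (δ/2) ((1 - δ/2) * u) (1 - δ)
    (y ^ 6 * (1 + C * L)) hcard hNpos (by positivity) (by positivity) (by positivity)
    (by positivity) (by positivity) (by positivity) (by positivity) (by positivity)
    hδ' (by positivity)
    (fun i => cb_T1 X (m i) (hm0 i) (hw i) hv100)
    (fun i => cb_T2 X (m i) (hm0 i) (hw i) hy2)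
    (fun i k => cb_row' X (p i k) (hp0 i k) (hps i k) (by positivity))
    (fun i k => cb_row' X (p i k) (hp0 i k) (hps i k) (by positivity))
    (by
      intro i
      have h1 := cb_pop (Y := {x // x ∈ X}) (fun k l => 1 / (100 * (u : ℝ) ^ 3) ≤ p i k l)
        (h := 100 * u ^ 3) (q := (X.card : ℝ) / (u : ℝ) ^ 3)
        (fun k => cb_row' X (p i k) (hp0 i k) (hps i k) (by positivity))
        (univ.filter (fun l : {x // x ∈ X} => (X.card : ℝ) / (u : ℝ) ^ 3 ≤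
          ((univ.filter (fun k : {x // x ∈ X} => 1 / (100 * (u : ℝ) ^ 3) ≤ p i k l)).card : ℝ)))
        (fun l hl => (mem_filter.mp hl).2)
      rw [← hcard, mul_div_assoc', div_le_iff₀ (by positivity)] at h1
      refine le_of_mul_le_mul_right (h1.trans (le_of_eq ?_)) hNpos
      ring)
    (by
      intro i l hl
      have h1 : ¬ (X.card : ℝ) / (u : ℝ) ^ 3 ≤
          ((univ.filter (fun k : {x // x ∈ X} => 1 / (100 * (u : ℝ) ^ 3) ≤ p i k l)).card : ℝ) :=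
        fun h => hl (mem_filter.mpr ⟨mem_univ _, h⟩)
      push Not at h1
      rw [one_div_mul_eq_div]
      exact h1.le)
    (by
      intro i l
      refine le_trans ?_ (hX i l l.2)
      exact_mod_cast cb_filter_card X (fun k => 1/2 < p i k l))
    (fun i x z => mul_nonneg (hp0 i x z) (Real.sqrt_nonneg _))
    (fun i => cb_Gam X (m i) (p i) (hm0 i) (hm1 i) (hp0 i) (hps i) (hw i) hy2 hyd)
    e0 e1 e2 e3 e4 e5
    (cb_cher1 hδ0 hAδ hu hu8 hexp)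
    (cb_cher2 hδ0 hδ1 hAδ2 hu hexp)
  simp only [mem_filter, mem_univ, true_and, not_lt, not_le] at c1 c2 c3 c4 c5 c6 c7 c8
  refine ⟨f, hf, c1, ?_, c3, ?_, ?_, c7, c8, c9⟩
  · intro i a b c hab hac hbc h
    exact (c2 i a b c hab hac hbc h).le
  · intro i a b c e h1 h2 h3 h4 h5 h6 h
    exact (c4 i a b c e h1 h2 h3 h4 h5 h6 h).le
  · intro i a b hab
    by_cases hP : (X.card : ℝ) / (u : ℝ) ^ 3 ≤
      ((univ.filter (fun k : {x // x ∈ X} => 1 / (100 * (u : ℝ) ^ 3) ≤ p i k (f a))).card : ℝ)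
    · exact Or.inr (c6 i b (c5 i a b hab hP))
    · exact Or.inl (c6 i a (not_le.mp hP))

/-- The exceptional cubes. -/
theorem cb_exc {d u L : ℕ} {δ C y : ℝ} (X : Finset (Fin d)) (m : Fin d → ℝ)
    (p : Fin d → Fin d → ℝ) (hpk : ∀ k, p k k = 0) (f : Fin u → {x // x ∈ X})
    (hf : Function.Injective f) (hC : 0 < C) (hy : 10 ≤ y) (hyL : y ≤ 2 ^ (L + 1))
    (hL : 1 ≤ L) (hu8 : 8 ≤ u) (huy : (u : ℝ) ≤ y) (hδu : 32 * (L : ℝ) ≤ δ * u)
    (c1 : ∀ a b, a ≠ b → 1 / (100 * (u : ℝ)) < m (f a) → m (f b) ≤ 1 / y ^ 2)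
    (c2 : ∀ a b c, a ≠ b → a ≠ c → b ≠ c → 1 / (100 * (u : ℝ)) < m (f a) →
        p (f b) (f c) ≤ 1 / y ^ 4)
    (c3 : ∀ a b c, a ≠ b → a ≠ c → b ≠ c → 1 / (100 * (u : ℝ) ^ 3) ≤ p (f a) (f b) →
        m (f c) ≤ 1 / y ^ 2)
    (c4 : ∀ a b c e, a ≠ b → a ≠ c → a ≠ e → b ≠ c → b ≠ e → c ≠ e →
        1 / (100 * (u : ℝ) ^ 3) ≤ p (f a) (f b) → p (f c) (f e) ≤ 1 / y ^ 4)
    (c5 : ∀ a b, a ≠ b →
        ((univ.filter (fun c => c ≠ a ∧ 1 / (100 * (u : ℝ) ^ 3) ≤ p (f c) (f a))).card : ℝ) <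
          δ * u / 8 ∨
        ((univ.filter (fun c => c ≠ b ∧ 1 / (100 * (u : ℝ) ^ 3) ≤ p (f c) (f b))).card : ℝ) <
          δ * u / 8)
    (c7 : ∀ a, ((univ.filter (fun c => c ≠ a ∧ 1/2 < p (f c) (f a))).card : ℝ) <
        (1 - δ/2) * u)
    (hex : (∃ a, 1 / (100 * (u : ℝ)) < m (f a)) ∨
        ∃ a b, a ≠ b ∧ 1 / (100 * (u : ℝ) ^ 3) ≤ p (f a) (f b)) :
    ∃ G ⊆ univ.image (fun a => (f a : Fin d)), G.Nonempty ∧ ∃ m₁ κ : ℝ, 0 ≤ m₁ ∧ 0 ≤ κ ∧
      (∀ k ∈ G, m k ≤ m₁ ∧ m k < 1/2 ∧ ∑ l ∈ G, p k l ≤ κ ^ 2 ∧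
        ∑ l ∈ univ.image (fun a => (f a : Fin d)), p k l ≤ 3/5) ∧
      (1/2) ^ G.card + C * G.card * (Real.sqrt m₁ + Real.sqrt G.card * κ) ≤
        (2 + 2 * C * u ^ 2) / y := by
  classical
  have hu8r : (8 : ℝ) ≤ u := by exact_mod_cast hu8
  have hy0 : 0 < y := by linarith
  have hLr : (1 : ℝ) ≤ L := by exact_mod_cast hL
  have hr0 : (0 : ℝ) < 1 / (100 * (u : ℝ) ^ 3) := by positivity
  have hr : 1/2 + 1 / (100 * (u : ℝ) ^ 3) + u / y ^ 4 ≤ 3/5 := by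
    have h1 : 1 / (100 * (u : ℝ) ^ 3) ≤ 1 / 100 := by
      apply one_div_le_one_div_of_le (by norm_num)
      have : (1 : ℝ) ≤ u ^ 3 := one_le_pow₀ (by linarith)
      linarith
    have h2 : (u : ℝ) / y ^ 4 ≤ 1 / 100 := by
      rw [div_le_div_iff₀ (by positivity) (by norm_num)]
      have h3 : (100 : ℝ) ≤ y ^ 3 := by
        have : (10 : ℝ) ^ 3 ≤ y ^ 3 := pow_le_pow_left₀ (by norm_num) hy 3
        linarith
      nlinarith [mul_le_mul huy h3 (by norm_num) hy0.le]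
    linarith
  rcases hex with ⟨a, ha⟩ | ⟨a, b, hab, hH⟩
  · obtain ⟨J, hJ⟩ : ∃ J : Finset (Fin u), J = univ.filter (fun c => c ≠ a ∧
      p (f c) (f a) ≤ 1/2) := ⟨_, rfl⟩
    have hmem : ∀ c ∈ J, c ≠ a ∧ p (f c) (f a) ≤ 1/2 := fun c hc => by
      rw [hJ] at hc
      exact (mem_filter.mp hc).2
    have hcov : (univ : Finset (Fin u)) ⊆ J ∪ ({a} ∪
        univ.filter (fun c => c ≠ a ∧ 1/2 < p (f c) (f a))) := by
      intro c _
      by_cases h1 : c = a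
      · simp [h1]
      · by_cases h2 : 1/2 < p (f c) (f a)
        · exact mem_union_right _ (mem_union_right _ (mem_filter.mpr ⟨mem_univ _, h1, h2⟩))
        · refine mem_union_left _ ?_
          rw [hJ]
          exact mem_filter.mpr ⟨mem_univ _, h1, not_lt.mp h2⟩
    have hcc : u ≤ J.card + (1 + (univ.filter (fun c => c ≠ a ∧ 1/2 < p (f c) (f a))).card) := by
      have h3 := (card_le_card hcov).trans ((card_union_le _ _).trans
        (Nat.add_le_add_left (card_union_le _ _) _))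
      rwa [card_univ, Fintype.card_fin, card_singleton] at h3
    have hcc' : (u : ℝ) ≤ J.card + (1 +
        ((univ.filter (fun c => c ≠ a ∧ 1/2 < p (f c) (f a))).card : ℝ)) := by
      exact_mod_cast hcc
    have hJL : L ≤ J.card := by
      have h4 := c7 a
      have : (L : ℝ) ≤ J.card := by linarith
      exact_mod_cast this
    refine cb_core X f hf m p hpk hC (by linarith) hyL hL {a} J
      (fun c hc => c1 a c (hmem c hc).1.symm ha) (fun c hc e he hec => ?_)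
      (fun c hc => by simpa using (hmem c hc).1) (fun c hc => ?_) hr hJL (by omega)
    · have hea : e ≠ a := by simpa using he
      exact c2 a c e (hmem c hc).1.symm hea.symm hec.symm ha
    · rw [sum_singleton]
      linarith [(hmem c hc).2]
  · -- choose the unpopular end
    obtain ⟨a', b', hab', hpair, hQ⟩ : ∃ a' b', a' ≠ b' ∧ ((a' = a ∧ b' = b) ∨ (a' = b ∧ b' = a)) ∧
        ((univ.filter (fun c => c ≠ b' ∧ 1 / (100 * (u : ℝ) ^ 3) ≤ p (f c) (f b'))).card : ℝ) <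
          δ * u / 8 := by
      rcases c5 a b hab with h | h
      · exact ⟨b, a, hab.symm, Or.inr ⟨rfl, rfl⟩, h⟩
      · exact ⟨a, b, hab, Or.inl ⟨rfl, rfl⟩, h⟩
    have hsame : ∀ c, (c ≠ a' ∧ c ≠ b') → (c ≠ a ∧ c ≠ b) := by
      intro c hc
      rcases hpair with ⟨rfl, rfl⟩ | ⟨rfl, rfl⟩
      · exact hc
      · exact hc.symm
    obtain ⟨J, hJ⟩ : ∃ J : Finset (Fin u), J = univ.filter (fun c => (c ≠ a' ∧ c ≠ b') ∧
      p (f c) (f a') ≤ 1/2 ∧ p (f c) (f b') < 1 / (100 * (u : ℝ) ^ 3)) := ⟨_, rfl⟩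
    have hmem : ∀ c ∈ J, (c ≠ a' ∧ c ≠ b') ∧
      p (f c) (f a') ≤ 1/2 ∧ p (f c) (f b') < 1 / (100 * (u : ℝ) ^ 3) := fun c hc => by
      rw [hJ] at hc
      exact (mem_filter.mp hc).2
    have hcov : (univ : Finset (Fin u)) ⊆ J ∪ (({a', b'} : Finset (Fin u)) ∪
        (univ.filter (fun c => c ≠ a' ∧ 1/2 < p (f c) (f a')) ∪
        univ.filter (fun c => c ≠ b' ∧ 1 / (100 * (u : ℝ) ^ 3) ≤ p (f c) (f b')))) := by
      intro c _
      by_cases h1 : c = a'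
      · simp [h1]
      by_cases h1' : c = b'
      · simp [h1']
      by_cases h2 : 1/2 < p (f c) (f a')
      · exact mem_union_right _ (mem_union_right _ (mem_union_left _
          (mem_filter.mpr ⟨mem_univ _, h1, h2⟩)))
      by_cases h3 : 1 / (100 * (u : ℝ) ^ 3) ≤ p (f c) (f b')
      · exact mem_union_right _ (mem_union_right _ (mem_union_right _
          (mem_filter.mpr ⟨mem_univ _, h1', h3⟩)))
      refine mem_union_left _ ?_
      rw [hJ]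
      exact mem_filter.mpr ⟨mem_univ _, ⟨h1, h1'⟩, not_lt.mp h2, not_le.mp h3⟩
    have hcc : u ≤ J.card + (2 + ((univ.filter (fun c => c ≠ a' ∧ 1/2 < p (f c) (f a'))).card +
        (univ.filter (fun c => c ≠ b' ∧ 1 / (100 * (u : ℝ) ^ 3) ≤ p (f c) (f b'))).card)) := by
      have h3 := card_le_card hcov
      rw [card_univ, Fintype.card_fin] at h3
      refine h3.trans ((card_union_le _ _).trans (Nat.add_le_add_left
        ((card_union_le _ _).trans (Nat.add_le_add card_le_two (card_union_le _ _))) _))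
    have hcc' : (u : ℝ) ≤ J.card + (2 +
        (((univ.filter (fun c => c ≠ a' ∧ 1/2 < p (f c) (f a'))).card : ℝ) +
        ((univ.filter (fun c => c ≠ b' ∧
          1 / (100 * (u : ℝ) ^ 3) ≤ p (f c) (f b'))).card : ℝ))) := by
      exact_mod_cast hcc
    have hJL : L ≤ J.card := by
      have h4 := c7 a'
      have : (L : ℝ) ≤ J.card := by linarith
      exact_mod_cast this
    refine cb_core X f hf m p hpk hC (by linarith) hyL hL {a', b'} J
      (fun c hc => ?_) (fun c hc e he hec => ?_)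
      (fun c hc => by simpa using (hmem c hc).1) (fun c hc => ?_) hr hJL (by omega)
    · have h := hsame c (hmem c hc).1
      exact c3 a b c hab h.1.symm h.2.symm hH
    · have h := hsame c (hmem c hc).1
      have h' : e ≠ a' ∧ e ≠ b' := by simpa using he
      have h'' := hsame e h'
      exact c4 a b c e hab h.1.symm h''.1.symm h.2.symm h''.2.symm hec.symm hH
    · rw [sum_pair hab']
      linarith [(hmem c hc).2.1, (hmem c hc).2.2]

set_option maxHeartbeats 4000000 in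
theorem comb (hcx : S_CX) (hev : S_EV) (hgr : S_GR) : S_COMB := by
  classical
  intro ε hε hε1
  obtain ⟨δ, hδ⟩ : ∃ δ : ℝ, δ = ε/4 := ⟨_, rfl⟩
  have hδ0 : 0 < δ := by rw [hδ]; linarith
  have hδ1 : δ ≤ 1/4 := by rw [hδ]; linarith
  obtain ⟨A, hA⟩ := exists_nat_ge (32/δ^2 + 8)
  have hAr : (8 : ℝ) ≤ A := by
    have : 0 ≤ 32/δ^2 := by positivity
    linarith
  have hA8 : 8 ≤ A := by exact_mod_cast hAr
  have hAδ2 : 32 ≤ δ ^ 2 * A := by
    have h1 : 32/δ^2 ≤ A := by linarith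
    rw [div_le_iff₀ (by positivity)] at h1
    linarith
  have hAδ : 32 ≤ δ * A := by
    have h1 : δ ^ 2 * A ≤ δ * A := by
      have : δ ^ 2 ≤ δ := by nlinarith
      exact mul_le_mul_of_nonneg_right this (by linarith)
    linarith
  refine ⟨A, by omega, fun C hC => ?_⟩
  obtain ⟨d₁, hd₁⟩ := hgr 20 (10^9*((A+1)*(C+1))^20/ε^2)
  refine ⟨max d₁ 32, fun d hd n hn m p hm0 hm1 hp0 hpk hps hw => ?_⟩
  have hd32 : 32 ≤ d := (le_max_right _ _).trans hd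
  obtain ⟨L, hL⟩ : ∃ L : ℕ, L = Nat.log 2 d := ⟨_, rfl⟩
  obtain ⟨u, hu⟩ : ∃ u : ℕ, u = A * L := ⟨_, rfl⟩
  rw [← hL] at hw ⊢
  rw [← hu]
  have hL1 : 1 ≤ L := by
    rw [hL]
    exact Nat.log_pos (by norm_num) (by omega)
  have hLr : (1 : ℝ) ≤ L := by exact_mod_cast hL1
  have hur : (u : ℝ) = A * L := by rw [hu]; push_cast; ring
  have hu8 : 8 ≤ u := by rw [hu]; nlinarith
  have hu8r : (8 : ℝ) ≤ u := by exact_mod_cast hu8
  obtain ⟨y, hy0, hy8⟩ : ∃ y : ℝ, 0 ≤ y ∧ y ^ 8 = d :=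
    ⟨(d:ℝ)^(1/8:ℝ), by positivity, by
      rw [← Real.rpow_natCast, ← Real.rpow_mul (Nat.cast_nonneg d)]
      norm_num⟩
  have hyL := hd₁ d ((le_max_left _ _).trans hd) y hy0 hy8
  rw [← hL] at hyL
  obtain ⟨t, ht1, hut, hLt, hCt, hCL, hty⟩ := cb_num hε hAr hC hLr hur hyL
  have ht20 : 1 ≤ t ^ 20 := one_le_pow₀ ht1
  have hε2 : ε ^ 2 ≤ 1 := pow_le_one₀ hε.le hε1
  have hy9 : 10 ^ 9 ≤ y := by nlinarith
  have hy1 : 1 ≤ y := by linarith
  have hy2 : 2 ≤ y := by linarith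
  have hy10 : 10 ≤ y := by linarith
  have hypos : 0 < y := by linarith
  have hyd : y ≤ d := by
    rw [← hy8]
    exact le_self_pow₀ hy1 (by norm_num)
  have htt : t ≤ t ^ 20 := le_self_pow₀ ht1 (by norm_num)
  have huy : (u : ℝ) ≤ y := by nlinarith
  have hn' : (n : ℝ) ≤ d := by nlinarith
  have hny : (n : ℝ) ≤ y ^ 8 := by rw [hy8]; exact hn'
  have hexp := cb_exp4 hL hd32 hn' huy hyd
  have hd2L : (d : ℝ) ≤ 2 ^ (L + 1) := by
    have : d < 2 ^ (L + 1) := hL ▸ Nat.lt_pow_succ_log_self (by norm_num) d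
    exact_mod_cast this.le
  have hy2L : y ≤ 2 ^ (L + 1) := hyd.trans hd2L
  have hδu : 32 * (L : ℝ) ≤ δ * u := by
    rw [hur, ← mul_assoc]
    exact mul_le_mul_of_nonneg_right hAδ (Nat.cast_nonneg L)
  -- the set X
  obtain ⟨X, hXc, hX⟩ := hcx d n ε hε hε1 hn p hp0 hps
  have hN : ε * y ^ 8 ≤ X.card := by rw [hy8]; exact hXc
  rw [← hδ] at hX
  obtain ⟨f, hf, c1, c2, c3, c4, c5, c7, c8, c9⟩ := cb_choice hev X m p hm0 hm1 hp0 hps hw hδ0
    hδ1 hAδ2 hAδ hX hε hε1 hC hLr hu hu8 hy2 hy8.symm hny hN ht1 hut hCL hty hexp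
  obtain ⟨U, hU⟩ : ∃ U : Finset (Fin d), U = univ.image (fun a => (f a : Fin d)) := ⟨_, rfl⟩
  have hUcard : U.card = u := by
    rw [hU, cb_image_card hf, card_univ, Fintype.card_fin]
  obtain ⟨str, hstr⟩ : ∃ str : Fin n → Prop, ∀ i, str i ↔
    ((∃ a, 1 / (100 * (u : ℝ)) < m i (f a)) ∨
        ∃ a b, a ≠ b ∧ 1 / (100 * (u : ℝ) ^ 3) ≤ p i (f a) (f b)) := ⟨_, fun _ => Iff.rfl⟩
  obtain ⟨v, hv⟩ : ∃ v : ℝ, v = (2 + 2 * C * u ^ 2) / y := ⟨_, rfl⟩
  have hv0 : 0 ≤ v := by rw [hv]; positivity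
  obtain ⟨g, hg⟩ : ∃ g : Fin n → ℝ, ∀ i, g i =
    ∑ a, ∑ b ∈ univ.erase a, p i (f a) (f b) * Real.sqrt (m i (f a)) := ⟨_, fun _ => rfl⟩
  have hg0 : ∀ i, 0 ≤ g i := by
    intro i
    rw [hg]
    exact sum_nonneg fun a _ => sum_nonneg fun b _ => mul_nonneg (hp0 i _ _) (Real.sqrt_nonneg _)
  have hgU : ∀ i, ∑ k ∈ U, (∑ l ∈ U, p i k l) * Real.sqrt (m i k) = g i := by
    intro i
    rw [hU, cb_image_sum hf, hg]
    refine sum_congr rfl fun a _ => ?_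
    rw [cb_image_sum hf, ← sum_mul]
    congr 1
    rw [← add_sum_erase univ (fun b => p i (f a) (f b)) (mem_univ a), hpk, zero_add]
  refine ⟨U, fun i => (if str i then v else 0) + (2 * (1/2) ^ u + C * u * g i), hUcard, ?_, ?_⟩
  · rw [sum_add_distrib, sum_add_distrib, sum_const, card_univ, Fintype.card_fin,
      nsmul_eq_mul, ← mul_sum]
    have h1 : ∑ i, (if str i then v else 0) = ((univ.filter str).card : ℝ) * v := by
      rw [← sum_filter, sum_const, nsmul_eq_mul]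
    have h2 : (univ.filter str) = (univ.filter (fun i => (∃ a, 1 / (100 * (u : ℝ)) < m i (f a)) ∨
        ∃ a b, a ≠ b ∧ 1 / (100 * (u : ℝ) ^ 3) ≤ p i (f a) (f b))) := by
      ext i
      simp only [mem_filter, mem_univ, true_and]
      exact hstr i
    rw [← h2] at c8
    simp_rw [← hg] at c9
    obtain ⟨f1, f2⟩ := cb_final hε hε1 hC hLr hu8r hy1 hny hN ht1 hut hCL hCt hty c8 c9
    rw [h1, hv]
    have h3 : (n : ℝ) * (2 * (1/2) ^ u) ≤ 1/8 := by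
      have h4 : (1/2 : ℝ) ^ u ≤ (1/2) ^ (8 * L) :=
        pow_le_pow_of_le_one (by norm_num) (by norm_num) (by rw [hu]; nlinarith)
      have h5 : (1/2 : ℝ) ^ (8 * L) * (2 ^ (L + 1)) ≤ 1/16 := by
        have h6 : (1/2 : ℝ) ^ (8 * L) * (2 ^ (L + 1)) = 2 * (1/2) ^ (7 * L) := by
          rw [show 8 * L = 7 * L + L by ring, pow_add, pow_succ (2 : ℝ) L]
          have : (1/2 : ℝ) ^ L * 2 ^ L = 1 := by
            rw [← mul_pow]
            norm_num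
          linear_combination (2 * (1/2 : ℝ) ^ (7 * L)) * this
        rw [h6]
        have h7 : (1/2 : ℝ) ^ (7 * L) ≤ (1/2) ^ 7 :=
          pow_le_pow_of_le_one (by norm_num) (by norm_num) (by omega)
        norm_num at h7 ⊢
        linarith
      have h8 : (n : ℝ) * (1/2) ^ u ≤ (1/2 : ℝ) ^ (8 * L) * (2 ^ (L + 1)) := by
        rw [mul_comm]
        exact mul_le_mul h4 (hn'.trans hd2L) (by positivity) (by positivity)
      linarith
    linarith
  · intro i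
    by_cases hs : str i
    · right
      obtain ⟨G, hGU, hG, m₁, κ, h1, h2, h3, h4⟩ := cb_exc X (m i) (p i) (hpk i) f hf hC hy10 hy2L
        hL1 hu8 huy hδu (c1 i) (c2 i) (c3 i) (c4 i) (c5 i) (c7 i) ((hstr i).mp hs)
      rw [← hU] at hGU h3
      refine ⟨G, hGU, hG, m₁, κ, h1, h2, h3, ?_⟩
      beta_reduce
      rw [if_pos hs, hv]
      have : 0 ≤ 2 * (1/2 : ℝ) ^ u + C * u * g i := by
        have := hg0 i
        positivity
      linarith
    · left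
      have hs' := hs
      rw [hstr] at hs'
      push Not at hs'
      beta_reduce
      rw [hUcard, if_neg hs, hgU, zero_add]
      refine ⟨?_, ?_, le_rfl⟩
      · intro k hk
        rw [hU] at hk
        obtain ⟨a, -, rfl⟩ := mem_image.mp hk
        exact hs'.1 a
      · rw [hU, cb_image_sum hf]
        have h1 : ∀ a : Fin u, ∑ l ∈ univ.image (fun a => (f a : Fin d)), p i (f a) l ≤
            u * (1 / (100 * (u : ℝ) ^ 3)) := by
          intro a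
          rw [cb_image_sum hf]
          calc ∑ b, p i (f a) (f b) ≤ ∑ b : Fin u, 1 / (100 * (u : ℝ) ^ 3) := by
                refine sum_le_sum fun b _ => ?_
                by_cases hab : a = b
                · rw [← hab, hpk]
                  positivity
                · exact (hs'.2 a b hab).le
            _ = u * (1 / (100 * (u : ℝ) ^ 3)) := by
                rw [sum_const, card_univ, Fintype.card_fin, nsmul_eq_mul]
        calc ∑ a, ∑ l ∈ univ.image (fun a => (f a : Fin d)), p i (f a) l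
            ≤ ∑ a : Fin u, (u : ℝ) * (1 / (100 * (u : ℝ) ^ 3)) := sum_le_sum fun a _ => h1 a
          _ = u * (u * (1 / (100 * (u : ℝ) ^ 3))) := by
              rw [sum_const, card_univ, Fintype.card_fin, nsmul_eq_mul]
          _ = 1 / (100 * (u : ℝ)) := by
              field_simp

end Pool.Agent.NC
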