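import Pool.Agent.NewtonCov.Stmts

/-!
MP_a2070a_co, module CX: removal of dominating columns.
-/

set_option autoImplicit false

namespace Pool.Agent.NC

open Finset

/-- Admissible pairs. -/
def CxAdm {d n : ℕ} (ε : ℝ) (p : Fin n → Fin d → Fin d → ℝ)
    (q : Finset (Fin d) × Finset (Fin n)) : Prop :=
  q.1.card + q.2.card = d ∧ ∀ i ∈ q.2, ∃ l, l ∉ q.1 ∧
    (q.1.card : ℝ) - ε / 4 * d ≤ ((q.1.filter (fun k => 1/2 < p i k l)).card : ℝ)

lemma cx_disj {d n : ℕ} (p : Fin n → Fin d → Fin d → ℝ) (h0 : ∀ i k l, 0 ≤ p i k l)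
    (h1 : ∀ i k, ∑ l, p i k l ≤ 1) (X : Finset (Fin d)) (i : Fin n) (l l' : Fin d) (hll : l ≠ l') :
    (X.filter (fun k => 1/2 < p i k l)).card + (X.filter (fun k => 1/2 < p i k l')).card
      ≤ X.card := by
  rw [← card_union_of_disjoint]
  · exact card_le_card (union_subset (filter_subset _ _) (filter_subset _ _))
  · rw [Finset.disjoint_filter]
    intro k _ ha hb
    have h2 : p i k l + p i k l' ≤ ∑ j, p i k j := by
      have := Finset.sum_le_sum_of_subset_of_nonneg (f := p i k)
        (Finset.subset_univ ({l, l'} : Finset (Fin d))) (fun j _ _ => h0 i k j)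
      rwa [Finset.sum_pair hll] at this
    linarith [h1 i k]

lemma cx_erase {d n : ℕ} (p : Fin n → Fin d → Fin d → ℝ) (X : Finset (Fin d)) (i : Fin n)
    (l l' : Fin d) :
    ((X.filter (fun k => 1/2 < p i k l')).card : ℝ) - 1
      ≤ (((X.erase l).filter (fun k => 1/2 < p i k l')).card : ℝ) := by
  have h : (X.filter (fun k => 1/2 < p i k l')).card ≤
      ((X.erase l).filter (fun k => 1/2 < p i k l')).card + 1 := by
    rw [Finset.filter_erase]
    have := Finset.pred_card_le_card_erase (s := X.filter (fun k => 1/2 < p i k l')) (a := l)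
    omega
  have h2 : ((X.filter (fun k => 1/2 < p i k l')).card : ℝ) ≤
      (((X.erase l).filter (fun k => 1/2 < p i k l')).card : ℝ) + 1 := by exact_mod_cast h
  linarith

theorem cx : S_CX := by
  classical
  intro d n ε hε hε1 hn p h0 h1
  have hfin : (univ.filter (fun q : Finset (Fin d) × Finset (Fin n) => CxAdm ε p q)).Nonempty := by
    refine ⟨(univ, ∅), ?_⟩
    simp [CxAdm]
  obtain ⟨q, hq, hmin⟩ := Finset.exists_min_image _ (fun q => q.1.card) hfin
  rw [Finset.mem_filter] at hq
  obtain ⟨hqc, hqI⟩ := hq.2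
  have hI : (q.2.card : ℝ) ≤ n := by
    have : q.2.card ≤ n := by simpa using Finset.card_le_univ q.2
    exact_mod_cast this
  have hqc' : (q.1.card : ℝ) + q.2.card = d := by exact_mod_cast hqc
  have hXlow : ε * d ≤ q.1.card := by nlinarith
  have hXup : (q.1.card : ℝ) ≤ d := by
    have : (0 : ℝ) ≤ q.2.card := by positivity
    linarith
  refine ⟨q.1, hXlow, ?_⟩
  intro i l hl
  by_contra hcon
  push Not at hcon
  have hdpos : (0 : ℝ) < d := by
    have : 0 < d := Nat.pos_of_ne_zero (fun h => by subst h; exact l.elim0)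
    exact_mod_cast this
  have hiI : i ∉ q.2 := by
    intro hi
    obtain ⟨l', hl', hc⟩ := hqI i hi
    have hne : l ≠ l' := fun h => hl' (h ▸ hl)
    have hd : (((q.1.filter (fun k => 1/2 < p i k l)).card : ℝ)) +
        ((q.1.filter (fun k => 1/2 < p i k l')).card : ℝ) ≤ q.1.card := by
      exact_mod_cast cx_disj p h0 h1 q.1 i l l' hne
    nlinarith [mul_pos hε hdpos, mul_nonneg (by linarith : (0:ℝ) ≤ 1 - ε/4) (sub_nonneg.2 hXlow)]
  have hadm : CxAdm ε p (q.1.erase l, insert i q.2) := by
    refine ⟨?_, ?_⟩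
    · simp only
      rw [Finset.card_erase_of_mem hl, Finset.card_insert_of_notMem hiI]
      have : 0 < q.1.card := Finset.card_pos.2 ⟨l, hl⟩
      omega
    · intro i' hi'
      simp only at hi' ⊢
      have hce : (((q.1.erase l).card : ℕ) : ℝ) = q.1.card - 1 := by
        rw [Finset.card_erase_of_mem hl, Nat.cast_sub (Finset.card_pos.2 ⟨l, hl⟩)]
        simp
      rw [hce]
      rcases Finset.mem_insert.1 hi' with rfl | hi'
      · refine ⟨l, Finset.notMem_erase l q.1, ?_⟩
        have := cx_erase p q.1 i' l l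
        nlinarith
      · obtain ⟨l', hl', hc⟩ := hqI i' hi'
        refine ⟨l', fun h => hl' (Finset.mem_of_mem_erase h), ?_⟩
        have := cx_erase p q.1 i' l l'
        linarith
  have hm := hmin (q.1.erase l, insert i q.2) (by rw [Finset.mem_filter]; exact ⟨mem_univ _, hadm⟩)
  simp only at hm
  rw [Finset.card_erase_of_mem hl] at hm
  have : 0 < q.1.card := Finset.card_pos.2 ⟨l, hl⟩
  omega

end Pool.Agent.NC
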