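import Mathlib
import Pool.Agent.Lib_helper88.Newton.Defs

/-!
MP_a2070a_co: the Newton covering number of the cube is asymptotic to the dimension.
Definitions shared by the modules.
-/

set_option autoImplicit false

namespace Pool.Agent.NC

open MeasureTheory Finset

/-- Normalised matrix: an entry whose square exceeds `1/2` is on the diagonal and positive. -/
def Nrm {d : ℕ} (R : Matrix (Fin d) (Fin d) ℝ) : Prop :=
  ∀ j l, 1/2 < R j l ^ 2 → j = l ∧ 0 < R j j

/-- The unit cube with axes the rows of `R` and centre given by `c` in these coordinates. -/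
def UC {d : ℕ} (R : Matrix (Fin d) (Fin d) ℝ) (c : Fin d → ℝ) : Set (Fin d → ℝ) :=
  {x | ∀ j, |∑ l, R j l * x l - c j| ≤ 1/2}

/-- The part of the cube of side `1 + 2σ` centred at the origin where the coordinates with index
in `U` are within `σ/2` of their extreme values. -/
def AU {d : ℕ} (σ : ℝ) (U : Finset (Fin d)) : Set (Fin d → ℝ) :=
  {x | (∀ k, |x k| ≤ 1/2 + σ) ∧ ∀ k ∈ U, 1/2 + σ/2 ≤ |x k|}

/-- `om R k = 1 - R_kk ^ 2`, the off diagonal mass of row `k` of an orthogonal matrix. -/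
def om {d : ℕ} (R : Matrix (Fin d) (Fin d) ℝ) (k : Fin d) : ℝ := 1 - R k k ^ 2

/-- Off diagonal mass of row `k` inside `U`. -/
def qU {d : ℕ} (R : Matrix (Fin d) (Fin d) ℝ) (U : Finset (Fin d)) (k : Fin d) : ℝ :=
  ∑ l ∈ U.erase k, R k l ^ 2

/-- `w32 m = min(m, 1/2)^(3/2)`. -/
noncomputable def w32 (m : ℝ) : ℝ := min m (1/2) * Real.sqrt (min m (1/2))

/-- Squared distance of a point to a set. -/
noncomputable def dsq {n : ℕ} (x : Fin n → ℝ) (A : Set (Fin n → ℝ)) : ℝ :=
  sInf ((fun y : Fin n → ℝ => ∑ i, (x i - y i) ^ 2) '' A)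

end Pool.Agent.NC
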