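import Pool.Agent.NewtonCov.Stmts

/-!
# Module DEN of MP_a2070a_co: slab sections of the cube have bounded density

(a) a coordinate with large coefficient: linear change of variables.
(b) otherwise: Fejer type kernel and the Fourier transform of the cube.
-/

set_option autoImplicit false

namespace Pool.Agent.NC

open MeasureTheory Finset

namespace DenAux

/-- the box of side `s` as a product set -/
lemma box_eq {ι : Type} (s : ℝ) :
    {x : ι → ℝ | ∀ i, |x i| ≤ s / 2} = Set.pi Set.univ (fun _ => Set.Icc (-(s / 2)) (s / 2)) := by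
  ext x
  simp only [Set.mem_ofPred_eq, Set.mem_pi, Set.mem_univ, true_implies, Set.mem_Icc, abs_le]

lemma box_finite {ι : Type} [Fintype ι] (s : ℝ) :
    volume {x : ι → ℝ | ∀ i, |x i| ≤ s / 2} < ⊤ := by
  rw [box_eq, volume_pi_pi]
  refine ENNReal.prod_lt_top fun i _ => ?_
  rw [Real.volume_Icc]
  exact ENNReal.ofReal_lt_top

lemma slab_meas {ι : Type} [Fintype ι] (h : ι → ℝ) (a lam s : ℝ) :
    MeasurableSet {x : ι → ℝ | (∀ i, |x i| ≤ s / 2) ∧ |∑ i, h i * x i - a| ≤ lam} := by
  have h1 : MeasurableSet {x : ι → ℝ | ∀ i, |x i| ≤ s / 2} := by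
    rw [box_eq]
    exact MeasurableSet.univ_pi fun _ => measurableSet_Icc
  have h2 : MeasurableSet {x : ι → ℝ | |∑ i, h i * x i - a| ≤ lam} :=
    measurableSet_le (by fun_prop) measurable_const
  exact h1.inter h2

/-- a slab section when one coefficient is not zero -/
lemma slab_big {ι : Type} [Fintype ι] (h : ι → ℝ) (a lam s : ℝ) (hl : 0 ≤ lam) (hs : 1 ≤ s)
    (i : ι) (hi : h i ≠ 0) :
    volume.real {x : ι → ℝ | (∀ i, |x i| ≤ s / 2) ∧ |∑ i, h i * x i - a| ≤ lam} * |h i| ≤
      2 * lam * s ^ (Fintype.card ι) := by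
  classical
  set M : Matrix ι ι ℝ := (1 : Matrix ι ι ℝ).updateRow i h with hM
  have hdet : M.det = h i := by
    rw [hM, ← Matrix.cramer_transpose_apply, Matrix.transpose_one, Matrix.cramer_one]
    rfl
  have hdet' : LinearMap.det (Matrix.toLin' M) = h i := by rw [LinearMap.det_toLin', hdet]
  set B : Set (ι → ℝ) := Set.pi Set.univ
    (fun j => if j = i then Set.Icc (a - lam) (a + lam) else Set.Icc (-(s / 2)) (s / 2)) with hB
  have hBv : volume B ≤ ENNReal.ofReal (2 * lam * s ^ (Fintype.card ι)) := by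
    rw [hB, volume_pi_pi, ← Finset.mul_prod_erase univ _ (mem_univ i)]
    rw [if_pos rfl, Real.volume_Icc, show a + lam - (a - lam) = 2 * lam by ring,
      ENNReal.ofReal_mul (p := 2 * lam) (by positivity)]
    refine mul_le_mul_right ?_ _
    calc ∏ x ∈ univ.erase i, volume (if x = i then Set.Icc (a - lam) (a + lam)
          else Set.Icc (-(s / 2)) (s / 2)) = ∏ x ∈ univ.erase i, ENNReal.ofReal s := by
          refine Finset.prod_congr rfl fun j hj => ?_
          rw [if_neg (Finset.ne_of_mem_erase hj), Real.volume_Icc]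
          congr 1
          ring
      _ = ENNReal.ofReal (s ^ (Fintype.card ι - 1)) := by
          rw [Finset.prod_const, Finset.card_erase_of_mem (mem_univ i), Finset.card_univ,
            ENNReal.ofReal_pow (by linarith)]
      _ ≤ ENNReal.ofReal (s ^ Fintype.card ι) :=
          ENNReal.ofReal_le_ofReal (pow_le_pow_right₀ hs (Nat.sub_le _ _))
  have hsub : {x : ι → ℝ | (∀ i, |x i| ≤ s / 2) ∧ |∑ i, h i * x i - a| ≤ lam} ⊆
      (Matrix.toLin' M) ⁻¹' B := by
    rintro x ⟨hx1, hx2⟩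
    rw [Set.mem_preimage, hB, Set.mem_pi]
    intro j _
    rw [Matrix.toLin'_apply]
    by_cases hj : j = i
    · subst hj
      rw [if_pos rfl, hM, Matrix.mulVec, Matrix.updateRow_self]
      have : h ⬝ᵥ x = ∑ i, h i * x i := rfl
      rw [this]
      rw [abs_le] at hx2
      exact ⟨by linarith [hx2.1], by linarith [hx2.2]⟩
    · rw [if_neg hj, hM, Matrix.mulVec, Matrix.updateRow_ne hj]
      have : (fun l => (1 : Matrix ι ι ℝ) j l) ⬝ᵥ x = x j := by
        simp [dotProduct, Matrix.one_apply]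
      have h2 : (1 : Matrix ι ι ℝ) j ⬝ᵥ x = x j := this
      rw [h2]
      exact abs_le.1 (hx1 j)
  have h1 : volume {x : ι → ℝ | (∀ i, |x i| ≤ s / 2) ∧ |∑ i, h i * x i - a| ≤ lam} ≤
      ENNReal.ofReal (|(h i)⁻¹| * (2 * lam * s ^ (Fintype.card ι))) := by
    refine (measure_mono hsub).trans ?_
    rw [Measure.addHaar_preimage_linearMap volume (by rw [hdet']; exact hi), hdet',
      ENNReal.ofReal_mul (abs_nonneg _)]
    gcongr
  have hpos : 0 ≤ |(h i)⁻¹| * (2 * lam * s ^ (Fintype.card ι)) := by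
    have : 0 ≤ s := by linarith
    positivity
  have h2 := ENNReal.toReal_mono ENNReal.ofReal_ne_top h1
  rw [ENNReal.toReal_ofReal hpos] at h2
  have h3 : 0 < |h i| := abs_pos.2 hi
  calc volume.real {x : ι → ℝ | (∀ i, |x i| ≤ s / 2) ∧ |∑ i, h i * x i - a| ≤ lam} * |h i|
      ≤ |(h i)⁻¹| * (2 * lam * s ^ (Fintype.card ι)) * |h i| :=
        mul_le_mul_of_nonneg_right h2 h3.le
    _ = 2 * lam * s ^ (Fintype.card ι) := by
        rw [abs_inv]
        field_simp

/-- sinc bound from Jordan's inequality -/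
lemma sinc_bd (y : ℝ) : Real.sin y ^ 2 * (1 + y ^ 2 / 10) ≤ y ^ 2 := by
  have hpi := Real.pi_lt_d2
  have hpi3 := Real.pi_gt_three
  have hpi2 : Real.pi ^ 2 ≤ 10 := by nlinarith
  have key : ∀ z : ℝ, 0 ≤ z → Real.sin z ^ 2 * (1 + z ^ 2 / 10) ≤ z ^ 2 := by
    intro z hz
    by_cases hzp : z ≤ Real.pi
    · have h1 : Real.sin z = 2 * Real.sin (z / 2) * Real.cos (z / 2) := by
        rw [← Real.sin_two_mul]
        congr 1
        ring
      have h2 := Real.mul_le_sin (x := z / 2) (by linarith) (by linarith)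
      have h3 : z / Real.pi ≤ Real.sin (z / 2) := by
        calc z / Real.pi = 2 / Real.pi * (z / 2) := by ring
          _ ≤ _ := h2
      have h4 : Real.sin (z / 2) ≤ z / 2 := Real.sin_le (by linarith)
      have h5 : 0 ≤ z / Real.pi := by positivity
      have h6 : z ^ 2 / 10 ≤ Real.sin (z / 2) ^ 2 := by
        calc z ^ 2 / 10 ≤ z ^ 2 / Real.pi ^ 2 := by gcongr
          _ = (z / Real.pi) ^ 2 := by rw [div_pow]
          _ ≤ _ := pow_le_pow_left₀ h5 h3 2
      have h7 : Real.sin (z / 2) ^ 2 ≤ z ^ 2 / 4 := by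
        have : Real.sin (z / 2) ^ 2 ≤ (z / 2) ^ 2 := pow_le_pow_left₀ (h5.trans h3) h4 2
        nlinarith
      have h8 : Real.sin z ^ 2 ≤ z ^ 2 * (1 - z ^ 2 / 10) := by
        have h9 : Real.cos (z / 2) ^ 2 = 1 - Real.sin (z / 2) ^ 2 := by
          have := Real.sin_sq_add_cos_sq (z / 2)
          linarith
        calc Real.sin z ^ 2 = 4 * Real.sin (z / 2) ^ 2 * Real.cos (z / 2) ^ 2 := by
              rw [h1]
              ring
          _ ≤ z ^ 2 * Real.cos (z / 2) ^ 2 := by
              refine mul_le_mul_of_nonneg_right (by linarith) (sq_nonneg _)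
          _ ≤ z ^ 2 * (1 - z ^ 2 / 10) := by
              rw [h9]
              exact mul_le_mul_of_nonneg_left (by linarith) (sq_nonneg _)
      have h10 : 0 ≤ 1 + z ^ 2 / 10 := by positivity
      calc Real.sin z ^ 2 * (1 + z ^ 2 / 10) ≤ z ^ 2 * (1 - z ^ 2 / 10) * (1 + z ^ 2 / 10) :=
            mul_le_mul_of_nonneg_right h8 h10
        _ = z ^ 2 - z ^ 6 / 100 := by ring
        _ ≤ z ^ 2 := by
            have : 0 ≤ z ^ 6 := by positivity
            linarith
    · push Not at hzp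
      have h1 : Real.sin z ^ 2 ≤ 1 := Real.sin_sq_le_one z
      have h2 : 9 ≤ z ^ 2 := by nlinarith
      calc Real.sin z ^ 2 * (1 + z ^ 2 / 10) ≤ 1 * (1 + z ^ 2 / 10) :=
            mul_le_mul_of_nonneg_right h1 (by positivity)
        _ ≤ z ^ 2 := by linarith
  have h := key |y| (abs_nonneg y)
  rw [sq_abs] at h
  rcases abs_choice y with h1 | h1
  · rwa [h1] at h
  · rwa [h1, Real.sin_neg, neg_sq] at h

/-- one dimensional Fourier integral -/
lemma int1 (u s : ℝ) (hs : 1 ≤ s) :
    ‖∫ x in Set.Icc (-(s / 2)) (s / 2), Complex.exp (Complex.I * u * x)‖ ^ 2 *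
      (1 + u ^ 2 / 40) ≤ s ^ 2 := by
  rw [integral_Icc_eq_integral_Ioc, ← intervalIntegral.integral_of_le (by linarith)]
  by_cases hu : u = 0
  · subst hu
    simp
  · have hc : Complex.I * (u : ℂ) ≠ 0 := mul_ne_zero Complex.I_ne_zero (by exact_mod_cast hu)
    rw [integral_exp_mul_complex hc]
    have h1 : Complex.exp (Complex.I * u * ((s / 2 : ℝ) : ℂ)) -
        Complex.exp (Complex.I * u * ((-(s / 2) : ℝ) : ℂ)) =
        2 * Complex.I * Complex.sin ((u * s / 2 : ℝ) : ℂ) := by
      rw [Complex.sin]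
      have e1 : Complex.I * u * ((s / 2 : ℝ) : ℂ) = ((u * s / 2 : ℝ) : ℂ) * Complex.I := by
        push_cast
        ring
      have e2 : Complex.I * u * ((-(s / 2) : ℝ) : ℂ) = -((u * s / 2 : ℝ) : ℂ) * Complex.I := by
        push_cast
        ring
      rw [e1, e2]
      have hI : Complex.I * Complex.I = -1 := Complex.I_mul_I
      linear_combination (-(Complex.exp (-((u * s / 2 : ℝ) : ℂ) * Complex.I) -
        Complex.exp (((u * s / 2 : ℝ) : ℂ) * Complex.I))) * hI
    rw [h1]
    have h2 : ‖2 * Complex.I * Complex.sin ((u * s / 2 : ℝ) : ℂ) / (Complex.I * u)‖ ^ 2 =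
        4 * Real.sin (u * s / 2) ^ 2 / u ^ 2 := by
      rw [norm_div, norm_mul, norm_mul, norm_mul, ← Complex.ofReal_sin, Complex.norm_real,
        Complex.norm_real, Complex.norm_I, div_pow, mul_pow, Real.norm_eq_abs, Real.norm_eq_abs,
        one_mul, sq_abs, sq_abs]
      norm_num
    rw [h2]
    have h3 := sinc_bd (u * s / 2)
    have hu2 : 0 < u ^ 2 := by positivity
    have h4 : 1 + u ^ 2 / 40 ≤ 1 + (u * s / 2) ^ 2 / 10 := by
      have : u ^ 2 * 1 ≤ u ^ 2 * s ^ 2 := by
        gcongr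
        nlinarith
      nlinarith
    rw [div_mul_eq_mul_div, div_le_iff₀ hu2]
    calc 4 * Real.sin (u * s / 2) ^ 2 * (1 + u ^ 2 / 40)
        ≤ 4 * Real.sin (u * s / 2) ^ 2 * (1 + (u * s / 2) ^ 2 / 10) := by gcongr
      _ = 4 * (Real.sin (u * s / 2) ^ 2 * (1 + (u * s / 2) ^ 2 / 10)) := by ring
      _ ≤ 4 * (u * s / 2) ^ 2 := by gcongr
      _ = s ^ 2 * u ^ 2 := by ring

/-- Bernoulli -/
lemma prod_low {ι : Type} [Fintype ι] (p : ι → ℝ) (hp : ∀ i, 0 ≤ p i) (hp2 : ∀ i, p i ≤ 1 / 2)
    (hsum : ∑ i, p i = 1) (X : ℝ) (hX : 0 ≤ X) : (1 + X / 2) ^ 2 ≤ ∏ i, (1 + p i * X) := by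
  have h1 : ∀ i, (1 + X / 2) ^ (2 * p i) ≤ 1 + p i * X := by
    intro i
    have := rpow_one_add_le_one_add_mul_self (s := X / 2) (by linarith) (p := 2 * p i)
      (by linarith [hp i]) (by linarith [hp2 i])
    calc (1 + X / 2) ^ (2 * p i) ≤ 1 + 2 * p i * (X / 2) := this
      _ = 1 + p i * X := by ring
  calc (1 + X / 2) ^ 2 = (1 + X / 2) ^ (∑ i, 2 * p i) := by
        rw [← Finset.mul_sum, hsum, mul_one]
        norm_cast
    _ = ∏ i, (1 + X / 2) ^ (2 * p i) :=
        Real.rpow_sum_of_pos (by positivity) _ _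
    _ ≤ ∏ i, (1 + p i * X) :=
        Finset.prod_le_prod (fun i _ => by positivity) (fun i _ => h1 i)

/-- Fourier transform of the cube -/
lemma phi_bd {ι : Type} [Fintype ι] (h : ι → ℝ) (s τ : ℝ) (hs : 1 ≤ s) (hP : 0 < ∑ i, h i ^ 2)
    (hh : ∀ i, h i ^ 2 ≤ (∑ i, h i ^ 2) / 2) :
    ‖∫ x in {x : ι → ℝ | ∀ i, |x i| ≤ s / 2},
      Complex.exp (Complex.I * ((τ * ∑ i, h i * x i : ℝ) : ℂ))‖ *
      (1 + τ ^ 2 * (∑ i, h i ^ 2) / 80) ≤ s ^ Fintype.card ι := by
  set P : ℝ := ∑ i, h i ^ 2 with hPdef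
  have h1 : ∫ x in {x : ι → ℝ | ∀ i, |x i| ≤ s / 2},
      Complex.exp (Complex.I * ((τ * ∑ i, h i * x i : ℝ) : ℂ)) =
      ∏ i, ∫ x in Set.Icc (-(s / 2)) (s / 2),
        Complex.exp (Complex.I * ((τ * h i : ℝ) : ℂ) * (x : ℂ)) := by
    rw [box_eq, volume_pi, Measure.restrict_pi_pi]
    rw [← integral_fintype_prod_eq_prod
      (f := fun i (x : ℝ) => Complex.exp (Complex.I * ((τ * h i : ℝ) : ℂ) * (x : ℂ)))]
    congr 1
    funext x
    rw [← Complex.exp_sum]
    congr 1
    push_cast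
    rw [Finset.mul_sum, Finset.mul_sum]
    exact Finset.sum_congr rfl fun i _ => by ring
  rw [h1, norm_prod]
  have hX : 0 ≤ τ ^ 2 * P / 40 := by positivity
  have h2 := prod_low (fun i => h i ^ 2 / P) (fun i => by positivity)
    (fun i => by
      rw [div_le_iff₀ hP]
      linarith [hh i])
    (by rw [← Finset.sum_div, div_self hP.ne']) (τ ^ 2 * P / 40) hX
  have h3 : ∏ i, (1 + h i ^ 2 / P * (τ ^ 2 * P / 40)) = ∏ i, (1 + (τ * h i) ^ 2 / 40) := by
    refine Finset.prod_congr rfl fun i _ => ?_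
    field_simp
  rw [h3] at h2
  have h4 : (∏ i, ‖∫ x in Set.Icc (-(s / 2)) (s / 2),
      Complex.exp (Complex.I * ((τ * h i : ℝ) : ℂ) * (x : ℂ))‖) ^ 2 *
      ∏ i, (1 + (τ * h i) ^ 2 / 40) ≤ (s ^ Fintype.card ι) ^ 2 := by
    rw [← Finset.prod_pow, ← Finset.prod_mul_distrib, ← pow_mul, mul_comm (Fintype.card ι) 2,
      pow_mul, ← Finset.card_univ, ← Finset.prod_const]
    exact Finset.prod_le_prod (fun i _ => by positivity) (fun i _ => int1 (τ * h i) s hs)
  set N : ℝ := ∏ i, ‖∫ x in Set.Icc (-(s / 2)) (s / 2),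
      Complex.exp (Complex.I * ((τ * h i : ℝ) : ℂ) * (x : ℂ))‖ with hN
  have hN0 : 0 ≤ N := Finset.prod_nonneg fun i _ => norm_nonneg _
  refine le_of_abs_le (abs_le_of_sq_le_sq ?_ (by positivity))
  calc (N * (1 + τ ^ 2 * P / 80)) ^ 2 = N ^ 2 * (1 + τ ^ 2 * P / 40 / 2) ^ 2 := by ring
    _ ≤ N ^ 2 * ∏ i, (1 + (τ * h i) ^ 2 / 40) := by gcongr
    _ ≤ _ := h4

/-- the kernel -/
noncomputable def K (y : ℝ) : ℝ := ∫ t in Set.Ioc (0 : ℝ) 1, (1 - t) * Real.cos (t * y)

lemma K_nonneg (y : ℝ) : 0 ≤ K y := by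
  unfold K
  rw [← intervalIntegral.integral_of_le zero_le_one]
  by_cases hy : y = 0
  · subst hy
    refine intervalIntegral.integral_nonneg zero_le_one fun t ht => ?_
    rw [mul_zero, Real.cos_zero, mul_one]
    linarith [ht.2]
  · have hd : ∀ t : ℝ, HasDerivAt
        (fun t : ℝ => (1 - t) * (Real.sin (t * y) / y) - Real.cos (t * y) / y ^ 2)
        ((1 - t) * Real.cos (t * y)) t := by
      intro t
      have e1 : HasDerivAt (fun t : ℝ => t * y) y t := by
        simpa using (hasDerivAt_id t).mul_const y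
      have e2 : HasDerivAt (fun t : ℝ => Real.sin (t * y) / y) (Real.cos (t * y) * y / y) t :=
        (e1.sin).div_const y
      have e3 : HasDerivAt (fun t : ℝ => 1 - t) (-1) t := by
        simpa using (hasDerivAt_id t).const_sub 1
      have e4 : HasDerivAt (fun t : ℝ => Real.cos (t * y) / y ^ 2)
          (-Real.sin (t * y) * y / y ^ 2) t := (e1.cos).div_const _
      refine ((e3.mul e2).sub e4).congr_deriv ?_
      field_simp
      ring
    rw [intervalIntegral.integral_eq_sub_of_hasDerivAt (fun t _ => hd t)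
      (Continuous.intervalIntegrable (by fun_prop) _ _)]
    have h1 := Real.cos_le_one y
    have h2 : 0 < y ^ 2 := by positivity
    simp only [sub_self, zero_mul, one_mul, sub_zero, Real.sin_zero, Real.cos_zero, zero_div]
    rw [show 0 - Real.cos y / y ^ 2 - (0 - 1 / y ^ 2) = (1 - Real.cos y) / y ^ 2 by ring]
    exact div_nonneg (by linarith) h2.le

lemma K_low {y : ℝ} (hy : |y| ≤ 1) : 1 / 4 ≤ K y := by
  unfold K
  rw [← intervalIntegral.integral_of_le zero_le_one]
  have h1 : ∫ t in (0 : ℝ)..1, (1 - t) * (1 / 2) = 1 / 4 := by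
    rw [intervalIntegral.integral_mul_const, intervalIntegral.integral_sub (by simp) (by simp)]
    simp
    norm_num
  rw [← h1]
  refine intervalIntegral.integral_mono_on zero_le_one
    (Continuous.intervalIntegrable (by fun_prop) _ _)
    (Continuous.intervalIntegrable (by fun_prop) _ _) fun t ht => ?_
  refine mul_le_mul_of_nonneg_left ?_ (by linarith [ht.2])
  have h2 := Real.one_sub_sq_div_two_le_cos (x := t * y)
  have h3 : (t * y) ^ 2 ≤ 1 := by
    rw [mul_pow]
    have h4 : t ^ 2 ≤ 1 := by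
      rw [sq_le_one_iff_abs_le_one, abs_of_nonneg ht.1]
      exact ht.2
    have h5 : y ^ 2 ≤ 1 := (sq_le_one_iff_abs_le_one y).2 hy
    exact mul_le_one₀ h4 (sq_nonneg _) h5
  linarith

/-- a slab section when no coefficient is large -/
lemma slab_small {ι : Type} [Fintype ι] (h : ι → ℝ) (a lam s : ℝ) (hl : 0 < lam) (hs : 1 ≤ s)
    (hP : 0 < ∑ i, h i ^ 2) (hh : ∀ i, h i ^ 2 ≤ (∑ i, h i ^ 2) / 2) :
    volume.real {x : ι → ℝ | (∀ i, |x i| ≤ s / 2) ∧ |∑ i, h i * x i - a| ≤ lam} *
      Real.sqrt (∑ i, h i ^ 2) ≤ 60 * lam * s ^ (Fintype.card ι) := by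
  set P : ℝ := ∑ i, h i ^ 2 with hPdef
  set Q : Set (ι → ℝ) := {x : ι → ℝ | ∀ i, |x i| ≤ s / 2} with hQ
  have hQm : MeasurableSet Q := by
    rw [hQ, box_eq]
    exact MeasurableSet.univ_pi fun _ => measurableSet_Icc
  have : IsFiniteMeasure (volume.restrict Q) := ⟨by
    rw [Measure.restrict_apply MeasurableSet.univ, Set.univ_inter]
    exact box_finite s⟩
  set Y : (ι → ℝ) → ℝ := fun x => (∑ i, h i * x i - a) / lam with hY
  have hYc : Continuous Y := by
    rw [hY]
    fun_prop
  set S : Set (ι → ℝ) := {x : ι → ℝ | (∀ i, |x i| ≤ s / 2) ∧ |∑ i, h i * x i - a| ≤ lam} with hS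
  have hSm : MeasurableSet S := slab_meas h a lam s
  have hSQ : S ⊆ Q := fun x hx => hx.1
  have hSY : ∀ x ∈ S, |Y x| ≤ 1 := by
    intro x hx
    rw [hY]
    simp only
    rw [abs_div, abs_of_pos hl, div_le_one hl]
    exact hx.2
  have hF : Integrable (Function.uncurry fun (x : ι → ℝ) (t : ℝ) => (1 - t) * Real.cos (t * Y x))
      ((volume.restrict Q).prod (volume.restrict (Set.Ioc (0 : ℝ) 1))) := by
    refine Integrable.of_bound (C := 1) ?_ ?_
    · refine Continuous.aestronglyMeasurable ?_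
      unfold Function.uncurry
      fun_prop
    · have h1 : ∀ᵐ z : (ι → ℝ) × ℝ ∂((volume.restrict Q).prod (volume.restrict (Set.Ioc (0 : ℝ) 1))),
          z.2 ∈ Set.Ioc (0 : ℝ) 1 :=
        Measure.quasiMeasurePreserving_snd.ae (ae_restrict_mem measurableSet_Ioc)
      filter_upwards [h1] with z hz
      unfold Function.uncurry
      rw [norm_mul, Real.norm_eq_abs, Real.norm_eq_abs, abs_of_nonneg (by linarith [hz.2])]
      exact mul_le_one₀ (by linarith [hz.1]) (abs_nonneg _) (Real.abs_cos_le_one _)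
  have hKint : Integrable (fun x => K (Y x)) (volume.restrict Q) := hF.integral_prod_left
  have h1 : volume.real S * (1 / 4) ≤ ∫ x in Q, K (Y x) := by
    have e1 : volume.real S * (1 / 4) = ∫ x in Q, S.indicator (fun _ => (1 / 4 : ℝ)) x := by
      rw [integral_indicator hSm, Measure.restrict_restrict hSm, Set.inter_eq_left.2 hSQ,
        setIntegral_const, smul_eq_mul]
    rw [e1]
    refine integral_mono_of_nonneg (Filter.Eventually.of_forall fun x => ?_) hKint
      (Filter.Eventually.of_forall fun x => ?_)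
    · exact Set.indicator_nonneg (fun _ _ => by norm_num) x
    · by_cases hx : x ∈ S
      · rw [Set.indicator_of_mem hx]
        exact K_low (hSY x hx)
      · rw [Set.indicator_of_notMem hx]
        exact K_nonneg _
  have h2 : ∫ x in Q, K (Y x) =
      ∫ t in Set.Ioc (0 : ℝ) 1, ∫ x in Q, (1 - t) * Real.cos (t * Y x) :=
    integral_integral_swap hF
  set c : ℝ := Real.sqrt P / Real.sqrt 80 / lam with hc
  have hsP : 0 < Real.sqrt P := Real.sqrt_pos.2 hP
  have hs80 : 0 < Real.sqrt 80 := Real.sqrt_pos.2 (by norm_num)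
  have hcp : 0 < c := by positivity
  have hc2 : ∀ t : ℝ, (t / lam) ^ 2 * P / 80 = (c * t) ^ 2 := by
    intro t
    have e1 : Real.sqrt P ^ 2 = P := Real.sq_sqrt hP.le
    have e2 : Real.sqrt 80 ^ 2 = 80 := Real.sq_sqrt (by norm_num)
    rw [hc]
    calc (t / lam) ^ 2 * P / 80 = (t / lam) ^ 2 * Real.sqrt P ^ 2 / Real.sqrt 80 ^ 2 := by
          rw [e1, e2]
      _ = _ := by ring
  have hsk : 0 < s ^ Fintype.card ι := by
    have : 0 < s := by linarith
    positivity
  have h3 : ∀ t ∈ Set.Ioc (0 : ℝ) 1, ∫ x in Q, (1 - t) * Real.cos (t * Y x) ≤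
      s ^ Fintype.card ι * (1 / (1 + (c * t) ^ 2)) := by
    intro t ht
    have e1 := phi_bd h s (t / lam) hs hP hh
    rw [hc2 t] at e1
    set φ : ℂ := ∫ x in Q, Complex.exp (Complex.I * (((t / lam) * ∑ i, h i * x i : ℝ) : ℂ)) with hφ
    have e2 : ‖φ‖ ≤ s ^ Fintype.card ι * (1 / (1 + (c * t) ^ 2)) := by
      rw [mul_one_div, le_div_iff₀ (by positivity)]
      exact e1
    have e3 : ∫ x in Q, Real.cos (t * Y x) =
        (Complex.exp (Complex.I * ((-(t * a / lam) : ℝ) : ℂ)) * φ).re := by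
      rw [hφ, ← integral_const_mul, ← RCLike.re_eq_complex_re, ← integral_re]
      · congr 1
        funext x
        rw [← Complex.exp_add, RCLike.re_eq_complex_re, ← mul_add, ← Complex.ofReal_add,
          mul_comm Complex.I, Complex.exp_ofReal_mul_I_re]
        congr 1
        rw [hY]
        ring
      · refine Integrable.of_bound (C := 1) (Continuous.aestronglyMeasurable (by fun_prop))
          (Filter.Eventually.of_forall fun x => ?_)
        rw [norm_mul, mul_comm Complex.I, mul_comm Complex.I, Complex.norm_exp_ofReal_mul_I,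
          Complex.norm_exp_ofReal_mul_I, one_mul]
    have e4 : |∫ x in Q, Real.cos (t * Y x)| ≤ ‖φ‖ := by
      rw [e3]
      refine (Complex.abs_re_le_norm _).trans ?_
      rw [norm_mul, mul_comm Complex.I, Complex.norm_exp_ofReal_mul_I, one_mul]
    rw [integral_const_mul]
    calc (1 - t) * ∫ x in Q, Real.cos (t * Y x) ≤ (1 - t) * |∫ x in Q, Real.cos (t * Y x)| :=
          mul_le_mul_of_nonneg_left (le_abs_self _) (by linarith [ht.2])
      _ ≤ 1 * ‖φ‖ := mul_le_mul (by linarith [ht.1]) e4 (abs_nonneg _) zero_le_one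
      _ ≤ _ := by
          rw [one_mul]
          exact e2
  have h4 : ∫ t in Set.Ioc (0 : ℝ) 1, s ^ Fintype.card ι * (1 / (1 + (c * t) ^ 2)) =
      s ^ Fintype.card ι * (Real.arctan c / c) := by
    rw [integral_const_mul, ← intervalIntegral.integral_of_le zero_le_one]
    congr 1
    have hd : ∀ t : ℝ, HasDerivAt (fun t : ℝ => Real.arctan (c * t) / c)
        (1 / (1 + (c * t) ^ 2)) t := by
      intro t
      have e1 : HasDerivAt (fun t : ℝ => c * t) c t := by
        simpa using (hasDerivAt_id t).const_mul c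
      refine ((e1.arctan).div_const c).congr_deriv ?_
      field_simp
    rw [intervalIntegral.integral_eq_sub_of_hasDerivAt (fun t _ => hd t)]
    · simp
    · refine Continuous.intervalIntegrable ?_ _ _
      refine continuous_const.div (by fun_prop) fun t => ?_
      positivity
  have h5 : ∫ t in Set.Ioc (0 : ℝ) 1, ∫ x in Q, (1 - t) * Real.cos (t * Y x) ≤
      s ^ Fintype.card ι * (Real.arctan c / c) := by
    rw [← h4]
    refine setIntegral_mono_on ?_ ?_ measurableSet_Ioc h3
    · exact hF.integral_prod_right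
    · refine (Continuous.integrableOn_Icc ?_).mono_set Set.Ioc_subset_Icc_self
      refine continuous_const.mul (continuous_const.div (by fun_prop) fun t => ?_)
      positivity
  have h6 : Real.arctan c ≤ 1.58 := by
    have := Real.arctan_lt_pi_div_two c
    have := Real.pi_lt_d2
    linarith
  have h7 : volume.real S * (1 / 4) ≤ s ^ Fintype.card ι * (1.58 / c) := by
    rw [h2] at h1
    refine h1.trans (h5.trans ?_)
    gcongr
  have h8 : (1.58 : ℝ) / c = 1.58 * lam * Real.sqrt 80 / Real.sqrt P := by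
    rw [hc]
    field_simp
  have h9 : Real.sqrt 80 ≤ 9 := by
    rw [show (9 : ℝ) = Real.sqrt (9 ^ 2) by rw [Real.sqrt_sq (by norm_num)]]
    exact Real.sqrt_le_sqrt (by norm_num)
  rw [h8] at h7
  calc volume.real S * Real.sqrt P = 4 * (volume.real S * (1 / 4) * Real.sqrt P) := by ring
    _ ≤ 4 * (s ^ Fintype.card ι * (1.58 * lam * Real.sqrt 80 / Real.sqrt P) * Real.sqrt P) := by
        gcongr
    _ = 6.32 * Real.sqrt 80 * (lam * s ^ Fintype.card ι) := by
        field_simp
        ring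
    _ ≤ 6.32 * 9 * (lam * s ^ Fintype.card ι) := by gcongr
    _ ≤ 60 * lam * s ^ Fintype.card ι := by
        have : 0 ≤ lam * s ^ Fintype.card ι := by positivity
        nlinarith

end DenAux

open DenAux in
/-- slabs of thickness 2 lam in the cube of side s -/
theorem den : S_DEN := by
  refine ⟨60, by norm_num, ?_⟩
  intro ι _ h a lam s hl hs
  have hs0 : 0 < s := by linarith
  set P : ℝ := ∑ i, h i ^ 2 with hP
  have hP0 : 0 ≤ P := Finset.sum_nonneg fun i _ => sq_nonneg _
  rcases hP0.eq_or_lt with hP1 | hP1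
  · rw [← hP1, Real.sqrt_zero, mul_zero]
    positivity
  by_cases hh : ∀ i, h i ^ 2 ≤ P / 2
  · -- positive thickness, then a limit
    have key : ∀ e : ℝ, 0 < e →
        volume.real {x : ι → ℝ | (∀ i, |x i| ≤ s / 2) ∧ |∑ i, h i * x i - a| ≤ lam} *
          Real.sqrt P ≤ 60 * lam * s ^ (Fintype.card ι) + e := by
      intro e he
      have hsk : 0 < s ^ Fintype.card ι := by positivity
      set e' : ℝ := e / (60 * s ^ Fintype.card ι) with he'
      have he'p : 0 < e' := by positivity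
      have h1 := slab_small h a (lam + e') s (by linarith) hs hP1 hh
      have h2 : volume.real {x : ι → ℝ | (∀ i, |x i| ≤ s / 2) ∧ |∑ i, h i * x i - a| ≤ lam} ≤
          volume.real {x : ι → ℝ | (∀ i, |x i| ≤ s / 2) ∧
            |∑ i, h i * x i - a| ≤ lam + e'} := by
        refine measureReal_mono (fun x hx => ⟨hx.1, hx.2.trans (by linarith)⟩) ?_
        exact ((measure_mono (fun x hx => hx.1)).trans_lt (box_finite (ι := ι) s)).ne
      calc _ ≤ volume.real {x : ι → ℝ | (∀ i, |x i| ≤ s / 2) ∧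
            |∑ i, h i * x i - a| ≤ lam + e'} * Real.sqrt P := by gcongr
        _ ≤ 60 * (lam + e') * s ^ (Fintype.card ι) := h1
        _ = 60 * lam * s ^ (Fintype.card ι) + e := by
            rw [he']
            field_simp
    exact le_of_forall_pos_le_add key
  · push Not at hh
    obtain ⟨i, hi⟩ := hh
    have hi0 : h i ≠ 0 := by
      intro h0
      rw [h0] at hi
      norm_num at hi
      linarith
    have h1 := slab_big h a lam s hl hs i hi0
    have h2 : Real.sqrt P ≤ 2 * |h i| := by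
      rw [Real.sqrt_le_left (by positivity), mul_pow, sq_abs]
      linarith
    set V := volume.real {x : ι → ℝ | (∀ i, |x i| ≤ s / 2) ∧ |∑ i, h i * x i - a| ≤ lam} with hV
    have hV0 : 0 ≤ V := measureReal_nonneg
    have hsk : 0 < s ^ Fintype.card ι := by positivity
    calc V * Real.sqrt P ≤ V * (2 * |h i|) := by gcongr
      _ = 2 * (V * |h i|) := by ring
      _ ≤ 2 * (2 * lam * s ^ Fintype.card ι) := by gcongr
      _ ≤ 60 * lam * s ^ Fintype.card ι := by
          have : 0 ≤ lam * s ^ Fintype.card ι := by positivity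
          nlinarith

end Pool.Agent.NC
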