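import Pool.Agent.NewtonCov.Stmts2

/-!
MP_a2070a_co: module EV. Union bound and Markov's inequality for a uniformly random function.
-/

set_option autoImplicit false

namespace Pool.Agent.NC

open Finset

section EV

variable {X : Type} [Fintype X] {u : ℕ}

open Classical in
/-- Number of functions with a property, as a real number. -/
noncomputable def evC (P : (Fin u → X) → Prop) : ℝ := ∑ f, if P f then (1 : ℝ) else 0

theorem evC_nonneg (P : (Fin u → X) → Prop) : 0 ≤ evC P := by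
  classical
  unfold evC
  exact Finset.sum_nonneg (fun f _ => by split_ifs <;> norm_num)

theorem evC_mono {P Q : (Fin u → X) → Prop} (h : ∀ f, P f → Q f) : evC P ≤ evC Q := by
  classical
  unfold evC
  refine Finset.sum_le_sum (fun f _ => ?_)
  by_cases hP : P f
  · rw [if_pos hP, if_pos (h f hP)]
  · rw [if_neg hP]; split_ifs <;> norm_num

theorem evC_false {P : (Fin u → X) → Prop} (h : ∀ f, ¬ P f) : evC P = 0 := by
  classical
  unfold evC
  exact Finset.sum_eq_zero (fun f _ => if_neg (h f))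

theorem evC_or (P Q : (Fin u → X) → Prop) : evC (fun f => P f ∨ Q f) ≤ evC P + evC Q := by
  classical
  unfold evC
  rw [← Finset.sum_add_distrib]
  refine Finset.sum_le_sum (fun f _ => ?_)
  by_cases hP : P f <;> by_cases hQ : Q f <;> simp [hP, hQ]

theorem evC_exists {J : Type} [Fintype J] (P : J → (Fin u → X) → Prop) (c : ℝ)
    (h : ∀ j, evC (P j) ≤ c) :
    evC (fun f => ∃ j, P j f) ≤ Fintype.card J * c := by
  classical
  have h1 : evC (fun f => ∃ j, P j f) ≤ ∑ j, evC (P j) := by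
    unfold evC
    rw [Finset.sum_comm]
    refine Finset.sum_le_sum (fun f _ => ?_)
    split_ifs with h2
    · obtain ⟨j, hj⟩ := h2
      have h3 := Finset.single_le_sum (f := fun j => if P j f then (1 : ℝ) else 0)
        (fun k _ => by split_ifs <;> norm_num) (Finset.mem_univ j)
      simp only [if_pos hj] at h3
      exact h3
    · exact Finset.sum_nonneg (fun k _ => by split_ifs <;> norm_num)
  refine h1.trans ((Finset.sum_le_sum (fun j _ => h j)).trans ?_)
  rw [Finset.sum_const, Finset.card_univ, nsmul_eq_mul]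

theorem ev_cons {r : ℕ} (F : (Fin (r + 1) → X) → ℝ) :
    ∑ y : Fin (r + 1) → X, F y = ∑ x, ∑ y : Fin r → X, F (Fin.cons x y) := by
  rw [← (Fin.consEquiv (fun _ => X)).sum_comp, Fintype.sum_prod_type]
  rfl

theorem ev_cnt (h1 : S_CNT) (N : ℝ) (hN : N = Fintype.card X) (r : ℕ) (φ : Fin r → Fin u)
    (hφ : Function.Injective φ) (F : (Fin r → X) → ℝ) :
    (∑ f : Fin u → X, F (fun j => f (φ j))) * N ^ r = N ^ u * ∑ y : Fin r → X, F y := by
  have hr : r ≤ u := by
    have := Fintype.card_le_of_injective φ hφ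
    simpa using this
  rw [h1 X u r φ hφ F, ← hN]
  have h2 : N ^ u = N ^ (u - r) * N ^ r := by rw [← pow_add, Nat.sub_add_cancel hr]
  rw [h2]; ring

theorem ev_one (h1 : S_CNT) (N : ℝ) (hN : N = Fintype.card X) (a : Fin u) (F : X → ℝ) :
    (∑ f : Fin u → X, F (f a)) * N = N ^ u * ∑ x, F x := by
  have h2 := ev_cnt h1 N hN 1 ![a] (by intro i j _; exact Subsingleton.elim i j)
    (fun y => F (y 0))
  rw [ev_cons] at h2
  simpa using h2

theorem ev_two (h1 : S_CNT) (N : ℝ) (hN : N = Fintype.card X) (a b : Fin u) (hab : a ≠ b)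
    (F : X → X → ℝ) :
    (∑ f : Fin u → X, F (f a) (f b)) * N ^ 2 = N ^ u * ∑ x, ∑ y, F x y := by
  have h2 := ev_cnt h1 N hN 2 ![a, b] (by
    intro i j h
    fin_cases i <;> fin_cases j <;> simp_all) (fun y => F (y 0) (y 1))
  rw [ev_cons] at h2
  simp_rw [ev_cons] at h2
  simpa using h2

theorem ev_three (h1 : S_CNT) (N : ℝ) (hN : N = Fintype.card X) (a b c : Fin u) (hab : a ≠ b)
    (hac : a ≠ c) (hbc : b ≠ c) (F : X → X → X → ℝ) :
    (∑ f : Fin u → X, F (f a) (f b) (f c)) * N ^ 3 = N ^ u * ∑ x, ∑ y, ∑ z, F x y z := by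
  have h2 := ev_cnt h1 N hN 3 ![a, b, c] (by
    intro i j h
    fin_cases i <;> fin_cases j <;> simp_all) (fun y => F (y 0) (y 1) (y 2))
  rw [ev_cons] at h2
  simp_rw [ev_cons] at h2
  simp at h2
  exact h2

theorem ev_four (h1 : S_CNT) (N : ℝ) (hN : N = Fintype.card X) (a b c e : Fin u) (hab : a ≠ b)
    (hac : a ≠ c) (hae : a ≠ e) (hbc : b ≠ c) (hbe : b ≠ e) (hce : c ≠ e)
    (F : X → X → X → X → ℝ) :
    (∑ f : Fin u → X, F (f a) (f b) (f c) (f e)) * N ^ 4 =
      N ^ u * ∑ x, ∑ y, ∑ z, ∑ w, F x y z w := by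
  have h2 := ev_cnt h1 N hN 4 ![a, b, c, e] (by
    intro i j h
    fin_cases i <;> fin_cases j <;> simp_all) (fun y => F (y 0) (y 1) (y 2) (y 3))
  rw [ev_cons] at h2
  simp_rw [ev_cons] at h2
  simp at h2
  exact h2

/-- Markov's inequality. -/
theorem ev_markov (N : ℝ) (S : (Fin u → X) → ℝ) (K : ℝ) (hK : 0 ≤ K) (hS : ∀ f, 0 ≤ S f)
    (hsum : ∑ f, S f ≤ N ^ u * K) (hN : 0 < N) :
    evC (fun f => 16 * K < S f) ≤ N ^ u / 16 := by
  classical
  rcases hK.eq_or_lt with h0 | h0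
  · rw [evC_false]
    · positivity
    · intro f hf
      rw [← h0] at hf hsum
      have h1 := Finset.single_le_sum (fun g _ => hS g) (Finset.mem_univ f)
      linarith
  · have h2 : evC (fun f => 16 * K < S f) * (16 * K) ≤ ∑ f, S f := by
      unfold evC
      rw [Finset.sum_mul]
      refine Finset.sum_le_sum (fun f _ => ?_)
      split_ifs with h
      · linarith
      · linarith [hS f]
    have h3 := h2.trans hsum
    rw [le_div_iff₀ (by norm_num)]
    have h4 : (evC (fun f => 16 * K < S f) * 16) * K ≤ N ^ u * K := by linarith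
    exact le_of_mul_le_mul_right h4 h0

theorem ev_sum_mem [DecidableEq X] (S : Finset X) :
    ∑ x : X, (if x ∈ S then (1 : ℝ) else 0) = S.card := by
  rw [Finset.sum_ite_mem, Finset.univ_inter, Finset.sum_const, nsmul_eq_mul, mul_one]

/-- Count of a condition on one value. -/
theorem evC_one (h1 : S_CNT) [DecidableEq X] (N : ℝ) (hN : N = Fintype.card X) (hN0 : 0 < N)
    (a : Fin u) (S : Finset X) (s : ℝ) (hs : (S.card : ℝ) ≤ s) :
    evC (fun f : Fin u → X => f a ∈ S) ≤ N ^ u * (s / N) := by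
  classical
  have h2 := ev_one h1 N hN a (fun x => if x ∈ S then (1 : ℝ) else 0)
  rw [ev_sum_mem] at h2
  have h3 : evC (fun f : Fin u → X => f a ∈ S) * N ≤ N ^ u * s := by
    unfold evC
    calc _ = (∑ f : Fin u → X, if f a ∈ S then (1 : ℝ) else 0) * N := by
            congr 1
            refine Finset.sum_congr rfl (fun f _ => ?_)
            congr
      _ = N ^ u * S.card := h2
      _ ≤ N ^ u * s := mul_le_mul_of_nonneg_left hs (by positivity)
  rw [← mul_div_assoc, le_div_iff₀ hN0]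
  exact h3

/-- Count of a condition on two values. -/
theorem evC_two (h1 : S_CNT) [DecidableEq X] (N : ℝ) (hN : N = Fintype.card X) (hN0 : 0 < N)
    (a b : Fin u) (S : Finset X) (T : X → Finset X) (s t : ℝ) (ht0 : 0 ≤ t)
    (hs : (S.card : ℝ) ≤ s) (ht : ∀ x, ((T x).card : ℝ) ≤ t) :
    evC (fun f : Fin u → X => a ≠ b ∧ f a ∈ S ∧ f b ∈ T (f a)) ≤ N ^ u * (s * t / N ^ 2) := by
  classical
  have hs0 : 0 ≤ s := le_trans (Nat.cast_nonneg _) hs
  by_cases hab : a = b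
  · rw [evC_false (fun f hf => hf.1 hab)]
    positivity
  have h2 := ev_two h1 N hN a b hab
    (fun x y => (if x ∈ S then (1 : ℝ) else 0) * (if y ∈ T x then (1 : ℝ) else 0))
  have h3 : evC (fun f : Fin u → X => a ≠ b ∧ f a ∈ S ∧ f b ∈ T (f a)) * N ^ 2 ≤
      N ^ u * (s * t) := by
    unfold evC
    calc _ = (∑ f : Fin u → X, (if f a ∈ S then (1 : ℝ) else 0) *
              (if f b ∈ T (f a) then (1 : ℝ) else 0)) * N ^ 2 := by
            congr 1
            refine Finset.sum_congr rfl (fun f _ => ?_)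
            by_cases p1 : f a ∈ S <;> by_cases p2 : f b ∈ T (f a) <;> simp [p1, p2, hab]
      _ = N ^ u * ∑ x, ∑ y, (if x ∈ S then (1 : ℝ) else 0) * (if y ∈ T x then (1 : ℝ) else 0) := h2
      _ ≤ N ^ u * (s * t) := by
            refine mul_le_mul_of_nonneg_left ?_ (by positivity)
            calc _ = ∑ x, (if x ∈ S then (1 : ℝ) else 0) * (T x).card := by
                    refine Finset.sum_congr rfl (fun x _ => ?_)
                    rw [← Finset.mul_sum, ev_sum_mem]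
              _ ≤ ∑ x, (if x ∈ S then (1 : ℝ) else 0) * t := by
                    refine Finset.sum_le_sum (fun x _ => ?_)
                    exact mul_le_mul_of_nonneg_left (ht x) (by split_ifs <;> norm_num)
              _ = S.card * t := by rw [← Finset.sum_mul, ev_sum_mem]
              _ ≤ s * t := mul_le_mul_of_nonneg_right hs ht0
  rw [← mul_div_assoc, le_div_iff₀ (by positivity)]
  exact h3

/-- Count of a condition on three values: `f a ∈ S`, `f c ∈ T (f b)`. -/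
theorem evC_three (h1 : S_CNT) [DecidableEq X] (N : ℝ) (hN : N = Fintype.card X) (hN0 : 0 < N)
    (a b c : Fin u) (S : Finset X) (T : X → Finset X) (s t : ℝ) (ht0 : 0 ≤ t)
    (hs : (S.card : ℝ) ≤ s) (ht : ∀ x, ((T x).card : ℝ) ≤ t) :
    evC (fun f : Fin u → X => (a ≠ b ∧ a ≠ c ∧ b ≠ c) ∧ f a ∈ S ∧ f c ∈ T (f b)) ≤
      N ^ u * (s * t / N ^ 2) := by
  classical
  have hs0 : 0 ≤ s := le_trans (Nat.cast_nonneg _) hs
  by_cases hab : a ≠ b ∧ a ≠ c ∧ b ≠ c
  swap
  · rw [evC_false (fun f hf => hab hf.1)]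
    positivity
  have h2 := ev_three h1 N hN a b c hab.1 hab.2.1 hab.2.2
    (fun x y z => (if x ∈ S then (1 : ℝ) else 0) * (if z ∈ T y then (1 : ℝ) else 0))
  have h3 : evC (fun f : Fin u → X => (a ≠ b ∧ a ≠ c ∧ b ≠ c) ∧ f a ∈ S ∧ f c ∈ T (f b)) *
      N ^ 3 ≤ N ^ u * (s * t * N) := by
    unfold evC
    calc _ = (∑ f : Fin u → X, (if f a ∈ S then (1 : ℝ) else 0) *
              (if f c ∈ T (f b) then (1 : ℝ) else 0)) * N ^ 3 := by
            congr 1
            refine Finset.sum_congr rfl (fun f _ => ?_)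
            by_cases p1 : f a ∈ S <;> by_cases p2 : f c ∈ T (f b) <;> simp [p1, p2, hab]
      _ = N ^ u * ∑ x, ∑ y, ∑ z, (if x ∈ S then (1 : ℝ) else 0) *
            (if z ∈ T y then (1 : ℝ) else 0) := h2
      _ ≤ N ^ u * (s * t * N) := by
            refine mul_le_mul_of_nonneg_left ?_ (by positivity)
            calc _ = ∑ x, ∑ y, (if x ∈ S then (1 : ℝ) else 0) * (T y).card := by
                    refine Finset.sum_congr rfl (fun x _ => Finset.sum_congr rfl (fun y _ => ?_))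
                    rw [← Finset.mul_sum, ev_sum_mem]
              _ ≤ ∑ x, ∑ _y : X, (if x ∈ S then (1 : ℝ) else 0) * t := by
                    refine Finset.sum_le_sum (fun x _ => Finset.sum_le_sum (fun y _ => ?_))
                    exact mul_le_mul_of_nonneg_left (ht y) (by split_ifs <;> norm_num)
              _ = S.card * t * N := by
                    simp_rw [Finset.sum_const, nsmul_eq_mul, Finset.card_univ]
                    rw [← Finset.mul_sum, ← Finset.sum_mul, ev_sum_mem, hN]; ring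
              _ ≤ s * t * N := by gcongr
  have h4 : s * t / N ^ 2 = s * t * N / N ^ 3 := by
    field_simp
  rw [h4, ← mul_div_assoc, le_div_iff₀ (by positivity)]
  exact h3

/-- Count of a condition on four values: `f b ∈ S (f a)`, `f e ∈ T (f c)`. -/
theorem evC_four (h1 : S_CNT) [DecidableEq X] (N : ℝ) (hN : N = Fintype.card X) (hN0 : 0 < N)
    (a b c e : Fin u) (S T : X → Finset X) (s t : ℝ) (hs0 : 0 ≤ s) (ht0 : 0 ≤ t)
    (hs : ∀ x, ((S x).card : ℝ) ≤ s) (ht : ∀ x, ((T x).card : ℝ) ≤ t) :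
    evC (fun f : Fin u → X => (a ≠ b ∧ a ≠ c ∧ a ≠ e ∧ b ≠ c ∧ b ≠ e ∧ c ≠ e) ∧
      f b ∈ S (f a) ∧ f e ∈ T (f c)) ≤ N ^ u * (s * t / N ^ 2) := by
  classical
  by_cases hab : a ≠ b ∧ a ≠ c ∧ a ≠ e ∧ b ≠ c ∧ b ≠ e ∧ c ≠ e
  swap
  · rw [evC_false (fun f hf => hab hf.1)]
    positivity
  have h2 := ev_four h1 N hN a b c e hab.1 hab.2.1 hab.2.2.1 hab.2.2.2.1 hab.2.2.2.2.1
    hab.2.2.2.2.2
    (fun x y z w => (if y ∈ S x then (1 : ℝ) else 0) * (if w ∈ T z then (1 : ℝ) else 0))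
  have h3 : evC (fun f : Fin u → X => (a ≠ b ∧ a ≠ c ∧ a ≠ e ∧ b ≠ c ∧ b ≠ e ∧ c ≠ e) ∧
      f b ∈ S (f a) ∧ f e ∈ T (f c)) * N ^ 4 ≤ N ^ u * ((N * s) * (N * t)) := by
    unfold evC
    calc _ = (∑ f : Fin u → X, (if f b ∈ S (f a) then (1 : ℝ) else 0) *
              (if f e ∈ T (f c) then (1 : ℝ) else 0)) * N ^ 4 := by
            congr 1
            refine Finset.sum_congr rfl (fun f _ => ?_)
            by_cases p1 : f b ∈ S (f a) <;> by_cases p2 : f e ∈ T (f c) <;>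
              simp [p1, p2, hab]
      _ = N ^ u * ∑ x, ∑ y, ∑ z, ∑ w, (if y ∈ S x then (1 : ℝ) else 0) *
            (if w ∈ T z then (1 : ℝ) else 0) := h2
      _ ≤ N ^ u * ((N * s) * (N * t)) := by
            refine mul_le_mul_of_nonneg_left ?_ (by positivity)
            calc _ = ∑ x, ∑ y, (if y ∈ S x then (1 : ℝ) else 0) * ∑ z, ((T z).card : ℝ) := by
                    refine Finset.sum_congr rfl (fun x _ => Finset.sum_congr rfl (fun y _ => ?_))
                    rw [Finset.mul_sum]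
                    refine Finset.sum_congr rfl (fun z _ => ?_)
                    rw [← Finset.mul_sum, ev_sum_mem]
              _ = (∑ x, ((S x).card : ℝ)) * ∑ z, ((T z).card : ℝ) := by
                    rw [Finset.sum_mul]
                    refine Finset.sum_congr rfl (fun x _ => ?_)
                    rw [← Finset.sum_mul, ev_sum_mem]
              _ ≤ (∑ _x : X, s) * ∑ _z : X, t := by
                    refine mul_le_mul (Finset.sum_le_sum (fun x _ => hs x))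
                      (Finset.sum_le_sum (fun x _ => ht x))
                      (Finset.sum_nonneg (fun x _ => Nat.cast_nonneg _))
                      (Finset.sum_nonneg (fun x _ => hs0))
              _ = (N * s) * (N * t) := by
                    simp_rw [Finset.sum_const, nsmul_eq_mul, Finset.card_univ, hN]
  have h4 : s * t / N ^ 2 = (N * s) * (N * t) / N ^ 4 := by
    field_simp
  rw [h4, ← mul_div_assoc, le_div_iff₀ (by positivity)]
  exact h3

theorem ev_good (N : ℝ) (hN : N = Fintype.card X) (P : (Fin u → X) → Prop)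
    (h : evC P < N ^ u) : ∃ f, ¬ P f := by
  classical
  by_contra hcon
  push Not at hcon
  have h2 : evC P = N ^ u := by
    unfold evC
    simp_rw [if_pos (hcon _)]
    rw [Finset.sum_const, nsmul_eq_mul, mul_one, Finset.card_univ, Fintype.card_fun, Fintype.card_fin,
      hN]
    push_cast
    rfl
  linarith

theorem ev_fin (N : ℝ) (hN : 0 < N) (A s : ℝ) (h : 16 * (A * s) ≤ N ^ 2) :
    A * (N ^ u * (s / N ^ 2)) ≤ N ^ u / 16 := by
  have h1 : A * (N ^ u * (s / N ^ 2)) = N ^ u * ((A * s) / N ^ 2) := by ring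
  have h2 : (A * s) / N ^ 2 ≤ 1 / 16 := by
    rw [div_le_div_iff₀ (by positivity) (by norm_num)]; linarith
  rw [h1]
  calc N ^ u * ((A * s) / N ^ 2) ≤ N ^ u * (1 / 16) :=
        mul_le_mul_of_nonneg_left h2 (by positivity)
    _ = N ^ u / 16 := by ring

/-- Exponential moment bound in the notation of this file. -/
theorem evC_exm (h2 : S_EXM) [DecidableEq X] (N : ℝ) (hN : N = Fintype.card X)
    (a : Fin u) (S : X → Finset X) (P : X → Prop) (b lam t : ℝ) (hb : 0 ≤ b) (hl : 0 ≤ lam)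
    (hS : ∀ x, P x → ((S x).card : ℝ) ≤ b * N) :
    evC (fun f : Fin u → X => P (f a) ∧
      t ≤ ((univ.filter (fun c => c ≠ a ∧ f c ∈ S (f a))).card : ℝ)) ≤
      (1 + lam * b) ^ u * N ^ u / (1 + lam) ^ t := by
  classical
  have h3 := h2 X u a S P b lam t hb hl (fun x hx => by rw [← hN]; exact hS x hx)
  have h4 : (0 : ℝ) < (1 + lam) ^ t := Real.rpow_pos_of_pos (by linarith) _
  rw [le_div_iff₀ h4]
  rw [← hN] at h3
  refine le_trans (le_of_eq ?_) h3
  congr 1
  unfold evC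
  rw [Finset.natCast_card_filter]
  refine Finset.sum_congr rfl (fun f _ => ?_)
  congr

end EV

theorem ev (h1 : S_CNT) (h2 : S_EXM) : S_EV := by
  intro X _ _ n u T1 T2 P H W Q V g N τ1 τ2 h w π lam1 t1 b1 lam2 t2 b2 Γ hN hN0 hτ1 hτ2 hh hw hπ
    hlam1 hlam2 hb1 hb2 hΓ hT1 hT2 hH hW hP hQ hV hg hgs e0 e1 e2 e3 e4 e5 e6 e7
  classical
  have hNu : 0 < N ^ u := by positivity
  -- B0
  have B0 : evC (fun f : Fin u → X => ¬ Function.Injective f) ≤ N ^ u / 16 := by
    have k1 : ∀ j : Fin u × Fin u, evC (fun f : Fin u → X => j.1 ≠ j.2 ∧ f j.1 ∈ (univ : Finset X)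
        ∧ f j.2 ∈ ({f j.1} : Finset X)) ≤ N ^ u * (N * 1 / N ^ 2) := by
      intro j
      exact evC_two h1 N hN hN0 j.1 j.2 univ (fun x => {x}) N 1 (by norm_num)
        (by rw [Finset.card_univ, hN]) (fun x => by simp)
    have k2 := evC_exists _ _ k1
    have k3 : evC (fun f : Fin u → X => ¬ Function.Injective f) ≤ evC (fun f : Fin u → X =>
        ∃ j : Fin u × Fin u, j.1 ≠ j.2 ∧ f j.1 ∈ (univ : Finset X)
        ∧ f j.2 ∈ ({f j.1} : Finset X)) := by
      refine evC_mono (fun f hf => ?_)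
      simp only [Function.Injective, not_forall] at hf
      obtain ⟨a, b, hab, hne⟩ := hf
      exact ⟨(a, b), hne, mem_univ _, by simp [hab]⟩
    refine k3.trans (k2.trans ?_)
    have k4 : (Fintype.card (Fin u × Fin u) : ℝ) = (u : ℝ) ^ 2 := by
      rw [Fintype.card_prod, Fintype.card_fin]; push_cast; ring
    rw [k4]
    refine ev_fin N hN0 _ _ ?_
    nlinarith
  have B1 : evC (fun f : Fin u → X => ∃ j : Fin n × Fin u × Fin u, j.2.1 ≠ j.2.2 ∧
      f j.2.1 ∈ T1 j.1 ∧ f j.2.2 ∈ T2 j.1) ≤ N ^ u / 16 := by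
    refine (evC_exists _ _ (fun j : Fin n × Fin u × Fin u => evC_two h1 N hN hN0 j.2.1 j.2.2 (T1 j.1) (fun _ => T2 j.1)
      τ1 τ2 hτ2 (hT1 _) (fun _ => hT2 _))).trans ?_
    refine ev_fin N hN0 _ _ (le_trans (le_of_eq ?_) e1)
    simp only [Fintype.card_prod, Fintype.card_fin]; push_cast; ring
  have B2 : evC (fun f : Fin u → X => ∃ j : Fin n × Fin u × Fin u × Fin u,
      (j.2.1 ≠ j.2.2.1 ∧ j.2.1 ≠ j.2.2.2 ∧ j.2.2.1 ≠ j.2.2.2) ∧
      f j.2.1 ∈ T1 j.1 ∧ f j.2.2.2 ∈ W j.1 (f j.2.2.1)) ≤ N ^ u / 16 := by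
    refine (evC_exists _ _ (fun j : Fin n × Fin u × Fin u × Fin u => evC_three h1 N hN hN0 j.2.1 j.2.2.1 j.2.2.2 (T1 j.1)
      (fun x => W j.1 x) τ1 w hw (hT1 _) (fun _ => hW _ _))).trans ?_
    refine ev_fin N hN0 _ _ (le_trans (le_of_eq ?_) e2)
    simp only [Fintype.card_prod, Fintype.card_fin]; push_cast; ring
  have B3 : evC (fun f : Fin u → X => ∃ j : Fin n × Fin u × Fin u × Fin u,
      (j.2.1 ≠ j.2.2.1 ∧ j.2.1 ≠ j.2.2.2 ∧ j.2.2.1 ≠ j.2.2.2) ∧
      f j.2.1 ∈ T2 j.1 ∧ f j.2.2.2 ∈ H j.1 (f j.2.2.1)) ≤ N ^ u / 16 := by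
    refine (evC_exists _ _ (fun j : Fin n × Fin u × Fin u × Fin u => evC_three h1 N hN hN0 j.2.1 j.2.2.1 j.2.2.2 (T2 j.1)
      (fun x => H j.1 x) τ2 h hh (hT2 _) (fun _ => hH _ _))).trans ?_
    refine ev_fin N hN0 _ _ (le_trans (le_of_eq ?_) e3)
    simp only [Fintype.card_prod, Fintype.card_fin]; push_cast; ring
  have B4 : evC (fun f : Fin u → X => ∃ j : Fin n × Fin u × Fin u × Fin u × Fin u,
      (j.2.1 ≠ j.2.2.1 ∧ j.2.1 ≠ j.2.2.2.1 ∧ j.2.1 ≠ j.2.2.2.2 ∧ j.2.2.1 ≠ j.2.2.2.1 ∧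
        j.2.2.1 ≠ j.2.2.2.2 ∧ j.2.2.2.1 ≠ j.2.2.2.2) ∧
      f j.2.2.1 ∈ H j.1 (f j.2.1) ∧ f j.2.2.2.2 ∈ W j.1 (f j.2.2.2.1)) ≤ N ^ u / 16 := by
    refine (evC_exists _ _ (fun j : Fin n × Fin u × Fin u × Fin u × Fin u => evC_four h1 N hN hN0 j.2.1 j.2.2.1 j.2.2.2.1 j.2.2.2.2
      (fun x => H j.1 x) (fun x => W j.1 x) h w hh hw (fun _ => hH _ _) (fun _ => hW _ _))).trans ?_
    refine ev_fin N hN0 _ _ (le_trans (le_of_eq ?_) e4)
    simp only [Fintype.card_prod, Fintype.card_fin]; push_cast; ring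
  have B5 : evC (fun f : Fin u → X => ∃ j : Fin n × Fin u × Fin u, j.2.1 ≠ j.2.2 ∧
      f j.2.1 ∈ P j.1 ∧ f j.2.2 ∈ P j.1) ≤ N ^ u / 16 := by
    refine (evC_exists _ _ (fun j : Fin n × Fin u × Fin u => evC_two h1 N hN hN0 j.2.1 j.2.2 (P j.1) (fun _ => P j.1)
      π π hπ (hP _) (fun _ => hP _))).trans ?_
    refine ev_fin N hN0 _ _ (le_trans (le_of_eq ?_) e5)
    simp only [Fintype.card_prod, Fintype.card_fin]; push_cast; ring
  have B6 : evC (fun f : Fin u → X => ∃ j : Fin n × Fin u, f j.2 ∉ P j.1 ∧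
      t1 ≤ ((univ.filter (fun c => c ≠ j.2 ∧ f c ∈ Q j.1 (f j.2))).card : ℝ)) ≤ N ^ u / 16 := by
    refine (evC_exists _ _ (fun j : Fin n × Fin u => evC_exm h2 N hN j.2 (fun x => Q j.1 x) (fun x => x ∉ P j.1)
      b1 lam1 t1 hb1 hlam1 (fun x hx => hQ _ _ hx))).trans ?_
    have k4 : (0 : ℝ) < (1 + lam1) ^ t1 := Real.rpow_pos_of_pos (by linarith) _
    rw [← mul_div_assoc, div_le_div_iff₀ k4 (by norm_num)]
    simp only [Fintype.card_prod, Fintype.card_fin]
    push_cast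
    nlinarith [mul_le_mul_of_nonneg_right e6 hNu.le]
  have B7 : evC (fun f : Fin u → X => ∃ j : Fin n × Fin u, True ∧
      t2 ≤ ((univ.filter (fun c => c ≠ j.2 ∧ f c ∈ V j.1 (f j.2))).card : ℝ)) ≤ N ^ u / 16 := by
    refine (evC_exists _ _ (fun j : Fin n × Fin u => evC_exm h2 N hN j.2 (fun x => V j.1 x) (fun _ => True)
      b2 lam2 t2 hb2 hlam2 (fun x _ => hV _ _))).trans ?_
    have k4 : (0 : ℝ) < (1 + lam2) ^ t2 := Real.rpow_pos_of_pos (by linarith) _
    rw [← mul_div_assoc, div_le_div_iff₀ k4 (by norm_num)]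
    simp only [Fintype.card_prod, Fintype.card_fin]
    push_cast
    nlinarith [mul_le_mul_of_nonneg_right e7 hNu.le]
  -- B8
  set S8 : (Fin u → X) → ℝ := fun f =>
    ((univ.filter (fun i => (∃ a, f a ∈ T1 i) ∨ ∃ a b, a ≠ b ∧ f b ∈ H i (f a))).card : ℝ)
    with hS8
  set K8 : ℝ := n * (u * (τ1 / N) + u ^ 2 * (h / N)) with hK8
  have B8 : evC (fun f => 16 * K8 < S8 f) ≤ N ^ u / 16 := by
    refine ev_markov N S8 K8 (by positivity) (fun f => Nat.cast_nonneg _) ?_ hN0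
    have k1 : ∑ f, S8 f = ∑ i, evC (fun f : Fin u → X => (∃ a, f a ∈ T1 i) ∨
        ∃ a b, a ≠ b ∧ f b ∈ H i (f a)) := by
      unfold evC
      rw [Finset.sum_comm]
      refine Finset.sum_congr rfl (fun f _ => ?_)
      rw [hS8]
      simp only
      rw [Finset.natCast_card_filter]
      refine Finset.sum_congr rfl (fun i _ => ?_)
      congr
    rw [k1]
    have k2 : ∀ i : Fin n, evC (fun f : Fin u → X => (∃ a, f a ∈ T1 i) ∨
        ∃ a b, a ≠ b ∧ f b ∈ H i (f a)) ≤ N ^ u * (u * (τ1 / N) + u ^ 2 * (h / N)) := by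
      intro i
      refine (evC_or _ _).trans ?_
      have k3 := evC_exists (fun a (f : Fin u → X) => f a ∈ T1 i) _
        (fun a => evC_one h1 N hN hN0 a (T1 i) τ1 (hT1 i))
      have k4 := evC_exists (fun (j : Fin u × Fin u) (f : Fin u → X) => j.1 ≠ j.2 ∧
        f j.1 ∈ (univ : Finset X) ∧ f j.2 ∈ H i (f j.1)) _
        (fun j => evC_two h1 N hN hN0 j.1 j.2 univ (fun x => H i x) N h hh
          (by rw [Finset.card_univ, hN]) (fun _ => hH _ _))
      have k5 : evC (fun f : Fin u → X => ∃ a b, a ≠ b ∧ f b ∈ H i (f a)) ≤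
          evC (fun f : Fin u → X => ∃ j : Fin u × Fin u, j.1 ≠ j.2 ∧
        f j.1 ∈ (univ : Finset X) ∧ f j.2 ∈ H i (f j.1)) := by
        refine evC_mono (fun f hf => ?_)
        obtain ⟨a, b, hab, hm⟩ := hf
        exact ⟨(a, b), hab, mem_univ _, hm⟩
      have k6 : N * h / N ^ 2 = h / N := by field_simp
      rw [k6] at k4
      simp only [Fintype.card_prod, Fintype.card_fin] at k3 k4
      push_cast at k4
      have k7 := k5.trans k4
      calc _ ≤ (u : ℝ) * (N ^ u * (τ1 / N)) + (u : ℝ) * u * (N ^ u * (h / N)) := add_le_add k3 k7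
        _ = N ^ u * (u * (τ1 / N) + u ^ 2 * (h / N)) := by ring
    refine (Finset.sum_le_sum (fun i _ => k2 i)).trans (le_of_eq ?_)
    rw [Finset.sum_const, Finset.card_univ, Fintype.card_fin, nsmul_eq_mul, hK8]
    ring
  -- B9
  set S9 : (Fin u → X) → ℝ := fun f => ∑ i, ∑ a, ∑ b ∈ univ.erase a, g i (f a) (f b) with hS9
  set K9 : ℝ := n * (u ^ 2 * (Γ / N ^ 2)) with hK9
  have B9 : evC (fun f => 16 * K9 < S9 f) ≤ N ^ u / 16 := by
    refine ev_markov N S9 K9 (by positivity) (fun f => ?_) ?_ hN0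
    · exact Finset.sum_nonneg (fun i _ => Finset.sum_nonneg (fun a _ =>
        Finset.sum_nonneg (fun b _ => hg _ _ _)))
    have k1 : ∑ f, S9 f = ∑ i, ∑ a, ∑ b ∈ univ.erase a, ∑ f : Fin u → X, g i (f a) (f b) := by
      rw [hS9]
      simp only
      rw [Finset.sum_comm]
      refine Finset.sum_congr rfl (fun i _ => ?_)
      rw [Finset.sum_comm]
      refine Finset.sum_congr rfl (fun a _ => ?_)
      rw [Finset.sum_comm]
    rw [k1]
    have k2 : ∀ i : Fin n, ∀ a : Fin u, ∀ b ∈ univ.erase a,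
        ∑ f : Fin u → X, g i (f a) (f b) ≤ N ^ u * (Γ / N ^ 2) := by
      intro i a b hb
      have k3 := ev_two h1 N hN a b (Finset.ne_of_mem_erase hb).symm (g i)
      rw [← mul_div_assoc, le_div_iff₀ (by positivity), k3]
      exact mul_le_mul_of_nonneg_left (hgs i) hNu.le
    have k4 : ∀ i : Fin n, ∀ a : Fin u, ∑ b ∈ univ.erase a,
        ∑ f : Fin u → X, g i (f a) (f b) ≤ u * (N ^ u * (Γ / N ^ 2)) := by
      intro i a
      refine (Finset.sum_le_sum (k2 i a)).trans ?_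
      rw [Finset.sum_const, nsmul_eq_mul]
      refine mul_le_mul_of_nonneg_right ?_ (by positivity)
      have := Finset.card_le_card (Finset.erase_subset a (univ : Finset (Fin u)))
      rw [Finset.card_univ, Fintype.card_fin] at this
      exact_mod_cast this
    refine (Finset.sum_le_sum (fun i _ => Finset.sum_le_sum (fun a _ => k4 i a))).trans
      (le_of_eq ?_)
    simp only [Finset.sum_const, Finset.card_univ, Fintype.card_fin, nsmul_eq_mul]
    rw [hK9]
    ring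
  -- all together
  obtain ⟨f, hf⟩ := ev_good N hN (fun f : Fin u → X => (¬ Function.Injective f) ∨
    (∃ j : Fin n × Fin u × Fin u, j.2.1 ≠ j.2.2 ∧ f j.2.1 ∈ T1 j.1 ∧ f j.2.2 ∈ T2 j.1) ∨
    (∃ j : Fin n × Fin u × Fin u × Fin u,
      (j.2.1 ≠ j.2.2.1 ∧ j.2.1 ≠ j.2.2.2 ∧ j.2.2.1 ≠ j.2.2.2) ∧
      f j.2.1 ∈ T1 j.1 ∧ f j.2.2.2 ∈ W j.1 (f j.2.2.1)) ∨
    (∃ j : Fin n × Fin u × Fin u × Fin u,
      (j.2.1 ≠ j.2.2.1 ∧ j.2.1 ≠ j.2.2.2 ∧ j.2.2.1 ≠ j.2.2.2) ∧
      f j.2.1 ∈ T2 j.1 ∧ f j.2.2.2 ∈ H j.1 (f j.2.2.1)) ∨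
    (∃ j : Fin n × Fin u × Fin u × Fin u × Fin u,
      (j.2.1 ≠ j.2.2.1 ∧ j.2.1 ≠ j.2.2.2.1 ∧ j.2.1 ≠ j.2.2.2.2 ∧ j.2.2.1 ≠ j.2.2.2.1 ∧
        j.2.2.1 ≠ j.2.2.2.2 ∧ j.2.2.2.1 ≠ j.2.2.2.2) ∧
      f j.2.2.1 ∈ H j.1 (f j.2.1) ∧ f j.2.2.2.2 ∈ W j.1 (f j.2.2.2.1)) ∨
    (∃ j : Fin n × Fin u × Fin u, j.2.1 ≠ j.2.2 ∧ f j.2.1 ∈ P j.1 ∧ f j.2.2 ∈ P j.1) ∨
    (∃ j : Fin n × Fin u, f j.2 ∉ P j.1 ∧
      t1 ≤ ((univ.filter (fun c => c ≠ j.2 ∧ f c ∈ Q j.1 (f j.2))).card : ℝ)) ∨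
    (∃ j : Fin n × Fin u, True ∧
      t2 ≤ ((univ.filter (fun c => c ≠ j.2 ∧ f c ∈ V j.1 (f j.2))).card : ℝ)) ∨
    (16 * K8 < S8 f) ∨ (16 * K9 < S9 f)) (by
      refine lt_of_le_of_lt ((evC_or _ _).trans (add_le_add B0 ((evC_or _ _).trans (add_le_add B1
        ((evC_or _ _).trans (add_le_add B2 ((evC_or _ _).trans (add_le_add B3
        ((evC_or _ _).trans (add_le_add B4 ((evC_or _ _).trans (add_le_add B5
        ((evC_or _ _).trans (add_le_add B6 ((evC_or _ _).trans (add_le_add B7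
        ((evC_or _ _).trans (add_le_add B8 B9)))))))))))))))))) ?_
      linarith)
  push Not at hf
  obtain ⟨f0, f1, f2, f3, f4, f5, f6, f7, f8, f9⟩ := hf
  refine ⟨f, f0, fun i a b hab ha => f1 (i, a, b) hab ha,
    fun i a b c hab hac hbc ha => f2 (i, a, b, c) ⟨hab, hac, hbc⟩ ha,
    fun i a b c hab hac hbc hb hc => f3 (i, c, a, b) ⟨hac.symm, hbc.symm, hab⟩ hc hb,
    fun i a b c e hab hac hae hbc hbe hce hb => f4 (i, a, b, c, e) ⟨hab, hac, hae, hbc, hbe, hce⟩ hb,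
    fun i a b hab ha => f5 (i, a, b) hab ha,
    fun i a ha => f6 (i, a) ha,
    fun i a => f7 (i, a) trivial, ?_, ?_⟩
  · have k1 := mul_le_mul_of_nonneg_right f8 hN0.le
    refine k1.trans (le_of_eq ?_)
    rw [hK8]; field_simp
  · have k1 := mul_le_mul_of_nonneg_right f9 (by positivity : 0 ≤ N ^ 2)
    refine k1.trans (le_of_eq ?_)
    rw [hK9]; field_simp

end Pool.Agent.NC
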