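import Pool.Agent.NewtonCov.Stmts

/-!
MP_a2070a_co, module FAR: a cube with many tilted axes contains little of `AU`.
-/

set_option autoImplicit false

namespace Pool.Agent.NC.Far

open MeasureTheory Finset

/-- One factor of `AU`. -/
def fac {d : ℕ} (σ : ℝ) (U : Finset (Fin d)) (k : Fin d) : Set ℝ :=
  {t | |t| ≤ 1/2 + σ ∧ (k ∈ U → 1/2 + σ/2 ≤ |t|)}

theorem AU_eq {d : ℕ} (σ : ℝ) (U : Finset (Fin d)) :
    AU σ U = Set.pi Set.univ (fac σ U) := by
  ext x
  simp only [AU, fac, Set.mem_ofPred_eq, Set.mem_pi, Set.mem_univ, true_imp_iff]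
  exact ⟨fun h k => ⟨h.1 k, h.2 k⟩, fun h => ⟨fun k => (h k).1, fun k => (h k).2⟩⟩

theorem fac_closed {d : ℕ} (σ : ℝ) (U : Finset (Fin d)) (k : Fin d) : IsClosed (fac σ U k) := by
  have h1 : IsClosed {t : ℝ | |t| ≤ 1/2 + σ} := isClosed_le continuous_abs continuous_const
  by_cases hk : k ∈ U
  · have : fac σ U k = {t : ℝ | |t| ≤ 1/2 + σ} ∩ {t : ℝ | 1/2 + σ/2 ≤ |t|} := by
      ext t; simp [fac, hk]
    rw [this]
    exact h1.inter (isClosed_le continuous_const continuous_abs)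
  · have : fac σ U k = {t : ℝ | |t| ≤ 1/2 + σ} := by
      ext t; simp [fac, hk]
    rw [this]; exact h1

theorem fac_pos {d : ℕ} (σ : ℝ) (hσ : 0 < σ) (U : Finset (Fin d)) (k : Fin d) :
    0 < volume (fac σ U k) := by
  have hsub : Set.Icc (1/2 + σ/2) (1/2 + σ) ⊆ fac σ U k := by
    intro t ht
    have h0 : 0 ≤ t := by linarith [ht.1]
    refine ⟨?_, fun _ => ?_⟩
    · rw [abs_of_nonneg h0]; exact ht.2
    · rw [abs_of_nonneg h0]; exact ht.1
  refine lt_of_lt_of_le ?_ (measure_mono hsub)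
  rw [Real.volume_Icc]
  exact ENNReal.ofReal_pos.mpr (by linarith)

/-- The affine coordinate of a point along row `j`. -/
def TT {d : ℕ} (R : Matrix (Fin d) (Fin d) ℝ) (c : Fin d → ℝ) (j : Fin d) (x : Fin d → ℝ) : ℝ :=
  ∑ l, R j l * x l - c j

theorem TT_cont {d : ℕ} (R : Matrix (Fin d) (Fin d) ℝ) (c : Fin d → ℝ) (j : Fin d) :
    Continuous (TT R c j) := by
  unfold TT; fun_prop

theorem UC_closed {d : ℕ} (R : Matrix (Fin d) (Fin d) ℝ) (c : Fin d → ℝ) :
    IsClosed (UC R c) := by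
  have : UC R c = ⋂ j, {x | |TT R c j x| ≤ 1/2} := by
    ext x; simp [UC, TT]
  rw [this]
  exact isClosed_iInter fun j => isClosed_le (TT_cont R c j).abs continuous_const

theorem UC_convex {d : ℕ} (R : Matrix (Fin d) (Fin d) ℝ) (c : Fin d → ℝ) :
    Convex ℝ (UC R c) := by
  intro x hx y hy α β hα hβ hαβ j
  have e : ∑ l, R j l * (α • x + β • y) l - c j =
      α * (∑ l, R j l * x l - c j) + β * (∑ l, R j l * y l - c j) := by
    have : ∑ l, R j l * (α • x + β • y) l = α * ∑ l, R j l * x l + β * ∑ l, R j l * y l := by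
      rw [mul_sum, mul_sum, ← sum_add_distrib]
      refine sum_congr rfl fun l _ => ?_
      simp only [Pi.add_apply, Pi.smul_apply, smul_eq_mul]; ring
    rw [this]
    have hc : c j = α * c j + β * c j := by rw [← add_mul, hαβ, one_mul]
    linear_combination -hc
  rw [e]
  calc |α * (∑ l, R j l * x l - c j) + β * (∑ l, R j l * y l - c j)|
      ≤ |α * (∑ l, R j l * x l - c j)| + |β * (∑ l, R j l * y l - c j)| := abs_add_le _ _
    _ = α * |∑ l, R j l * x l - c j| + β * |∑ l, R j l * y l - c j| := by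
        rw [abs_mul, abs_mul, abs_of_nonneg hα, abs_of_nonneg hβ]
    _ ≤ α * (1/2) + β * (1/2) := by
        have h1 := mul_le_mul_of_nonneg_left (hx j) hα
        have h2 := mul_le_mul_of_nonneg_left (hy j) hβ
        linarith
    _ = 1/2 := by rw [← add_mul, hαβ, one_mul]

theorem box_compact {d : ℕ} (σ : ℝ) : IsCompact {x : Fin d → ℝ | ∀ k, |x k| ≤ 1/2 + σ} := by
  have : {x : Fin d → ℝ | ∀ k, |x k| ≤ 1/2 + σ} =
      Set.pi Set.univ (fun _ => Set.Icc (-(1/2 + σ)) (1/2 + σ)) := by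
    ext x
    simp only [Set.mem_ofPred_eq, Set.mem_pi, Set.mem_univ, true_imp_iff, Set.mem_Icc, abs_le]
  rw [this]
  exact isCompact_univ_pi fun _ => isCompact_Icc

theorem box_convex {d : ℕ} (σ : ℝ) : Convex ℝ {x : Fin d → ℝ | ∀ k, |x k| ≤ 1/2 + σ} := by
  have : {x : Fin d → ℝ | ∀ k, |x k| ≤ 1/2 + σ} =
      Set.pi Set.univ (fun _ => Set.Icc (-(1/2 + σ)) (1/2 + σ)) := by
    ext x
    simp only [Set.mem_ofPred_eq, Set.mem_pi, Set.mem_univ, true_imp_iff, Set.mem_Icc, abs_le]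
  rw [this]
  exact convex_pi fun _ _ => convex_Icc _ _

/-- An orthogonal matrix preserves squared lengths. -/
theorem orth_sq {d : ℕ} (R : Matrix (Fin d) (Fin d) ℝ) (hR : R * R.transpose = 1)
    (z : Fin d → ℝ) : ∑ j, (∑ l, R j l * z l) ^ 2 = ∑ i, z i ^ 2 := by
  have hR' : R.transpose * R = 1 := mul_eq_one_comm.mp hR
  have h1 : ∑ j, (∑ l, R j l * z l) ^ 2 = (R.mulVec z) ⬝ᵥ (R.mulVec z) := by
    simp only [dotProduct, Matrix.mulVec]
    refine sum_congr rfl fun j _ => ?_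
    rw [sq]
  rw [h1, Matrix.dotProduct_mulVec, Matrix.vecMul_mulVec, hR', Matrix.vecMul_one]
  simp only [dotProduct]
  refine sum_congr rfl fun i _ => ?_
  rw [sq]

theorem row_sq {d : ℕ} (R : Matrix (Fin d) (Fin d) ℝ) (hR : R * R.transpose = 1) (j : Fin d) :
    ∑ l, R j l ^ 2 = 1 := by
  have h := congrFun (congrFun hR j) j
  simp only [Matrix.mul_apply, Matrix.transpose_apply, Matrix.one_apply_eq] at h
  rw [← h]
  exact sum_congr rfl fun l _ => sq _

theorem col_sq {d : ℕ} (R : Matrix (Fin d) (Fin d) ℝ) (hR : R * R.transpose = 1) (l : Fin d) :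
    ∑ j, R j l ^ 2 = 1 := by
  have hR' : R.transpose * R = 1 := mul_eq_one_comm.mp hR
  have h := congrFun (congrFun hR' l) l
  simp only [Matrix.mul_apply, Matrix.transpose_apply, Matrix.one_apply_eq] at h
  rw [← h]
  exact sum_congr rfl fun l _ => sq _

/-- The overshoot of row `j`. -/
noncomputable def ov {d : ℕ} (R : Matrix (Fin d) (Fin d) ℝ) (c : Fin d → ℝ) (j : Fin d)
    (x : Fin d → ℝ) : ℝ := (max (|∑ l, R j l * x l - c j| - 1/2) 0) ^ 2

theorem ov_cont {d : ℕ} (R : Matrix (Fin d) (Fin d) ℝ) (c : Fin d → ℝ) (j : Fin d) :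
    Continuous (ov R c j) := by
  unfold ov; fun_prop

theorem ov_nonneg {d : ℕ} (R : Matrix (Fin d) (Fin d) ℝ) (c : Fin d → ℝ) (j : Fin d)
    (x : Fin d → ℝ) : 0 ≤ ov R c j x := sq_nonneg _

theorem dsq_ge {d : ℕ} (R : Matrix (Fin d) (Fin d) ℝ) (c : Fin d → ℝ)
    (hR : R * R.transpose = 1) (A : Set (Fin d → ℝ)) (hA : A.Nonempty) (hAU : A ⊆ UC R c)
    (x : Fin d → ℝ) : ∑ j, ov R c j x ≤ dsq x A := by
  unfold dsq
  refine le_csInf (hA.image _) ?_
  rintro _ ⟨y, hy, rfl⟩
  have hyU := hAU hy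
  have e : ∑ i, (x i - y i) ^ 2 = ∑ j, (TT R c j x - TT R c j y) ^ 2 := by
    rw [← orth_sq R hR (fun i => x i - y i)]
    refine sum_congr rfl fun j _ => ?_
    congr 1
    unfold TT
    have : ∑ l, R j l * (x l - y l) = ∑ l, R j l * x l - ∑ l, R j l * y l := by
      rw [← sum_sub_distrib]; exact sum_congr rfl fun l _ => by ring
    rw [this]; ring
  show _ ≤ ∑ i, (x i - y i) ^ 2
  rw [e]
  refine sum_le_sum fun j _ => ?_
  have h1 : |TT R c j y| ≤ 1/2 := hyU j
  have h2 : |TT R c j x| ≤ |TT R c j x - TT R c j y| + |TT R c j y| := by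
    have := abs_add_le (TT R c j x - TT R c j y) (TT R c j y)
    simpa using this
  have h3 : max (|TT R c j x| - 1/2) 0 ≤ |TT R c j x - TT R c j y| :=
    max_le (by linarith) (abs_nonneg _)
  have h4 : (max (|TT R c j x| - 1/2) 0) ^ 2 ≤ |TT R c j x - TT R c j y| ^ 2 :=
    pow_le_pow_left₀ (le_max_right _ _) h3 2
  rw [sq_abs] at h4
  exact h4

end Pool.Agent.NC.Far

namespace Pool.Agent.NC

open MeasureTheory Finset Far

theorem far (h1 : S_TAL) (h2 : S_ROW) (h3 : S_VOL) : S_FAR := by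
  obtain ⟨c₀, hc₀, hrow⟩ := h2
  refine ⟨1000 + 16 / c₀, by positivity, ?_⟩
  intro d R c hd hR hN U σ hσ hσ' hbig
  have hd' : (2 : ℝ) ≤ d := by exact_mod_cast hd
  have hd0 : (0 : ℝ) < d := by linarith
  set V : ℝ := volume.real (AU σ U) with hV
  have hVpos : 0 < V := (h3.1 d U σ hσ).2
  set K : Set (Fin d → ℝ) := {x | ∀ k, |x k| ≤ 1/2 + σ} with hK
  have hKc : IsCompact K := box_compact σ
  set A : Set (Fin d → ℝ) := UC R c ∩ K with hA
  have hAc : IsCompact A := hKc.inter_left (UC_closed R c)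
  have hAconv : Convex ℝ A := (UC_convex R c).inter (box_convex σ)
  have hAUK : AU σ U ⊆ K := fun x hx => hx.1
  have hAUm : MeasurableSet (AU σ U) := by
    rw [AU_eq]
    exact MeasurableSet.univ_pi fun k => (fac_closed σ U k).measurableSet
  have hAUfin : volume (AU σ U) ≠ ⊤ :=
    ne_top_of_le_ne_top hKc.measure_lt_top.ne (measure_mono hAUK)
  have hinter : A ∩ Set.pi Set.univ (fac σ U) = UC R c ∩ AU σ U := by
    rw [← AU_eq, hA, Set.inter_assoc]
    congr 1
    exact Set.inter_eq_right.mpr hAUK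
  rcases A.eq_empty_or_nonempty with hAe | hAne
  · have : UC R c ∩ AU σ U = ∅ := by rw [← hinter, hAe, Set.empty_inter]
    rw [this, measureReal_empty]
    positivity
  -- Talagrand
  have htal := h1 d (-(1/2 + σ)) (1/2 + σ) (by linarith) (fac σ U)
    (fun i => (fac_closed σ U i).measurableSet)
    (fun i t ht => abs_le.mp ht.1) (fun i => fac_pos σ hσ U i) A hAne hAc hAconv
    (fun y hy i => abs_le.mp (hy.2 i))
  rw [hinter, ← AU_eq] at htal
  have hba : (1/2 + σ - -(1/2 + σ)) = 1 + 2 * σ := by ring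
  rw [hba] at htal
  -- continuity of dsq
  have hdc : Continuous (fun x : Fin d → ℝ => dsq x A) := by
    unfold dsq
    exact IsCompact.continuous_sInf (f := fun (x : Fin d → ℝ) (y : Fin d → ℝ) =>
      ∑ i, (x i - y i) ^ 2) hAc (by unfold Function.HasUncurry.uncurry; fun_prop)
  have hint1 : IntegrableOn (fun x : Fin d → ℝ => Real.exp (dsq x A / (4 * (1 + 2 * σ) ^ 2)))
      (AU σ U) := by
    have : Continuous (fun x : Fin d → ℝ => Real.exp (dsq x A / (4 * (1 + 2 * σ) ^ 2))) :=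
      Real.continuous_exp.comp (hdc.div_const _)
    exact (this.continuousOn.integrableOn_compact hKc).mono_set hAUK
  have hov : ∀ j, IntegrableOn (fun x => ov R c j x) (AU σ U) := fun j =>
    ((ov_cont R c j).continuousOn.integrableOn_compact hKc).mono_set hAUK
  -- rows
  have hcol : ∑ j, ∑ l ∈ U, R j l ^ 2 = U.card := by
    rw [sum_comm]
    simp only [col_sq R hR, sum_const, nsmul_eq_mul, mul_one]
  have hrows : ∀ j, c₀ * w32 (om R j) * V ≤
      (∫ x in AU σ U, ov R c j x) + c₀ * 1000 * (∑ l ∈ U, R j l ^ 2) * V := by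
    intro j
    have hI0 : 0 ≤ ∫ x in AU σ U, ov R c j x :=
      integral_nonneg fun x => ov_nonneg R c j x
    have hS0 : 0 ≤ ∑ l ∈ U, R j l ^ 2 := sum_nonneg fun _ _ => sq_nonneg _
    have hom0 : 0 ≤ om R j := by
      have : R j j ^ 2 ≤ ∑ l, R j l ^ 2 :=
        single_le_sum (f := fun l => R j l ^ 2) (fun _ _ => sq_nonneg _) (mem_univ j)
      rw [row_sq R hR j] at this
      unfold om; linarith
    set m : ℝ := min (om R j) (1/2) with hm
    have hm0 : 0 ≤ m := le_min hom0 (by norm_num)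
    have hm1 : m ≤ 1/2 := min_le_right _ _
    have hw : w32 (om R j) = m * Real.sqrt m := rfl
    rw [hw]
    rcases eq_or_lt_of_le hm0 with hm00 | hmpos
    · rw [← hm00]
      have : 0 ≤ c₀ * 1000 * (∑ l ∈ U, R j l ^ 2) * V := by positivity
      simp only [zero_mul, mul_zero]
      linarith
    · by_cases hv : ∑ l ∈ U, R j l ^ 2 ≤ m / 1000
      · have := hrow d U σ hσ (R j) (c j) m hmpos hm1 (row_sq R hR j) hv (by
          intro l
          by_cases hl : 1/2 < R j l ^ 2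
          · have := (hN j l hl).1
            subst this
            have : m ≤ om R j := min_le_left _ _
            unfold om at this
            linarith
          · push Not at hl
            linarith)
        have h0 : 0 ≤ c₀ * 1000 * (∑ l ∈ U, R j l ^ 2) * V := by positivity
        have e : ∫ x in AU σ U, (max (|∑ l, R j l * x l - c j| - 1/2) 0) ^ 2 =
          ∫ x in AU σ U, ov R c j x := rfl
        rw [e] at this
        linarith
      · push Not at hv
        have hs1 : Real.sqrt m ≤ 1 := by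
          rw [show (1:ℝ) = Real.sqrt 1 by simp]
          exact Real.sqrt_le_sqrt (by linarith)
        have h4 : m * Real.sqrt m ≤ 1000 * ∑ l ∈ U, R j l ^ 2 := by
          have : m * Real.sqrt m ≤ m * 1 := mul_le_mul_of_nonneg_left hs1 hm0
          linarith
        have h5 : c₀ * (m * Real.sqrt m) * V ≤ c₀ * (1000 * ∑ l ∈ U, R j l ^ 2) * V :=
          mul_le_mul_of_nonneg_right (mul_le_mul_of_nonneg_left h4 hc₀.le) hVpos.le
        linarith
  have hsum : c₀ * (∑ j, w32 (om R j)) * V ≤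
      (∑ j, ∫ x in AU σ U, ov R c j x) + c₀ * 1000 * U.card * V := by
    have := sum_le_sum (s := (univ : Finset (Fin d))) fun j _ => hrows j
    rw [sum_add_distrib, ← sum_mul, ← mul_sum, ← sum_mul, ← mul_sum, hcol] at this
    exact this
  have hlog : 0 ≤ Real.log d := Real.log_nonneg (by linarith)
  have hZ : 16 * Real.log d * V ≤ ∑ j, ∫ x in AU σ U, ov R c j x := by
    have h5 : c₀ * ((1000 + 16 / c₀) * (U.card + Real.log d + 1)) * V ≤
        c₀ * (∑ j, w32 (om R j)) * V :=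
      mul_le_mul_of_nonneg_right (mul_le_mul_of_nonneg_left hbig hc₀.le) hVpos.le
    have h6 : c₀ * ((1000 + 16 / c₀) * (U.card + Real.log d + 1)) =
        (1000 * c₀ + 16) * (U.card + Real.log d + 1) := by
      field_simp
    rw [h6] at h5
    have hu : (0 : ℝ) ≤ U.card := Nat.cast_nonneg _
    have h7 : (1000 * c₀ * U.card + 16 * Real.log d) * V ≤
        (1000 * c₀ + 16) * (U.card + Real.log d + 1) * V := by
      refine mul_le_mul_of_nonneg_right ?_ hVpos.le
      nlinarith [mul_nonneg hc₀.le hlog, mul_nonneg hc₀.le hu]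
    nlinarith
  -- Jensen
  have hZint : ∑ j, ∫ x in AU σ U, ov R c j x = ∫ x in AU σ U, ∑ j, ov R c j x :=
    (integral_finsetSum _ fun j _ => hov j).symm
  rw [hZint] at hZ
  have hZi : IntegrableOn (fun x => ∑ j, ov R c j x) (AU σ U) :=
    integrable_finsetSum _ fun j _ => hov j
  have hjen : (d : ℝ) ^ 2 * V ≤
      ∫ x in AU σ U, Real.exp (dsq x A / (4 * (1 + 2 * σ) ^ 2)) := by
    have hpt : ∀ x, (d : ℝ) ^ 2 * (1 - 2 * Real.log d) + (d : ℝ) ^ 2 / 8 * ∑ j, ov R c j x ≤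
        Real.exp (dsq x A / (4 * (1 + 2 * σ) ^ 2)) := by
      intro x
      have hge := dsq_ge R c hR A hAne (fun y hy => hy.1) x
      have hZ0 : 0 ≤ ∑ j, ov R c j x := sum_nonneg fun j _ => ov_nonneg R c j x
      have hs : 4 * (1 + 2 * σ) ^ 2 ≤ 8 := by nlinarith
      have hs0 : 0 < 4 * (1 + 2 * σ) ^ 2 := by positivity
      have h8 : (∑ j, ov R c j x) / 8 ≤ dsq x A / (4 * (1 + 2 * σ) ^ 2) := by
        rw [div_le_div_iff₀ (by norm_num) hs0]
        have : (∑ j, ov R c j x) * (4 * (1 + 2 * σ) ^ 2) ≤ (∑ j, ov R c j x) * 8 :=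
          mul_le_mul_of_nonneg_left hs hZ0
        nlinarith
      have h9 := Real.add_one_le_exp ((∑ j, ov R c j x) / 8 - 2 * Real.log d)
      have h10 : Real.exp ((∑ j, ov R c j x) / 8) =
          (d : ℝ) ^ 2 * Real.exp ((∑ j, ov R c j x) / 8 - 2 * Real.log d) := by
        have : (d : ℝ) ^ 2 = Real.exp (2 * Real.log d) := by
          rw [two_mul, Real.exp_add, Real.exp_log hd0, sq]
        rw [this, ← Real.exp_add]; congr 1; ring
      have h11 : Real.exp ((∑ j, ov R c j x) / 8) ≤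
          Real.exp (dsq x A / (4 * (1 + 2 * σ) ^ 2)) := Real.exp_le_exp.mpr h8
      have h12 : (d : ℝ) ^ 2 * ((∑ j, ov R c j x) / 8 - 2 * Real.log d + 1) ≤
          (d : ℝ) ^ 2 * Real.exp ((∑ j, ov R c j x) / 8 - 2 * Real.log d) :=
        mul_le_mul_of_nonneg_left h9 (by positivity)
      rw [← h10] at h12
      have e : (d : ℝ) ^ 2 * (1 - 2 * Real.log d) + (d : ℝ) ^ 2 / 8 * ∑ j, ov R c j x =
          (d : ℝ) ^ 2 * ((∑ j, ov R c j x) / 8 - 2 * Real.log d + 1) := by ring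
      rw [e]
      exact h12.trans h11
    have hconst : IntegrableOn (fun _ : Fin d → ℝ => (d : ℝ) ^ 2 * (1 - 2 * Real.log d))
        (AU σ U) := by
      exact integrableOn_const hAUfin
    have hint2 : IntegrableOn (fun x : Fin d → ℝ =>
        (d : ℝ) ^ 2 * (1 - 2 * Real.log d) + (d : ℝ) ^ 2 / 8 * ∑ j, ov R c j x) (AU σ U) :=
      hconst.add (hZi.const_mul _)
    have h13 := setIntegral_mono hint2 hint1 hpt
    refine le_trans ?_ h13
    have e1 : ∫ x in AU σ U,
        ((d : ℝ) ^ 2 * (1 - 2 * Real.log d) + (d : ℝ) ^ 2 / 8 * ∑ j, ov R c j x) =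
        (d : ℝ) ^ 2 * (1 - 2 * Real.log d) * V +
          (d : ℝ) ^ 2 / 8 * ∫ x in AU σ U, ∑ j, ov R c j x := by
      have ea := integral_add hconst (hZi.const_mul ((d : ℝ) ^ 2 / 8))
      have eb : ∫ x in AU σ U, (d : ℝ) ^ 2 / 8 * ∑ j, ov R c j x =
          (d : ℝ) ^ 2 / 8 * ∫ x in AU σ U, ∑ j, ov R c j x := integral_const_mul _ _
      have ec : ∫ _x in AU σ U, (d : ℝ) ^ 2 * (1 - 2 * Real.log d) =
          V * ((d : ℝ) ^ 2 * (1 - 2 * Real.log d)) := by
        rw [setIntegral_const, smul_eq_mul]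
      rw [ea, eb, ec]; ring
    rw [e1]
    have hd2 : 0 ≤ (d : ℝ) ^ 2 / 8 := by positivity
    have h14 := mul_le_mul_of_nonneg_left hZ hd2
    nlinarith
  -- conclusion
  have hX0 : 0 ≤ volume.real (UC R c ∩ AU σ U) := measureReal_nonneg
  have h15 : (d : ℝ) ^ 2 * V * volume.real (UC R c ∩ AU σ U) ≤ V ^ 2 :=
    (mul_le_mul_of_nonneg_right hjen hX0).trans htal
  rw [le_div_iff₀ (by positivity)]
  have h16 : V * (volume.real (UC R c ∩ AU σ U) * (d : ℝ) ^ 2) ≤ V * V := by nlinarith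
  exact le_of_mul_le_mul_left h16 hVpos

end Pool.Agent.NC
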