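import Pool.Agent.NewtonCov.Stmts

/-!
MP_a2070a_co, module FIB: volume of a set with thin fibres in the directions of the rows with
index in `U`.   (helper7)
-/

set_option autoImplicit false

namespace Pool.Agent.NC

open MeasureTheory Finset
open scoped Pointwise

set_option linter.unusedSectionVars false
set_option linter.deprecated false

namespace FIB

/-! ## determinant bound -/

section det

variable {ι : Type} [Fintype ι] [DecidableEq ι]

/-- Euclidean ball in the plain function space -/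
def KB (ι : Type) [Fintype ι] (r : ℝ) : Set (ι → ℝ) := {v | ∑ i, v i ^ 2 ≤ r ^ 2}

lemma KB_smul {r : ℝ} (hr : 0 < r) : KB ι r = r • KB ι 1 := by
  ext v
  rw [Set.mem_smul_set_iff_inv_smul_mem₀ hr.ne']
  simp only [KB, Set.mem_setOf_eq, Pi.smul_apply, smul_eq_mul, mul_pow, ← Finset.mul_sum]
  rw [one_pow, inv_pow, inv_mul_le_iff₀ (by positivity), mul_one]

lemma KB_fin : volume (KB ι 1) < ⊤ := by
  refine lt_of_le_of_lt (measure_mono (?_ : KB ι 1 ⊆ Set.Icc (fun _ => (-1 : ℝ)) (fun _ => 1))) ?_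
  · intro v hv
    simp only [KB, Set.mem_setOf_eq, one_pow] at hv
    have h : ∀ i, v i ^ 2 ≤ 1 := fun i =>
      (Finset.single_le_sum (f := fun i => v i ^ 2) (fun _ _ => sq_nonneg _)
        (Finset.mem_univ i)).trans hv
    exact ⟨fun i => (abs_le.1 ((sq_le_one_iff_abs_le_one _).1 (h i))).1,
      fun i => (abs_le.1 ((sq_le_one_iff_abs_le_one _).1 (h i))).2⟩
  · exact isCompact_Icc.measure_lt_top

lemma KB_pos : 0 < volume (KB ι 1) := by
  have h1 : {v : ι → ℝ | ∑ i, v i ^ 2 < 1} ⊆ KB ι 1 := fun v hv => by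
    simp only [KB, Set.mem_setOf_eq, one_pow]
    exact le_of_lt hv
  have h2 : IsOpen {v : ι → ℝ | ∑ i, v i ^ 2 < 1} :=
    isOpen_lt (by fun_prop) continuous_const
  exact (h2.measure_pos volume ⟨0, by simp⟩).trans_le (measure_mono h1)

/-- lower bound of the determinant -/
lemma det_ge (L : Matrix ι ι ℝ) {G : ℝ} (hG : 0 < G)
    (h : ∀ v : ι → ℝ, G * ∑ i, v i ^ 2 ≤ ∑ i, (L.mulVec v) i ^ 2) :
    G ^ Fintype.card ι ≤ L.det ^ 2 := by
  have hdet : L.det ≠ 0 := by
    intro h0
    obtain ⟨v, hv, hv0⟩ := Matrix.exists_mulVec_eq_zero_iff.2 h0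
    have h1 := h v
    rw [hv0] at h1
    simp only [Pi.zero_apply, ne_eq, OfNat.ofNat_ne_zero, not_false_eq_true, zero_pow,
      Finset.sum_const_zero] at h1
    have h2 : ∑ i, v i ^ 2 ≤ 0 := by
      by_contra h3
      push Not at h3
      nlinarith [mul_pos hG h3]
    have h3 : ∑ i, v i ^ 2 = 0 := le_antisymm h2 (Finset.sum_nonneg fun _ _ => sq_nonneg _)
    rw [Finset.sum_eq_zero_iff_of_nonneg fun _ _ => sq_nonneg _] at h3
    exact hv (funext fun i => by simpa using h3 i (Finset.mem_univ i))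
  set r : ℝ := Real.sqrt G with hr
  have hr0 : 0 < r := Real.sqrt_pos.2 hG
  have hrG : r ^ 2 = G := Real.sq_sqrt hG.le
  have hsub : (Matrix.toLin' L) ⁻¹' (KB ι r) ⊆ KB ι 1 := by
    intro v hv
    simp only [KB, Set.mem_preimage, Matrix.toLin'_apply, Set.mem_setOf_eq, one_pow] at hv ⊢
    have h1 := (h v).trans hv
    rw [hrG] at h1
    by_contra h2
    push Not at h2
    nlinarith
  have h1 := measure_mono (μ := volume) hsub
  rw [Measure.addHaar_preimage_linearMap volume (by rw [LinearMap.det_toLin']; exact hdet),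
    KB_smul hr0, Measure.addHaar_smul, LinearMap.det_toLin', Module.finrank_fintype_fun_eq_card,
    ← mul_assoc, ← ENNReal.ofReal_mul (abs_nonneg _)] at h1
  have h2 : ENNReal.ofReal (|L.det⁻¹| * |r ^ Fintype.card ι|) ≤ 1 := by
    have h3 : ENNReal.ofReal (|L.det⁻¹| * |r ^ Fintype.card ι|) * volume (KB ι 1) ≤
        1 * volume (KB ι 1) := by rwa [one_mul]
    exact (ENNReal.mul_le_mul_iff_left KB_pos.ne' KB_fin.ne).1 h3
  rw [ENNReal.ofReal_le_one, abs_inv, abs_of_pos (pow_pos hr0 _),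
    inv_mul_le_iff₀ (abs_pos.2 hdet), mul_one] at h2
  calc G ^ Fintype.card ι = (r ^ Fintype.card ι) ^ 2 := by rw [← hrG, ← pow_mul, ← pow_mul,
        mul_comm]
    _ ≤ |L.det| ^ 2 := pow_le_pow_left₀ (by positivity) h2 2
    _ = L.det ^ 2 := sq_abs _

end det

/-! ## thin sets -/

/-- a set whose image under a matrix has small diameter -/
lemma thin {ι : Type} [Fintype ι] [DecidableEq ι] (L : Matrix ι ι ℝ) (hL : 1 / 4 ≤ L.det ^ 2)
    (S : Set (ι → ℝ)) {w : ℝ} (hw : 0 ≤ w)
    (h : ∀ a ∈ S, ∀ b ∈ S, ∀ i, |(L.mulVec a) i - (L.mulVec b) i| ≤ w) :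
    volume S ≤ ENNReal.ofReal (2 * w ^ Fintype.card ι) := by
  have h1 : volume ((Matrix.toLin' L) '' S) ≤ ENNReal.ofReal w ^ Fintype.card ι := by
    refine (Real.volume_pi_le_diam_pow _).trans (pow_le_pow_left' (Metric.ediam_le ?_) _)
    rintro _ ⟨a, ha, rfl⟩ _ ⟨b, hb, rfl⟩
    rw [edist_dist]
    refine ENNReal.ofReal_le_ofReal ((dist_pi_le_iff hw).2 fun i => ?_)
    rw [Real.dist_eq, Matrix.toLin'_apply, Matrix.toLin'_apply]
    exact h a ha b hb i
  rw [Measure.addHaar_image_linearMap, LinearMap.det_toLin', ← ENNReal.ofReal_pow hw] at h1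
  have h2 : (1 : ℝ) / 2 ≤ |L.det| := by
    have h3 : (1 / 2 : ℝ) ^ 2 ≤ |L.det| ^ 2 := by rw [sq_abs]; linarith
    exact le_of_sq_le_sq h3 (abs_nonneg _)
  have h3 : ENNReal.ofReal (1 / 2) * volume S ≤ ENNReal.ofReal (w ^ Fintype.card ι) :=
    (mul_le_mul_left (ENNReal.ofReal_le_ofReal h2) _).trans h1
  calc volume S = ENNReal.ofReal 2 * (ENNReal.ofReal (1 / 2) * volume S) := by
        rw [← mul_assoc, ← ENNReal.ofReal_mul (by norm_num)]
        norm_num
    _ ≤ ENNReal.ofReal 2 * ENNReal.ofReal (w ^ Fintype.card ι) := mul_le_mul_right h3 _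
    _ = _ := by rw [← ENNReal.ofReal_mul (by norm_num)]

/-- the quadratic form bound -/
lemma quad {ι : Type} [Fintype ι] [DecidableEq ι] (L : Matrix ι ι ℝ) {e : ℝ} (he : 0 < e)
    (he1 : e ≤ 1 / 100) (h1 : ∀ k, 1 - e ≤ L k k ^ 2)
    (h2 : ∑ k, ∑ j ∈ Finset.univ.erase k, L k j ^ 2 ≤ e ^ 2) (v : ι → ℝ) :
    (1 - 3 * e) * ∑ i, v i ^ 2 ≤ ∑ i, (L.mulVec v) i ^ 2 := by
  set V : ℝ := ∑ i, v i ^ 2 with hV
  have hV0 : 0 ≤ V := Finset.sum_nonneg fun _ _ => sq_nonneg _
  have h3 : ∀ k, (L.mulVec v) k = L k k * v k + ∑ j ∈ Finset.univ.erase k, L k j * v j := by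
    intro k
    rw [Matrix.mulVec, dotProduct, ← Finset.add_sum_erase _ _ (Finset.mem_univ k)]
  have h4 : ∀ k, (∑ j ∈ Finset.univ.erase k, L k j * v j) ^ 2 ≤
      (∑ j ∈ Finset.univ.erase k, L k j ^ 2) * V := by
    intro k
    refine (Finset.sum_mul_sq_le_sq_mul_sq _ _ _).trans ?_
    refine mul_le_mul_of_nonneg_left ?_ (Finset.sum_nonneg fun _ _ => sq_nonneg _)
    exact Finset.sum_le_sum_of_subset_of_nonneg (Finset.subset_univ _)
      fun _ _ _ => sq_nonneg _
  have h5 : ∀ k, (1 - e) * ((1 - e) * v k ^ 2) -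
      (1 / e) * ((∑ j ∈ Finset.univ.erase k, L k j ^ 2) * V) ≤ (L.mulVec v) k ^ 2 := by
    intro k
    rw [h3 k]
    set a := L k k * v k with ha
    set b := ∑ j ∈ Finset.univ.erase k, L k j * v j with hb
    have ha2 : (1 - e) * v k ^ 2 ≤ a ^ 2 := by
      rw [ha, mul_pow]
      exact mul_le_mul_of_nonneg_right (h1 k) (sq_nonneg _)
    have h6 : (1 - e) * a ^ 2 - (1 / e) * b ^ 2 ≤ (a + b) ^ 2 := by
      have h7 : 0 ≤ (e * a + b) ^ 2 / e := by positivity
      have h8 : (e * a + b) ^ 2 / e = e * a ^ 2 + 2 * a * b + (1 / e) * b ^ 2 := by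
        field_simp
        ring
      nlinarith [sq_nonneg b]
    have h9 : (1 - e) * ((1 - e) * v k ^ 2) ≤ (1 - e) * a ^ 2 :=
      mul_le_mul_of_nonneg_left ha2 (by linarith)
    have h10 : (1 / e) * b ^ 2 ≤
        (1 / e) * ((∑ j ∈ Finset.univ.erase k, L k j ^ 2) * V) :=
      mul_le_mul_of_nonneg_left (h4 k) (by positivity)
    linarith
  have h6 := Finset.sum_le_sum fun k (_ : k ∈ Finset.univ) => h5 k
  rw [Finset.sum_sub_distrib, ← Finset.mul_sum, ← Finset.mul_sum, ← Finset.mul_sum,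
    ← Finset.sum_mul] at h6
  have h7 : (1 / e) * ((∑ k, ∑ j ∈ Finset.univ.erase k, L k j ^ 2) * V) ≤ e * V := by
    calc (1 / e) * ((∑ k, ∑ j ∈ Finset.univ.erase k, L k j ^ 2) * V)
        ≤ (1 / e) * (e ^ 2 * V) :=
          mul_le_mul_of_nonneg_left (mul_le_mul_of_nonneg_right h2 hV0) (by positivity)
      _ = e * V := by field_simp
  nlinarith [mul_nonneg (sq_nonneg e) hV0]

end FIB

open FIB in
theorem fib : S_FIB := by
  intro d R c hR U hU hk hq E w hw hE hsub hthin
  have hu : (1 : ℝ) ≤ U.card := by exact_mod_cast hU.card_pos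
  set e : ℝ := 1 / (100 * U.card) with he
  have he0 : 0 < e := by positivity
  have he1 : e ≤ 1 / 100 := by
    rw [he]
    exact one_div_le_one_div_of_le (by norm_num) (by linarith)
  set L : Matrix {j // j ∈ U} {j // j ∈ U} ℝ := fun k j => R j k with hL
  have hL1 : ∀ k, 1 - e ≤ L k k ^ 2 := by
    intro k
    have h1 := (hk k k.2).2
    unfold om at h1
    simp only [hL]
    linarith
  have hL2 : ∑ k, ∑ j ∈ Finset.univ.erase k, L k j ^ 2 ≤ e ^ 2 := by
    have h1 : ∑ k, ∑ j ∈ Finset.univ.erase k, L k j ^ 2 =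
        ∑ j, ∑ k ∈ Finset.univ.erase j, L k j ^ 2 := by
      refine Finset.sum_comm' fun x y => ?_
      simp only [Finset.mem_univ, Finset.mem_erase, true_and, and_true]
      exact ne_comm
    have h2 : ∀ j : {j // j ∈ U}, ∑ k ∈ Finset.univ.erase j, L k j ^ 2 = qU R U j := by
      intro j
      unfold qU
      have h3 := Finset.sum_erase_eq_sub (f := fun k : {j // j ∈ U} => L k j ^ 2)
        (Finset.mem_univ j)
      have h4 := Finset.sum_erase_eq_sub (f := fun l => R (j : Fin d) l ^ 2) j.2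
      rw [h3, h4, ← Finset.sum_coe_sort U]
    rw [h1, Finset.sum_congr rfl fun j _ => h2 j, Finset.sum_coe_sort U (fun j => qU R U j)]
    exact hq
  have hdet : 1 / 4 ≤ L.det ^ 2 := by
    have h1 := det_ge L (G := 1 - 3 * e) (by linarith) (quad L he0 he1 hL1 hL2)
    have h2 := one_add_mul_le_pow (a := -(3 * e)) (by linarith) (Fintype.card {j // j ∈ U})
    rw [← sub_eq_add_neg] at h2
    refine le_trans ?_ (h2.trans h1)
    rw [Fintype.card_coe]
    have h3 : (U.card : ℝ) * e = 1 / 100 := by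
      rw [he]
      field_simp
    nlinarith
  -- change of variables
  have hdR : |R.transpose.det| = 1 := by
    have h1 : R.det * R.transpose.det = 1 := by rw [← Matrix.det_mul, hR, Matrix.det_one]
    rw [Matrix.det_transpose] at h1 ⊢
    have h2 : |R.det| ^ 2 = 1 := by rw [sq_abs, sq]; exact h1
    exact (pow_eq_one_iff_of_nonneg (abs_nonneg _) two_ne_zero).1 h2
  set F : Set (Fin d → ℝ) := (Matrix.toLin' R.transpose) ⁻¹' E with hF
  have hFm : MeasurableSet F := by
    refine hE.preimage ?_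
    exact (LinearMap.continuous_of_finiteDimensional _).measurable
  have hvF : volume F = volume E := by
    rw [hF, Measure.addHaar_preimage_linearMap volume (by
      rw [LinearMap.det_toLin']
      intro h0
      rw [h0] at hdR
      norm_num at hdR), LinearMap.det_toLin', abs_inv, hdR]
    simp
  have hrow : ∀ t : Fin d → ℝ, ∀ j, ∑ l, R j l * (Matrix.toLin' R.transpose t) l = t j := by
    intro t j
    have h1 : R.mulVec (R.transpose.mulVec t) = t := by
      rw [Matrix.mulVec_mulVec, hR, Matrix.one_mulVec]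
    have h2 := congrFun h1 j
    rw [Matrix.toLin'_apply]
    exact h2
  set ee := MeasurableEquiv.piEquivPiSubtypeProd (fun _ : Fin d => ℝ) (fun j => j ∈ U) with hee
  have hmp := volume_preserving_piEquivPiSubtypeProd (fun _ : Fin d => ℝ) (fun j => j ∈ U)
  set F' := ee.symm ⁻¹' F with hF'
  have hF'm : MeasurableSet F' := hFm.preimage ee.symm.measurable
  have hvF' : volume F' = volume F := by
    have h0 := (hmp.symm _).measure_preimage_equiv F
    have hI : (Subtype.fintype (fun j => j ∈ U) : Fintype {j // j ∈ U}) =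
        Finset.Subtype.fintype U := Subsingleton.elim _ _
    rw [hI] at h0
    exact h0
  have hin : ∀ (x : {j // j ∈ U} → ℝ) (y : {j // j ∉ U} → ℝ) (j : {j // j ∈ U}),
      ee.symm (x, y) j = x j := by
    intro x y j
    simp [hee, MeasurableEquiv.piEquivPiSubtypeProd, Equiv.piEquivPiSubtypeProd, j.2]
  have hout : ∀ (x : {j // j ∈ U} → ℝ) (y : {j // j ∉ U} → ℝ) (j : {j // j ∉ U}),
      ee.symm (x, y) j = y j := by
    intro x y j
    simp [hee, MeasurableEquiv.piEquivPiSubtypeProd, Equiv.piEquivPiSubtypeProd, j.2]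
  have hprod : volume F' = ∫⁻ y, volume ((fun x => (x, y)) ⁻¹' F') := by
    have h1 : (volume : Measure (({j // j ∈ U} → ℝ) × ({j // j ∉ U} → ℝ))) =
        (volume : Measure ({j // j ∈ U} → ℝ)).prod volume := rfl
    rw [h1, Measure.prod_apply_symm hF'm]
  set Bx : Set ({j // j ∉ U} → ℝ) :=
    Set.Icc (fun j => c j - 1 / 2) (fun j => c j + 1 / 2) with hBx
  have hBxv : volume Bx = 1 := by
    rw [hBx, Real.volume_Icc_pi]
    refine Finset.prod_eq_one fun j _ => ?_
    rw [show c j + 1 / 2 - (c j - 1 / 2) = 1 by ring]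
    simp
  have hsl : ∀ y, volume ((fun x => (x, y)) ⁻¹' F') ≤
      Bx.indicator (fun _ => ENNReal.ofReal (2 * w ^ U.card)) y := by
    intro y
    by_cases hy : y ∈ Bx
    · rw [Set.indicator_of_mem hy]
      have h1 := thin L hdet ((fun x => (x, y)) ⁻¹' F') hw (fun a ha b hb k => by
        have ha' : Matrix.toLin' R.transpose (ee.symm (a, y)) ∈ E := ha
        have hb' : Matrix.toLin' R.transpose (ee.symm (b, y)) ∈ E := hb
        have h2 := hthin _ ha' _ hb' (fun j hj => by
          rw [hrow, hrow, hout a y ⟨j, hj⟩, hout b y ⟨j, hj⟩]) k k.2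
        have h3 : ∀ z : {j // j ∈ U} → ℝ, (Matrix.toLin' R.transpose (ee.symm (z, y))) k =
            (L.mulVec z) k + ∑ j : {j // j ∉ U}, R j k * y j := by
          intro z
          rw [Matrix.toLin'_apply, Matrix.mulVec, dotProduct,
            ← Fintype.sum_subtype_add_sum_subtype (fun j => j ∈ U)]
          congr 1
          · refine Finset.sum_congr (by ext; simp) fun j _ => ?_
            rw [hin z y j]
            rfl
          · refine Finset.sum_congr rfl fun j _ => ?_
            rw [hout z y j]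
            rfl
        rw [h3 a, h3 b, add_sub_add_right_eq_sub] at h2
        exact h2)
      rwa [Fintype.card_coe] at h1
    · rw [Set.indicator_of_notMem hy]
      refine le_of_eq ?_
      have h1 : (fun x => (x, y)) ⁻¹' F' = ∅ := by
        rw [Set.eq_empty_iff_forall_notMem]
        intro a ha
        refine hy ?_
        have ha' : Matrix.toLin' R.transpose (ee.symm (a, y)) ∈ E := ha
        have h2 := hsub ha'
        have h3 : ∀ j : {j // j ∉ U}, |y j - c j| ≤ 1 / 2 := by
          intro j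
          have h4 := h2 j
          rw [hrow, hout a y j] at h4
          exact h4
        exact ⟨fun j => by linarith [(abs_le.1 (h3 j)).1],
          fun j => by linarith [(abs_le.1 (h3 j)).2]⟩
      rw [h1, measure_empty]
  have hfin : volume E ≤ ENNReal.ofReal (2 * w ^ U.card) := by
    rw [← hvF, ← hvF', hprod]
    refine (lintegral_mono hsl).trans ?_
    rw [lintegral_indicator measurableSet_Icc, setLIntegral_const, hBxv, mul_one]
  exact ENNReal.toReal_le_of_le_ofReal (by positivity) hfin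

end Pool.Agent.NC
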