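import Pool.Agent.NewtonCov.Stmts

/-!
MP_a2070a_co, module L1: pair lemma for cubes nearly aligned on `U` (see `PAPER.md`).
-/

set_option autoImplicit false

namespace Pool.Agent.NC

open Finset

theorem l1_row {d : ℕ} {R : Matrix (Fin d) (Fin d) ℝ} (h : R * R.transpose = 1) (k : Fin d) :
    ∑ l, R k l ^ 2 = 1 := by
  have h1 := congrFun (congrFun h k) k
  rw [Matrix.mul_apply, Matrix.one_apply_eq] at h1
  rw [← h1]
  refine sum_congr rfl fun l _ => ?_
  rw [Matrix.transpose_apply, sq]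

theorem l1_col {d : ℕ} {R : Matrix (Fin d) (Fin d) ℝ} (h : R * R.transpose = 1) (k : Fin d) :
    ∑ l, R l k ^ 2 = 1 := by
  have h' : R.transpose * R = 1 := mul_eq_one_comm.mp h
  have h1 := congrFun (congrFun h' k) k
  rw [Matrix.mul_apply, Matrix.one_apply_eq] at h1
  rw [← h1]
  refine sum_congr rfl fun l _ => ?_
  rw [Matrix.transpose_apply, sq]

theorem l1_norm {d : ℕ} {R : Matrix (Fin d) (Fin d) ℝ} (h : R * R.transpose = 1)
    (y : Fin d → ℝ) : ∑ k, (∑ j, R j k * y j) ^ 2 = ∑ k, y k ^ 2 := by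
  have e : ∀ k, (∑ j, R j k * y j) ^ 2 = ∑ i, ∑ j, (R i k * R j k) * (y i * y j) := by
    intro k
    rw [sq, Finset.sum_mul_sum]
    exact sum_congr rfl fun i _ => sum_congr rfl fun j _ => by ring
  simp_rw [e]
  rw [sum_comm]
  refine sum_congr rfl fun i _ => ?_
  rw [sum_comm]
  have e2 : ∀ j, ∑ k, R i k * R j k * (y i * y j) = (if i = j then 1 else 0) * (y i * y j) := by
    intro j
    rw [← Finset.sum_mul]
    congr 1
    have h1 := congrFun (congrFun h i) j
    rw [Matrix.mul_apply, Matrix.one_apply] at h1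
    rw [← h1]
    exact sum_congr rfl fun l _ => by rw [Matrix.transpose_apply]
  simp_rw [e2]
  simp [sq]

/-- `R_kk ^ 2` plus the mass of row `k` on `U \ {k}` is at most one. -/
theorem l1_q_le {d : ℕ} {R : Matrix (Fin d) (Fin d) ℝ} (h : R * R.transpose = 1)
    (U : Finset (Fin d)) (k : Fin d) : qU R U k ≤ om R k := by
  have h1 := l1_row h k
  have h2 : qU R U k ≤ ∑ l ∈ univ.erase k, R k l ^ 2 :=
    sum_le_sum_of_subset_of_nonneg (erase_subset_erase _ (subset_univ _))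
      (fun _ _ _ => sq_nonneg _)
  have h3 := Finset.add_sum_erase univ (fun l => R k l ^ 2) (mem_univ k)
  unfold om
  linarith

theorem l1_q_nonneg {d : ℕ} (R : Matrix (Fin d) (Fin d) ℝ) (U : Finset (Fin d)) (k : Fin d) :
    0 ≤ qU R U k := sum_nonneg fun _ _ => sq_nonneg _

/-- Cauchy-Schwarz for a partial column sum. -/
theorem l1_cs {d : ℕ} (R : Matrix (Fin d) (Fin d) ℝ) (y : Fin d → ℝ) (S : Finset (Fin d))
    (k : Fin d) : (∑ j ∈ S, R j k * y j) ^ 2 ≤ (∑ j ∈ S, R j k ^ 2) * ∑ j ∈ S, y j ^ 2 :=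
  Finset.sum_mul_sq_le_sq_mul_sq S (fun j => R j k) y

theorem l1 : S_L1 := by
  intro d R hR U hU hdiag hsum σ hσ huσ y hy0 hy1 D hDU hD hzD hzU
  set z : Fin d → ℝ := fun k => ∑ j, R j k * y j with hz
  have hq0 := l1_q_nonneg R U
  have hqm := l1_q_le hR U
  have hom0 : ∀ k, 0 ≤ om R k := fun k => le_trans (hq0 k) (hqm k)
  have hu1 : (1 : ℝ) ≤ U.card := by
    exact_mod_cast hU.card_pos
  -- positive off diagonal mass on `D`
  have hmpos : ∀ k ∈ D, 0 < om R k := by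
    intro k hk
    rcases lt_or_eq_of_le (hom0 k) with h | h
    · exact h
    exfalso
    have hkk : R k k ^ 2 = 1 := by unfold om at h; linarith
    have hc := l1_col hR k
    have h3 := Finset.add_sum_erase univ (fun l => R l k ^ 2) (mem_univ k)
    have h4 : ∑ l ∈ univ.erase k, R l k ^ 2 = 0 := by linarith
    have h5 : ∀ l ∈ univ.erase k, R l k ^ 2 = 0 :=
      (Finset.sum_eq_zero_iff_of_nonneg (fun _ _ => sq_nonneg _)).mp h4
    have h6 := Finset.add_sum_erase univ (fun l => R l k * y l) (mem_univ k)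
    have h7 : ∑ l ∈ univ.erase k, R l k * y l = 0 := by
      refine sum_eq_zero fun l hl => ?_
      have := pow_eq_zero_iff (two_ne_zero) |>.mp (h5 l hl)
      rw [this, zero_mul]
    have h8 : ∑ j, R j k * y j = R k k * y k := by linarith
    have h9 := hzD k hk
    rw [h8, abs_mul] at h9
    have h10 : |R k k| = 1 := by
      have : |R k k| ^ 2 = 1 := by rw [sq_abs]; exact hkk
      nlinarith [abs_nonneg (R k k)]
    rw [h10, one_mul] at h9
    have := hy1 k
    linarith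
  by_contra hcon
  push Not at hcon
  have hlt : ∀ k ∈ D, |y k| < 1 - 11/5 * U.card * qU R U k := fun k hk => hcon k hk (hmpos k hk)
  -- the energy comparison
  have hnorm := l1_norm hR y
  have hsplit1 : ∑ k, y k ^ 2 = ∑ k ∈ D, y k ^ 2 + ∑ k ∈ U \ D, y k ^ 2 := by
    rw [← sum_sdiff (subset_univ U)]
    have : ∑ k ∈ univ \ U, y k ^ 2 = 0 := by
      refine sum_eq_zero fun k hk => ?_
      rw [hy0 k (by simpa using hk)]; norm_num
    rw [this, zero_add, ← sum_sdiff hDU, add_comm]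
  have hsplit2 : ∑ k ∈ D, z k ^ 2 ≤ ∑ k, z k ^ 2 :=
    sum_le_sum_of_subset_of_nonneg (subset_univ _) (fun _ _ _ => sq_nonneg _)
  have hY : ∑ k ∈ D, z k ^ 2 - ∑ k ∈ D, y k ^ 2 ≤ ∑ k ∈ U \ D, y k ^ 2 := by
    have : ∑ k, z k ^ 2 = ∑ k, y k ^ 2 := hnorm
    linarith
  set Y2 : ℝ := ∑ k ∈ U \ D, y k ^ 2 with hY2
  have hY2n : 0 ≤ Y2 := sum_nonneg fun _ _ => sq_nonneg _
  set Q : ℝ := ∑ k ∈ D, qU R U k with hQ
  have hQn : 0 ≤ Q := sum_nonneg fun k _ => hq0 k
  have hleft : 2 * σ + 11/5 * U.card * Q ≤ ∑ k ∈ D, z k ^ 2 - ∑ k ∈ D, y k ^ 2 := by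
    rw [← sum_sub_distrib]
    have h1 : ∑ k ∈ D, (2 * σ + 11/5 * U.card * qU R U k) ≤ ∑ k ∈ D, (z k ^ 2 - y k ^ 2) := by
      refine sum_le_sum fun k hk => ?_
      have ha := hlt k hk
      have hb := hzD k hk
      have hb' : 1 + σ ≤ |z k| := hb
      set b : ℝ := 11/5 * U.card * qU R U k with hbdef
      have hb0 : 0 ≤ b := by
        have := hq0 k
        positivity
      have hb1 : b ≤ 1 := by
        have := abs_nonneg (y k)
        linarith
      have h2 : (1 + σ) ^ 2 ≤ z k ^ 2 := by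
        rw [← sq_abs (z k)]
        exact pow_le_pow_left₀ (by linarith) hb' 2
      have h3 : y k ^ 2 ≤ (1 - b) ^ 2 := by
        rw [← sq_abs (y k)]
        exact pow_le_pow_left₀ (abs_nonneg _) ha.le 2
      nlinarith [sq_nonneg σ]
    rw [sum_add_distrib, sum_const, nsmul_eq_mul, ← mul_sum] at h1
    have hc : (1 : ℝ) ≤ D.card := by exact_mod_cast hD.card_pos
    nlinarith
  -- upper bound for `Y2`
  have hqsum : ∑ k ∈ U, qU R U k ≤ 1 / 10 ^ 4 := by
    have h1 : ∀ k ∈ U, qU R U k ≤ (1 / 100) * (qU R U k / om R k) := by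
      intro k hk
      rcases lt_or_eq_of_le (hom0 k) with h | h
      · have h2 := (hdiag k hk).2
        have h3 : (1 : ℝ) / (100 * U.card) ≤ 1 / 100 := by
          apply one_div_le_one_div_of_le (by norm_num)
          nlinarith
        have h4 : om R k ≤ 1 / 100 := h2.trans h3
        have h5 : 0 ≤ qU R U k / om R k := div_nonneg (hq0 k) h.le
        calc qU R U k = om R k * (qU R U k / om R k) := by field_simp
          _ ≤ (1 / 100) * (qU R U k / om R k) := mul_le_mul_of_nonneg_right h4 h5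
      · have h2 : qU R U k = 0 := le_antisymm (by rw [h]; exact hqm k) (hq0 k)
        rw [h2]; simp
    have h2 := sum_le_sum h1
    rw [← mul_sum] at h2
    have h3 : (1 : ℝ) / (100 * U.card) ≤ 1 / 100 := by
      apply one_div_le_one_div_of_le (by norm_num)
      nlinarith
    norm_num at h2 ⊢
    linarith
  have hz2 : ∑ k ∈ U \ D, z k ^ 2 ≤ σ / 4 := by
    have h1 : ∑ k ∈ U \ D, z k ^ 2 ≤ ∑ k ∈ U \ D, (σ / 2) ^ 2 := by
      refine sum_le_sum fun k hk => ?_
      rw [← sq_abs (z k)]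
      exact pow_le_pow_left₀ (abs_nonneg _) (hzU k hk) 2
    rw [sum_const, nsmul_eq_mul] at h1
    have h2 : ((U \ D).card : ℝ) ≤ U.card := by
      exact_mod_cast card_le_card sdiff_subset
    have h3 : ((U \ D).card : ℝ) * (σ / 2) ^ 2 ≤ U.card * (σ / 2) ^ 2 :=
      mul_le_mul_of_nonneg_right h2 (sq_nonneg _)
    have h4 : U.card * (σ / 2) ^ 2 = (U.card * σ) * (σ / 4) := by ring
    have h5 : (U.card * σ) * (σ / 4) ≤ 1 * (σ / 4) :=
      mul_le_mul_of_nonneg_right huσ (by linarith)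
    linarith
  set e : Fin d → ℝ := fun k => ∑ j ∈ D, R j k * y j with he
  set f : Fin d → ℝ := fun k => ∑ j ∈ (U \ D).erase k, R j k * y j with hf
  have hdec : ∀ k ∈ U \ D, R k k * y k = z k - e k - f k := by
    intro k hk
    have h1 : z k = ∑ j ∈ U, R j k * y j := by
      rw [hz]
      simp only
      rw [← sum_sdiff (subset_univ U)]
      have : ∑ j ∈ univ \ U, R j k * y j = 0 := by
        refine sum_eq_zero fun j hj => ?_
        rw [hy0 j (by simpa using hj), mul_zero]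
      rw [this, zero_add]
    have h2 : ∑ j ∈ U, R j k * y j = ∑ j ∈ U \ D, R j k * y j + ∑ j ∈ D, R j k * y j :=
      (sum_sdiff hDU).symm
    have h3 := Finset.add_sum_erase (U \ D) (fun j => R j k * y j) hk
    simp only [he, hf]
    linarith
  have hy1' : ∀ k, y k ^ 2 ≤ 1 := by
    intro k
    rw [← sq_abs]
    have := hy1 k
    nlinarith [abs_nonneg (y k)]
  have he2 : ∑ k ∈ U \ D, e k ^ 2 ≤ U.card * Q := by
    have h1 : ∀ k ∈ U \ D, e k ^ 2 ≤ U.card * ∑ j ∈ D, R j k ^ 2 := by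
      intro k _
      have h2 := l1_cs R y D k
      have h3 : ∑ j ∈ D, y j ^ 2 ≤ U.card := by
        have h4 : ∑ j ∈ D, y j ^ 2 ≤ ∑ j ∈ D, (1 : ℝ) := sum_le_sum fun j _ => hy1' j
        rw [sum_const, nsmul_eq_mul, mul_one] at h4
        have h5 : (D.card : ℝ) ≤ U.card := by exact_mod_cast card_le_card hDU
        linarith
      have h6 : 0 ≤ ∑ j ∈ D, R j k ^ 2 := sum_nonneg fun _ _ => sq_nonneg _
      calc e k ^ 2 ≤ (∑ j ∈ D, R j k ^ 2) * ∑ j ∈ D, y j ^ 2 := h2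
        _ ≤ (∑ j ∈ D, R j k ^ 2) * U.card := mul_le_mul_of_nonneg_left h3 h6
        _ = U.card * ∑ j ∈ D, R j k ^ 2 := mul_comm _ _
    refine (sum_le_sum h1).trans ?_
    rw [← mul_sum, sum_comm]
    refine mul_le_mul_of_nonneg_left ?_ (by linarith)
    refine sum_le_sum fun j hj => ?_
    refine sum_le_sum_of_subset_of_nonneg ?_ (fun _ _ _ => sq_nonneg _)
    intro k hk
    rw [mem_sdiff] at hk
    rw [mem_erase]
    exact ⟨fun h => hk.2 (h ▸ hj), hk.1⟩
  have hf2 : ∑ k ∈ U \ D, f k ^ 2 ≤ Y2 / 10 ^ 4 := by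
    have h1 : ∀ k ∈ U \ D, f k ^ 2 ≤ Y2 * ∑ j ∈ (U \ D).erase k, R j k ^ 2 := by
      intro k _
      have h2 := l1_cs R y ((U \ D).erase k) k
      have h3 : ∑ j ∈ (U \ D).erase k, y j ^ 2 ≤ Y2 :=
        sum_le_sum_of_subset_of_nonneg (erase_subset _ _) (fun _ _ _ => sq_nonneg _)
      have h6 : 0 ≤ ∑ j ∈ (U \ D).erase k, R j k ^ 2 := sum_nonneg fun _ _ => sq_nonneg _
      calc f k ^ 2 ≤ (∑ j ∈ (U \ D).erase k, R j k ^ 2) * ∑ j ∈ (U \ D).erase k, y j ^ 2 := h2
        _ ≤ (∑ j ∈ (U \ D).erase k, R j k ^ 2) * Y2 := mul_le_mul_of_nonneg_left h3 h6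
        _ = Y2 * ∑ j ∈ (U \ D).erase k, R j k ^ 2 := mul_comm _ _
    refine (sum_le_sum h1).trans ?_
    rw [← mul_sum]
    have h4 : ∑ k ∈ U \ D, ∑ j ∈ (U \ D).erase k, R j k ^ 2 ≤ ∑ k ∈ U, qU R U k := by
      have h5 : ∑ k ∈ U \ D, ∑ j ∈ (U \ D).erase k, R j k ^ 2 =
          ∑ j ∈ U \ D, ∑ k ∈ (U \ D).erase j, R j k ^ 2 := by
        refine sum_comm' ?_
        intro k j
        simp only [mem_erase]
        constructor
        · rintro ⟨h1, h2, h3⟩
          exact ⟨⟨fun h => h2 h.symm, h1⟩, h3⟩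
        · rintro ⟨⟨h1, h2⟩, h3⟩
          exact ⟨h2, fun h => h1 h.symm, h3⟩
      rw [h5]
      calc ∑ j ∈ U \ D, ∑ k ∈ (U \ D).erase j, R j k ^ 2
          ≤ ∑ j ∈ U \ D, qU R U j := by
            refine sum_le_sum fun j _ => ?_
            exact sum_le_sum_of_subset_of_nonneg (erase_subset_erase _ sdiff_subset)
              (fun _ _ _ => sq_nonneg _)
        _ ≤ ∑ k ∈ U, qU R U k :=
            sum_le_sum_of_subset_of_nonneg sdiff_subset (fun k _ _ => hq0 k)
    calc Y2 * ∑ k ∈ U \ D, ∑ j ∈ (U \ D).erase k, R j k ^ 2 ≤ Y2 * (1 / 10 ^ 4) :=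
          mul_le_mul_of_nonneg_left (h4.trans hqsum) hY2n
      _ = Y2 / 10 ^ 4 := by ring
  have hmain : 99 / 100 * Y2 ≤ 101 / 100 * (2 * ∑ k ∈ U \ D, z k ^ 2 + 2 * ∑ k ∈ U \ D, e k ^ 2) +
      101 * ∑ k ∈ U \ D, f k ^ 2 := by
    rw [hY2, mul_sum, mul_sum, mul_sum, mul_sum, ← sum_add_distrib, mul_sum, ← sum_add_distrib]
    refine sum_le_sum fun k hk => ?_
    have h1 := hdec k hk
    have h2 := (hdiag k (mem_sdiff.mp hk).1).2
    have h3 : (1 : ℝ) / (100 * U.card) ≤ 1 / 100 := by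
      apply one_div_le_one_div_of_le (by norm_num)
      nlinarith
    have h4 : 99 / 100 ≤ R k k ^ 2 := by
      unfold om at h2
      linarith
    have h5 : 99 / 100 * y k ^ 2 ≤ (z k - e k - f k) ^ 2 := by
      rw [← h1, mul_pow]
      exact mul_le_mul_of_nonneg_right h4 (sq_nonneg _)
    nlinarith [sq_nonneg (z k + e k), sq_nonneg ((z k - e k) / 10 + 10 * f k)]
  nlinarith [hmain, hf2, he2, hz2, hleft, hY, mul_nonneg (by linarith : (0:ℝ) ≤ U.card) hQn]

end Pool.Agent.NC
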