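import Pool.Agent.NewtonCov.Stmts

/-!
MP_a2070a_co: assembly of the main theorem from the modules.
-/

set_option autoImplicit false

namespace Pool.Agent.NC

open MeasureTheory Finset

theorem mn_row {d : ℕ} {R : Matrix (Fin d) (Fin d) ℝ} (hR : R * R.transpose = 1) (k : Fin d) :
    ∑ l, R k l ^ 2 = 1 := by
  have h := congrFun (congrFun hR k) k
  rw [Matrix.mul_apply] at h
  simp only [Matrix.transpose_apply, Matrix.one_apply_eq] at h
  rw [← h]
  exact sum_congr rfl fun l _ => by ring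

theorem mn_om_nonneg {d : ℕ} {R : Matrix (Fin d) (Fin d) ℝ} (hR : R * R.transpose = 1)
    (k : Fin d) : 0 ≤ om R k := by
  have h := mn_row hR k
  have h2 : R k k ^ 2 ≤ ∑ l, R k l ^ 2 :=
    single_le_sum (f := fun l => R k l ^ 2) (fun l _ => sq_nonneg _) (mem_univ k)
  unfold om
  linarith

theorem mn_om_le {d : ℕ} (R : Matrix (Fin d) (Fin d) ℝ) (k : Fin d) : om R k ≤ 1 := by
  unfold om
  nlinarith [sq_nonneg (R k k)]

theorem mn_off {d : ℕ} {R : Matrix (Fin d) (Fin d) ℝ} (hR : R * R.transpose = 1) (k : Fin d) :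
    ∑ l ∈ univ.erase k, R k l ^ 2 = om R k := by
  have h := mn_row hR k
  rw [← add_sum_erase univ (fun l => R k l ^ 2) (mem_univ k)] at h
  unfold om
  linarith

theorem mn_zero {d : ℕ} {R : Matrix (Fin d) (Fin d) ℝ} (hR : R * R.transpose = 1) (k : Fin d)
    (h0 : om R k = 0) (l : Fin d) (hl : l ≠ k) : R k l ^ 2 = 0 := by
  have h := mn_off hR k
  rw [h0] at h
  exact (sum_eq_zero_iff_of_nonneg (fun l _ => sq_nonneg (R k l))).mp h l (by simp [hl])

theorem mn_nonneg {C : ℝ} (hC : 0 < C) {u : ℕ} {s : ℝ} (hs : 0 ≤ s) :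
    0 ≤ 2 * (1/2 : ℝ) ^ u + C * u * s := by positivity

/-- The off diagonal masses divided by the row mass. -/
noncomputable def mnp {d : ℕ} (R : Matrix (Fin d) (Fin d) ℝ) (k l : Fin d) : ℝ :=
  if k = l then 0 else R k l ^ 2 / om R k

theorem mnp_self {d : ℕ} (R : Matrix (Fin d) (Fin d) ℝ) (k : Fin d) : mnp R k k = 0 := by
  simp [mnp]

theorem mnp_nonneg {d : ℕ} {R : Matrix (Fin d) (Fin d) ℝ} (hR : R * R.transpose = 1)
    (k l : Fin d) : 0 ≤ mnp R k l := by
  unfold mnp
  split_ifs
  · exact le_rfl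
  · exact div_nonneg (sq_nonneg _) (mn_om_nonneg hR k)

/-- The sum of `mnp` over a set containing or not the diagonal index. -/
theorem mnp_sum {d : ℕ} (R : Matrix (Fin d) (Fin d) ℝ) (S : Finset (Fin d)) (k : Fin d) :
    ∑ l ∈ S, mnp R k l = (∑ l ∈ S.erase k, R k l ^ 2) / om R k := by
  have h1 : ∑ l ∈ S, mnp R k l = ∑ l ∈ S.erase k, mnp R k l := by
    refine (sum_subset (erase_subset k S) fun l hl hl' => ?_).symm
    have : l = k := by
      by_contra hne
      exact hl' (mem_erase.mpr ⟨hne, hl⟩)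
    rw [this, mnp_self]
  rw [h1, sum_div]
  refine sum_congr rfl fun l hl => ?_
  have : k ≠ l := fun h => (mem_erase.mp hl).1 h.symm
  simp [mnp, this]

theorem mnp_sum_mul {d : ℕ} {R : Matrix (Fin d) (Fin d) ℝ} (hR : R * R.transpose = 1)
    (S : Finset (Fin d)) (k : Fin d) :
    (∑ l ∈ S, mnp R k l) * om R k = ∑ l ∈ S.erase k, R k l ^ 2 := by
  rw [mnp_sum]
  by_cases h0 : om R k = 0
  · rw [h0, mul_zero]
    symm
    exact sum_eq_zero fun l hl => mn_zero hR k h0 l (mem_erase.mp hl).1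
  · rw [div_mul_cancel₀ _ h0]

theorem mnp_total {d : ℕ} {R : Matrix (Fin d) (Fin d) ℝ} (hR : R * R.transpose = 1)
    (k : Fin d) : ∑ l, mnp R k l ≤ 1 := by
  rw [mnp_sum, mn_off hR k]
  exact div_self_le_one _

theorem mn_pos {d : ℕ} {R : Matrix (Fin d) (Fin d) ℝ} (hN : Nrm R) (k : Fin d)
    (hk : om R k < 1/2) : 0 < R k k := by
  refine (hN k k ?_).2
  unfold om at hk
  linarith

theorem mn_w32_zero : w32 0 = 0 := by
  simp [w32]

theorem mn_log {d : ℕ} (hd : 4 ≤ d) : Real.log d ≤ Nat.log 2 d + 1 := by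
  have h1 : d < 2 ^ (Nat.log 2 d + 1) := Nat.lt_pow_succ_log_self (by norm_num) d
  have h2 : (d : ℝ) ≤ 2 ^ (Nat.log 2 d + 1) := by exact_mod_cast h1.le
  have h3 : Real.log d ≤ Real.log (2 ^ (Nat.log 2 d + 1)) :=
    Real.log_le_log (by exact_mod_cast (by omega : 0 < d)) h2
  rw [Real.log_pow] at h3
  push_cast at h3
  have h4 : Real.log 2 ≤ 1 := by
    have := Real.log_two_lt_d9
    linarith
  have h5 : ((Nat.log 2 d : ℝ) + 1) * Real.log 2 ≤ (Nat.log 2 d + 1) * 1 :=
    mul_le_mul_of_nonneg_left h4 (by positivity)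
  linarith

theorem main_thm (hred : S_RED) (hvol : S_VOL) (hfar : S_FAR) (hnear : S_NEAR)
    (hsame : S_SAME) (hcomb : S_COMB) : S_MAIN := by
  intro ε hε
  by_cases hε1 : ε ≤ 1
  swap
  · refine ⟨1, fun d hd n hn => ?_⟩
    exfalso
    push Not at hε1
    have hd' : (1 : ℝ) ≤ d := by exact_mod_cast hd
    have hn0 : (0 : ℝ) ≤ n := Nat.cast_nonneg n
    nlinarith
  obtain ⟨A, hA, hcomb⟩ := hcomb ε hε hε1
  obtain ⟨C1, hC1, hfar⟩ := hfar
  obtain ⟨C2, hC2, hnear⟩ := hnear
  obtain ⟨C3, hC3, hsame⟩ := hsame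
  obtain ⟨C, hC⟩ : ∃ C : ℝ, C = max (C1 * (A + 3)) (max C2 C3) := ⟨_, rfl⟩
  have hCC1 : C1 * (A + 3) ≤ C := hC ▸ le_max_left _ _
  have hCC2 : C2 ≤ C := hC ▸ (le_max_left _ _).trans (le_max_right _ _)
  have hCC3 : C3 ≤ C := hC ▸ (le_max_right _ _).trans (le_max_right _ _)
  have hCpos : 0 < C := lt_of_lt_of_le hC2 hCC2
  obtain ⟨d₀, hd₀⟩ := hcomb C hCpos
  refine ⟨max d₀ 4, fun d hd n hn hcov => ?_⟩
  have hd4 : 4 ≤ d := le_trans (le_max_right _ _) hd
  obtain ⟨R, c, hR, hN, σ₁, hσ₁, hcover⟩ := hred d n hcov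
  obtain ⟨L, hL⟩ : ∃ L : ℕ, L = Nat.log 2 d := ⟨_, rfl⟩
  have hL1 : 1 ≤ L := by
    rw [hL]
    exact Nat.log_pos (by norm_num) (by omega)
  have hL1' : (1 : ℝ) ≤ L := by exact_mod_cast hL1
  classical
  obtain ⟨far, hfardef⟩ : ∃ far : Fin n → Prop, ∀ i, far i ↔
      C1 * (((A * L : ℕ) : ℝ) + Real.log d + 1) ≤ ∑ k, w32 (om (R i) k) := ⟨_, fun _ => Iff.rfl⟩
  -- data
  have hcomb2 := hd₀ d (le_trans (le_max_left _ _) hd) n hn
    (fun i k => if far i then 0 else om (R i) k) (fun i k l => if far i then 0 else mnp (R i) k l)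
    (by
      intro i k
      split_ifs
      · exact le_rfl
      · exact mn_om_nonneg (hR i) k)
    (by
      intro i k
      split_ifs
      · exact zero_le_one
      · exact mn_om_le (R i) k)
    (by
      intro i k l
      split_ifs
      · exact le_rfl
      · exact mnp_nonneg (hR i) k l)
    (by
      intro i k
      split_ifs
      · rfl
      · exact mnp_self (R i) k)
    (by
      intro i k
      split_ifs
      · simp
      · exact mnp_total (hR i) k)
    (by
      intro i
      split_ifs with h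
      · simp only [mn_w32_zero, sum_const_zero]
        positivity
      · rw [hfardef] at h
        push Not at h
        have h1 := mn_log hd4
        rw [← hL] at h1 ⊢
        have h2 : ((A * L : ℕ) : ℝ) + Real.log d + 1 ≤ (A + 3) * L := by
          push_cast
          nlinarith
        calc ∑ k, w32 (om (R i) k) ≤ C1 * (((A * L : ℕ) : ℝ) + Real.log d + 1) := h.le
          _ ≤ C1 * ((A + 3) * L) := mul_le_mul_of_nonneg_left h2 hC1.le
          _ = C1 * (A + 3) * L := by ring
          _ ≤ C * L := mul_le_mul_of_nonneg_right hCC1 (by positivity))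
  obtain ⟨U, b, hU, hb, hi⟩ := hcomb2
  rw [← hL] at hU
  have hUpos : 0 < U.card := by rw [hU]; positivity
  have hUne : U.Nonempty := card_pos.mp hUpos
  have hUR : (0 : ℝ) < U.card := by exact_mod_cast hUpos
  have hU1 : (1 : ℝ) ≤ U.card := by exact_mod_cast hUpos
  -- sigma
  obtain ⟨σ, hσdef⟩ : ∃ σ : ℝ, σ = min σ₁ (min (1/5) (1 / U.card)) := ⟨_, rfl⟩
  have hσ0 : 0 < σ := by
    rw [hσdef]
    refine lt_min hσ₁ (lt_min (by norm_num) (by positivity))
  have hσ1 : σ ≤ σ₁ := hσdef ▸ min_le_left _ _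
  have hσ2 : σ ≤ 1/5 := hσdef ▸ (min_le_right _ _).trans (min_le_left _ _)
  have hσ3 : σ ≤ 1 / U.card := hσdef ▸ (min_le_right _ _).trans (min_le_right _ _)
  have hσ4 : U.card * σ ≤ 1 := by
    have := (le_div_iff₀ hUR).mp hσ3
    linarith
  obtain ⟨hv1, hv2⟩ := hvol
  have hvpos := (hv1 d U σ hσ0).2
  have hsub := hv2 d n R c σ U hσ0 (fun x hx => hcover x fun k => (hx k).trans (by linarith))
  -- bounds for each cube
  have hb0 : ∀ i, 0 ≤ b i := by
    intro i
    rcases hi i with h | h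
    · refine le_trans ?_ h.2.2
      refine mn_nonneg hCpos (sum_nonneg fun k _ => mul_nonneg (sum_nonneg fun l _ => ?_)
        (Real.sqrt_nonneg _))
      split_ifs
      · exact le_rfl
      · exact mnp_nonneg (hR i) k l
    · obtain ⟨G, -, -, m₁, κ, hm₁, hκ, -, h⟩ := h
      refine le_trans ?_ h
      positivity
  have hkey : ∀ i, volume.real (UC (R i) (c i) ∩ AU σ U) ≤
      (b i + 1 / (d : ℝ) ^ 2) * volume.real (AU σ U) := by
    intro i
    have hd2 : (0 : ℝ) ≤ 1 / (d : ℝ) ^ 2 := by positivity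
    by_cases hf : far i
    · have h1 := hfar d (R i) (c i) (by omega) (hR i) (hN i) U σ hσ0 hσ2
        (by rw [hU]; exact (hfardef i).mp hf)
      calc volume.real (UC (R i) (c i) ∩ AU σ U) ≤ volume.real (AU σ U) / d ^ 2 := h1
        _ = (1 / (d : ℝ) ^ 2) * volume.real (AU σ U) := by ring
        _ ≤ (b i + 1 / (d : ℝ) ^ 2) * volume.real (AU σ U) :=
            mul_le_mul_of_nonneg_right (by linarith [hb0 i]) hvpos.le
    · have h2 : volume.real (UC (R i) (c i) ∩ AU σ U) ≤ b i * volume.real (AU σ U) := by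
        rcases hi i with h | h
        · simp only [hf, if_false] at h
          obtain ⟨ha1, ha2, ha3⟩ := h
          have hq : ∀ k, qU (R i) U k / om (R i) k = ∑ l ∈ U, mnp (R i) k l := by
            intro k
            rw [mnp_sum]
            rfl
          have h3 := hnear d (R i) (c i) (hR i) U hUne
            (by
              intro k hk
              refine ⟨mn_pos (hN i) k ?_, ha1 k hk⟩
              have h4 := ha1 k hk
              have h5 : 1 / (100 * (U.card : ℝ)) ≤ 1/100 := by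
                apply one_div_le_one_div_of_le (by norm_num)
                linarith
              linarith)
            (by
              simp_rw [hq]
              exact ha2) σ hσ0 hσ4
          refine h3.trans (mul_le_mul_of_nonneg_right ?_ hvpos.le)
          refine le_trans ?_ ha3
          simp_rw [hq]
          have h6 : 0 ≤ ∑ k ∈ U, (∑ l ∈ U, mnp (R i) k l) * Real.sqrt (om (R i) k) :=
            sum_nonneg fun k _ => mul_nonneg (sum_nonneg fun l _ => mnp_nonneg (hR i) k l)
              (Real.sqrt_nonneg _)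
          have h7 : C2 * U.card * ∑ k ∈ U, (∑ l ∈ U, mnp (R i) k l) * Real.sqrt (om (R i) k) ≤
              C * U.card * ∑ k ∈ U, (∑ l ∈ U, mnp (R i) k l) * Real.sqrt (om (R i) k) :=
            mul_le_mul_of_nonneg_right (mul_le_mul_of_nonneg_right hCC2 hUR.le) h6
          linarith
        · simp only [hf, if_false] at h
          obtain ⟨G, hGU, hG, m₁, κ, hm₁, hκ, hk, hb3⟩ := h
          have h3 := hsame d (R i) (c i) (hR i) U G hGU hG m₁ κ hm₁ hκ
            (by
              intro k hkG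
              obtain ⟨hk1, hk2, hk3, hk4⟩ := hk k hkG
              refine ⟨mn_pos (hN i) k hk2, hk1, ?_, ?_⟩
              · rw [← mnp_sum_mul (hR i)]
                exact mul_le_mul_of_nonneg_right hk3 (mn_om_nonneg (hR i) k)
              · have h4 : ∑ l ∈ U.erase k, R i k l ^ 2 ≤ 3/5 * om (R i) k := by
                  rw [← mnp_sum_mul (hR i)]
                  exact mul_le_mul_of_nonneg_right hk4 (mn_om_nonneg (hR i) k)
                have h5 : ∑ l ∈ U, R i k l ^ 2 + ∑ l ∈ Uᶜ, R i k l ^ 2 = 1 := by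
                  rw [sum_add_sum_compl]
                  exact mn_row (hR i) k
                have h6 : R i k k ^ 2 + ∑ l ∈ U.erase k, R i k l ^ 2 = ∑ l ∈ U, R i k l ^ 2 :=
                  add_sum_erase U (fun l => R i k l ^ 2) (hGU hkG)
                have h7 : om (R i) k = 1 - R i k k ^ 2 := rfl
                linarith) σ hσ0 hσ2
          refine h3.trans (mul_le_mul_of_nonneg_right ?_ hvpos.le)
          refine le_trans ?_ hb3
          have h6 : 0 ≤ Real.sqrt m₁ + Real.sqrt G.card * κ := by positivity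
          have h7 : C3 * G.card * (Real.sqrt m₁ + Real.sqrt G.card * κ) ≤
              C * G.card * (Real.sqrt m₁ + Real.sqrt G.card * κ) :=
            mul_le_mul_of_nonneg_right (mul_le_mul_of_nonneg_right hCC3 (by positivity)) h6
          linarith
      refine h2.trans (mul_le_mul_of_nonneg_right (by linarith) hvpos.le)
  have htot : ∑ j, volume.real (UC (R j) (c j) ∩ AU σ U) ≤
      (∑ j, (b j + 1 / (d : ℝ) ^ 2)) * volume.real (AU σ U) := by
    rw [sum_mul]
    exact sum_le_sum fun i _ => hkey i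
  have hsum : ∑ j, (b j + 1 / (d : ℝ) ^ 2) < 1 := by
    rw [sum_add_distrib, sum_const, card_univ, Fintype.card_fin, nsmul_eq_mul]
    have hd' : (4 : ℝ) ≤ d := by exact_mod_cast hd4
    have hn' : (n : ℝ) ≤ d := by nlinarith
    have h1 : (n : ℝ) * (1 / (d : ℝ) ^ 2) ≤ 1/4 := by
      rw [mul_one_div, div_le_div_iff₀ (by positivity) (by norm_num)]
      nlinarith
    linarith
  have : volume.real (AU σ U) < 1 * volume.real (AU σ U) :=
    lt_of_le_of_lt (hsub.trans htot) (mul_lt_mul_of_pos_right hsum hvpos)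
  linarith

end Pool.Agent.NC
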