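import Pool.Agent.NewtonCov.Stmts

/-!
MP_a2070a_co: volume bound for a cube nearly aligned on `U` (module NEAR, helper65).
-/

set_option autoImplicit false

namespace Pool.Agent.NC

open MeasureTheory Finset

namespace Near

variable {d : ℕ}

lemma sum_row {R : Matrix (Fin d) (Fin d) ℝ} (hR : R * R.transpose = 1) (k : Fin d) :
    ∑ l, R k l ^ 2 = 1 := by
  have h := congrFun (congrFun hR k) k
  rw [Matrix.mul_apply, Matrix.one_apply_eq] at h
  rw [← h]
  refine Finset.sum_congr rfl fun l _ => ?_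
  rw [Matrix.transpose_apply, sq]

lemma transpose_mul {R : Matrix (Fin d) (Fin d) ℝ} (hR : R * R.transpose = 1) (k l : Fin d) :
    ∑ j, R j k * R j l = if k = l then 1 else 0 := by
  have h : R.transpose * R = 1 := mul_eq_one_comm.mp hR
  have h1 := congrFun (congrFun h k) l
  rw [Matrix.mul_apply, Matrix.one_apply] at h1
  rw [← h1]
  refine Finset.sum_congr rfl fun j _ => ?_
  rw [Matrix.transpose_apply]

/-- inverse of the orthogonal change of variables -/
lemma back {R : Matrix (Fin d) (Fin d) ℝ} (hR : R * R.transpose = 1) (z : Fin d → ℝ)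
    (k : Fin d) : ∑ j, R j k * (∑ l, R j l * z l) = z k := by
  calc ∑ j, R j k * (∑ l, R j l * z l) = ∑ l, (∑ j, R j k * R j l) * z l := by
        simp_rw [Finset.mul_sum, Finset.sum_mul]
        rw [Finset.sum_comm]
        refine Finset.sum_congr rfl fun l _ => Finset.sum_congr rfl fun j _ => ?_
        ring
    _ = z k := by
        simp_rw [transpose_mul hR]
        simp

lemma qU_nonneg (R : Matrix (Fin d) (Fin d) ℝ) (U : Finset (Fin d)) (k : Fin d) :
    0 ≤ qU R U k := Finset.sum_nonneg fun _ _ => sq_nonneg _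

/-- the mass of a row outside `U` -/
lemma sum_compl {R : Matrix (Fin d) (Fin d) ℝ} (hR : R * R.transpose = 1)
    {U : Finset (Fin d)} {k : Fin d} (hk : k ∈ U) :
    ∑ l ∈ Uᶜ, R k l ^ 2 = om R k - qU R U k := by
  have h1 := sum_row hR k
  rw [← Finset.sum_add_sum_compl U] at h1
  have h2 : R k k ^ 2 + ∑ l ∈ U.erase k, R k l ^ 2 = ∑ l ∈ U, R k l ^ 2 :=
    Finset.add_sum_erase U (fun l => R k l ^ 2) hk
  unfold om qU
  linarith

lemma qU_le_om {R : Matrix (Fin d) (Fin d) ℝ} (hR : R * R.transpose = 1)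
    {U : Finset (Fin d)} {k : Fin d} (hk : k ∈ U) : qU R U k ≤ om R k := by
  have h1 := sum_compl hR hk
  have h2 : 0 ≤ ∑ l ∈ Uᶜ, R k l ^ 2 := Finset.sum_nonneg fun _ _ => sq_nonneg _
  linarith

end Near

open Near in
theorem near (h1 : S_L1) (h2 : S_FIB) (h3 : S_SLAB) (h4 : S_VOL) : S_NEAR := by
  obtain ⟨C, hC, hS⟩ := h3
  refine ⟨5 / 2 * C, by positivity, ?_⟩
  intro d R c hR U hU hm hq σ hσ hUσ
  obtain ⟨hv, hv0⟩ := h4.1 d U σ hσ
  have hu : (1 : ℝ) ≤ U.card := by exact_mod_cast hU.card_pos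
  set u : ℝ := (U.card : ℝ) with hu'
  set V : ℝ := volume.real (AU σ U) with hV
  -- finiteness
  have hfin : volume (AU σ U) ≠ ⊤ := by
    intro h
    rw [hV, measureReal_def, h] at hv0
    simp at hv0
  have hm0 : ∀ k ∈ U, 0 ≤ om R k := fun k hk => (qU_nonneg R U k).trans (qU_le_om hR hk)
  have hqm : ∀ k ∈ U, qU R U k / om R k ≤ 1 / (100 * u) := fun k hk =>
    (Finset.single_le_sum (f := fun k => qU R U k / om R k)
      (fun i hi => div_nonneg (qU_nonneg R U i) (hm0 i hi)) hk).trans hq
  obtain ⟨b, hb⟩ : ∃ b : Fin d → ℝ, b = fun k => 11 / 5 * u * qU R U k := ⟨_, rfl⟩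
  have hb0 : ∀ k, 0 ≤ b k := fun k => by
    rw [hb]
    have := qU_nonneg R U k
    positivity
  have hmT : ∀ k, Measurable (fun x : Fin d → ℝ => ∑ l, R k l * x l - c k) := fun k => by
    fun_prop
  have hUC : MeasurableSet (UC R c) := by
    have : UC R c = ⋂ j, {x : Fin d → ℝ | |∑ l, R j l * x l - c j| ≤ 1 / 2} := by
      ext x
      simp [UC]
    rw [this]
    exact MeasurableSet.iInter fun j => measurableSet_le (hmT j).abs measurable_const
  have hAU : MeasurableSet (AU (d := d) σ U) := by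
    have : AU (d := d) σ U = (⋂ k, {x : Fin d → ℝ | |x k| ≤ 1 / 2 + σ}) ∩
        ⋂ k ∈ U, {x : Fin d → ℝ | 1 / 2 + σ / 2 ≤ |x k|} := by
      ext x
      simp [AU]
    rw [this]
    refine MeasurableSet.inter (MeasurableSet.iInter fun j =>
      measurableSet_le (measurable_pi_apply j).abs measurable_const) ?_
    exact MeasurableSet.biInter (Finset.countable_toSet U) fun j _ =>
      measurableSet_le measurable_const (measurable_pi_apply j).abs
  obtain ⟨U', hU'⟩ : ∃ U' : Finset (Fin d), U' = U.filter (fun k => 0 < om R k) := ⟨_, rfl⟩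
  obtain ⟨E, hE⟩ : ∃ E : Set (Fin d → ℝ), E = (UC R c ∩ AU σ U) ∩
    ⋂ k ∈ U', {x : Fin d → ℝ | |∑ l, R k l * x l - c k| < 1 / 2 - b k} := ⟨_, rfl⟩
  have hEm : MeasurableSet E := by
    rw [hE]
    refine (hUC.inter hAU).inter ?_
    exact MeasurableSet.biInter (Finset.countable_toSet U') fun j _ =>
      measurableSet_lt (hmT j).abs measurable_const
  have hEmem : ∀ x ∈ E, (∀ j, |∑ l, R j l * x l - c j| ≤ 1 / 2) ∧
      (∀ k ∈ U, 1 / 2 + σ / 2 ≤ |x k| ∧ |x k| ≤ 1 / 2 + σ) ∧
      ∀ k ∈ U, 0 < om R k → |∑ l, R k l * x l - c k| < 1 / 2 - b k := by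
    intro x hx
    rw [hE] at hx
    obtain ⟨⟨h5, h6, h7⟩, h8⟩ := hx
    refine ⟨h5, fun k hk => ⟨h7 k hk, h6 k⟩, fun k hk hk' => ?_⟩
    have := Set.mem_iInter₂.1 h8 k (by rw [hU']; exact Finset.mem_filter.2 ⟨hk, hk'⟩)
    exact this
  -- the thin part
  have hq2 : ∑ k ∈ U, qU R U k ≤ (1 / (100 * u)) ^ 2 := by
    calc ∑ k ∈ U, qU R U k ≤ ∑ k ∈ U, (1 / (100 * u)) * (qU R U k / om R k) := by
          refine Finset.sum_le_sum fun k hk => ?_
          rcases (hm0 k hk).eq_or_lt with h5 | h5
          · have h6 := qU_le_om hR hk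
            rw [← h5] at h6 ⊢
            simpa using h6
          · have h6 : qU R U k = om R k * (qU R U k / om R k) := by
              field_simp
            have h7 : 0 ≤ qU R U k / om R k := div_nonneg (qU_nonneg R U k) h5.le
            calc qU R U k = om R k * (qU R U k / om R k) := h6
              _ ≤ _ := mul_le_mul_of_nonneg_right (hm k hk).2 h7
      _ = (1 / (100 * u)) * ∑ k ∈ U, qU R U k / om R k := by rw [Finset.mul_sum]
      _ ≤ (1 / (100 * u)) * (1 / (100 * u)) := mul_le_mul_of_nonneg_left hq (by positivity)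
      _ = _ := by ring
  have hthin : volume.real E ≤ 2 * (σ / 2) ^ U.card := by
    refine h2 d R c hR U hU hm hq2 E (σ / 2) (by positivity) hEm (fun x hx => ?_) ?_
    · rw [hE] at hx
      exact hx.1.1
    · intro x hx x' hx' hj
      obtain ⟨x1, x2, x3⟩ := hEmem x hx
      obtain ⟨y1, y2, y3⟩ := hEmem x' hx'
      obtain ⟨z, hz⟩ : ∃ z : Fin d → ℝ, z = fun l => x l - x' l := ⟨_, rfl⟩
      obtain ⟨y, hy⟩ : ∃ y : Fin d → ℝ, y = fun j => ∑ l, R j l * z l := ⟨_, rfl⟩
      have hyT : ∀ j, y j = (∑ l, R j l * x l - c j) - (∑ l, R j l * x' l - c j) := by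
        intro j
        rw [hy, hz]
        simp only [mul_sub, Finset.sum_sub_distrib]
        ring
      have hyz : ∀ k, ∑ j, R j k * y j = z k := fun k => by
        rw [hy]
        exact back hR z k
      have hdich : ∀ k ∈ U, |z k| ≤ σ / 2 ∨ 1 + σ ≤ |z k| := by
        intro k hk
        obtain ⟨a1, a2⟩ := x2 k hk
        obtain ⟨a3, a4⟩ := y2 k hk
        have hzk : z k = x k - x' k := by rw [hz]
        rw [hzk]
        rcases le_total 0 (x k) with h5 | h5 <;> rcases le_total 0 (x' k) with h6 | h6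
        · rw [abs_of_nonneg h5] at a1 a2
          rw [abs_of_nonneg h6] at a3 a4
          left
          rw [abs_le]
          constructor <;> linarith
        · rw [abs_of_nonneg h5] at a1 a2
          rw [abs_of_nonpos h6] at a3 a4
          right
          exact le_trans (by linarith) (le_abs_self _)
        · rw [abs_of_nonpos h5] at a1 a2
          rw [abs_of_nonneg h6] at a3 a4
          right
          exact le_trans (by linarith) (neg_le_abs _)
        · rw [abs_of_nonpos h5] at a1 a2
          rw [abs_of_nonpos h6] at a3 a4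
          left
          rw [abs_le]
          constructor <;> linarith
      by_contra hcon
      push Not at hcon
      obtain ⟨k0, hk0, hk0'⟩ := hcon
      obtain ⟨D, hD⟩ : ∃ D : Finset (Fin d), D = U.filter (fun k => 1 + σ ≤ |z k|) := ⟨_, rfl⟩
      have hDne : D.Nonempty := by
        refine ⟨k0, ?_⟩
        rw [hD, Finset.mem_filter]
        refine ⟨hk0, ?_⟩
        rcases hdich k0 hk0 with h5 | h5
        · rw [hz] at h5
          exact absurd h5 (not_le.2 hk0')
        · exact h5
      obtain ⟨k, hkD, hk1, hk2⟩ := h1 d R hR U hU hm hq σ hσ hUσ y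
        (fun j hj' => by
          rw [hyT j, hj j hj']
          ring)
        (fun j => by
          rw [hyT j]
          have h5 := abs_sub (∑ l, R j l * x l - c j) (∑ l, R j l * x' l - c j)
          linarith [x1 j, y1 j])
        D (by rw [hD]; exact Finset.filter_subset _ _) hDne
        (fun k hk => by
          rw [hyz k]
          rw [hD, Finset.mem_filter] at hk
          exact hk.2)
        (fun k hk => by
          rw [hyz k]
          rw [hD, Finset.mem_sdiff, Finset.mem_filter] at hk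
          rcases hdich k hk.1 with h5 | h5
          · exact h5
          · exact absurd ⟨hk.1, h5⟩ hk.2)
      have hkU : k ∈ U := by
        rw [hD] at hkD
        exact (Finset.mem_filter.1 hkD).1
      have h5 := x3 k hkU hk1
      have h6 := y3 k hkU hk1
      have h7 := abs_sub (∑ l, R k l * x l - c k) (∑ l, R k l * x' l - c k)
      rw [← hyT k] at h7
      have h8 : 11 / 5 * (U.card : ℝ) * qU R U k = b k := by
        rw [hb]
      have h9 := hb0 k
      linarith
  -- the slabs
  have hslab : ∀ k ∈ U', ∀ a : ℝ,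
      volume.real {x : Fin d → ℝ | x ∈ AU σ U ∧ |∑ l, R k l * x l - a| ≤ b k / 2} ≤
        5 / 4 * C * u * (qU R U k / om R k * Real.sqrt (om R k)) * V := by
    intro k hk a
    rw [hU', Finset.mem_filter] at hk
    obtain ⟨hkU, hk0⟩ := hk
    have h5 := hS d U σ hσ (R k) a (b k / 2) (by have := hb0 k; positivity)
    rw [sum_compl hR hkU] at h5
    have h6 : qU R U k ≤ 1 / 100 * om R k := by
      have h7 := hqm k hkU
      rw [div_le_iff₀ hk0] at h7
      refine h7.trans (mul_le_mul_of_nonneg_right ?_ hk0.le)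
      rw [div_le_div_iff₀ (by positivity) (by norm_num)]
      linarith
    have h7 : 99 / 100 * Real.sqrt (om R k) ≤ Real.sqrt (om R k - qU R U k) := by
      rw [← Real.sqrt_sq (by norm_num : (0 : ℝ) ≤ 99 / 100), ← Real.sqrt_mul (by norm_num)]
      apply Real.sqrt_le_sqrt
      linarith
    have hs0 : 0 < Real.sqrt (om R k) := Real.sqrt_pos.2 hk0
    have hss : Real.sqrt (om R k) * Real.sqrt (om R k) = om R k := Real.mul_self_sqrt hk0.le
    generalize volume.real {x : Fin d → ℝ | x ∈ AU σ U ∧ |∑ l, R k l * x l - a| ≤ b k / 2} = W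
      at *
    have hbk : b k = 11 / 5 * u * qU R U k := by rw [hb]
    rw [hbk] at h5
    have hq0 := qU_nonneg R U k
    generalize qU R U k = q at *
    generalize om R k = m at *
    generalize Real.sqrt m = sm at *
    have hW : 0 ≤ W ∨ W < 0 := le_or_gt 0 W
    have h8 : q / m * sm = q / sm := by
      rw [← hss]
      field_simp
    rw [h8]
    rcases hW with hW | hW
    · have h9 : W * (99 / 100 * sm) ≤ C * (11 / 5 * u * q / 2) * V :=
        (mul_le_mul_of_nonneg_left h7 hW).trans h5
      have h10 : W ≤ C * (11 / 5 * u * q / 2) * V / (99 / 100 * sm) := by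
        rw [le_div_iff₀ (by positivity)]
        exact h9
      refine h10.trans ?_
      have h11 : C * (11 / 5 * u * q / 2) * V / (99 / 100 * sm) =
          10 / 9 * (C * u * (q / sm) * V) := by
        field_simp
        ring
      rw [h11]
      have h12 : 0 ≤ C * u * (q / sm) * V := by positivity
      linarith
    · refine hW.le.trans ?_
      positivity
  -- the union
  have hsub : UC R c ∩ AU σ U ⊆ E ∪ ⋃ k ∈ U',
      ({x : Fin d → ℝ | x ∈ AU σ U ∧ |∑ l, R k l * x l - (c k + (1 / 2 - b k / 2))| ≤ b k / 2} ∪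
       {x : Fin d → ℝ | x ∈ AU σ U ∧ |∑ l, R k l * x l - (c k - (1 / 2 - b k / 2))| ≤ b k / 2})
      := by
    intro x hx
    by_cases hxE : x ∈ E
    · exact Or.inl hxE
    · right
      have h5 : ∃ k ∈ U', 1 / 2 - b k ≤ |∑ l, R k l * x l - c k| := by
        by_contra hcon
        push Not at hcon
        exact hxE (by
          rw [hE]
          exact ⟨hx, Set.mem_iInter₂.2 hcon⟩)
      obtain ⟨k, hk, hk1⟩ := h5
      have hk2 := hx.1 k
      rw [Set.mem_iUnion₂]
      refine ⟨k, hk, ?_⟩
      rcases le_total 0 (∑ l, R k l * x l - c k) with h6 | h6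
      · rw [abs_of_nonneg h6] at hk1 hk2
        left
        refine ⟨hx.2, ?_⟩
        rw [abs_le]
        constructor <;> linarith
      · rw [abs_of_nonpos h6] at hk1 hk2
        right
        refine ⟨hx.2, ?_⟩
        rw [abs_le]
        constructor <;> linarith
  have hfinS : ∀ S : Set (Fin d → ℝ), S ⊆ AU σ U → volume S ≠ ⊤ := fun S hS' =>
    ne_top_of_le_ne_top hfin (measure_mono hS')
  have hEsub : E ⊆ AU σ U := fun x hx => by
    rw [hE] at hx
    exact hx.1.2
  have hfin2 : volume (E ∪ ⋃ k ∈ U',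
      ({x : Fin d → ℝ | x ∈ AU σ U ∧ |∑ l, R k l * x l - (c k + (1 / 2 - b k / 2))| ≤ b k / 2} ∪
       {x : Fin d → ℝ | x ∈ AU σ U ∧ |∑ l, R k l * x l - (c k - (1 / 2 - b k / 2))| ≤ b k / 2}))
      ≠ ⊤ := by
    refine hfinS _ (Set.union_subset hEsub ?_)
    refine Set.iUnion₂_subset fun k _ => Set.union_subset ?_ ?_
    · exact fun x hx => hx.1
    · exact fun x hx => hx.1
  have hmain : volume.real (UC R c ∩ AU σ U) ≤ 2 * (σ / 2) ^ U.card +
      ∑ k ∈ U', 5 / 2 * C * u * (qU R U k / om R k * Real.sqrt (om R k)) * V := by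
    refine (measureReal_mono hsub hfin2).trans ((measureReal_union_le _ _).trans
      (add_le_add hthin ?_))
    refine (measureReal_biUnion_finset_le _ _).trans (Finset.sum_le_sum fun k hk => ?_)
    refine (measureReal_union_le _ _).trans ?_
    have h5 := hslab k hk (c k + (1 / 2 - b k / 2))
    have h6 := hslab k hk (c k - (1 / 2 - b k / 2))
    linarith
  refine hmain.trans ?_
  have h5 : 2 * (σ / 2) ^ U.card ≤ 2 * (1 / 2) ^ U.card * V := by
    rw [hv]
    have h6 : (1 : ℝ) ≤ (1 + 2 * σ) ^ (d - U.card) := one_le_pow₀ (by linarith)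
    have h7 : (σ / 2) ^ U.card = (1 / 2) ^ U.card * (σ ^ U.card * 1) := by
      rw [mul_one, ← mul_pow]
      congr 1
      ring
    rw [h7, mul_assoc 2]
    refine mul_le_mul_of_nonneg_left ?_ (by norm_num)
    refine mul_le_mul_of_nonneg_left ?_ (by positivity)
    exact mul_le_mul_of_nonneg_left h6 (by positivity)
  have h6 : ∑ k ∈ U', 5 / 2 * C * u * (qU R U k / om R k * Real.sqrt (om R k)) * V ≤
      5 / 2 * C * u * (∑ k ∈ U, qU R U k / om R k * Real.sqrt (om R k)) * V := by
    rw [← Finset.sum_mul, ← Finset.mul_sum]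
    refine mul_le_mul_of_nonneg_right ?_ hv0.le
    refine mul_le_mul_of_nonneg_left ?_ (by positivity)
    rw [hU']
    refine Finset.sum_le_sum_of_subset_of_nonneg (Finset.filter_subset _ _) fun k hk _ => ?_
    exact mul_nonneg (div_nonneg (qU_nonneg R U k) (hm0 k hk)) (Real.sqrt_nonneg _)
  calc _ ≤ 2 * (1 / 2) ^ U.card * V +
        5 / 2 * C * u * (∑ k ∈ U, qU R U k / om R k * Real.sqrt (om R k)) * V := add_le_add h5 h6
    _ = _ := by ring

end Pool.Agent.NC
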