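import Pool.Agent.NewtonCov.Stmts

/-!
MP_a2070a_co, module NC_PZ: Paley-Zygmund for sums of independent uniform variables.
-/

set_option autoImplicit false

namespace Pool.Agent.NC

namespace PzAux

open MeasureTheory ProbabilityTheory Finset

/-- The uniform measure on `[-1/2, 1/2]`. -/
noncomputable def nu : Measure ℝ := volume.restrict (Set.Icc (-1/2 : ℝ) (1/2))

instance : IsProbabilityMeasure nu := by
  constructor
  rw [nu, Measure.restrict_apply MeasurableSet.univ, Set.univ_inter, Real.volume_Icc]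
  norm_num

lemma nu_one : ∫ y, y ∂nu = 0 := by
  rw [nu, integral_Icc_eq_integral_Ioc, ← intervalIntegral.integral_of_le (by norm_num)]
  simp
  norm_num

lemma nu_two : ∫ y, y ^ 2 ∂nu = 1/12 := by
  rw [nu, integral_Icc_eq_integral_Ioc, ← intervalIntegral.integral_of_le (by norm_num)]
  simp
  norm_num

lemma nu_three : ∫ y, y ^ 3 ∂nu = 0 := by
  rw [nu, integral_Icc_eq_integral_Ioc, ← intervalIntegral.integral_of_le (by norm_num)]
  simp
  norm_num

lemma nu_four : ∫ y, y ^ 4 ∂nu = 1/80 := by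
  rw [nu, integral_Icc_eq_integral_Ioc, ← intervalIntegral.integral_of_le (by norm_num)]
  simp
  norm_num

set_option linter.unusedSectionVars false

variable {ι : Type} [Fintype ι]

/-- The cube. -/
def Kc (ι : Type) [Fintype ι] : Set (ι → ℝ) := Set.univ.pi (fun _ : ι => Set.Icc (-1/2 : ℝ) (1/2))

/-- The uniform measure on the cube. -/
noncomputable def mu (ι : Type) [Fintype ι] : Measure (ι → ℝ) := Measure.pi (fun _ : ι => nu)

instance : IsProbabilityMeasure (mu ι) := by unfold mu; infer_instance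

lemma mu_eq : mu ι = volume.restrict (Kc ι) := by
  rw [mu, Kc, volume_pi, Measure.restrict_pi_pi]
  rfl

lemma isCompact_Kc : IsCompact (Kc ι) := isCompact_univ_pi (fun _ => isCompact_Icc)

lemma integrable_of_cont {f : (ι → ℝ) → ℝ} (hf : Continuous f) : Integrable f (mu ι) := by
  rw [mu_eq]
  exact hf.continuousOn.integrableOn_compact isCompact_Kc

/-- partial sums -/
noncomputable def Y (t : ι → ℝ) (s : Finset ι) (x : ι → ℝ) : ℝ := ∑ i ∈ s, t i * x i

lemma Y_cont (t : ι → ℝ) (s : Finset ι) : Continuous (Y t s) := by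
  unfold Y
  fun_prop

lemma coord_int (i : ι) (g : ℝ → ℝ) (hg : Continuous g) :
    ∫ x : ι → ℝ, g (x i) ∂(mu ι) = ∫ y, g y ∂nu := by
  have h := (measurePreserving_eval (fun _ : ι => nu) i)
  have h2 : (Measure.pi (fun _ : ι => nu)).map (Function.eval i) = nu := h.map_eq
  rw [← h2, integral_map h.measurable.aemeasurable hg.aestronglyMeasurable]
  rfl

lemma indep (t : ι → ℝ) (s : Finset ι) (a : ι) (ha : a ∉ s) :
    IndepFun (Y t s) (fun x : ι → ℝ => x a) (mu ι) := by
  classical
  have h0 : iIndepFun (fun (i : ι) (x : ι → ℝ) => x i) (mu ι) :=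
    iIndepFun_pi (μ := fun _ : ι => nu) (X := fun (i : ι) (y : ℝ) => y)
      (fun i => measurable_id.aemeasurable)
  have h2 := h0.indepFun_finset s {a} (Finset.disjoint_singleton_right.mpr ha)
    (fun i => measurable_pi_apply i)
  have hm : Measurable (fun (z : ({a} : Finset ι) → ℝ) => z ⟨a, Finset.mem_singleton_self a⟩) :=
    measurable_pi_apply _
  have h3 := h2.comp (φ := fun (z : s → ℝ) => ∑ i : s, t i * z i)
    (ψ := fun (z : ({a} : Finset ι) → ℝ) => z ⟨a, Finset.mem_singleton_self a⟩)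
    (by fun_prop) hm
  have e1 : (fun (z : s → ℝ) => ∑ i : s, t i * z i) ∘ (fun (x : ι → ℝ) (i : s) => x i) = Y t s := by
    funext x
    simp only [Function.comp, Y]
    exact Finset.sum_coe_sort s (fun i => t i * x i)
  rw [e1] at h3
  exact h3

lemma mul_int (t : ι → ℝ) (s : Finset ι) (a : ι) (ha : a ∉ s) (f g : ℝ → ℝ)
    (hf : Continuous f) (hg : Continuous g) :
    ∫ x : ι → ℝ, f (Y t s x) * g (x a) ∂(mu ι) =
      (∫ x : ι → ℝ, f (Y t s x) ∂(mu ι)) * ∫ y, g y ∂nu := by
  have h := (indep t s a ha).comp hf.measurable hg.measurable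
  have h2 := h.integral_fun_mul_eq_mul_integral
    (hf.comp (Y_cont t s)).aestronglyMeasurable
    ((hg.comp (continuous_apply a)).aestronglyMeasurable)
  simp only [Function.comp] at h2
  rw [h2, coord_int a g hg]

lemma Y_insert [DecidableEq ι] (t : ι → ℝ) (s : Finset ι) (a : ι) (ha : a ∉ s) (x : ι → ℝ) :
    Y t (insert a s) x = Y t s x + t a * x a := by
  unfold Y
  rw [Finset.sum_insert ha]
  ring

lemma second (t : ι → ℝ) (s : Finset ι) :
    ∫ x, (Y t s x) ^ 2 ∂(mu ι) = (∑ i ∈ s, t i ^ 2) / 12 := by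
  classical
  induction s using Finset.induction_on with
  | empty => simp [Y]
  | insert a s ha ih =>
    have e : ∀ x : ι → ℝ, (Y t (insert a s) x) ^ 2 =
        (Y t s x) ^ 2 + (2 * t a * ((Y t s x) * (x a)) + t a ^ 2 * (x a) ^ 2) := by
      intro x
      rw [Y_insert t s a ha]
      ring
    have hY := Y_cont t s
    have hm : ∫ x : ι → ℝ, (Y t s x) * (x a) ∂(mu ι) = 0 := by
      have := mul_int t s a ha (fun y => y) (fun y => y) continuous_id continuous_id
      rw [nu_one] at this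
      simpa using this
    have hc : ∫ x : ι → ℝ, (x a) ^ 2 ∂(mu ι) = 1/12 := by
      rw [coord_int a (fun y => y ^ 2) (by fun_prop), nu_two]
    simp_rw [e]
    rw [integral_add (integrable_of_cont (by fun_prop)) (integrable_of_cont (by fun_prop)),
      integral_add (integrable_of_cont (by fun_prop)) (integrable_of_cont (by fun_prop)),
      integral_const_mul, integral_const_mul, hm, hc, ih, Finset.sum_insert ha]
    ring

lemma fourth (t : ι → ℝ) (s : Finset ι) :
    ∫ x, (Y t s x) ^ 4 ∂(mu ι) ≤ 3 * ((∑ i ∈ s, t i ^ 2) / 12) ^ 2 := by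
  classical
  induction s using Finset.induction_on with
  | empty => simp [Y]
  | insert a s ha ih =>
    have e : ∀ x : ι → ℝ, (Y t (insert a s) x) ^ 4 =
        (Y t s x) ^ 4 + (4 * t a * ((Y t s x) ^ 3 * (x a)) +
          (6 * t a ^ 2 * ((Y t s x) ^ 2 * (x a) ^ 2) +
            (4 * t a ^ 3 * ((Y t s x) * (x a) ^ 3) + t a ^ 4 * (x a) ^ 4))) := by
      intro x
      rw [Y_insert t s a ha]
      ring
    have hY := Y_cont t s
    have h1 : ∫ x : ι → ℝ, (Y t s x) ^ 3 * (x a) ∂(mu ι) = 0 := by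
      have := mul_int t s a ha (fun y => y ^ 3) (fun y => y) (by fun_prop) continuous_id
      rw [nu_one] at this
      simpa using this
    have h2 : ∫ x : ι → ℝ, (Y t s x) ^ 2 * (x a) ^ 2 ∂(mu ι) =
        (∑ i ∈ s, t i ^ 2) / 12 * (1/12) := by
      have := mul_int t s a ha (fun y => y ^ 2) (fun y => y ^ 2) (by fun_prop) (by fun_prop)
      rw [nu_two, second] at this
      exact this
    have h3 : ∫ x : ι → ℝ, (Y t s x) * (x a) ^ 3 ∂(mu ι) = 0 := by
      have := mul_int t s a ha (fun y => y) (fun y => y ^ 3) continuous_id (by fun_prop)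
      rw [nu_three] at this
      simpa using this
    have h4 : ∫ x : ι → ℝ, (x a) ^ 4 ∂(mu ι) = 1/80 := by
      rw [coord_int a (fun y => y ^ 4) (by fun_prop), nu_four]
    simp_rw [e]
    rw [integral_add (integrable_of_cont (by fun_prop)) (integrable_of_cont (by fun_prop)),
      integral_add (integrable_of_cont (by fun_prop)) (integrable_of_cont (by fun_prop)),
      integral_add (integrable_of_cont (by fun_prop)) (integrable_of_cont (by fun_prop)),
      integral_add (integrable_of_cont (by fun_prop)) (integrable_of_cont (by fun_prop)),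
      integral_const_mul, integral_const_mul, integral_const_mul, integral_const_mul,
      h1, h2, h3, h4, Finset.sum_insert ha]
    have h5 : 0 ≤ t a ^ 4 := by positivity
    nlinarith [ih, h5]

lemma real_eq (P : (ι → ℝ) → Prop) :
    volume.real {x : ι → ℝ | (∀ i, |x i| ≤ 1/2) ∧ P x} = (mu ι).real {x | P x} := by
  have hK : MeasurableSet (Kc ι) := isCompact_Kc.measurableSet
  have e : {x : ι → ℝ | (∀ i, |x i| ≤ 1/2) ∧ P x} = {x | P x} ∩ Kc ι := by
    ext x
    simp only [Kc, Set.mem_ofPred_eq, Set.mem_inter_iff, Set.mem_pi, Set.mem_univ, true_imp_iff,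
      Set.mem_Icc, abs_le]
    constructor
    · rintro ⟨h1, h2⟩
      exact ⟨h2, fun i => ⟨by linarith [(h1 i).1], (h1 i).2⟩⟩
    · rintro ⟨h1, h2⟩
      exact ⟨fun i => ⟨by linarith [(h2 i).1], (h2 i).2⟩, h1⟩
  rw [mu_eq, measureReal_def, measureReal_def, Measure.restrict_apply' hK, e]

lemma mu_neg (A : Set (ι → ℝ)) : (mu ι).real ((fun x => -x) ⁻¹' A) = (mu ι).real A := by
  have hK : MeasurableSet (Kc ι) := isCompact_Kc.measurableSet
  rw [mu_eq, measureReal_def, measureReal_def, Measure.restrict_apply' hK,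
    Measure.restrict_apply' hK]
  have e : (fun x : ι → ℝ => -x) ⁻¹' A ∩ Kc ι = (fun x : ι → ℝ => -x) ⁻¹' (A ∩ Kc ι) := by
    ext x
    simp only [Kc, Set.mem_inter_iff, Set.mem_preimage, Set.mem_pi, Set.mem_univ, true_imp_iff,
      Set.mem_Icc, Pi.neg_apply]
    constructor
    · rintro ⟨h1, h2⟩
      exact ⟨h1, fun i => ⟨by linarith [(h2 i).2], by linarith [(h2 i).1]⟩⟩
    · rintro ⟨h1, h2⟩
      exact ⟨h1, fun i => ⟨by linarith [(h2 i).2], by linarith [(h2 i).1]⟩⟩
  rw [e]
  have := Measure.measure_preimage_neg (volume : Measure (ι → ℝ)) (A ∩ Kc ι)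
  rw [← this]

lemma key (t : ι → ℝ) (S : ℝ) (hS : S = (∑ i, t i ^ 2) / 12) (hpos : 0 < S) :
    3/16 ≤ (mu ι).real {x | S / 4 ≤ (Y t univ x) ^ 2} := by
  classical
  have hY := Y_cont t univ
  set A : Set (ι → ℝ) := {x | S / 4 ≤ (Y t univ x) ^ 2} with hA
  have hAm : MeasurableSet A := by
    rw [hA]
    exact measurableSet_le measurable_const (hY.pow 2).measurable
  have hpt : ∀ x : ι → ℝ, (Y t univ x) ^ 2 ≤
      S / 4 + ((1 / (8 * S)) * (Y t univ x) ^ 4 + (2 * S) * A.indicator (fun _ => (1:ℝ)) x) := by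
    intro x
    by_cases hx : x ∈ A
    · rw [Set.indicator_of_mem hx]
      have h1 : 0 ≤ (1 / (8 * S)) * ((Y t univ x) ^ 2 - 4 * S) ^ 2 := by positivity
      have h2 : (1 / (8 * S)) * ((Y t univ x) ^ 2 - 4 * S) ^ 2 =
          (1 / (8 * S)) * (Y t univ x) ^ 4 - (Y t univ x) ^ 2 + 2 * S := by
        field_simp
        ring
      linarith
    · rw [Set.indicator_of_notMem hx]
      have h1 : (Y t univ x) ^ 2 < S / 4 := by
        rw [hA, Set.mem_ofPred_eq, not_le] at hx
        exact hx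
      have h2 : 0 ≤ (1 / (8 * S)) * (Y t univ x) ^ 4 := by positivity
      linarith
  have hind : Integrable (A.indicator (fun _ => (1:ℝ))) (mu ι) :=
    (integrable_const (1:ℝ)).indicator hAm
  have i1 : Integrable (fun x : ι → ℝ => (1 / (8 * S)) * (Y t univ x) ^ 4) (mu ι) :=
    integrable_of_cont (by fun_prop)
  have i2 : Integrable (fun x : ι → ℝ => (2 * S) * A.indicator (fun _ => (1:ℝ)) x) (mu ι) :=
    hind.const_mul _
  have i3 : Integrable (fun x : ι → ℝ => (1 / (8 * S)) * (Y t univ x) ^ 4 +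
      (2 * S) * A.indicator (fun _ => (1:ℝ)) x) (mu ι) := i1.add i2
  have h1 : ∫ x : ι → ℝ, (Y t univ x) ^ 2 ∂(mu ι) ≤
      ∫ x : ι → ℝ, (S / 4 + ((1 / (8 * S)) * (Y t univ x) ^ 4 +
      (2 * S) * A.indicator (fun _ => (1:ℝ)) x)) ∂(mu ι) :=
    integral_mono (integrable_of_cont (ι := ι) (f := fun x => (Y t univ x) ^ 2)
    (by fun_prop)) ((integrable_const (S/4)).add i3) hpt
  have h2 : ∫ x : ι → ℝ, (S / 4 + ((1 / (8 * S)) * (Y t univ x) ^ 4 +
      (2 * S) * A.indicator (fun _ => (1:ℝ)) x)) ∂(mu ι) =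
      S / 4 + ((1 / (8 * S)) * (∫ x, (Y t univ x) ^ 4 ∂(mu ι)) + (2 * S) * (mu ι).real A) := by
    rw [integral_add (integrable_const (S/4)) i3, integral_add i1 i2, integral_const_mul,
      integral_const_mul, integral_const]
    have := integral_indicator_one (μ := mu ι) hAm
    have e : (A.indicator (fun _ => (1:ℝ))) = A.indicator (1 : (ι → ℝ) → ℝ) := rfl
    rw [e, this]
    simp
  rw [h2, second, ← hS] at h1
  have h4 := fourth t univ
  rw [← hS] at h4
  have h5 : (1 / (8 * S)) * (∫ x, (Y t univ x) ^ 4 ∂(mu ι)) ≤ (1 / (8 * S)) * (3 * S ^ 2) :=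
    mul_le_mul_of_nonneg_left h4 (by positivity)
  have h6 : (1 / (8 * S)) * (3 * S ^ 2) = 3/8 * S := by
    field_simp
  rw [h6] at h5
  have h7 : 3/8 * S ≤ 2 * S * (mu ι).real A := by linarith
  by_contra hcon
  push Not at hcon
  nlinarith

end PzAux

open PzAux MeasureTheory Finset in
theorem pz : S_PZ := by
  intro ι _ t
  set S : ℝ := (∑ i, t i ^ 2) / 12 with hS
  have hS0 : 0 ≤ S := by positivity
  rw [real_eq (fun x => 1/2 * Real.sqrt S ≤ ∑ i, t i * x i)]
  have hYd : ∀ x : ι → ℝ, ∑ i, t i * x i = Y t univ x := fun x => rfl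
  simp_rw [hYd]
  rcases hS0.eq_or_lt with h0 | hpos
  · have ht : ∀ i, t i = 0 := by
      have h1 : ∑ i, t i ^ 2 = 0 := by
        have : (∑ i, t i ^ 2) / 12 = 0 := by rw [← hS]; exact h0.symm
        linarith
      intro i
      have h2 := (Finset.sum_eq_zero_iff_of_nonneg (fun i _ => sq_nonneg (t i))).mp h1 i
        (Finset.mem_univ i)
      exact pow_eq_zero_iff (two_ne_zero) |>.mp h2
    have e : {x : ι → ℝ | 1/2 * Real.sqrt S ≤ Y t univ x} = Set.univ := by
      ext x
      simp only [Set.mem_ofPred_eq, Set.mem_univ, iff_true]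
      rw [← h0, Real.sqrt_zero, mul_zero]
      simp [Y, ht]
    rw [e]
    simp
    norm_num
  · have hk := key t S hS hpos
    have hsq : Real.sqrt S ^ 2 = S := Real.sq_sqrt hS0
    have hs0 : 0 < Real.sqrt S := Real.sqrt_pos.mpr hpos
    have hsub : {x : ι → ℝ | S / 4 ≤ (Y t univ x) ^ 2} ⊆
        {x : ι → ℝ | 1/2 * Real.sqrt S ≤ Y t univ x} ∪
          ((fun x : ι → ℝ => -x) ⁻¹' {x : ι → ℝ | 1/2 * Real.sqrt S ≤ Y t univ x}) := by
      intro x hx
      simp only [Set.mem_ofPred_eq] at hx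
      simp only [Set.mem_union, Set.mem_ofPred_eq, Set.mem_preimage]
      have hneg : Y t univ (-x) = - Y t univ x := by
        simp [Y]
      rw [hneg]
      have h1 : (1/2 * Real.sqrt S) ^ 2 ≤ (Y t univ x) ^ 2 := by
        rw [mul_pow, hsq]
        linarith
      have h2 : 1/2 * Real.sqrt S ≤ |Y t univ x| := by
        have := sq_le_sq.mp h1
        rwa [abs_of_pos (by positivity)] at this
      rcases le_abs.mp h2 with h3 | h3
      · exact Or.inl h3
      · exact Or.inr h3
    have h1 := measureReal_mono (μ := mu ι) hsub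
    have h2 := measureReal_union_le (μ := mu ι) {x : ι → ℝ | 1/2 * Real.sqrt S ≤ Y t univ x}
      ((fun x : ι → ℝ => -x) ⁻¹' {x : ι → ℝ | 1/2 * Real.sqrt S ≤ Y t univ x})
    rw [mu_neg] at h2
    linarith

end Pool.Agent.NC
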