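import Pool.Agent.NewtonCov.Stmts
import Pool.Agent.Lib_helper88.Newton.Lower

/-!
MP_a2070a_co: module RED, coverings in normal form.
-/

set_option autoImplicit false

namespace Pool.Agent.NC

open Finset

/-- the matrix of the linear part of the inverse of an isometry -/
noncomputable def redM {d : ℕ} (g : EuclideanSpace ℝ (Fin d) ≃ᵢ EuclideanSpace ℝ (Fin d)) :
    Matrix (Fin d) (Fin d) ℝ := fun i l => Newton.lin g (Newton.dir l) i

theorem redM_apply {d : ℕ} (g : EuclideanSpace ℝ (Fin d) ≃ᵢ EuclideanSpace ℝ (Fin d))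
    (i l : Fin d) : redM g i l = Newton.lin g (Newton.dir l) i := rfl

theorem red_sum_dir {d : ℕ} (x : Fin d → ℝ) :
    (WithLp.toLp 2 x : EuclideanSpace ℝ (Fin d)) = ∑ l, x l • Newton.dir l := by
  ext k
  simp [Newton.dir_apply]

theorem red_lin_eq {d : ℕ} (g : EuclideanSpace ℝ (Fin d) ≃ᵢ EuclideanSpace ℝ (Fin d))
    (x : Fin d → ℝ) (i : Fin d) :
    Newton.lin g (WithLp.toLp 2 x) i = ∑ l, redM g i l * x l := by
  rw [red_sum_dir, map_sum]
  simp only [map_smul, WithLp.ofLp_sum, Finset.sum_apply, PiLp.smul_apply, smul_eq_mul, redM_apply]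
  exact sum_congr rfl fun l _ => mul_comm _ _

theorem red_col {d : ℕ} (g : EuclideanSpace ℝ (Fin d) ≃ᵢ EuclideanSpace ℝ (Fin d)) :
    (redM g).transpose * redM g = 1 := by
  ext l m
  rw [Matrix.mul_apply]
  simp only [Matrix.transpose_apply, redM_apply]
  rw [Newton.sum_lin_mul, Matrix.one_apply]
  simp only [Newton.dir_apply]
  by_cases h : l = m
  · subst h; simp
  · simp [h, eq_comm]

theorem red_row {d : ℕ} (g : EuclideanSpace ℝ (Fin d) ≃ᵢ EuclideanSpace ℝ (Fin d)) :
    redM g * (redM g).transpose = 1 := mul_eq_one_comm.mp (red_col g)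

/-- At most one large entry in a row. -/
theorem red_uniq_row {d : ℕ} {M : Matrix (Fin d) (Fin d) ℝ} (h : M * M.transpose = 1)
    {i l m : Fin d} (hl : 1/2 < M i l ^ 2) (hm : 1/2 < M i m ^ 2) : l = m := by
  by_contra hlm
  have h1 : ∑ k, M i k ^ 2 = 1 := by
    have := congrFun (congrFun h i) i
    rw [Matrix.mul_apply, Matrix.one_apply_eq] at this
    rw [← this]
    exact sum_congr rfl fun k _ => by rw [Matrix.transpose_apply, sq]
  have h2 : ∑ k ∈ {l, m}, M i k ^ 2 ≤ ∑ k, M i k ^ 2 :=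
    sum_le_sum_of_subset_of_nonneg (subset_univ _) fun _ _ _ => sq_nonneg _
  rw [sum_pair hlm] at h2
  linarith

/-- At most one large entry in a column. -/
theorem red_uniq_col {d : ℕ} {M : Matrix (Fin d) (Fin d) ℝ} (h : M * M.transpose = 1)
    {i j l : Fin d} (hi : 1/2 < M i l ^ 2) (hj : 1/2 < M j l ^ 2) : i = j := by
  have h' : M.transpose * M.transpose.transpose = 1 := by
    rw [Matrix.transpose_transpose]
    exact mul_eq_one_comm.mp h
  exact red_uniq_row h' (i := l) (l := i) (m := j) hi hj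

/-- The bijection between columns and rows with a large entry. -/
noncomputable def redE {d : ℕ} {M : Matrix (Fin d) (Fin d) ℝ} (h : M * M.transpose = 1) :
    {l : Fin d // ∃ i, 1/2 < M i l ^ 2} ≃ {i : Fin d // ∃ l, 1/2 < M i l ^ 2} where
  toFun l := ⟨l.2.choose, ⟨l.1, l.2.choose_spec⟩⟩
  invFun i := ⟨i.2.choose, ⟨i.1, i.2.choose_spec⟩⟩
  left_inv l := by
    apply Subtype.ext
    exact red_uniq_row h (Exists.choose_spec (p := fun m => 1/2 < M l.2.choose m ^ 2) _)
      l.2.choose_spec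
  right_inv i := by
    apply Subtype.ext
    exact red_uniq_col h (Exists.choose_spec (p := fun j => 1/2 < M j i.2.choose ^ 2) _)
      i.2.choose_spec

theorem red_perm {d : ℕ} {M : Matrix (Fin d) (Fin d) ℝ} (h : M * M.transpose = 1) :
    ∃ π : Equiv.Perm (Fin d), ∀ j l, 1/2 < M (π j) l ^ 2 → j = l := by
  classical
  refine ⟨(redE h).extendSubtype, fun j l hjl => ?_⟩
  have hl : ∃ i, 1/2 < M i l ^ 2 := ⟨_, hjl⟩
  have h1 : (redE h).extendSubtype l = (redE h ⟨l, hl⟩ : Fin d) :=
    Equiv.extendSubtype_apply_of_mem _ l hl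
  have h2 : 1/2 < M ((redE h).extendSubtype l) l ^ 2 := by
    rw [h1]
    exact hl.choose_spec
  exact (redE h).extendSubtype.injective (red_uniq_col h hjl h2)

/-- Normal form of an orthogonal matrix, up to a signed permutation of the rows. -/
theorem red_norm {d : ℕ} {M : Matrix (Fin d) (Fin d) ℝ} (h : M * M.transpose = 1)
    (c : Fin d → ℝ) :
    ∃ (R : Matrix (Fin d) (Fin d) ℝ) (c' : Fin d → ℝ), R * R.transpose = 1 ∧ Nrm R ∧
      ∀ x : Fin d → ℝ, (∀ i, |∑ l, M i l * x l - c i| ≤ 1/2) → x ∈ UC R c' := by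
  obtain ⟨π, hπ⟩ := red_perm h
  set s : Fin d → ℝ := fun j => if M (π j) j < 0 then -1 else 1 with hs
  have hs2 : ∀ j, s j = 1 ∨ s j = -1 := by
    intro j
    simp only [hs]
    split_ifs
    · exact Or.inr rfl
    · exact Or.inl rfl
  have hs1 : ∀ j, s j * s j = 1 := by
    intro j
    rcases hs2 j with h | h <;> rw [h] <;> norm_num
  refine ⟨Matrix.of fun j l => s j * M (π j) l, fun j => s j * c (π j), ?_, ?_, ?_⟩
  · ext i j
    rw [Matrix.mul_apply]
    simp only [Matrix.transpose_apply, Matrix.of_apply]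
    have h1 := congrFun (congrFun h (π i)) (π j)
    rw [Matrix.mul_apply] at h1
    simp only [Matrix.transpose_apply] at h1
    calc ∑ l, s i * M (π i) l * (s j * M (π j) l)
        = s i * s j * ∑ l, M (π i) l * M (π j) l := by
          rw [mul_sum]
          exact sum_congr rfl fun l _ => by ring
      _ = s i * s j * (1 : Matrix (Fin d) (Fin d) ℝ) (π i) (π j) := by rw [h1]
      _ = (1 : Matrix (Fin d) (Fin d) ℝ) i j := by
          by_cases hij : i = j
          · subst hij
            rw [Matrix.one_apply_eq, Matrix.one_apply_eq, hs1, one_mul]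
          · rw [Matrix.one_apply_ne hij, Matrix.one_apply_ne (fun h => hij (π.injective h)),
              mul_zero]
  · intro j l hjl
    have h1 : (s j * M (π j) l) ^ 2 = M (π j) l ^ 2 := by
      rw [mul_pow, sq (s j), hs1, one_mul]
    have h2 : 1/2 < M (π j) l ^ 2 := by rw [← h1]; exact hjl
    have h3 := hπ j l h2
    refine ⟨h3, ?_⟩
    subst h3
    change 0 < s j * M (π j) j
    have hne : M (π j) j ≠ 0 := by
      intro h0
      rw [h0] at h2
      norm_num at h2
    simp only [hs]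
    split_ifs with hneg
    · linarith
    · rw [one_mul]
      exact lt_of_le_of_ne (not_lt.mp hneg) (Ne.symm hne)
  · intro x hx j
    have h1 : ∑ l, s j * M (π j) l * x l - s j * c (π j)
        = s j * (∑ l, M (π j) l * x l - c (π j)) := by
      rw [mul_sub, mul_sum]
      congr 1
      exact sum_congr rfl fun l _ => by ring
    have habs : |s j| = 1 := by
      rcases hs2 j with h | h <;> rw [h] <;> norm_num
    change |∑ l, s j * M (π j) l * x l - s j * c (π j)| ≤ 1/2
    rw [h1, abs_mul, habs, one_mul]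
    exact hx (π j)

theorem red : S_RED := by
  intro d n hcov
  obtain ⟨g, U, hU, hcU, hsub⟩ := hcov
  obtain ⟨e, he, hbig⟩ := Newton.exists_big hU hcU
  set hh : EuclideanSpace ℝ (Fin d) := WithLp.toLp 2 fun _ => (1/2 : ℝ) with hhdef
  have key : ∀ j, ∃ (R : Matrix (Fin d) (Fin d) ℝ) (c' : Fin d → ℝ), R * R.transpose = 1 ∧
      Nrm R ∧ ∀ x : Fin d → ℝ,
      (∀ i, |∑ l, redM (g j) i l * x l - (1/2 - (g j).symm hh i)| ≤ 1/2) → x ∈ UC R c' :=
    fun j => red_norm (red_row (g j)) fun i => 1/2 - (g j).symm hh i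
  choose R c hR hN hUC using key
  refine ⟨R, c, hR, hN, e, he, fun x hx => ?_⟩
  set X : EuclideanSpace ℝ (Fin d) := WithLp.toLp 2 x + hh with hX
  have hXU : X ∈ U := by
    apply hbig
    intro i
    have h1 := abs_le.mp (hx i)
    have h2 : X i = x i + 1/2 := by rw [hX, PiLp.add_apply]
    rw [h2]
    constructor <;> linarith [h1.1, h1.2]
  obtain ⟨j, hj⟩ := Set.mem_iUnion.mp (hsub hXU)
  refine ⟨j, hUC j x fun i => ?_⟩
  obtain ⟨Y, hY, hYX⟩ := hj
  have hYs : Y = (g j).symm X := by rw [← hYX, IsometryEquiv.symm_apply_apply]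
  have h1 : Newton.lin (g j) (X - hh) = (g j).symm X - (g j).symm hh := Newton.lin_sub _ _ _
  have h2 : X - hh = WithLp.toLp 2 x := by rw [hX, add_sub_cancel_right]
  rw [h2, ← hYs] at h1
  have h3 : ∑ l, redM (g j) i l * x l = Y i - (g j).symm hh i := by
    rw [← red_lin_eq, h1, PiLp.sub_apply]
  rw [h3, abs_le]
  have h4 := hY i
  constructor <;> linarith [h4.1, h4.2]

end Pool.Agent.NC
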