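import Pool.Agent.NewtonCov.Stmts

/-!
Module ROW of MP_a2070a_co (helper22): the expected squared overshoot of one row over `AU`.
Two sign symmetrisations remove the offset and the coordinates in `U`; the remaining integral is a
product, and after scaling it is the integral of S_TAIL.
-/

set_option autoImplicit false

namespace Pool.Agent.NC

open MeasureTheory Finset
open scoped Pointwise

namespace RowAux

/-- coordinatewise signs as a measurable equivalence -/
def sg {d : ℕ} (e : Fin d → Bool) : (Fin d → ℝ) ≃ᵐ (Fin d → ℝ) :=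
  MeasurableEquiv.piCongrRight fun l => if e l then MeasurableEquiv.neg ℝ else
    MeasurableEquiv.refl ℝ

theorem sg_apply {d : ℕ} (e : Fin d → Bool) (x : Fin d → ℝ) (l : Fin d) :
    sg e x l = if e l then - x l else x l := by
  show (if e l then MeasurableEquiv.neg ℝ else MeasurableEquiv.refl ℝ) (x l) = _
  split_ifs <;> rfl

theorem sg_mp {d : ℕ} (e : Fin d → Bool) : MeasurePreserving (sg e) volume volume := by
  have : ∀ l, MeasurePreserving (⇑(if e l then MeasurableEquiv.neg ℝ else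
      MeasurableEquiv.refl ℝ : ℝ ≃ᵐ ℝ)) volume volume := by
    intro l
    split_ifs
    · exact Measure.measurePreserving_neg volume
    · exact MeasurePreserving.id volume
  exact volume_preserving_pi this

theorem sg_AU {d : ℕ} (e : Fin d → Bool) (σ : ℝ) (U : Finset (Fin d)) :
    sg e ⁻¹' (AU σ U) = AU σ U := by
  have h : ∀ (x : Fin d → ℝ) l, |sg e x l| = |x l| := by
    intro x l
    rw [sg_apply]
    split_ifs
    · exact abs_neg _
    · rfl
  ext x
  simp only [Set.mem_preimage, AU, Set.mem_ofPred_eq, h]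

theorem sg_int {d : ℕ} (e : Fin d → Bool) (σ : ℝ) (U : Finset (Fin d))
    (F : (Fin d → ℝ) → ℝ) : ∫ x in AU σ U, F (sg e x) = ∫ x in AU σ U, F x := by
  have := (sg_mp e).setIntegral_preimage_emb (sg e).measurableEmbedding F (AU σ U)
  rwa [sg_AU] at this

theorem AU_sub {d : ℕ} (σ : ℝ) (U : Finset (Fin d)) :
    AU σ U ⊆ Set.pi Set.univ (fun _ => Set.Icc (-(1/2 + σ)) (1/2 + σ)) := by
  intro x hx l _
  exact abs_le.1 (hx.1 l)

theorem intOn {d : ℕ} (σ : ℝ) (U : Finset (Fin d)) {F : (Fin d → ℝ) → ℝ} (hF : Continuous F) :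
    IntegrableOn F (AU σ U) volume := by
  have hK : IsCompact (Set.pi Set.univ (fun _ : Fin d => Set.Icc (-(1/2 + σ)) (1/2 + σ))) :=
    isCompact_univ_pi fun _ => isCompact_Icc
  exact (hF.continuousOn.integrableOn_compact hK).mono_set (AU_sub σ U)

theorem sg_cont {d : ℕ} (e : Fin d → Bool) : Continuous (sg e) := by
  refine continuous_pi fun l => ?_
  have : (fun x : Fin d → ℝ => sg e x l) = fun x => if e l then - x l else x l :=
    funext fun x => sg_apply e x l
  rw [this]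
  split_ifs
  · exact (continuous_apply l).neg
  · exact continuous_apply l

/-- symmetrisation by a sign pattern -/
theorem symm_le {d : ℕ} (e : Fin d → Bool) (σ : ℝ) (U : Finset (Fin d))
    {F G : (Fin d → ℝ) → ℝ} (hF : Continuous F) (hG : Continuous G)
    (h : ∀ x, G x ≤ F x + F (sg e x)) :
    ∫ x in AU σ U, G x ≤ 2 * ∫ x in AU σ U, F x := by
  have h1 : ∫ x in AU σ U, G x ≤ ∫ x in AU σ U, (F x + F (sg e x)) :=
    integral_mono (intOn σ U hG) (intOn σ U (hF.add (hF.comp (sg_cont e)))) h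
  have h3 : IntegrableOn (fun x => F (sg e x)) (AU σ U) volume := intOn σ U (hF.comp (sg_cont e))
  rw [integral_add (intOn σ U hF) h3] at h1
  have h2 := sg_int e σ U F
  linarith

theorem pos_sq_mono {a b : ℝ} (h : a ≤ b) : (max a 0) ^ 2 ≤ (max b 0) ^ 2 :=
  pow_le_pow_left₀ (le_max_right _ _) (max_le_max h le_rfl) 2

theorem sum_sg_all {d : ℕ} (r x : Fin d → ℝ) :
    ∑ l, r l * sg (fun _ => true) x l = - ∑ l, r l * x l := by
  rw [← Finset.sum_neg_distrib]
  refine Finset.sum_congr rfl fun l _ => ?_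
  rw [sg_apply]
  simp

theorem sum_sg_U {d : ℕ} (U : Finset (Fin d)) (r x : Fin d → ℝ) :
    ∑ l, r l * x l + ∑ l, r l * sg (fun l => decide (l ∈ U)) x l =
      2 * ∑ l ∈ Uᶜ, r l * x l := by
  rw [← Finset.sum_add_distrib, Finset.mul_sum, ← Finset.sum_add_sum_compl U]
  have h1 : ∑ l ∈ U, (r l * x l + r l * sg (fun l => decide (l ∈ U)) x l) = 0 := by
    refine Finset.sum_eq_zero fun l hl => ?_
    rw [sg_apply]
    simp [hl]
  rw [h1, zero_add]
  refine Finset.sum_congr rfl fun l hl => ?_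
  have : l ∉ U := Finset.mem_compl.1 hl
  rw [sg_apply]
  simp [this]
  ring

/-- removal of the offset and of the coordinates in `U` -/
theorem step1 {d : ℕ} (U : Finset (Fin d)) (σ : ℝ) (r : Fin d → ℝ) (a : ℝ) :
    ∫ x in AU σ U, (max (∑ l ∈ Uᶜ, r l * x l - 1/2) 0) ^ 2 ≤
      4 * ∫ x in AU σ U, (max (|∑ l, r l * x l - a| - 1/2) 0) ^ 2 := by
  have h1 := symm_le (fun _ => true) σ U
    (F := fun x => (max (|∑ l, r l * x l - a| - 1/2) 0) ^ 2)
    (G := fun x => (max (∑ l, r l * x l - 1/2) 0) ^ 2) (by fun_prop) (by fun_prop) (by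
      intro x
      rw [sum_sg_all]
      set v := ∑ l, r l * x l
      rcases le_total a 0 with ha | ha
      · have : (max (v - 1/2) 0) ^ 2 ≤ (max (|v - a| - 1/2) 0) ^ 2 :=
          pos_sq_mono (by linarith [le_abs_self (v - a)])
        linarith [sq_nonneg (max (|-v - a| - 1/2) 0)]
      · have : (max (v - 1/2) 0) ^ 2 ≤ (max (|-v - a| - 1/2) 0) ^ 2 :=
          pos_sq_mono (by linarith [neg_le_abs (-v - a)])
        linarith [sq_nonneg (max (|v - a| - 1/2) 0)])
  have h2 := symm_le (fun l => decide (l ∈ U)) σ U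
    (F := fun x => (max (∑ l, r l * x l - 1/2) 0) ^ 2)
    (G := fun x => (max (∑ l ∈ Uᶜ, r l * x l - 1/2) 0) ^ 2) (by fun_prop) (by fun_prop) (by
      intro x
      have h := sum_sg_U U r x
      set v := ∑ l, r l * x l
      set v' := ∑ l, r l * sg (fun l => decide (l ∈ U)) x l
      set w := ∑ l ∈ Uᶜ, r l * x l
      rcases le_total v v' with hv | hv
      · have : (max (w - 1/2) 0) ^ 2 ≤ (max (v' - 1/2) 0) ^ 2 := pos_sq_mono (by linarith)
        linarith [sq_nonneg (max (v - 1/2) 0)]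
      · have : (max (w - 1/2) 0) ^ 2 ≤ (max (v - 1/2) 0) ^ 2 := pos_sq_mono (by linarith)
        linarith [sq_nonneg (max (v' - 1/2) 0)])
  linarith

/-- the box of side `s` -/
def bx {d : ℕ} (U : Finset (Fin d)) (s : ℝ) : Set ({l // ¬ l ∈ U} → ℝ) :=
  {x | ∀ i, |x i| ≤ s/2}

/-- the part of `AU` in the coordinates in `U` -/
def ux {d : ℕ} (U : Finset (Fin d)) (σ : ℝ) : Set ({l // l ∈ U} → ℝ) :=
  {x | ∀ k, |x k| ≤ 1/2 + σ ∧ 1/2 + σ/2 ≤ |x k|}

theorem AU_eq {d : ℕ} (U : Finset (Fin d)) (σ : ℝ) :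
    AU σ U = (MeasurableEquiv.piEquivPiSubtypeProd (fun _ : Fin d => ℝ) (fun l => l ∈ U)) ⁻¹'
      (ux U σ ×ˢ bx U (1 + 2 * σ)) := by
  have e1 : (1 + 2 * σ) / 2 = 1/2 + σ := by ring
  ext x
  constructor
  · rintro ⟨h1, h2⟩
    refine ⟨fun k => ⟨h1 k, h2 k k.2⟩, fun i => ?_⟩
    rw [e1]
    exact h1 i
  · rintro ⟨h1, h2⟩
    refine ⟨fun k => ?_, fun k hk => (h1 ⟨k, hk⟩).2⟩
    by_cases hk : k ∈ U
    · exact (h1 ⟨k, hk⟩).1
    · have := h2 ⟨k, hk⟩
      rw [e1] at this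
      exact this

theorem prod_gen {d : ℕ} (p : Fin d → Prop) [DecidablePred p] (A : Set ({l // p l} → ℝ))
    (B : Set ({l // ¬ p l} → ℝ)) (g : ({l // ¬ p l} → ℝ) → ℝ) :
    ∫ x in (MeasurableEquiv.piEquivPiSubtypeProd (fun _ : Fin d => ℝ) p) ⁻¹' (A ×ˢ B),
      g (fun i => x i) = volume.real A * ∫ y in B, g y := by
  have h1 := (volume_preserving_piEquivPiSubtypeProd (fun _ : Fin d => ℝ)
    p).setIntegral_preimage_emb (MeasurableEquiv.measurableEmbedding _)
    (fun z => (1 : ℝ) * g z.2) (A ×ˢ B)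
  have h2 : ∫ z in A ×ˢ B, (1 : ℝ) * g z.2 = (∫ y in A, (1 : ℝ)) * ∫ y in B, g y := by
    rw [Measure.volume_eq_prod, ← Measure.prod_restrict]
    exact integral_prod_mul (fun _ => (1 : ℝ)) g
  rw [h2] at h1
  rw [setIntegral_const, smul_eq_mul, mul_one] at h1
  rw [← h1]
  refine integral_congr_ae (Filter.Eventually.of_forall fun x => ?_)
  simp only [one_mul]
  rfl

theorem prod_int {d : ℕ} (U : Finset (Fin d)) (σ : ℝ) : ∃ K : ℝ, 0 ≤ K ∧
    ∀ g : ({l // ¬ l ∈ U} → ℝ) → ℝ, ∫ x in AU σ U, g (fun i => x i) =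
      K * ∫ y in bx U (1 + 2 * σ), g y := by
  have h : ∃ K : ℝ, 0 ≤ K ∧ ∀ g : ({l // ¬ l ∈ U} → ℝ) → ℝ,
      ∫ x in (MeasurableEquiv.piEquivPiSubtypeProd (fun _ : Fin d => ℝ) (fun l => l ∈ U)) ⁻¹'
        (ux U σ ×ˢ bx U (1 + 2 * σ)), g (fun i => x i) = K * ∫ y in bx U (1 + 2 * σ), g y :=
    ⟨_, measureReal_nonneg, prod_gen (fun l => l ∈ U) (ux U σ) (bx U (1 + 2 * σ))⟩
  rwa [← AU_eq] at h

theorem scale_int {d : ℕ} (U : Finset (Fin d)) {s : ℝ} (hs : 0 < s)
    (g : ({l // ¬ l ∈ U} → ℝ) → ℝ) :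
    ∫ y in bx U s, g y = s ^ (Fintype.card {l // ¬ l ∈ U}) * ∫ y in bx U 1, g (s • y) := by
  have h1 := Measure.setIntegral_comp_smul_of_pos (volume : Measure ({l // ¬ l ∈ U} → ℝ)) g
    (bx U 1) hs
  have h2 : s • bx U 1 = bx U s := by
    ext x
    rw [Set.mem_smul_set_iff_inv_smul_mem₀ hs.ne']
    simp only [bx, Set.mem_ofPred_eq, Pi.smul_apply, smul_eq_mul, abs_mul, abs_inv,
      abs_of_pos hs]
    refine forall_congr' fun i => ?_
    rw [inv_mul_le_iff₀ hs]
    constructor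
    · intro h
      linarith
    · intro h
      linarith
  rw [h2] at h1
  rw [h1]
  simp only [smul_eq_mul, Module.finrank_fintype_fun_eq_card]
  have : s ^ (Fintype.card {l // ¬ l ∈ U}) ≠ 0 := by positivity
  field_simp

theorem bx_cpt {d : ℕ} (U : Finset (Fin d)) (s : ℝ) : IsCompact (bx U s) := by
  have : bx U s = Set.pi Set.univ (fun _ => Set.Icc (-(s/2)) (s/2)) := by
    ext x
    simp only [bx, Set.mem_ofPred_eq, Set.mem_pi, Set.mem_univ, true_implies, Set.mem_Icc, abs_le]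
  rw [this]
  exact isCompact_univ_pi fun _ => isCompact_Icc

theorem bx_vol {d : ℕ} (U : Finset (Fin d)) : volume.real (bx U 1) = 1 := by
  have : bx U 1 = Set.Icc (fun _ => (-(1/2) : ℝ)) (fun _ => (1/2 : ℝ)) := by
    ext x
    simp only [bx, Set.mem_ofPred_eq, Set.mem_Icc, Pi.le_def, abs_le]
    constructor
    · intro h
      exact ⟨fun i => (h i).1, fun i => (h i).2⟩
    · intro h i
      exact ⟨h.1 i, h.2 i⟩
  rw [this, measureReal_def, Real.volume_Icc_pi]
  simp
  norm_num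

end RowAux

open RowAux in
/-- ROW -/
theorem row (hT : S_TAIL) : S_ROW := by
  obtain ⟨c, hc, hT⟩ := hT
  refine ⟨c / 4, by positivity, ?_⟩
  intro d U σ hσ r a m hm hm2 hr hrU hrl
  have hs : (0 : ℝ) < 1 + 2 * σ := by positivity
  obtain ⟨K, hK, hint⟩ := prod_int U σ
  -- volume of `AU`
  have hv := hint (fun _ => (1 : ℝ))
  rw [scale_int U hs] at hv
  simp only [setIntegral_const, smul_eq_mul, mul_one, bx_vol] at hv
  -- the tail integral
  have h1 := step1 U σ r a
  have h2 := hint (fun y => (max (∑ i : {l // ¬ l ∈ U}, r i * y i - 1/2) 0) ^ 2)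
  rw [scale_int U hs] at h2
  have h3 : ∫ x in AU σ U, (max (∑ l ∈ Uᶜ, r l * x l - 1/2) 0) ^ 2 =
      ∫ x in AU σ U, (max (∑ i : {l // ¬ l ∈ U}, r i * x i - 1/2) 0) ^ 2 := by
    refine integral_congr_ae (Filter.Eventually.of_forall fun x => ?_)
    simp only
    rw [Finset.sum_subtype Uᶜ (p := fun l => ¬ l ∈ U) (fun l => Finset.mem_compl)]
  have hsum := Finset.sum_add_sum_compl U (fun l => r l ^ 2)
  rw [Finset.sum_subtype Uᶜ (p := fun l => ¬ l ∈ U) (fun l => Finset.mem_compl), hr] at hsum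
  have h0 : 0 ≤ ∑ l ∈ U, r l ^ 2 := Finset.sum_nonneg fun l _ => sq_nonneg _
  have h4 := hT {l // ¬ l ∈ U} (fun i => r i) m hm hm2 (by linarith) (by linarith)
    (fun i => hrl i)
  have h5 : ∫ x in {x : {l // ¬ l ∈ U} → ℝ | ∀ i, |x i| ≤ 1/2},
      (max (∑ i : {l // ¬ l ∈ U}, r i * x i - 1/2) 0) ^ 2 ≤
      ∫ y in bx U 1, (max (∑ i : {l // ¬ l ∈ U}, r i * ((1 + 2 * σ) • y) i - 1/2) 0) ^ 2 := by
    have hb : {x : {l // ¬ l ∈ U} → ℝ | ∀ i, |x i| ≤ 1/2} = bx U 1 := rfl
    rw [hb]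
    refine setIntegral_mono_on ?_ ?_ (bx_cpt U 1).measurableSet ?_
    · exact (Continuous.continuousOn (by fun_prop)).integrableOn_compact (bx_cpt U 1)
    · exact (Continuous.continuousOn (by fun_prop)).integrableOn_compact (bx_cpt U 1)
    · intro y _
      have e : ∑ i : {l // ¬ l ∈ U}, r i * ((1 + 2 * σ) • y) i =
          (1 + 2 * σ) * ∑ i : {l // ¬ l ∈ U}, r i * y i := by
        rw [Finset.mul_sum]
        refine Finset.sum_congr rfl fun i _ => ?_
        rw [Pi.smul_apply, smul_eq_mul]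
        ring
      rw [e]
      rcases le_total (∑ i : {l // ¬ l ∈ U}, r i * y i) 0 with h | h
      · rw [max_eq_right (by linarith)]
        simp only [ne_eq, OfNat.ofNat_ne_zero, not_false_eq_true, zero_pow]
        positivity
      · exact pos_sq_mono (by nlinarith)
  rw [h3, h2] at h1
  have hv' : volume.real (AU σ U) = K * (1 + 2 * σ) ^ (Fintype.card {l // ¬ l ∈ U}) := hv
  rw [hv']
  have hN : 0 ≤ (1 + 2 * σ) ^ (Fintype.card {l // ¬ l ∈ U}) := by positivity
  have h6 := mul_le_mul_of_nonneg_left (mul_le_mul_of_nonneg_left (h4.trans h5) hN) hK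
  linarith [h6, h1]

end Pool.Agent.NC
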