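import Pool.Agent.NewtonCov.Stmts

/-!
MP_a2070a_co: module SAME (helper87). Sign flips on `G`.
-/

set_option autoImplicit false

namespace Pool.Agent.NC

open MeasureTheory Finset

namespace Same

/-- flip the signs of the coordinates in `S` -/
def fl {d : ℕ} (S : Finset (Fin d)) (x : Fin d → ℝ) : Fin d → ℝ :=
  fun l => if l ∈ S then -x l else x l

theorem fl_mp {d : ℕ} (S : Finset (Fin d)) :
    MeasurePreserving (fl S) (volume : Measure (Fin d → ℝ)) volume := by
  have h : ∀ l : Fin d,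
      MeasurePreserving (fun t : ℝ => if l ∈ S then -t else t) volume volume := by
    intro l
    by_cases hl : l ∈ S
    · simpa [hl] using (Measure.measurePreserving_neg (volume : Measure ℝ))
    · have e : (fun t : ℝ => if l ∈ S then -t else t) = id := by
        funext t; simp [hl]
      rw [e]
      exact MeasurePreserving.id (volume : Measure ℝ)
  exact volume_preserving_pi h

theorem fl_abs {d : ℕ} (S : Finset (Fin d)) (x : Fin d → ℝ) (l : Fin d) :
    |fl S x l| = |x l| := by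
  unfold fl; split_ifs <;> simp

theorem fl_AU {d : ℕ} (S : Finset (Fin d)) (σ : ℝ) (U : Finset (Fin d)) :
    fl S ⁻¹' (AU σ U) = AU σ U := by
  ext x
  simp only [Set.mem_preimage, AU, Set.mem_setOf_eq, fl_abs]

theorem meas_AU {d : ℕ} (σ : ℝ) (U : Finset (Fin d)) : MeasurableSet (AU σ U) := by
  have h : AU σ U = (⋂ k, {x : Fin d → ℝ | |x k| ≤ 1/2 + σ}) ∩
      ⋂ k ∈ U, {x : Fin d → ℝ | 1/2 + σ/2 ≤ |x k|} := by
    ext x; simp [AU]
  rw [h]
  refine MeasurableSet.inter (MeasurableSet.iInter fun k => ?_)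
    (MeasurableSet.iInter fun k => MeasurableSet.iInter fun _ => ?_)
  · exact measurableSet_le (by fun_prop) (by fun_prop)
  · exact measurableSet_le (by fun_prop) (by fun_prop)

theorem meas_UC {d : ℕ} (R : Matrix (Fin d) (Fin d) ℝ) (c : Fin d → ℝ) :
    MeasurableSet (UC R c) := by
  have h : UC R c = ⋂ j, {x : Fin d → ℝ | |∑ l, R j l * x l - c j| ≤ 1/2} := by
    ext x; simp [UC]
  rw [h]
  refine MeasurableSet.iInter fun k => ?_
  exact measurableSet_le (by fun_prop) (by fun_prop)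

theorem row_sq {d : ℕ} {R : Matrix (Fin d) (Fin d) ℝ} (hR : R * R.transpose = 1) (k : Fin d) :
    ∑ l, R k l ^ 2 = 1 := by
  have h := congrFun (congrFun hR k) k
  simp only [Matrix.mul_apply, Matrix.transpose_apply, Matrix.one_apply_eq] at h
  rw [← h]
  exact Finset.sum_congr rfl fun l _ => by ring

/-- the part of the `k`-th coordinate outside of `G` -/
def gk {d : ℕ} (R : Matrix (Fin d) (Fin d) ℝ) (c : Fin d → ℝ) (G : Finset (Fin d)) (k : Fin d)
    (x : Fin d → ℝ) : ℝ := ∑ l, (if l ∈ G then 0 else R k l) * x l - c k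

theorem split_T {d : ℕ} (R : Matrix (Fin d) (Fin d) ℝ) (c : Fin d → ℝ) (G S : Finset (Fin d))
    (hS : S ⊆ G) (k : Fin d) (hk : k ∈ G) (x : Fin d → ℝ) :
    ∑ l, R k l * fl S x l - c k =
      gk R c G k x + R k k * fl S x k + ∑ l ∈ G.erase k, R k l * fl S x l := by
  have h1 : ∑ l, R k l * fl S x l = ∑ l ∈ Gᶜ, R k l * fl S x l + ∑ l ∈ G, R k l * fl S x l := by
    rw [add_comm]; exact (Finset.sum_add_sum_compl G _).symm
  have h2 : ∑ l, (if l ∈ G then 0 else R k l) * x l = ∑ l ∈ Gᶜ, R k l * fl S x l := by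
    rw [← Finset.sum_add_sum_compl G (fun l => (if l ∈ G then 0 else R k l) * x l)]
    have h3 : ∑ l ∈ G, (if l ∈ G then 0 else R k l) * x l = 0 := by
      apply Finset.sum_eq_zero
      intro l hl
      simp [hl]
    rw [h3, zero_add]
    apply Finset.sum_congr rfl
    intro l hl
    have hl' : l ∉ G := by simpa using hl
    have hl2 : l ∉ S := fun h => hl' (hS h)
    simp [hl', fl, hl2]
  have h4 : ∑ l ∈ G, R k l * fl S x l =
      R k k * fl S x k + ∑ l ∈ G.erase k, R k l * fl S x l :=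
    (Finset.add_sum_erase G (fun l => R k l * fl S x l) hk).symm
  unfold gk
  rw [h1, h2, h4]; ring

/-- pointwise claim for one index `k ∈ S`, `k ∉ S'` -/
theorem point {d : ℕ} {R : Matrix (Fin d) (Fin d) ℝ} {c : Fin d → ℝ} (hR : R * R.transpose = 1)
    {U G : Finset (Fin d)} (hGU : G ⊆ U) {κ σ : ℝ} (hκ : 0 ≤ κ) (hσ : 0 < σ) (hσ5 : σ ≤ 1/5)
    {k : Fin d} (hk : k ∈ G) (hpos : 0 < R k k)
    (hκk : ∑ l ∈ G.erase k, R k l ^ 2 ≤ κ ^ 2 * om R k)
    {x : Fin d → ℝ} (hx : x ∈ AU σ U) {S S' : Finset (Fin d)} (hS : S ⊆ G) (hS' : S' ⊆ G)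
    (h1 : fl S x ∈ UC R c) (h2 : fl S' x ∈ UC R c) (hkS : k ∈ S) (hkS' : k ∉ S') :
    0 < om R k ∧ |gk R c G k x| ≤ om R k / 2 + 7/10 * κ * Real.sqrt (G.card * om R k) := by
  have hrow := row_sq hR k
  have hkk1 : R k k ^ 2 ≤ 1 := by
    rw [← hrow]
    exact Finset.single_le_sum (f := fun l => R k l ^ 2) (fun l _ => sq_nonneg _) (mem_univ k)
  have hom0 : 0 ≤ om R k := by unfold om; linarith
  have hkk : R k k ≤ 1 := by nlinarith
  have hkkom : 1 - om R k ≤ R k k := by unfold om; nlinarith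
  set η : ℝ := 7/10 * κ * Real.sqrt (G.card * om R k) with hη
  have hη0 : 0 ≤ η := by positivity
  have hx7 : ∀ l, |x l| ≤ 7/10 := fun l => le_trans (hx.1 l) (by linarith)
  -- the middle sum
  have hmid : ∀ Q : Finset (Fin d), |∑ l ∈ G.erase k, R k l * fl Q x l| ≤ η := by
    intro Q
    have hcs := Finset.sum_mul_sq_le_sq_mul_sq (G.erase k) (fun l => R k l) (fun l => fl Q x l)
    have hb : ∑ l ∈ G.erase k, fl Q x l ^ 2 ≤ G.card * (7/10) ^ 2 := by
      calc ∑ l ∈ G.erase k, fl Q x l ^ 2 ≤ ∑ l ∈ G.erase k, ((7:ℝ)/10) ^ 2 := by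
            apply Finset.sum_le_sum
            intro l _
            rw [← sq_abs, fl_abs]
            exact pow_le_pow_left₀ (abs_nonneg _) (hx7 l) 2
        _ = ((G.erase k).card : ℝ) * (7/10) ^ 2 := by rw [Finset.sum_const, nsmul_eq_mul]
        _ ≤ G.card * (7/10) ^ 2 := by
            have : ((G.erase k).card : ℝ) ≤ G.card := by
              exact_mod_cast Finset.card_le_card (Finset.erase_subset k G)
            gcongr
    have hsq : (∑ l ∈ G.erase k, R k l * fl Q x l) ^ 2 ≤ η ^ 2 := by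
      calc (∑ l ∈ G.erase k, R k l * fl Q x l) ^ 2
          ≤ (∑ l ∈ G.erase k, R k l ^ 2) * ∑ l ∈ G.erase k, fl Q x l ^ 2 := hcs
        _ ≤ (κ ^ 2 * om R k) * (G.card * (7/10) ^ 2) := by
            apply mul_le_mul hκk hb (Finset.sum_nonneg fun l _ => sq_nonneg _) (by positivity)
        _ = η ^ 2 := by
            rw [hη, mul_pow, mul_pow, Real.sq_sqrt (by positivity)]; ring
    exact abs_le_of_sq_le_sq hsq hη0
  have hT1 := h1 k
  have hT2 := h2 k
  rw [split_T R c G S hS k hk x] at hT1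
  rw [split_T R c G S' hS' k hk x] at hT2
  have e1 : fl S x k = - x k := by simp [fl, hkS]
  have e2 : fl S' x k = x k := by simp [fl, hkS']
  rw [e1] at hT1
  rw [e2] at hT2
  have hm1 := abs_le.1 (hmid S)
  have hm2 := abs_le.1 (hmid S')
  have hT1' := abs_le.1 hT1
  have hT2' := abs_le.1 hT2
  set g := gk R c G k x with hg
  have hsum : |g| + R k k * |x k| ≤ 1/2 + η := by
    rcases abs_cases g with ⟨ha, _⟩ | ⟨ha, _⟩ <;> rcases abs_cases (x k) with ⟨hb, _⟩ | ⟨hb, _⟩ <;>
      rw [ha, hb] <;> nlinarith [hm1.1, hm1.2, hm2.1, hm2.2, hT1'.1, hT1'.2, hT2'.1, hT2'.2]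
  have hxk : 1/2 + σ/2 ≤ |x k| := hx.2 k (hGU hk)
  have hprod : (1 - om R k) * (1/2 + σ/2) ≤ R k k * |x k| := by
    have h1 : (1 - om R k) * (1/2 + σ/2) ≤ R k k * (1/2 + σ/2) := by
      apply mul_le_mul_of_nonneg_right hkkom (by linarith)
    have h2 : R k k * (1/2 + σ/2) ≤ R k k * |x k| := by
      apply mul_le_mul_of_nonneg_left hxk hpos.le
    linarith
  have hom1 : om R k ≤ 1 := by unfold om; nlinarith [sq_nonneg (R k k)]
  constructor
  · by_contra hn
    have h0 : om R k = 0 := le_antisymm (not_lt.1 hn) hom0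
    rw [h0] at hprod hη
    have : η = 0 := by rw [hη]; simp
    have hg0 := abs_nonneg g
    linarith
  · have : (1 - om R k) * (σ/2) ≥ 0 := mul_nonneg (by linarith) (by linarith)
    linarith

end Same

open Same in
theorem same (h1 : S_SLAB) (h2 : S_VOL) : S_SAME := by
  obtain ⟨C, hC, hslab⟩ := h1
  refine ⟨2 * C, by linarith, ?_⟩
  intro d R c hR U G hGU hGne m₁ κ hm₁ hκ hG σ hσ hσ5
  have hVpos := ((h2.1 d U σ hσ).2)
  have hfin : volume (AU σ U) ≠ ⊤ := by
    intro h
    rw [Measure.real, h] at hVpos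
    simp at hVpos
  have hom0 : ∀ k, 0 ≤ om R k := by
    intro k
    have hrow := row_sq hR k
    have hkk1 : R k k ^ 2 ≤ 1 := by
      rw [← hrow]
      exact Finset.single_le_sum (f := fun l => R k l ^ 2) (fun l _ => sq_nonneg _) (mem_univ k)
    unfold om; linarith
  set lam : Fin d → ℝ := fun k => om R k / 2 + 7/10 * κ * Real.sqrt (G.card * om R k) with hlam
  have hlam0 : ∀ k, 0 ≤ lam k := by
    intro k
    have := hom0 k
    simp only [hlam]
    positivity
  -- the bad slabs
  set Bk : Fin d → Set (Fin d → ℝ) := fun k => {x | x ∈ AU σ U ∧ |gk R c G k x| ≤ lam k} with hBk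
  set G' : Finset (Fin d) := G.filter (fun k => 0 < om R k) with hG'
  set B : Set (Fin d → ℝ) := ⋃ k ∈ G', Bk k with hB
  have hBkm : ∀ k, MeasurableSet (Bk k) := by
    intro k
    have : Bk k = AU σ U ∩ {x | |gk R c G k x| ≤ lam k} := rfl
    rw [this]
    refine (meas_AU σ U).inter ?_
    unfold gk
    exact measurableSet_le (by fun_prop) (by fun_prop)
  have hBm : MeasurableSet B := by
    rw [hB]
    exact Finset.measurableSet_biUnion G' fun k _ => hBkm k
  have hBsub : B ⊆ AU σ U := by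
    intro x hx
    simp only [hB, Set.mem_iUnion] at hx
    obtain ⟨k, _, hk⟩ := hx
    exact hk.1
  have hfinsub : ∀ X : Set (Fin d → ℝ), X ⊆ AU σ U → volume X ≠ ⊤ := fun X hX =>
    ne_top_of_le_ne_top hfin (measure_mono hX)
  -- volume of one slab
  have hslabk : ∀ k ∈ G', volume.real (Bk k) ≤
      2 * C * (Real.sqrt m₁ + Real.sqrt G.card * κ) * volume.real (AU σ U) := by
    intro k hk
    have hkG : k ∈ G := (Finset.mem_filter.1 hk).1
    have homp : 0 < om R k := (Finset.mem_filter.1 hk).2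
    obtain ⟨_, hom1, _, hout⟩ := hG k hkG
    have hs := hslab d U σ hσ (fun l => if l ∈ G then 0 else R k l) (c k) (lam k) (hlam0 k)
    have hset : {x : Fin d → ℝ | x ∈ AU σ U ∧
        |∑ l, (if l ∈ G then 0 else R k l) * x l - c k| ≤ lam k} = Bk k := rfl
    rw [hset] at hs
    have hsum : ∑ l ∈ Uᶜ, (if l ∈ G then (0:ℝ) else R k l) ^ 2 = ∑ l ∈ Uᶜ, R k l ^ 2 := by
      apply Finset.sum_congr rfl
      intro l hl
      have : l ∉ G := fun h => (Finset.mem_compl.1 hl) (hGU h)
      simp [this]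
    rw [hsum] at hs
    have hsq : Real.sqrt (2/5 * om R k) ≤ Real.sqrt (∑ l ∈ Uᶜ, R k l ^ 2) :=
      Real.sqrt_le_sqrt hout
    have hVB0 : 0 ≤ volume.real (Bk k) := measureReal_nonneg
    -- `lam k ≤ 2 (sqrt m₁ + sqrt |G| κ) sqrt (2/5 om)`
    set s : ℝ := Real.sqrt (om R k) with hs'
    have hspos : 0 < s := Real.sqrt_pos.2 homp
    have hss : s ^ 2 = om R k := Real.sq_sqrt homp.le
    have hlamle : lam k ≤ 2 * (Real.sqrt m₁ + Real.sqrt G.card * κ) * Real.sqrt (2/5 * om R k) := by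
      have e1 : Real.sqrt (2/5 * om R k) = Real.sqrt (2/5) * s := Real.sqrt_mul (by norm_num) _
      have e2 : Real.sqrt (G.card * om R k) = Real.sqrt G.card * s :=
        Real.sqrt_mul (by positivity) _
      have e3 : (1/2 : ℝ) ≤ Real.sqrt (2/5) := by
        apply Real.le_sqrt_of_sq_le; norm_num
      have e4 : s ≤ Real.sqrt m₁ := Real.sqrt_le_sqrt hom1
      have hgc : 0 ≤ Real.sqrt (G.card : ℝ) * κ := by positivity
      simp only [hlam]
      rw [e1, e2, ← hss]
      have h5 : s ^ 2 / 2 + 7/10 * κ * (Real.sqrt G.card * s) ≤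
          (Real.sqrt m₁ + Real.sqrt G.card * κ) * s := by
        have h6 : s ^ 2 ≤ Real.sqrt m₁ * s := by
          rw [sq]; exact mul_le_mul_of_nonneg_right e4 hspos.le
        have h7 : 0 ≤ (Real.sqrt G.card * κ) * s := by positivity
        nlinarith [sq_nonneg s]
      have h8 : (Real.sqrt m₁ + Real.sqrt G.card * κ) * s ≤
          2 * (Real.sqrt m₁ + Real.sqrt G.card * κ) * (Real.sqrt (2/5) * s) := by
        have h9 : 0 ≤ (Real.sqrt m₁ + Real.sqrt G.card * κ) * s := by positivity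
        nlinarith
      linarith
    have hq : 0 < Real.sqrt (2/5 * om R k) := Real.sqrt_pos.2 (by positivity)
    have hfinal : volume.real (Bk k) * Real.sqrt (2/5 * om R k) ≤
        (2 * C * (Real.sqrt m₁ + Real.sqrt G.card * κ) * volume.real (AU σ U)) *
          Real.sqrt (2/5 * om R k) := by
      calc volume.real (Bk k) * Real.sqrt (2/5 * om R k)
          ≤ volume.real (Bk k) * Real.sqrt (∑ l ∈ Uᶜ, R k l ^ 2) :=
            mul_le_mul_of_nonneg_left hsq hVB0
        _ ≤ C * lam k * volume.real (AU σ U) := hs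
        _ ≤ C * (2 * (Real.sqrt m₁ + Real.sqrt G.card * κ) * Real.sqrt (2/5 * om R k)) *
              volume.real (AU σ U) := by gcongr
        _ = (2 * C * (Real.sqrt m₁ + Real.sqrt G.card * κ) * volume.real (AU σ U)) *
              Real.sqrt (2/5 * om R k) := by ring
    exact le_of_mul_le_mul_right hfinal hq
  have hVB : volume.real B ≤
      2 * C * G.card * (Real.sqrt m₁ + Real.sqrt G.card * κ) * volume.real (AU σ U) := by
    calc volume.real B ≤ ∑ k ∈ G', volume.real (Bk k) := by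
          rw [hB]; exact measureReal_biUnion_finset_le G' Bk
      _ ≤ ∑ k ∈ G', 2 * C * (Real.sqrt m₁ + Real.sqrt G.card * κ) * volume.real (AU σ U) :=
          Finset.sum_le_sum hslabk
      _ = (G'.card : ℝ) * (2 * C * (Real.sqrt m₁ + Real.sqrt G.card * κ) *
            volume.real (AU σ U)) := by rw [Finset.sum_const, nsmul_eq_mul]
      _ ≤ (G.card : ℝ) * (2 * C * (Real.sqrt m₁ + Real.sqrt G.card * κ) *
            volume.real (AU σ U)) := by
          have : (G'.card : ℝ) ≤ G.card := by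
            exact_mod_cast Finset.card_le_card (Finset.filter_subset _ G)
          gcongr
      _ = 2 * C * G.card * (Real.sqrt m₁ + Real.sqrt G.card * κ) * volume.real (AU σ U) := by ring
  -- the flipped pieces
  set A : Finset (Fin d) → Set (Fin d → ℝ) := fun S => (fl S ⁻¹' (UC R c ∩ AU σ U)) \ B with hA
  have hpre : ∀ S : Finset (Fin d), volume.real (fl S ⁻¹' (UC R c ∩ AU σ U)) =
      volume.real (UC R c ∩ AU σ U) := by
    intro S
    rw [Measure.real, Measure.real, (fl_mp S).measure_preimage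
      ((meas_UC R c).inter (meas_AU σ U)).nullMeasurableSet]
  have hAm : ∀ S, MeasurableSet (A S) := fun S =>
    ((fl_mp S).measurable ((meas_UC R c).inter (meas_AU σ U))).diff hBm
  have hAsub : ∀ S, A S ⊆ AU σ U := by
    intro S x hx
    have : x ∈ fl S ⁻¹' (AU σ U) := hx.1.2
    rwa [fl_AU] at this
  have hdisj : (G.powerset : Set (Finset (Fin d))).PairwiseDisjoint A := by
    intro S hS S' hS' hne
    rw [Function.onFun, Set.disjoint_left]
    intro x hxS hxS'
    have hSG : S ⊆ G := Finset.mem_powerset.1 hS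
    have hSG' : S' ⊆ G := Finset.mem_powerset.1 hS'
    have hxA := hAsub S hxS
    have hbad : ∀ (P Q : Finset (Fin d)), P ⊆ G → Q ⊆ G → x ∈ A P → x ∈ A Q →
        ∀ k ∈ P, k ∉ Q → False := by
      intro P Q hP hQ hxP hxQ k hkP hkQ
      have hkG := hP hkP
      obtain ⟨hp, _, hk2, _⟩ := hG k hkG
      have := point hR hGU hκ hσ hσ5 hkG hp hk2 hxA hP hQ hxP.1.1 hxQ.1.1 hkP hkQ
      apply hxP.2
      simp only [hB, Set.mem_iUnion]
      exact ⟨k, Finset.mem_filter.2 ⟨hkG, this.1⟩, hxA, this.2⟩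
    have : ∃ k, ¬ (k ∈ S ↔ k ∈ S') := by
      by_contra hcon
      push Not at hcon
      exact hne (Finset.ext hcon)
    obtain ⟨k, hk⟩ := this
    by_cases hkS : k ∈ S
    · have hkS' : k ∉ S' := fun h => hk ⟨fun _ => h, fun _ => hkS⟩
      exact hbad S S' hSG hSG' hxS hxS' k hkS hkS'
    · have hkS' : k ∈ S' := by
        by_contra h
        exact hk ⟨fun h' => absurd h' hkS, fun h' => absurd h' h⟩
      exact hbad S' S hSG' hSG hxS' hxS k hkS' hkS
  have hsumA : ∑ S ∈ G.powerset, volume.real (A S) ≤ volume.real (AU σ U) := by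
    rw [← measureReal_biUnion_finset hdisj (fun S _ => hAm S) (fun S _ => hfinsub _ (hAsub S))]
    exact measureReal_mono (Set.iUnion₂_subset fun S _ => hAsub S) hfin
  have hone : ∀ S ∈ G.powerset, volume.real (UC R c ∩ AU σ U) ≤
      volume.real (A S) + volume.real B := by
    intro S _
    rw [← hpre S]
    have hsub : fl S ⁻¹' (UC R c ∩ AU σ U) ⊆ A S ∪ B := by
      intro x hx
      by_cases hxB : x ∈ B
      · exact Or.inr hxB
      · exact Or.inl ⟨hx, hxB⟩
    calc volume.real (fl S ⁻¹' (UC R c ∩ AU σ U)) ≤ volume.real (A S ∪ B) :=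
          measureReal_mono hsub (hfinsub _ (Set.union_subset (hAsub S) hBsub))
      _ ≤ volume.real (A S) + volume.real B := measureReal_union_le _ _
  have htot : (2 : ℝ) ^ G.card * volume.real (UC R c ∩ AU σ U) ≤
      volume.real (AU σ U) + 2 ^ G.card * volume.real B := by
    have h3 := Finset.sum_le_sum hone
    rw [Finset.sum_add_distrib, Finset.sum_const, Finset.sum_const, Finset.card_powerset,
      nsmul_eq_mul, nsmul_eq_mul] at h3
    push_cast at h3
    linarith
  have hpow : (1/2 : ℝ) ^ G.card * 2 ^ G.card = 1 := by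
    rw [← mul_pow]; norm_num
  have h12 : 0 ≤ (1/2 : ℝ) ^ G.card := by positivity
  calc volume.real (UC R c ∩ AU σ U)
      = (1/2 : ℝ) ^ G.card * (2 ^ G.card * volume.real (UC R c ∩ AU σ U)) := by
        rw [← mul_assoc, hpow, one_mul]
    _ ≤ (1/2 : ℝ) ^ G.card * (volume.real (AU σ U) + 2 ^ G.card * volume.real B) :=
        mul_le_mul_of_nonneg_left htot h12
    _ = (1/2 : ℝ) ^ G.card * volume.real (AU σ U) + volume.real B := by
        rw [mul_add, ← mul_assoc, hpow, one_mul]
    _ ≤ (1/2 : ℝ) ^ G.card * volume.real (AU σ U) +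
        2 * C * G.card * (Real.sqrt m₁ + Real.sqrt G.card * κ) * volume.real (AU σ U) := by
        linarith
    _ = ((1/2) ^ G.card + 2 * C * G.card * (Real.sqrt m₁ + Real.sqrt G.card * κ)) *
        volume.real (AU σ U) := by ring

end Pool.Agent.NC
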