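import Pool.Agent.NewtonCov.Stmts

/-!
Module NC_SLAB: slabs in `AU` by Fubini over the coordinates in `U`.
-/

set_option autoImplicit false

namespace Pool.Agent.NC

open MeasureTheory Finset

namespace Slab36

variable {d : ℕ} (p : Fin d → Prop) [DecidablePred p]

/-- Factor of `AU` over the coordinates in `U`. -/
def B1 (σ : ℝ) : Set ({l : Fin d // p l} → ℝ) :=
  {y | ∀ i, |y i| ≤ 1/2 + σ ∧ 1/2 + σ/2 ≤ |y i|}

/-- Factor of `AU` over the other coordinates. -/
def B2 (σ : ℝ) : Set ({l : Fin d // ¬ p l} → ℝ) :=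
  {z | ∀ i, |z i| ≤ (1 + 2 * σ) / 2}

/-- The splitting of the coordinates. -/
noncomputable def E :=
  MeasurableEquiv.piEquivPiSubtypeProd (fun _ : Fin d => ℝ) p

theorem E_mp : MeasurePreserving (E p) volume
    ((volume : Measure ({l : Fin d // p l} → ℝ)).prod
      (volume : Measure ({l : Fin d // ¬ p l} → ℝ))) :=
  volume_preserving_piEquivPiSubtypeProd (fun _ : Fin d => ℝ) p

theorem E_fst (x : Fin d → ℝ) (i : {l : Fin d // p l}) : (E p x).1 i = x i := rfl

theorem E_snd (x : Fin d → ℝ) (i : {l : Fin d // ¬ p l}) : (E p x).2 i = x i := rfl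

theorem mem_AU_iff (σ : ℝ) (U : Finset (Fin d)) (hU : ∀ l, l ∈ U ↔ p l) (x : Fin d → ℝ) :
    x ∈ AU σ U ↔ (E p x).1 ∈ B1 p σ ∧ (E p x).2 ∈ B2 p σ := by
  constructor
  · rintro ⟨h1, h2⟩
    refine ⟨fun i => ⟨h1 i, h2 i ((hU i).2 i.2)⟩, fun i => ?_⟩
    have := h1 i
    rw [E_snd]
    linarith
  · rintro ⟨h1, h2⟩
    refine ⟨fun k => ?_, fun k hk => (h1 ⟨k, (hU k).1 hk⟩).2⟩
    by_cases hk : p k
    · exact (h1 ⟨k, hk⟩).1
    · have := h2 ⟨k, hk⟩
      rw [E_snd] at this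
      simp only at this
      linarith

theorem measurable_B1 (σ : ℝ) : MeasurableSet (B1 p σ) := by
  have : B1 p σ = ⋂ i, ({y | |y i| ≤ 1/2 + σ} ∩ {y | 1/2 + σ/2 ≤ |y i|}) := by
    ext y
    simp [B1]
  rw [this]
  refine MeasurableSet.iInter fun i => ?_
  have hm : Measurable fun y : {l : Fin d // p l} → ℝ => |y i| := (measurable_pi_apply i).abs
  exact (measurableSet_le hm measurable_const).inter (measurableSet_le measurable_const hm)

theorem B2_eq (σ : ℝ) :
    B2 p σ = Set.pi Set.univ (fun _ => Set.Icc (-((1 + 2 * σ)/2)) ((1 + 2 * σ)/2)) := by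
  ext z
  simp only [B2, Set.mem_pi, Set.mem_univ, true_imp_iff, Set.mem_Icc, abs_le]
  rfl

theorem measurable_B2 (σ : ℝ) : MeasurableSet (B2 p σ) := by
  rw [B2_eq]
  exact MeasurableSet.univ_pi fun _ => measurableSet_Icc

theorem volume_B2 {σ : ℝ} (hσ : 0 < σ) :
    volume (B2 p σ) = ENNReal.ofReal ((1 + 2 * σ) ^ (Fintype.card {l : Fin d // ¬ p l})) := by
  rw [B2_eq, volume_pi_pi]
  simp only [Real.volume_Icc, Finset.prod_const, Finset.card_univ]
  rw [ENNReal.ofReal_pow (by positivity)]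
  congr 2
  ring

theorem volume_AU {σ : ℝ} (hσ : 0 < σ) (U : Finset (Fin d)) (hU : ∀ l, l ∈ U ↔ p l) :
    volume (AU σ U) = volume (B1 p σ) *
      ENNReal.ofReal ((1 + 2 * σ) ^ (Fintype.card {l : Fin d // ¬ p l})) := by
  have h1 : AU σ U = E p ⁻¹' (B1 p σ ×ˢ B2 p σ) := by
    ext x
    rw [mem_AU_iff p σ U hU]
    rfl
  rw [h1, (E_mp p).measure_preimage
    ((measurable_B1 p σ).prod (measurable_B2 p σ)).nullMeasurableSet, Measure.prod_prod,
    volume_B2 p hσ]

/-- Section bound. -/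
theorem section_bound {C : ℝ} (hC : 0 < C) {σ : ℝ} (hσ : 0 < σ)
    (hden : ∀ (h : {l : Fin d // ¬ p l} → ℝ) (a lam s : ℝ), 0 ≤ lam → 1 ≤ s →
      volume.real {x : {l : Fin d // ¬ p l} → ℝ | (∀ i, |x i| ≤ s/2) ∧ |∑ i, h i * x i - a| ≤ lam} *
        Real.sqrt (∑ i, h i ^ 2) ≤ C * lam * s ^ (Fintype.card {l : Fin d // ¬ p l}))
    (h : {l : Fin d // ¬ p l} → ℝ) (a lam : ℝ) (hlam : 0 ≤ lam) (hq : 0 < Real.sqrt (∑ i, h i ^ 2)) :
    volume {x : {l : Fin d // ¬ p l} → ℝ | x ∈ B2 p σ ∧ |∑ i, h i * x i - a| ≤ lam} ≤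
      ENNReal.ofReal (C * lam * (1 + 2 * σ) ^ (Fintype.card {l : Fin d // ¬ p l}) /
        Real.sqrt (∑ i, h i ^ 2)) := by
  have h1 := hden h a lam (1 + 2 * σ) hlam (by linarith)
  have hfin : volume {x : {l : Fin d // ¬ p l} → ℝ | x ∈ B2 p σ ∧ |∑ i, h i * x i - a| ≤ lam} ≠ ⊤ := by
    refine ne_top_of_le_ne_top ?_ (measure_mono (t := B2 p σ) fun x hx => hx.1)
    rw [volume_B2 p hσ]
    exact ENNReal.ofReal_ne_top
  rw [ENNReal.le_ofReal_iff_toReal_le hfin (by positivity)]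
  rw [le_div_iff₀ hq]
  exact h1

theorem main_aux {C : ℝ} (hC : 0 < C)
    (hden : ∀ (ι : Type) [Fintype ι] (h : ι → ℝ) (a lam s : ℝ), 0 ≤ lam → 1 ≤ s →
      volume.real {x : ι → ℝ | (∀ i, |x i| ≤ s/2) ∧ |∑ i, h i * x i - a| ≤ lam} *
        Real.sqrt (∑ i, h i ^ 2) ≤ C * lam * s ^ (Fintype.card ι))
    (U : Finset (Fin d)) (hU : ∀ l, l ∈ U ↔ p l) {σ : ℝ} (hσ : 0 < σ)
    (h : Fin d → ℝ) (a lam : ℝ) (hlam : 0 ≤ lam) (hq : 0 < Real.sqrt (∑ l ∈ Uᶜ, h l ^ 2)) :
    volume.real {x : Fin d → ℝ | x ∈ AU σ U ∧ |∑ l, h l * x l - a| ≤ lam} *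
      Real.sqrt (∑ l ∈ Uᶜ, h l ^ 2) ≤ C * lam * volume.real (AU σ U) := by
  set h2 : {l : Fin d // ¬ p l} → ℝ := fun l => h l with hh2
  have hsum : ∑ l ∈ Uᶜ, h l ^ 2 = ∑ l, h2 l ^ 2 :=
    Finset.sum_subtype Uᶜ (fun x => by simp [hU]) (fun l => h l ^ 2)
  rw [hsum] at hq ⊢
  set K : ℝ := C * lam * (1 + 2 * σ) ^ (Fintype.card {l : Fin d // ¬ p l}) /
        Real.sqrt (∑ i, h2 i ^ 2) with hK
  have hK0 : 0 ≤ K := by positivity
  have hsplit : ∀ x : Fin d → ℝ, ∑ l, h l * x l =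
      ∑ l : {l : Fin d // p l}, h l * (E p x).1 l + ∑ l, h2 l * (E p x).2 l := by
    intro x
    rw [← Fintype.sum_subtype_add_sum_subtype p]
    rfl
  set S : Set (({l : Fin d // p l} → ℝ) × ({l : Fin d // ¬ p l} → ℝ)) :=
    {w | w.1 ∈ B1 p σ ∧ w.2 ∈ B2 p σ ∧
      |∑ l : {l : Fin d // p l}, h l * w.1 l + ∑ l, h2 l * w.2 l - a| ≤ lam} with hS
  have hSm : MeasurableSet S := by
    have e1 : MeasurableSet {w : ({l : Fin d // p l} → ℝ) × ({l : Fin d // ¬ p l} → ℝ) |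
        w.1 ∈ B1 p σ} := measurable_fst (measurable_B1 p σ)
    have e2 : MeasurableSet {w : ({l : Fin d // p l} → ℝ) × ({l : Fin d // ¬ p l} → ℝ) |
        w.2 ∈ B2 p σ} := measurable_snd (measurable_B2 p σ)
    have e3 : MeasurableSet {w : ({l : Fin d // p l} → ℝ) × ({l : Fin d // ¬ p l} → ℝ) |
        |∑ l : {l : Fin d // p l}, h l * w.1 l + ∑ l, h2 l * w.2 l - a| ≤ lam} := by
      apply measurableSet_le _ measurable_const
      fun_prop
    exact e1.inter (e2.inter e3)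
  have hpre : {x : Fin d → ℝ | x ∈ AU σ U ∧ |∑ l, h l * x l - a| ≤ lam} = E p ⁻¹' S := by
    ext x
    constructor
    · rintro ⟨hx1, hx2⟩
      rw [mem_AU_iff p σ U hU] at hx1
      refine ⟨hx1.1, hx1.2, ?_⟩
      rw [hsplit] at hx2
      exact hx2
    · rintro ⟨hx1, hx2, hx3⟩
      refine ⟨(mem_AU_iff p σ U hU x).2 ⟨hx1, hx2⟩, ?_⟩
      rw [hsplit]
      exact hx3
  have key : volume {x : Fin d → ℝ | x ∈ AU σ U ∧ |∑ l, h l * x l - a| ≤ lam} ≤
      ENNReal.ofReal K * volume (B1 p σ) := by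
    rw [hpre, (E_mp p).measure_preimage hSm.nullMeasurableSet, Measure.prod_apply hSm]
    calc ∫⁻ y, volume (Prod.mk y ⁻¹' S) ≤
        ∫⁻ y, (B1 p σ).indicator (fun _ => ENNReal.ofReal K) y := by
          apply lintegral_mono
          intro y
          show volume (Prod.mk y ⁻¹' S) ≤ _
          by_cases hy : y ∈ B1 p σ
          · rw [Set.indicator_of_mem hy]
            refine le_trans (measure_mono ?_) (section_bound p hC hσ
              (hden {l : Fin d // ¬ p l}) h2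
              (a - ∑ l : {l : Fin d // p l}, h l * y l) lam hlam hq)
            rintro z ⟨-, hz1, hz2⟩
            refine ⟨hz1, ?_⟩
            have : ∑ i, h2 i * z i - (a - ∑ l : {l : Fin d // p l}, h l * y l) =
              ∑ l : {l : Fin d // p l}, h l * y l + ∑ l, h2 l * z l - a := by ring
            rw [this]
            exact hz2
          · have : Prod.mk y ⁻¹' S = ∅ := by
              ext z
              simp only [Set.mem_preimage, Set.mem_empty_iff_false, iff_false]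
              rintro ⟨h1, -⟩
              exact hy h1
            rw [this, measure_empty]
            exact bot_le
      _ = ENNReal.ofReal K * volume (B1 p σ) := by
          rw [lintegral_indicator (measurable_B1 p σ), lintegral_const,
            Measure.restrict_apply MeasurableSet.univ, Set.univ_inter]
  have hAU := volume_AU p hσ U hU
  have hB1 : volume (B1 p σ) ≠ ⊤ := by
    refine ne_top_of_le_ne_top ?_ (measure_mono (t := Set.pi Set.univ
      (fun _ => Set.Icc (-(1/2 + σ)) (1/2 + σ))) fun y hy => ?_)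
    · rw [volume_pi_pi]
      exact ENNReal.prod_ne_top fun i _ => by
        rw [Real.volume_Icc]
        exact ENNReal.ofReal_ne_top
    · intro i _
      exact abs_le.1 (hy i).1
  have hAUr : volume.real (AU σ U) = volume.real (B1 p σ) *
      (1 + 2 * σ) ^ (Fintype.card {l : Fin d // ¬ p l}) := by
    simp only [measureReal_def]
    rw [hAU, ENNReal.toReal_mul, ENNReal.toReal_ofReal (by positivity)]
  have hr : volume.real {x : Fin d → ℝ | x ∈ AU σ U ∧ |∑ l, h l * x l - a| ≤ lam} ≤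
      K * volume.real (B1 p σ) := by
    rw [measureReal_def, measureReal_def]
    refine le_trans (ENNReal.toReal_mono (ENNReal.mul_ne_top ENNReal.ofReal_ne_top hB1) key) ?_
    rw [ENNReal.toReal_mul, ENNReal.toReal_ofReal hK0]
  calc volume.real {x : Fin d → ℝ | x ∈ AU σ U ∧ |∑ l, h l * x l - a| ≤ lam} *
        Real.sqrt (∑ l, h2 l ^ 2) ≤ K * volume.real (B1 p σ) * Real.sqrt (∑ l, h2 l ^ 2) :=
        mul_le_mul_of_nonneg_right hr hq.le
    _ = C * lam * volume.real (AU σ U) := by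
        rw [hAUr, hK]
        field_simp

end Slab36

open Slab36 in
theorem slab (hh : S_DEN) : S_SLAB := by
  obtain ⟨C, hC, hden⟩ := hh
  refine ⟨C, hC, ?_⟩
  intro d U σ hσ h a lam hlam
  rcases eq_or_lt_of_le (Real.sqrt_nonneg (∑ l ∈ Uᶜ, h l ^ 2)) with hq | hq
  · rw [← hq, mul_zero]
    positivity
  exact main_aux (fun l => l ∈ U) hC hden U (fun _ => Iff.rfl) hσ h a lam hlam hq

end Pool.Agent.NC
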