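import Pool.Agent.NewtonCov.Defs

/-!
MP_a2070a_co: statements of the modules. Proofs: `PAPER.md` in this folder.
-/

set_option autoImplicit false

namespace Pool.Agent.NC

open MeasureTheory Finset

/-- RED: a covering of a neighbourhood of the cube in normal form. -/
def S_RED : Prop := ∀ (d n : ℕ), Pool.Agent.Newton.Covers d n →
  ∃ (R : Fin n → Matrix (Fin d) (Fin d) ℝ) (c : Fin n → Fin d → ℝ),
    (∀ j, R j * (R j).transpose = 1) ∧ (∀ j, Nrm (R j)) ∧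
    ∃ σ₁ : ℝ, 0 < σ₁ ∧ ∀ x : Fin d → ℝ, (∀ k, |x k| ≤ 1/2 + σ₁) → ∃ j, x ∈ UC (R j) (c j)

/-- VOL: volume of `AU` and subadditivity over a covering. -/
def S_VOL : Prop :=
  (∀ (d : ℕ) (U : Finset (Fin d)) (σ : ℝ), 0 < σ →
    volume.real (AU σ U) = σ ^ U.card * (1 + 2 * σ) ^ (d - U.card) ∧
    0 < volume.real (AU σ U)) ∧
  (∀ (d n : ℕ) (R : Fin n → Matrix (Fin d) (Fin d) ℝ) (c : Fin n → Fin d → ℝ) (σ : ℝ)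
    (U : Finset (Fin d)), 0 < σ →
    (∀ x : Fin d → ℝ, (∀ k, |x k| ≤ 1/2 + σ) → ∃ j, x ∈ UC (R j) (c j)) →
    volume.real (AU σ U) ≤ ∑ j, volume.real (UC (R j) (c j) ∩ AU σ U))

/-- DEN: slabs of thickness `2 lam` in the cube of side `s`. -/
def S_DEN : Prop := ∃ C : ℝ, 0 < C ∧ ∀ (ι : Type) [Fintype ι] (h : ι → ℝ) (a lam s : ℝ),
  0 ≤ lam → 1 ≤ s →
  volume.real {x : ι → ℝ | (∀ i, |x i| ≤ s/2) ∧ |∑ i, h i * x i - a| ≤ lam} *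
    Real.sqrt (∑ i, h i ^ 2) ≤ C * lam * s ^ (Fintype.card ι)

/-- SLAB: slabs in `AU`. -/
def S_SLAB : Prop := ∃ C : ℝ, 0 < C ∧ ∀ (d : ℕ) (U : Finset (Fin d)) (σ : ℝ), 0 < σ →
  ∀ (h : Fin d → ℝ) (a lam : ℝ), 0 ≤ lam →
  volume.real {x : Fin d → ℝ | x ∈ AU σ U ∧ |∑ l, h l * x l - a| ≤ lam} *
    Real.sqrt (∑ l ∈ Uᶜ, h l ^ 2) ≤ C * lam * volume.real (AU σ U)

/-- TAL: Talagrand's inequality for convex sets and product measures, in the form needed. -/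
def S_TAL : Prop := ∀ (n : ℕ) (a b : ℝ), a < b → ∀ (I : Fin n → Set ℝ),
  (∀ i, MeasurableSet (I i)) → (∀ i, I i ⊆ Set.Icc a b) → (∀ i, 0 < volume (I i)) →
  ∀ A : Set (Fin n → ℝ), A.Nonempty → IsCompact A → Convex ℝ A →
  (∀ y ∈ A, ∀ i, y i ∈ Set.Icc a b) →
  (∫ x in Set.pi Set.univ I, Real.exp (dsq x A / (4 * (b - a) ^ 2))) *
    volume.real (A ∩ Set.pi Set.univ I) ≤ volume.real (Set.pi Set.univ I) ^ 2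

/-- PZ: Paley-Zygmund for sums of independent uniform variables. -/
def S_PZ : Prop := ∀ (ι : Type) [Fintype ι] (t : ι → ℝ),
  3/32 ≤ volume.real {x : ι → ℝ | (∀ i, |x i| ≤ 1/2) ∧
    (1/2) * Real.sqrt ((∑ i, t i ^ 2) / 12) ≤ ∑ i, t i * x i}

/-- TAIL: a unit cube sticks out of the unit slab perpendicular to a tilted direction. -/
def S_TAIL : Prop := ∃ c : ℝ, 0 < c ∧ ∀ (ι : Type) [Fintype ι] (t : ι → ℝ) (m : ℝ),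
  0 < m → m ≤ 1/2 → 1 - m/1000 ≤ ∑ i, t i ^ 2 → ∑ i, t i ^ 2 ≤ 1 → (∀ i, t i ^ 2 ≤ 1 - m) →
  c * (m * Real.sqrt m) ≤
    ∫ x in {x : ι → ℝ | ∀ i, |x i| ≤ 1/2}, (max (∑ i, t i * x i - 1/2) 0) ^ 2

/-- ROW: expected squared overshoot of one row over `AU`. -/
def S_ROW : Prop := ∃ c : ℝ, 0 < c ∧ ∀ (d : ℕ) (U : Finset (Fin d)) (σ : ℝ), 0 < σ →
  ∀ (r : Fin d → ℝ) (a m : ℝ), 0 < m → m ≤ 1/2 → ∑ l, r l ^ 2 = 1 →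
  ∑ l ∈ U, r l ^ 2 ≤ m/1000 → (∀ l, r l ^ 2 ≤ 1 - m) →
  c * (m * Real.sqrt m) * volume.real (AU σ U) ≤
    ∫ x in AU σ U, (max (|∑ l, r l * x l - a| - 1/2) 0) ^ 2

/-- FAR: a cube with many tilted axes contains little of `AU`. -/
def S_FAR : Prop := ∃ C : ℝ, 0 < C ∧ ∀ (d : ℕ) (R : Matrix (Fin d) (Fin d) ℝ) (c : Fin d → ℝ),
  2 ≤ d → R * R.transpose = 1 → Nrm R → ∀ (U : Finset (Fin d)) (σ : ℝ), 0 < σ → σ ≤ 1/5 →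
  C * (U.card + Real.log d + 1) ≤ ∑ k, w32 (om R k) →
  volume.real (UC R c ∩ AU σ U) ≤ volume.real (AU σ U) / d ^ 2

/-- L1: pair lemma for cubes nearly aligned on `U`. -/
def S_L1 : Prop := ∀ (d : ℕ) (R : Matrix (Fin d) (Fin d) ℝ), R * R.transpose = 1 →
  ∀ (U : Finset (Fin d)), U.Nonempty →
  (∀ k ∈ U, 0 < R k k ∧ om R k ≤ 1 / (100 * U.card)) →
  (∑ k ∈ U, qU R U k / om R k ≤ 1 / (100 * U.card)) →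
  ∀ (σ : ℝ), 0 < σ → U.card * σ ≤ 1 →
  ∀ (y : Fin d → ℝ), (∀ k, k ∉ U → y k = 0) → (∀ k, |y k| ≤ 1) →
  ∀ D ⊆ U, D.Nonempty → (∀ k ∈ D, 1 + σ ≤ |∑ j, R j k * y j|) →
  (∀ k ∈ U \ D, |∑ j, R j k * y j| ≤ σ/2) →
  ∃ k ∈ D, 0 < om R k ∧ 1 - 11/5 * U.card * qU R U k ≤ |y k|

/-- FIB: volume of a set with thin fibres in the directions of the rows with index in `U`. -/
def S_FIB : Prop := ∀ (d : ℕ) (R : Matrix (Fin d) (Fin d) ℝ) (c : Fin d → ℝ),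
  R * R.transpose = 1 → ∀ (U : Finset (Fin d)), U.Nonempty →
  (∀ k ∈ U, 0 < R k k ∧ om R k ≤ 1 / (100 * U.card)) →
  (∑ k ∈ U, qU R U k ≤ (1 / (100 * U.card)) ^ 2) →
  ∀ (E : Set (Fin d → ℝ)) (w : ℝ), 0 ≤ w → MeasurableSet E → E ⊆ UC R c →
  (∀ x ∈ E, ∀ x' ∈ E, (∀ j, j ∉ U → ∑ l, R j l * x l = ∑ l, R j l * x' l) →
    ∀ k ∈ U, |x k - x' k| ≤ w) →
  volume.real E ≤ 2 * w ^ U.card

/-- NEAR: volume bound for a cube nearly aligned on `U`. -/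
def S_NEAR : Prop := ∃ C : ℝ, 0 < C ∧ ∀ (d : ℕ) (R : Matrix (Fin d) (Fin d) ℝ)
  (c : Fin d → ℝ), R * R.transpose = 1 →
  ∀ (U : Finset (Fin d)), U.Nonempty →
  (∀ k ∈ U, 0 < R k k ∧ om R k ≤ 1 / (100 * U.card)) →
  (∑ k ∈ U, qU R U k / om R k ≤ 1 / (100 * U.card)) →
  ∀ (σ : ℝ), 0 < σ → U.card * σ ≤ 1 →
  volume.real (UC R c ∩ AU σ U) ≤
    (2 * (1/2) ^ U.card + C * U.card * ∑ k ∈ U, (qU R U k / om R k) * Real.sqrt (om R k)) *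
      volume.real (AU σ U)

/-- SAME: volume bound for a cube with many nearly aligned axes in `G ⊆ U`. -/
def S_SAME : Prop := ∃ C : ℝ, 0 < C ∧ ∀ (d : ℕ) (R : Matrix (Fin d) (Fin d) ℝ)
  (c : Fin d → ℝ), R * R.transpose = 1 →
  ∀ (U G : Finset (Fin d)), G ⊆ U → G.Nonempty → ∀ (m₁ κ : ℝ), 0 ≤ m₁ → 0 ≤ κ →
  (∀ k ∈ G, 0 < R k k ∧ om R k ≤ m₁ ∧ ∑ l ∈ G.erase k, R k l ^ 2 ≤ κ ^ 2 * om R k ∧
    2/5 * om R k ≤ ∑ l ∈ Uᶜ, R k l ^ 2) →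
  ∀ (σ : ℝ), 0 < σ → σ ≤ 1/5 →
  volume.real (UC R c ∩ AU σ U) ≤
    ((1/2) ^ G.card + C * G.card * (Real.sqrt m₁ + Real.sqrt G.card * κ)) *
      volume.real (AU σ U)

/-- CX: removal of dominating columns. -/
def S_CX : Prop := ∀ (d n : ℕ) (ε : ℝ), 0 < ε → ε ≤ 1 → (n : ℝ) ≤ (1 - ε) * d →
  ∀ (p : Fin n → Fin d → Fin d → ℝ), (∀ i k l, 0 ≤ p i k l) → (∀ i k, ∑ l, p i k l ≤ 1) →
  ∃ X : Finset (Fin d), ε * d ≤ X.card ∧ ∀ i, ∀ l ∈ X,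
    ((X.filter (fun k => 1/2 < p i k l)).card : ℝ) ≤ (1 - ε/4) * X.card

/-- CNT: marginals of the uniform measure on functions. -/
def S_CNT : Prop := ∀ (X : Type) [Fintype X] (u r : ℕ) (φ : Fin r → Fin u),
  Function.Injective φ → ∀ (F : (Fin r → X) → ℝ),
  ∑ f : Fin u → X, F (fun j => f (φ j)) =
    (Fintype.card X : ℝ) ^ (u - r) * ∑ y : Fin r → X, F y

/-- EXM: exponential moment bound for the number of indices falling in a set depending on one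
value. -/
def S_EXM : Prop := ∀ (X : Type) [Fintype X] [DecidableEq X] (u : ℕ) (a : Fin u)
  (S : X → Finset X) (P : X → Prop) [DecidablePred P] (b lam t : ℝ), 0 ≤ b → 0 ≤ lam →
  (∀ x, P x → ((S x).card : ℝ) ≤ b * Fintype.card X) →
  ((univ.filter (fun f : Fin u → X => P (f a) ∧
    t ≤ ((univ.filter (fun c => c ≠ a ∧ f c ∈ S (f a))).card : ℝ))).card : ℝ) *
      (1 + lam) ^ t ≤ (1 + lam * b) ^ u * (Fintype.card X : ℝ) ^ u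

/-- GR: powers of the logarithm are negligible. -/
def S_GR : Prop := ∀ (K : ℕ) (B : ℝ), ∃ d₀ : ℕ, ∀ d : ℕ, d₀ ≤ d →
  ∀ y : ℝ, 0 ≤ y → y ^ 8 = d → B * (Nat.log 2 d : ℝ) ^ K ≤ y

/-- COMB: the choice of `U`. -/
def S_COMB : Prop := ∀ ε : ℝ, 0 < ε → ε ≤ 1 → ∃ A : ℕ, 0 < A ∧ ∀ C : ℝ, 0 < C → ∃ d₀ : ℕ,
  ∀ d : ℕ, d₀ ≤ d → ∀ n : ℕ, (n : ℝ) ≤ (1 - ε) * d →
  ∀ (m : Fin n → Fin d → ℝ) (p : Fin n → Fin d → Fin d → ℝ),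
  (∀ i k, 0 ≤ m i k) → (∀ i k, m i k ≤ 1) → (∀ i k l, 0 ≤ p i k l) → (∀ i k, p i k k = 0) →
  (∀ i k, ∑ l, p i k l ≤ 1) → (∀ i, ∑ k, w32 (m i k) ≤ C * Nat.log 2 d) →
  ∃ (U : Finset (Fin d)) (b : Fin n → ℝ), U.card = A * Nat.log 2 d ∧ ∑ i, b i ≤ 1/2 ∧
  ∀ i, ((∀ k ∈ U, m i k ≤ 1 / (100 * U.card)) ∧
      (∑ k ∈ U, ∑ l ∈ U, p i k l ≤ 1 / (100 * U.card)) ∧
      2 * (1/2) ^ U.card + C * U.card * ∑ k ∈ U, (∑ l ∈ U, p i k l) * Real.sqrt (m i k) ≤ b i) ∨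
    (∃ G ⊆ U, G.Nonempty ∧ ∃ m₁ κ : ℝ, 0 ≤ m₁ ∧ 0 ≤ κ ∧
      (∀ k ∈ G, m i k ≤ m₁ ∧ m i k < 1/2 ∧ ∑ l ∈ G, p i k l ≤ κ ^ 2 ∧
        ∑ l ∈ U, p i k l ≤ 3/5) ∧
      (1/2) ^ G.card + C * G.card * (Real.sqrt m₁ + Real.sqrt G.card * κ) ≤ b i)

/-- The main theorem. -/
def S_MAIN : Prop := ∀ ε : ℝ, 0 < ε → ∃ d₀ : ℕ, ∀ d : ℕ, d₀ ≤ d → ∀ n : ℕ,
  (n : ℝ) ≤ (1 - ε) * d → ¬ Pool.Agent.Newton.Covers d n

end Pool.Agent.NC
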