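import Pool.Agent.NewtonCov.Stmts

/-!
MP_a2070a_co: the union bound behind S_COMB.
-/

set_option autoImplicit false

namespace Pool.Agent.NC

open Finset

/-- EV: union bound and Markov's inequality for a uniformly random function `f : Fin u → X`. -/
def S_EV : Prop := ∀ (X : Type) [Fintype X] [DecidableEq X] (n u : ℕ)
  (T1 T2 P : Fin n → Finset X) (H W Q V : Fin n → X → Finset X) (g : Fin n → X → X → ℝ)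
  (N τ1 τ2 h w π lam1 t1 b1 lam2 t2 b2 Γ : ℝ),
  N = Fintype.card X → 0 < N → 0 ≤ τ1 → 0 ≤ τ2 → 0 ≤ h → 0 ≤ w → 0 ≤ π →
  0 ≤ lam1 → 0 ≤ lam2 → 0 ≤ b1 → 0 ≤ b2 → 0 ≤ Γ →
  (∀ i, ((T1 i).card : ℝ) ≤ τ1) → (∀ i, ((T2 i).card : ℝ) ≤ τ2) →
  (∀ i x, ((H i x).card : ℝ) ≤ h) → (∀ i x, ((W i x).card : ℝ) ≤ w) →
  (∀ i, ((P i).card : ℝ) ≤ π) →
  (∀ i x, x ∉ P i → ((Q i x).card : ℝ) ≤ b1 * N) → (∀ i x, ((V i x).card : ℝ) ≤ b2 * N) →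
  (∀ i x y, 0 ≤ g i x y) → (∀ i, ∑ x, ∑ y, g i x y ≤ Γ) →
  16 * (u : ℝ) ^ 2 ≤ N →
  16 * (n * u ^ 2 * τ1 * τ2) ≤ N ^ 2 →
  16 * (n * u ^ 3 * τ1 * w) ≤ N ^ 2 →
  16 * (n * u ^ 3 * h * τ2) ≤ N ^ 2 →
  16 * (n * u ^ 4 * h * w) ≤ N ^ 2 →
  16 * (n * u ^ 2 * π ^ 2) ≤ N ^ 2 →
  16 * (n * u * (1 + lam1 * b1) ^ u) ≤ (1 + lam1) ^ t1 →
  16 * (n * u * (1 + lam2 * b2) ^ u) ≤ (1 + lam2) ^ t2 →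
  ∃ f : Fin u → X, Function.Injective f ∧
    (∀ i a b, a ≠ b → f a ∈ T1 i → f b ∉ T2 i) ∧
    (∀ i a b c, a ≠ b → a ≠ c → b ≠ c → f a ∈ T1 i → f c ∉ W i (f b)) ∧
    (∀ i a b c, a ≠ b → a ≠ c → b ≠ c → f b ∈ H i (f a) → f c ∉ T2 i) ∧
    (∀ i a b c e, a ≠ b → a ≠ c → a ≠ e → b ≠ c → b ≠ e → c ≠ e →
      f b ∈ H i (f a) → f e ∉ W i (f c)) ∧
    (∀ i a b, a ≠ b → f a ∈ P i → f b ∉ P i) ∧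
    (∀ i a, f a ∉ P i → ((univ.filter (fun c => c ≠ a ∧ f c ∈ Q i (f a))).card : ℝ) < t1) ∧
    (∀ i a, ((univ.filter (fun c => c ≠ a ∧ f c ∈ V i (f a))).card : ℝ) < t2) ∧
    ((univ.filter (fun i => (∃ a, f a ∈ T1 i) ∨ ∃ a b, a ≠ b ∧ f b ∈ H i (f a))).card : ℝ) * N ≤
      16 * (n * (u * τ1 + u ^ 2 * h)) ∧
    (∑ i, ∑ a, ∑ b ∈ univ.erase a, g i (f a) (f b)) * N ^ 2 ≤ 16 * (n * u ^ 2 * Γ)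

end Pool.Agent.NC
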