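import Pool.Agent.NewtonCov.Stmts

/-!
MP_a2070a_co, module TAIL: a unit cube sticks out of the unit slab perpendicular to a tilted
direction.
-/

set_option autoImplicit false

namespace Pool.Agent.NC

open MeasureTheory Finset

namespace Tail

/-- the event that the linear form is at least `v` -/
def Ev (ι : Type) [Fintype ι] (t : ι → ℝ) (v : ℝ) : Set (ι → ℝ) :=
  {x | (∀ i, |x i| ≤ 1/2) ∧ v ≤ ∑ i, t i * x i}

/-- its probability -/
noncomputable def Pr (ι : Type) [Fintype ι] (t : ι → ℝ) (v : ℝ) : ℝ := volume.real (Ev ι t v)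

/-- the cube -/
def cube (ι : Type) [Fintype ι] : Set (ι → ℝ) := {x | ∀ i, |x i| ≤ 1/2}

variable {ι : Type} [Fintype ι]

lemma cube_eq : cube ι = Set.pi Set.univ (fun _ => Set.Icc (-(1/2) : ℝ) (1/2)) := by
  ext x
  simp only [cube, Set.mem_ofPred_eq, Set.mem_pi, Set.mem_univ, true_implies, Set.mem_Icc, abs_le]

lemma cube_vol : volume (cube ι) = 1 := by
  rw [cube_eq, volume_pi_pi]
  simp only [Real.volume_Icc]
  norm_num

lemma cube_compact : IsCompact (cube ι) := by
  rw [cube_eq]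
  exact isCompact_univ_pi fun _ => isCompact_Icc

lemma cube_meas : MeasurableSet (cube ι) := cube_compact.measurableSet

lemma Ev_sub (t : ι → ℝ) (v : ℝ) : Ev ι t v ⊆ cube ι := fun _ hx => hx.1

lemma Ev_meas (t : ι → ℝ) (v : ℝ) : MeasurableSet (Ev ι t v) := by
  have h1 : IsClosed {x : ι → ℝ | v ≤ ∑ i, t i * x i} :=
    isClosed_le continuous_const (by fun_prop)
  exact cube_meas.inter h1.measurableSet

lemma Ev_top (t : ι → ℝ) (v : ℝ) : volume (Ev ι t v) ≠ ⊤ := by
  refine ne_top_of_le_ne_top ?_ (measure_mono (Ev_sub t v))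
  rw [cube_vol]
  exact ENNReal.one_ne_top

lemma Pr_nonneg (t : ι → ℝ) (v : ℝ) : 0 ≤ Pr ι t v := measureReal_nonneg

lemma Pr_anti (t : ι → ℝ) {v w : ℝ} (h : v ≤ w) : Pr ι t w ≤ Pr ι t v :=
  measureReal_mono (fun _ hx => ⟨hx.1, h.trans hx.2⟩) (Ev_top t v)

/-- independence of two complementary blocks -/
lemma Pr_mul (p : ι → Prop) [DecidablePred p] (t : ι → ℝ) (v w : ℝ) :
    Pr {i // p i} (fun i => t i) v * Pr {i // ¬ p i} (fun i => t i) w ≤ Pr ι t (v + w) := by
  have hmp := volume_preserving_piEquivPiSubtypeProd (fun _ : ι => ℝ) p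
  have h1 : (MeasurableEquiv.piEquivPiSubtypeProd (fun _ : ι => ℝ) p) ⁻¹'
      (Ev {i // p i} (fun i => t i) v ×ˢ Ev {i // ¬ p i} (fun i => t i) w) ⊆ Ev ι t (v + w) := by
    intro x hx
    obtain ⟨⟨h1, h2⟩, h3, h4⟩ := hx
    refine ⟨fun i => ?_, ?_⟩
    · by_cases hi : p i
      · exact h1 ⟨i, hi⟩
      · exact h3 ⟨i, hi⟩
    · rw [← Fintype.sum_subtype_add_sum_subtype p]
      exact add_le_add h2 h4
  have h2 := measureReal_mono h1 (Ev_top t (v + w))
  have h3 : volume ((MeasurableEquiv.piEquivPiSubtypeProd (fun _ : ι => ℝ) p) ⁻¹'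
      (Ev {i // p i} (fun i => t i) v ×ˢ Ev {i // ¬ p i} (fun i => t i) w)) =
      volume (Ev {i // p i} (fun i => t i) v) * volume (Ev {i // ¬ p i} (fun i => t i) w) := by
    rw [hmp.measure_preimage_equiv, Measure.volume_eq_prod, Measure.prod_prod]
  unfold Pr
  refine le_trans (le_of_eq ?_) h2
  simp only [Measure.real]
  rw [h3, ENNReal.toReal_mul]

/-- symmetry -/
lemma Pr_zero (t : ι → ℝ) : 1/2 ≤ Pr ι t 0 := by
  have h1 : cube ι ⊆ Ev ι t 0 ∪ -(Ev ι t 0) := by
    intro x hx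
    by_cases h : 0 ≤ ∑ i, t i * x i
    · exact Or.inl ⟨hx, h⟩
    · right
      refine ⟨fun i => ?_, ?_⟩
      · have := hx i
        simpa using this
      · have e : ∑ i, t i * (-x) i = -∑ i, t i * x i := by
          rw [← Finset.sum_neg_distrib]
          exact Finset.sum_congr rfl fun i _ => by simp
        rw [e]
        linarith
  have h2 : volume (-(Ev ι t 0)) = volume (Ev ι t 0) := Measure.measure_neg _ _
  have h3 : (1 : ENNReal) ≤ volume (Ev ι t 0) + volume (Ev ι t 0) := by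
    rw [← cube_vol (ι := ι)]
    refine (measure_mono h1).trans ((measure_union_le _ _).trans ?_)
    rw [h2]
  have h4 := ENNReal.toReal_mono (by simp [Ev_top]) h3
  rw [ENNReal.toReal_add (Ev_top t 0) (Ev_top t 0), ENNReal.toReal_one] at h4
  unfold Pr Measure.real
  linarith

/-- all coordinates near the good end -/
lemma Pr_box (t : ι → ℝ) {θ : ℝ} (h0 : 0 ≤ θ) (h1 : θ ≤ 1) :
    θ ^ (Fintype.card ι) ≤ Pr ι t (∑ i, |t i| * (1/2 - θ)) := by
  set J : ι → Set ℝ := fun i => if 0 ≤ t i then Set.Icc (1/2 - θ) (1/2)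
    else Set.Icc (-(1/2)) (-(1/2) + θ) with hJ
  have hvol : volume (Set.pi Set.univ J) = ENNReal.ofReal (θ ^ (Fintype.card ι)) := by
    rw [volume_pi_pi]
    have e : ∀ i, volume (J i) = ENNReal.ofReal θ := by
      intro i
      rw [hJ]
      dsimp only
      split_ifs
      · rw [Real.volume_Icc]; congr 1; ring
      · rw [Real.volume_Icc]; congr 1; ring
    simp only [e, Finset.prod_const, Finset.card_univ]
    rw [ENNReal.ofReal_pow h0]
  have hsub : Set.pi Set.univ J ⊆ Ev ι t (∑ i, |t i| * (1/2 - θ)) := by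
    intro x hx
    have hx' : ∀ i, x i ∈ J i := fun i => hx i (Set.mem_univ i)
    refine ⟨fun i => ?_, Finset.sum_le_sum fun i _ => ?_⟩
    · have := hx' i
      rw [hJ] at this
      dsimp only at this
      split_ifs at this
      · rw [abs_le]; constructor <;> linarith [this.1, this.2]
      · rw [abs_le]; constructor <;> linarith [this.1, this.2]
    · have := hx' i
      rw [hJ] at this
      dsimp only at this
      split_ifs at this with h
      · rw [abs_of_nonneg h]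
        exact mul_le_mul_of_nonneg_left this.1 h
      · have h' : t i ≤ 0 := le_of_lt (not_le.mp h)
        rw [abs_of_nonpos h']
        nlinarith [this.2]
  have h2 := measureReal_mono hsub (Ev_top t _)
  refine le_trans (le_of_eq ?_) h2
  rw [Measure.real, hvol, ENNReal.toReal_ofReal (by positivity)]

/-- the integral dominates the probability of an overshoot -/
lemma int_ge (t : ι → ℝ) {k : ℝ} (hk : 0 ≤ k) :
    k ^ 2 * Pr ι t (1/2 + k) ≤
      ∫ x in {x : ι → ℝ | ∀ i, |x i| ≤ 1/2}, (max (∑ i, t i * x i - 1/2) 0) ^ 2 := by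
  have hcont : Continuous (fun x : ι → ℝ => (max (∑ i, t i * x i - 1/2) 0) ^ 2) := by fun_prop
  have hint : IntegrableOn (fun x : ι → ℝ => (max (∑ i, t i * x i - 1/2) 0) ^ 2) (cube ι) volume :=
    hcont.continuousOn.integrableOn_compact cube_compact
  have h1 : ∫ x in Ev ι t (1/2 + k), (max (∑ i, t i * x i - 1/2) 0) ^ 2 ≤
      ∫ x in cube ι, (max (∑ i, t i * x i - 1/2) 0) ^ 2 :=
    setIntegral_mono_set hint (Filter.Eventually.of_forall fun x => sq_nonneg _)
      (Ev_sub t _).eventuallyLE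
  refine le_trans ?_ h1
  have h2 : k ^ 2 * Pr ι t (1/2 + k) = ∫ _x in Ev ι t (1/2 + k), k ^ 2 := by
    rw [setIntegral_const, smul_eq_mul, mul_comm]
    rfl
  rw [h2]
  refine setIntegral_mono_on (integrableOn_const (Ev_top t _)) (hint.mono_set (Ev_sub t _))
    (Ev_meas t _) fun x hx => ?_
  have h3 : k ≤ max (∑ i, t i * x i - 1/2) 0 := le_max_of_le_left (by linarith [hx.2])
  exact pow_le_pow_left₀ hk h3 2

lemma PZ (h : S_PZ) (t : ι → ℝ) : 3/32 ≤ Pr ι t ((1/2) * Real.sqrt ((∑ i, t i ^ 2) / 12)) :=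
  h ι t

omit [Fintype ι] in
/-- a subset with prescribed sum of squares -/
lemma subset_sum (t : ι → ℝ) {x ρ : ℝ} (hx : 0 < x) (hρ : ∀ i, t i ^ 2 ≤ ρ) (u : Finset ι)
    (hu : x ≤ ∑ i ∈ u, t i ^ 2) : ∃ s : Finset ι, x ≤ ∑ i ∈ s, t i ^ 2 ∧
      ∑ i ∈ s, t i ^ 2 ≤ x + ρ := by
  classical
  induction u using Finset.induction_on with
  | empty => simp at hu; linarith
  | insert a u ha ih =>
    by_cases h : x ≤ ∑ i ∈ u, t i ^ 2
    · exact ih h
    · refine ⟨insert a u, hu, ?_⟩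
      rw [Finset.sum_insert ha]
      have := hρ a
      linarith

/-- sums over subtypes -/
lemma sum_sub (s : Finset ι) (p : ι → Prop) [DecidablePred p] (hp : ∀ i, i ∈ s ↔ p i)
    (f : ι → ℝ) : ∑ i : {i // p i}, f i = ∑ i ∈ s, f i :=
  (Finset.sum_subtype s hp f).symm

lemma sum_compl (s : Finset ι) (p : ι → Prop) [DecidablePred p] (hp : ∀ i, i ∈ s ↔ p i)
    (f : ι → ℝ) : ∑ i : {i // ¬ p i}, f i = ∑ i, f i - ∑ i ∈ s, f i := by
  have h := Fintype.sum_subtype_add_sum_subtype p f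
  have h2 := sum_sub s p hp f
  linarith

/-- the block lemma -/
lemma blocks (h : S_PZ) {x ρ : ℝ} (hx : 0 < x) (hρ0 : 0 ≤ ρ) : ∀ (j : ℕ) (ι : Type) [Fintype ι]
    (t : ι → ℝ), (∀ i, t i ^ 2 ≤ ρ) → (j : ℝ) * (x + ρ) ≤ ∑ i, t i ^ 2 →
    (3/32 : ℝ) ^ j / 2 ≤ Pr ι t ((j : ℝ) * ((1/2) * Real.sqrt (x / 12))) := by
  intro j
  induction j with
  | zero =>
    intro ι _ t _ _
    rw [pow_zero, Nat.cast_zero, zero_mul]
    exact Pr_zero t
  | succ j ih =>
    intro ι _ t hρ hsum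
    classical
    push_cast at hsum ⊢
    have hj : (0 : ℝ) ≤ j := Nat.cast_nonneg j
    have h1 : x ≤ ∑ i ∈ (Finset.univ : Finset ι), t i ^ 2 := by nlinarith
    obtain ⟨s, hs1, hs2⟩ := subset_sum t hx hρ _ h1
    obtain ⟨p, hp⟩ : ∃ p : ι → Prop, ∀ i, i ∈ s ↔ p i := ⟨fun i => i ∈ s, fun _ => Iff.rfl⟩
    have h2 := Pr_mul p t ((1/2) * Real.sqrt (x / 12))
      ((j : ℝ) * ((1/2) * Real.sqrt (x / 12)))
    have h3 : 3/32 ≤ Pr {i // p i} (fun i => t i) ((1/2) * Real.sqrt (x / 12)) := by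
      refine (PZ h (fun i : {i // p i} => t i)).trans (Pr_anti _ ?_)
      rw [sum_sub s p hp (fun i => t i ^ 2)]
      have : Real.sqrt (x / 12) ≤ Real.sqrt ((∑ i ∈ s, t i ^ 2) / 12) :=
        Real.sqrt_le_sqrt (by linarith)
      linarith
    have h4 : (3/32 : ℝ) ^ j / 2 ≤ Pr {i // ¬ p i} (fun i => t i)
        ((j : ℝ) * ((1/2) * Real.sqrt (x / 12))) := by
      refine ih {i // ¬ p i} (fun i => t i) (fun i => hρ i) ?_
      rw [sum_compl s p hp (fun i => t i ^ 2)]
      linarith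
    have e : ((j : ℝ) + 1) * ((1/2) * Real.sqrt (x / 12)) =
        (1/2) * Real.sqrt (x / 12) + (j : ℝ) * ((1/2) * Real.sqrt (x / 12)) := by ring
    rw [e]
    refine le_trans ?_ h2
    calc (3/32 : ℝ) ^ (j + 1) / 2 = (3/32) * ((3/32 : ℝ) ^ j / 2) := by ring
      _ ≤ _ := mul_le_mul h3 h4 (by positivity) (Pr_nonneg _ _)

/-- case A: almost all the mass on one coordinate -/
lemma caseA (h : S_PZ) (t : ι → ℝ) (i0 : ι) (m : ℝ) (hm : 0 < m) (hm2 : m ≤ 1/2)
    (h1 : 1 - m/1000 ≤ ∑ i, t i ^ 2) (h2 : ∑ i, t i ^ 2 ≤ 1) (h3 : t i0 ^ 2 ≤ 1 - m)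
    (hτ : ∑ i, t i ^ 2 - t i0 ^ 2 ≤ 9/1000) :
    (1/200000) * (m * Real.sqrt m) ≤
      ∫ x in {x : ι → ℝ | ∀ i, |x i| ≤ 1/2}, (max (∑ i, t i * x i - 1/2) 0) ^ 2 := by
  classical
  set τ : ℝ := ∑ i, t i ^ 2 - t i0 ^ 2 with hτdef
  have hτm : 999/1000 * m ≤ τ := by linarith
  have hτ0 : 0 < τ := by linarith
  set r : ℝ := Real.sqrt τ with hr
  have hr0 : 0 < r := Real.sqrt_pos.mpr hτ0
  have hr2 : r ^ 2 = τ := Real.sq_sqrt hτ0.le
  have hr1 : r ≤ 949/10000 := by
    by_contra hcon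
    push Not at hcon
    nlinarith
  set q : ℝ := Real.sqrt m with hq
  have hq0 : 0 < q := Real.sqrt_pos.mpr hm
  have hq2 : q ^ 2 = m := Real.sq_sqrt hm.le
  have hrq : 99/100 * q ≤ r := by
    by_contra hcon
    push Not at hcon
    nlinarith
  set a : ℝ := |t i0| with ha
  have ha0 : 0 ≤ a := abs_nonneg _
  have ha2 : a ^ 2 = t i0 ^ 2 := sq_abs _
  have ha1 : a ≤ 1 := by
    by_contra hcon
    push Not at hcon
    nlinarith
  have haa : a ^ 2 ≤ a := by nlinarith
  have halow : 1 - 10011/10000 * τ ≤ a := by linarith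
  -- the two blocks
  have hζ0 : (0 : ℝ) ≤ 2/100 * r := by positivity
  have hζ1 : 2/100 * r ≤ 1 := by linarith
  obtain ⟨p, hp⟩ : ∃ p : ι → Prop, ∀ i, i ∈ ({i0} : Finset ι) ↔ p i :=
    ⟨fun i => i ∈ ({i0} : Finset ι), fun _ => Iff.rfl⟩
  have hb1 := Pr_box (fun i : {i // p i} => t i) hζ0 hζ1
  rw [Fintype.card_of_subtype {i0} hp, Finset.card_singleton, pow_one,
    sum_sub {i0} p hp (fun i => |t i| * (1/2 - 2/100 * r)),
    Finset.sum_singleton] at hb1
  have hb2 := PZ h (fun i : {i // ¬ p i} => t i)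
  rw [sum_compl {i0} p hp (fun i => t i ^ 2), Finset.sum_singleton] at hb2
  have hmul := Pr_mul p t (|t i0| * (1/2 - 2/100 * r))
    ((1/2) * Real.sqrt ((∑ i, t i ^ 2 - t i0 ^ 2) / 12))
  have hsq : 288/1000 * r ≤ Real.sqrt (τ / 12) := by
    refine Real.le_sqrt_of_sq_le ?_
    nlinarith
  have hthr : 1/2 + 76/1000 * r ≤ |t i0| * (1/2 - 2/100 * r) +
      (1/2) * Real.sqrt ((∑ i, t i ^ 2 - t i0 ^ 2) / 12) := by
    have e1 : a * (1/2 - 2/100 * r) ≥ a / 2 - 2/100 * r := by nlinarith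
    have e2 : r ^ 2 ≤ 949/10000 * r := by nlinarith
    have e3 : |t i0| * (1/2 - 2/100 * r) = a * (1/2 - 2/100 * r) := rfl
    rw [e3]
    rw [← hτdef]
    nlinarith
  have hPr : 2/100 * r * (3/32) ≤ Pr ι t (1/2 + 76/1000 * r) := by
    refine le_trans ?_ (Pr_anti t hthr)
    refine le_trans ?_ hmul
    exact mul_le_mul hb1 hb2 (by norm_num) (Pr_nonneg _ _)
  have hint := int_ge t (k := 76/1000 * r) (by positivity)
  refine le_trans ?_ hint
  have e4 : (76/1000 * r) ^ 2 * (2/100 * r * (3/32)) ≤ (76/1000 * r) ^ 2 *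
      Pr ι t (1/2 + 76/1000 * r) := mul_le_mul_of_nonneg_left hPr (sq_nonneg _)
  refine le_trans ?_ e4
  have e5 : (99/100 * q) ^ 3 ≤ r ^ 3 := pow_le_pow_left₀ (by positivity) hrq 3
  have e6 : m * q = q ^ 3 := by rw [← hq2]; ring
  rw [e6]
  have e7 : (0 : ℝ) ≤ q ^ 3 := by positivity
  nlinarith

/-- case B: the mass is spread -/
lemma caseB (h : S_PZ) : ∃ p0 : ℝ, 0 < p0 ∧ ∀ (ι : Type) [Fintype ι] (t : ι → ℝ) (i0 : ι),
    1 - 1/2000 ≤ ∑ i, t i ^ 2 → ∑ i, t i ^ 2 ≤ 1 → (∀ i, t i ^ 2 ≤ t i0 ^ 2) →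
    9/1000 < ∑ i, t i ^ 2 - t i0 ^ 2 → p0 ≤ Pr ι t (1/2 + 2/100) := by
  obtain ⟨N, hN⟩ : ∃ N : ℕ, N = 100000 := ⟨_, rfl⟩
  refine ⟨(1/200 : ℝ) ^ N * ((3/32 : ℝ) ^ 25 / 2), by positivity, ?_⟩
  intro ι _ t i0 h1 h2 hmax hτ
  classical
  obtain ⟨p, hp⟩ : ∃ p : ι → Prop, ∀ i, p i ↔ (1/100000 : ℝ) ≤ t i ^ 2 := ⟨_, fun _ => Iff.rfl⟩
  set G : Finset ι := Finset.univ.filter p with hG
  have hGp : ∀ i, i ∈ G ↔ p i := fun i => by simp [hG]
  set SG : ℝ := ∑ i ∈ G, t i ^ 2 with hSG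
  set M : ℝ := ∑ i, t i ^ 2 - SG with hM
  set A : ℝ := ∑ i ∈ G, |t i| with hA
  have hSGle : SG ≤ ∑ i, t i ^ 2 :=
    Finset.sum_le_sum_of_subset_of_nonneg (Finset.subset_univ _) fun i _ _ => sq_nonneg _
  have hM0 : 0 ≤ M := by linarith
  have hSG0 : 0 ≤ SG := Finset.sum_nonneg fun i _ => sq_nonneg _
  have hM1 : M ≤ 1 := by linarith
  -- the number of large coordinates
  have hcard : Fintype.card {i // p i} ≤ N := by
    rw [Fintype.card_subtype]
    have h3 : (G.card : ℝ) * (1/100000) ≤ SG := by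
      rw [hSG, ← nsmul_eq_mul]
      exact Finset.card_nsmul_le_sum _ _ _ fun i hi => (hp i).mp ((hGp i).mp hi)
    have h4 : (G.card : ℝ) ≤ N := by
      rw [hN]
      push_cast
      linarith
    exact_mod_cast h4
  have hb1 : (1/200 : ℝ) ^ N ≤ Pr {i // p i} (fun i => t i) (A * (1/2 - 1/200)) := by
    have h3 := Pr_box (fun i : {i // p i} => t i) (θ := 1/200) (by norm_num) (by norm_num)
    rw [sum_sub G p hGp (fun i => |t i| * (1/2 - 1/200)), ← Finset.sum_mul] at h3
    exact (pow_le_pow_of_le_one (by norm_num) (by norm_num) hcard).trans h3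
  -- it suffices to bound the small part
  have hfin : ∀ w : ℝ, (3/32 : ℝ) ^ 25 / 2 ≤ Pr {i // ¬ p i} (fun i => t i) w →
      1/2 + 2/100 ≤ A * (1/2 - 1/200) + w →
      (1/200 : ℝ) ^ N * ((3/32 : ℝ) ^ 25 / 2) ≤ Pr ι t (1/2 + 2/100) := by
    intro w hw hthr
    refine le_trans ?_ (Pr_anti t hthr)
    refine le_trans ?_ (Pr_mul p t _ w)
    exact mul_le_mul hb1 hw (by positivity) (Pr_nonneg _ _)
  by_cases hcase : M < 4/1000
  · -- B1
    have hAlow : 1055/1000 ≤ A := by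
      have hSGlow : 9955/10000 ≤ SG := by linarith
      have hGne : G.Nonempty := by
        by_contra hcon
        rw [Finset.not_nonempty_iff_eq_empty] at hcon
        rw [hSG, hcon, Finset.sum_empty] at hSGlow
        linarith
      obtain ⟨i1, hi1⟩ := hGne
      have hi0 : i0 ∈ G := by
        rw [hGp, hp]
        exact ((hp i1).mp ((hGp i1).mp hi1)).trans (hmax i1)
      have habs : ∀ i, |t i| ≤ |t i0| := fun i => sq_le_sq.mp (hmax i)
      by_cases ht0 : |t i0| ≤ 9/10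
      · have h3 : SG ≤ 9/10 * A := by
          rw [hSG, hA, Finset.mul_sum]
          refine Finset.sum_le_sum fun i _ => ?_
          have h4 := (habs i).trans ht0
          rw [← sq_abs]
          nlinarith [abs_nonneg (t i)]
        linarith
      · push Not at ht0
        have hA' : A = |t i0| + ∑ i ∈ G.erase i0, |t i| := by
          rw [hA, Finset.add_sum_erase G (fun i => |t i|) hi0]
        have hSG' : SG = t i0 ^ 2 + ∑ i ∈ G.erase i0, t i ^ 2 := by
          rw [hSG, Finset.add_sum_erase G (fun i => t i ^ 2) hi0]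
        set B : ℝ := ∑ i ∈ G.erase i0, |t i| with hB
        set w : ℝ := ∑ i ∈ G.erase i0, t i ^ 2 with hw
        have hB0 : 0 ≤ B := Finset.sum_nonneg fun i _ => abs_nonneg _
        have hBw : w ≤ B ^ 2 := by
          have := Finset.sum_sq_le_sq_sum_of_nonneg (s := G.erase i0) (f := fun i => |t i|)
            (fun i _ => abs_nonneg _)
          simpa only [sq_abs] using this
        have hw5 : 5/1000 ≤ w := by linarith
        have hB7 : 707/10000 ≤ B := by
          by_contra hcon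
          push Not at hcon
          nlinarith
        have ha2 : |t i0| ^ 2 = t i0 ^ 2 := sq_abs _
        rw [hA']
        by_contra hcon
        push Not at hcon
        nlinarith
    refine hfin 0 ?_ (by linarith)
    refine le_trans ?_ (Pr_zero _)
    have : (3/32 : ℝ) ^ 25 ≤ 1 := pow_le_one₀ (by norm_num) (by norm_num)
    linarith
  · -- B2
    push Not at hcase
    have hAlow : SG ≤ A := by
      rw [hSG, hA]
      refine Finset.sum_le_sum fun i _ => ?_
      have h3 : t i ^ 2 ≤ 1 := by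
        refine le_trans ?_ h2
        exact Finset.single_le_sum (f := fun i => t i ^ 2) (fun j _ => sq_nonneg _)
          (Finset.mem_univ i)
      rw [← sq_abs] at h3 ⊢
      have h4 := abs_nonneg (t i)
      have h5 : |t i| ≤ 1 := by
        by_contra hcon
        push Not at hcon
        nlinarith
      nlinarith
    have hbl := blocks h (x := 36/1000 * M) (ρ := 1/100000) (by linarith) (by norm_num) 25
      {i // ¬ p i} (fun i => t i) (fun i => by
        have h3 := i.2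
        rw [hp, not_le] at h3
        exact h3.le)
      (by
        rw [sum_compl G p hGp (fun i => t i ^ 2)]
        change _ ≤ M
        push_cast
        linarith)
    refine hfin _ hbl ?_
    set s : ℝ := Real.sqrt M with hs
    have hs0 : 0 ≤ s := Real.sqrt_nonneg _
    have hs2 : s ^ 2 = M := Real.sq_sqrt hM0
    have hs1 : s ≤ 1 := by
      by_contra hcon
      push Not at hcon
      nlinarith
    have hs6 : 632/10000 ≤ s := by
      by_contra hcon
      push Not at hcon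
      nlinarith
    have h3 : 54/1000 * s ≤ Real.sqrt (36/1000 * M / 12) := by
      refine Real.le_sqrt_of_sq_le ?_
      nlinarith
    have h4 : (9995/10000 - s ^ 2) * (1/2 - 1/200) ≤ A * (1/2 - 1/200) := by
      refine mul_le_mul_of_nonneg_right ?_ (by norm_num)
      linarith
    have h5 : ((25 : ℕ) : ℝ) * ((1/2) * Real.sqrt (36/1000 * M / 12)) ≥ 675/1000 * s := by
      push_cast
      linarith
    have h6 : 0 ≤ (s - 632/10000) * (1 - s) := mul_nonneg (by linarith) (by linarith)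
    nlinarith

end Tail

open Tail in
/-- TAIL -/
theorem tail (h : S_PZ) : S_TAIL := by
  obtain ⟨p0, hp0, hB⟩ := caseB h
  refine ⟨min (1/200000) (p0 / 2500), by positivity, ?_⟩
  intro ι _ t m hm hm2 h1 h2 h3
  classical
  have hne : Nonempty ι := by
    by_contra hcon
    rw [not_nonempty_iff] at hcon
    have : ∑ i, t i ^ 2 = 0 := Finset.sum_eq_zero fun i _ => (hcon.false i).elim
    linarith
  obtain ⟨i0, hi0⟩ := Finite.exists_max (fun i => t i ^ 2)
  have hmm : 0 ≤ m * Real.sqrt m := mul_nonneg hm.le (Real.sqrt_nonneg _)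
  by_cases hτ : ∑ i, t i ^ 2 - t i0 ^ 2 ≤ 9/1000
  · refine le_trans ?_ (caseA h t i0 m hm hm2 h1 h2 (h3 i0) hτ)
    exact mul_le_mul_of_nonneg_right (min_le_left _ _) hmm
  · push Not at hτ
    have hPr := hB ι t i0 (by linarith) h2 hi0 hτ
    have hint := int_ge t (k := 2/100) (by norm_num)
    refine le_trans ?_ hint
    have hmm1 : m * Real.sqrt m ≤ 1 := by
      have h4 : Real.sqrt m ≤ 1 := Real.sqrt_le_one.mpr (by linarith)
      have := Real.sqrt_nonneg m
      nlinarith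
    calc min (1/200000) (p0 / 2500) * (m * Real.sqrt m)
        ≤ p0 / 2500 * (m * Real.sqrt m) := mul_le_mul_of_nonneg_right (min_le_right _ _) hmm
      _ ≤ p0 / 2500 * 1 := mul_le_mul_of_nonneg_left hmm1 (by positivity)
      _ = (2/100) ^ 2 * p0 := by ring
      _ ≤ _ := mul_le_mul_of_nonneg_left hPr (by positivity)

end Pool.Agent.NC
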