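import Pool.Agent.NewtonCov.Stmts

/-!
MP_a2070a_co, module TAL: Talagrand's inequality for convex sets and product measures.
-/

set_option autoImplicit false

namespace Pool.Agent.NC

open MeasureTheory Finset

namespace Tal

variable {n : ℕ}

lemma dsq_bdd (x : Fin n → ℝ) (A : Set (Fin n → ℝ)) :
    BddBelow ((fun y : Fin n → ℝ => ∑ i, (x i - y i) ^ 2) '' A) := by
  refine ⟨0, ?_⟩
  rintro _ ⟨y, _, rfl⟩
  exact Finset.sum_nonneg fun i _ => sq_nonneg _

lemma dsq_le {x y : Fin n → ℝ} {A : Set (Fin n → ℝ)} (hy : y ∈ A) :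
    dsq x A ≤ ∑ i, (x i - y i) ^ 2 :=
  csInf_le (dsq_bdd x A) ⟨y, hy, rfl⟩

lemma exists_dsq {A : Set (Fin n → ℝ)} (hA : IsCompact A) (hne : A.Nonempty) (x : Fin n → ℝ) :
    ∃ y ∈ A, dsq x A = ∑ i, (x i - y i) ^ 2 :=
  hA.exists_sInf_image_eq hne (by fun_prop)

lemma dsq_continuous {A : Set (Fin n → ℝ)} (hA : IsCompact A) :
    Continuous (fun x => dsq x A) := by
  unfold dsq
  exact hA.continuous_sInf (f := fun (x y : Fin n → ℝ) => ∑ i, (x i - y i) ^ 2) (by
    change Continuous (fun p : (Fin n → ℝ) × (Fin n → ℝ) => ∑ i, (p.1 i - p.2 i) ^ 2)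
    fun_prop)

/-- the convexity inequality for the squared distance -/
lemma dsq_cons {a b : ℝ} {A : Set (Fin (n + 1) → ℝ)} (hA : IsCompact A) (hne : A.Nonempty)
    (hc : Convex ℝ A) (hI : ∀ y ∈ A, ∀ i, y i ∈ Set.Icc a b) {w : ℝ} (hw : w ∈ Set.Icc a b)
    (x : Fin n → ℝ) (Aw : Set (Fin n → ℝ)) (hAw : Aw = {y | Fin.cons w y ∈ A})
    (hAwne : Aw.Nonempty) (hAwc : IsCompact Aw) {θ : ℝ} (h0 : 0 ≤ θ) (h1 : θ ≤ 1) :
    dsq (Fin.cons w x : Fin (n + 1) → ℝ) A ≤
      (1 - θ) * dsq x Aw + θ * dsq x (Fin.tail '' A) + θ ^ 2 * (b - a) ^ 2 := by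
  obtain ⟨y, hy, hye⟩ := exists_dsq hAwc hAwne x
  have hB : IsCompact (Fin.tail '' A) := hA.image (by unfold Fin.tail; fun_prop)
  obtain ⟨z', ⟨z, hz, rfl⟩, hze⟩ := exists_dsq hB (hne.image _) x
  rw [hye, hze]
  rw [hAw] at hy
  have hp : (1 - θ) • (Fin.cons w y : Fin (n + 1) → ℝ) + θ • z ∈ A :=
    hc hy hz (by linarith) h0 (by ring)
  refine (dsq_le hp).trans ?_
  rw [Fin.sum_univ_succ]
  have hz0 := hI z hz 0
  simp only [Pi.add_apply, Pi.smul_apply, smul_eq_mul, Fin.cons_zero, Fin.cons_succ]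
  have e1 : (w - ((1 - θ) * w + θ * z 0)) ^ 2 ≤ θ ^ 2 * (b - a) ^ 2 := by
    have : (w - ((1 - θ) * w + θ * z 0)) ^ 2 = θ ^ 2 * (w - z 0) ^ 2 := by ring
    rw [this]
    have h2 : (w - z 0) ^ 2 ≤ (b - a) ^ 2 := by
      apply sq_le_sq'
      · linarith [hw.1, hw.2, hz0.1, hz0.2]
      · linarith [hw.1, hw.2, hz0.1, hz0.2]
    exact mul_le_mul_of_nonneg_left h2 (sq_nonneg _)
  have e2 : ∑ i, (x i - ((1 - θ) * y i + θ * z i.succ)) ^ 2 ≤
      (1 - θ) * ∑ i, (x i - y i) ^ 2 + θ * ∑ i, (x i - Fin.tail z i) ^ 2 := by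
    rw [Finset.mul_sum, Finset.mul_sum, ← Finset.sum_add_distrib]
    refine Finset.sum_le_sum fun i _ => ?_
    have : Fin.tail z i = z i.succ := rfl
    rw [this]
    have h3 : 0 ≤ θ * (1 - θ) * (y i - z i.succ) ^ 2 := by
      have : 0 ≤ 1 - θ := by linarith
      positivity
    nlinarith [h3]
  linarith

/-- the case without a point on the fibre -/
lemma dsq_cons' {a b : ℝ} {A : Set (Fin (n + 1) → ℝ)} (hA : IsCompact A) (hne : A.Nonempty)
    (hI : ∀ y ∈ A, ∀ i, y i ∈ Set.Icc a b) {w : ℝ} (hw : w ∈ Set.Icc a b)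
    (x : Fin n → ℝ) :
    dsq (Fin.cons w x : Fin (n + 1) → ℝ) A ≤ dsq x (Fin.tail '' A) + (b - a) ^ 2 := by
  have hB : IsCompact (Fin.tail '' A) := hA.image (by unfold Fin.tail; fun_prop)
  obtain ⟨z', ⟨z, hz, rfl⟩, hze⟩ := exists_dsq hB (hne.image _) x
  rw [hze]
  refine (dsq_le hz).trans ?_
  rw [Fin.sum_univ_succ]
  have hz0 := hI z hz 0
  simp only [Fin.cons_zero, Fin.cons_succ]
  have h2 : (w - z 0) ^ 2 ≤ (b - a) ^ 2 := by
    apply sq_le_sq'
    · linarith [hw.1, hw.2, hz0.1, hz0.2]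
    · linarith [hw.1, hw.2, hz0.1, hz0.2]
  have : ∑ i, (x i - Fin.tail z i) ^ 2 = ∑ i, (x i - z i.succ) ^ 2 := rfl
  linarith

lemma num1 {u : ℝ} (h0 : 0 ≤ u) (h1 : u ≤ 1/2) :
    Real.exp (u - u ^ 2) + Real.exp (-u) ≤ 2 := by
  have hd : ∀ x : ℝ, HasDerivAt (fun u : ℝ => Real.exp (u - u ^ 2) + Real.exp (-u))
      (Real.exp (x - x ^ 2) * (1 - 2 * x) - Real.exp (-x)) x := by
    intro x
    have h1 : HasDerivAt (fun u : ℝ => u - u ^ 2) (1 - 2 * x) x := by
      simpa using (hasDerivAt_id' x).fun_sub ((hasDerivAt_id' x).fun_pow 2)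
    have h2 : HasDerivAt (fun u : ℝ => -u) (-1) x := (hasDerivAt_id' x).fun_neg
    have := h1.exp.fun_add h2.exp
    refine this.congr_deriv ?_
    ring
  have hanti : AntitoneOn (fun u : ℝ => Real.exp (u - u ^ 2) + Real.exp (-u))
      (Set.Icc 0 (1/2)) := by
    apply antitoneOn_of_deriv_nonpos (convex_Icc _ _)
    · exact (Continuous.continuousOn (by fun_prop))
    · exact fun x _ => (hd x).differentiableAt.differentiableWithinAt
    · intro x hx
      rw [interior_Icc] at hx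
      rw [(hd x).deriv]
      have h3 : 1 - 2 * x ≤ Real.exp (-(2 * x)) := by
        have := Real.add_one_le_exp (-(2 * x)); linarith
      have h4 : Real.exp (x - x ^ 2) * (1 - 2 * x) ≤ Real.exp (x - x ^ 2) * Real.exp (-(2 * x)) :=
        mul_le_mul_of_nonneg_left h3 (Real.exp_pos _).le
      rw [← Real.exp_add] at h4
      have h5 : Real.exp (x - x ^ 2 + -(2 * x)) ≤ Real.exp (-x) := by
        apply Real.exp_le_exp.mpr
        nlinarith [sq_nonneg x]
      linarith
  have h := hanti (Set.left_mem_Icc.mpr (by norm_num)) ⟨h0, h1⟩ h0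
  simp only at h
  norm_num at h
  linarith

/-- the optimisation in `θ` -/
lemma opt {ρ : ℝ} (h0 : 0 < ρ) (h1 : ρ ≤ 1) :
    ∃ θ : ℝ, 0 ≤ θ ∧ θ ≤ 1 ∧ Real.exp (θ ^ 2 / 4) * ρ⁻¹ ^ (1 - θ) ≤ 2 - ρ := by
  rcases le_or_gt ρ (Real.exp (-(1/2))) with h | h
  · refine ⟨1, by norm_num, le_rfl, ?_⟩
    have := num1 (u := 1/2) (by norm_num) le_rfl
    norm_num at this ⊢
    norm_num at h
    linarith
  · set u := -Real.log ρ with hu
    have hu0 : 0 ≤ u := by
      rw [hu]; have := Real.log_nonpos h0.le h1; linarith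
    have hu1 : u ≤ 1/2 := by
      have : -(1/2) < Real.log ρ := (Real.lt_log_iff_exp_lt h0).mpr h
      linarith
    refine ⟨2 * u, by linarith, by linarith, ?_⟩
    have e1 : ρ = Real.exp (-u) := by rw [hu, neg_neg, Real.exp_log h0]
    have e2 : ρ⁻¹ ^ (1 - 2 * u) = Real.exp (u * (1 - 2 * u)) := by
      rw [e1, ← Real.exp_neg, neg_neg, Real.exp_mul]
    rw [e2, ← Real.exp_add]
    have e3 : (2 * u) ^ 2 / 4 + u * (1 - 2 * u) = u - u ^ 2 := by ring
    rw [e3]
    have := num1 hu0 hu1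
    rw [← e1] at this
    linarith

lemma realstep {g iw iB α β M θ : ℝ} (hα : 0 < α) (hβ : α ≤ β) (hiw : 0 ≤ iw) (hiB : 0 ≤ iB)
    (h1 : iw * α ≤ M ^ 2) (h2 : iB * β ≤ M ^ 2) (h0 : 0 ≤ θ) (h0' : θ ≤ 1)
    (hopt : Real.exp (θ ^ 2 / 4) * (α / β)⁻¹ ^ (1 - θ) ≤ 2 - α / β)
    (hg : g ≤ Real.exp (θ ^ 2 / 4) * (iw ^ (1 - θ) * iB ^ θ)) :
    g * β ^ 2 + α * M ^ 2 ≤ 2 * β * M ^ 2 := by
  have hβ0 : 0 < β := lt_of_lt_of_le hα hβ
  have hN : 0 ≤ M ^ 2 / β := div_nonneg (sq_nonneg _) hβ0.le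
  have e1 : iw ≤ (M ^ 2 / β) * (α / β)⁻¹ := by
    have : (M ^ 2 / β) * (α / β)⁻¹ = M ^ 2 / α := by field_simp
    rw [this, le_div_iff₀ hα]; exact h1
  have e2 : iB ≤ M ^ 2 / β := by rw [le_div_iff₀ hβ0]; exact h2
  have hr : 0 ≤ (α / β)⁻¹ := by positivity
  have e3 : iw ^ (1 - θ) * iB ^ θ ≤ (M ^ 2 / β) * (α / β)⁻¹ ^ (1 - θ) := by
    calc iw ^ (1 - θ) * iB ^ θ ≤ ((M ^ 2 / β) * (α / β)⁻¹) ^ (1 - θ) * (M ^ 2 / β) ^ θ := by
          gcongr
      _ = (M ^ 2 / β) * (α / β)⁻¹ ^ (1 - θ) := by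
          rw [Real.mul_rpow hN hr]
          have : (M ^ 2 / β) ^ (1 - θ) * (M ^ 2 / β) ^ θ = M ^ 2 / β := by
            rw [← Real.rpow_add' hN (by norm_num)]
            norm_num
          calc _ = ((M ^ 2 / β) ^ (1 - θ) * (M ^ 2 / β) ^ θ) * (α / β)⁻¹ ^ (1 - θ) := by ring
            _ = _ := by rw [this]
  have e4 : g ≤ (M ^ 2 / β) * (2 - α / β) := by
    calc g ≤ Real.exp (θ ^ 2 / 4) * (iw ^ (1 - θ) * iB ^ θ) := hg
      _ ≤ Real.exp (θ ^ 2 / 4) * ((M ^ 2 / β) * (α / β)⁻¹ ^ (1 - θ)) :=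
          mul_le_mul_of_nonneg_left e3 (Real.exp_pos _).le
      _ = (M ^ 2 / β) * (Real.exp (θ ^ 2 / 4) * (α / β)⁻¹ ^ (1 - θ)) := by ring
      _ ≤ _ := mul_le_mul_of_nonneg_left hopt hN
  have e5 : g * β ^ 2 ≤ (M ^ 2 / β) * (2 - α / β) * β ^ 2 :=
    mul_le_mul_of_nonneg_right e4 (sq_nonneg _)
  have e6 : (M ^ 2 / β) * (2 - α / β) * β ^ 2 = (2 * β - α) * M ^ 2 := by
    field_simp
  rw [e6] at e5
  linarith

/-- the exponential weight -/
noncomputable def wt (l : ℝ) (A : Set (Fin n → ℝ)) (x : Fin n → ℝ) : ENNReal :=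
  ENNReal.ofReal (Real.exp (dsq x A / (4 * l ^ 2)))

lemma wt_meas {l : ℝ} {A : Set (Fin n → ℝ)} (hA : IsCompact A) : Measurable (wt l A) := by
  unfold wt
  have := dsq_continuous hA
  fun_prop

lemma tail_cont : Continuous (Fin.tail : (Fin (n + 1) → ℝ) → (Fin n → ℝ)) := by
  unfold Fin.tail; fun_prop

/-- the bound on one fibre -/
lemma fibre {a b : ℝ} (hab : a < b) (μ' : Measure (Fin n → ℝ)) [IsFiniteMeasure μ']
    {A : Set (Fin (n + 1) → ℝ)} (hA : IsCompact A) (hne : A.Nonempty)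
    (hc : Convex ℝ A) (hI : ∀ y ∈ A, ∀ i, y i ∈ Set.Icc a b) {w : ℝ} (hw : w ∈ Set.Icc a b)
    (Aw B : Set (Fin n → ℝ)) (hAw : Aw = {y | Fin.cons w y ∈ A}) (hAwc : IsCompact Aw)
    (hBe : B = Fin.tail '' A)
    (IHw : Aw.Nonempty → (∫⁻ x, wt (b - a) Aw x ∂μ') * μ' Aw ≤ (μ' Set.univ) ^ 2)
    (IHB : (∫⁻ x, wt (b - a) B x ∂μ') * μ' B ≤ (μ' Set.univ) ^ 2) (hB0 : μ' B ≠ 0) :
    (∫⁻ x, wt (b - a) A (Fin.cons w x) ∂μ') * (μ' B) ^ 2 + μ' Aw * (μ' Set.univ) ^ 2 ≤
      2 * μ' B * (μ' Set.univ) ^ 2 := by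
  have hl : 0 < b - a := by linarith
  have hBc : IsCompact B := by rw [hBe]; exact hA.image tail_cont
  have hsub : Aw ⊆ B := by
    intro y hy
    rw [hAw] at hy
    rw [hBe]
    exact ⟨_, hy, by simp⟩
  have hαβ : μ' Aw ≤ μ' B := measure_mono hsub
  have hM : (μ' Set.univ) ≠ ⊤ := measure_ne_top _ _
  have hβt : μ' B ≠ ⊤ := measure_ne_top _ _
  have hαt : μ' Aw ≠ ⊤ := measure_ne_top _ _
  rcases eq_or_ne (μ' Aw) 0 with h | h
  · rw [h, zero_mul, add_zero]
    have hG : ∫⁻ x, wt (b - a) A (Fin.cons w x) ∂μ' ≤ 2 * ∫⁻ x, wt (b - a) B x ∂μ' := by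
      rw [← lintegral_const_mul _ (wt_meas hBc)]
      refine lintegral_mono fun x => ?_
      unfold wt
      have h2 : (2 : ENNReal) = ENNReal.ofReal 2 := by norm_num
      rw [h2, ← ENNReal.ofReal_mul (by norm_num)]
      apply ENNReal.ofReal_le_ofReal
      have h3 := dsq_cons' hA hne hI hw x
      rw [← hBe] at h3
      have h4 : dsq (Fin.cons w x : Fin (n + 1) → ℝ) A / (4 * (b - a) ^ 2) ≤
          1/4 + dsq x B / (4 * (b - a) ^ 2) := by
        have : 1/4 + dsq x B / (4 * (b - a) ^ 2) = (dsq x B + (b - a) ^ 2) / (4 * (b - a) ^ 2) := by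
          field_simp
          ring
        rw [this]
        gcongr
      have h5 : Real.exp (1/4) ≤ 2 := by
        have := num1 (u := 1/2) (by norm_num) le_rfl
        norm_num at this ⊢
        have h6 := Real.exp_pos (-(1/2))
        norm_num at h6
        linarith
      calc Real.exp (dsq (Fin.cons w x : Fin (n + 1) → ℝ) A / (4 * (b - a) ^ 2))
          ≤ Real.exp (1/4 + dsq x B / (4 * (b - a) ^ 2)) := Real.exp_le_exp.mpr h4
        _ = Real.exp (1/4) * Real.exp (dsq x B / (4 * (b - a) ^ 2)) := Real.exp_add _ _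
        _ ≤ _ := mul_le_mul_of_nonneg_right h5 (Real.exp_pos _).le
    calc (∫⁻ x, wt (b - a) A (Fin.cons w x) ∂μ') * (μ' B) ^ 2
        ≤ (2 * ∫⁻ x, wt (b - a) B x ∂μ') * (μ' B) ^ 2 := by gcongr
      _ = 2 * μ' B * ((∫⁻ x, wt (b - a) B x ∂μ') * μ' B) := by ring
      _ ≤ _ := by gcongr
  · have hAwne : Aw.Nonempty := by
      rw [Set.nonempty_iff_ne_empty]
      rintro rfl
      simp at h
    have IHw' := IHw hAwne
    set α := (μ' Aw).toReal with hα
    set β := (μ' B).toReal with hβ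
    set M := (μ' Set.univ).toReal with hMr
    have hα0 : 0 < α := ENNReal.toReal_pos h hαt
    have hαβ' : α ≤ β := ENNReal.toReal_mono hβt hαβ
    have hβ0 : 0 < β := lt_of_lt_of_le hα0 hαβ'
    have hIwt : (∫⁻ x, wt (b - a) Aw x ∂μ') ≠ ⊤ := by
      intro ht
      rw [ht, ENNReal.top_mul h] at IHw'
      exact (ENNReal.pow_ne_top hM) (top_le_iff.mp IHw')
    have hIBt : (∫⁻ x, wt (b - a) B x ∂μ') ≠ ⊤ := by
      intro ht
      rw [ht, ENNReal.top_mul hB0] at IHB
      exact (ENNReal.pow_ne_top hM) (top_le_iff.mp IHB)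
    set iw := (∫⁻ x, wt (b - a) Aw x ∂μ').toReal with hiw
    set iB := (∫⁻ x, wt (b - a) B x ∂μ').toReal with hiB
    have r1 : iw * α ≤ M ^ 2 := by
      have := ENNReal.toReal_mono (ENNReal.pow_ne_top hM) IHw'
      rwa [ENNReal.toReal_mul, ENNReal.toReal_pow] at this
    have r2 : iB * β ≤ M ^ 2 := by
      have := ENNReal.toReal_mono (ENNReal.pow_ne_top hM) IHB
      rwa [ENNReal.toReal_mul, ENNReal.toReal_pow] at this
    obtain ⟨θ, h0, h1, hopt⟩ := opt (ρ := α / β) (by positivity)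
      (by rw [div_le_one hβ0]; exact hαβ')
    have hG : ∫⁻ x, wt (b - a) A (Fin.cons w x) ∂μ' ≤
        ENNReal.ofReal (Real.exp (θ ^ 2 / 4)) * ((∫⁻ x, wt (b - a) Aw x ∂μ') ^ (1 - θ) *
          (∫⁻ x, wt (b - a) B x ∂μ') ^ θ) := by
      calc ∫⁻ x, wt (b - a) A (Fin.cons w x) ∂μ'
          ≤ ∫⁻ x, ENNReal.ofReal (Real.exp (θ ^ 2 / 4)) *
              ((wt (b - a) Aw x) ^ (1 - θ) * (wt (b - a) B x) ^ θ) ∂μ' := by
            refine lintegral_mono fun x => ?_
            unfold wt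
            rw [ENNReal.ofReal_rpow_of_pos (Real.exp_pos _),
              ENNReal.ofReal_rpow_of_pos (Real.exp_pos _),
              ← ENNReal.ofReal_mul (by positivity), ← ENNReal.ofReal_mul (by positivity)]
            apply ENNReal.ofReal_le_ofReal
            rw [← Real.exp_mul, ← Real.exp_mul, ← Real.exp_add, ← Real.exp_add]
            apply Real.exp_le_exp.mpr
            have h3 := dsq_cons hA hne hc hI hw x Aw hAw hAwne hAwc h0 h1
            rw [← hBe] at h3
            have h4 : θ ^ 2 / 4 + (dsq x Aw / (4 * (b - a) ^ 2) * (1 - θ) +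
                dsq x B / (4 * (b - a) ^ 2) * θ) =
                ((1 - θ) * dsq x Aw + θ * dsq x B + θ ^ 2 * (b - a) ^ 2) /
                  (4 * (b - a) ^ 2) := by
              field_simp
              ring
            rw [h4]
            gcongr
        _ = ENNReal.ofReal (Real.exp (θ ^ 2 / 4)) *
              ∫⁻ x, ((wt (b - a) Aw x) ^ (1 - θ) * (wt (b - a) B x) ^ θ) ∂μ' := by
            rw [lintegral_const_mul]
            exact ((wt_meas hAwc).pow_const _).mul ((wt_meas hBc).pow_const _)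
        _ ≤ _ := by
            gcongr
            exact ENNReal.lintegral_mul_norm_pow_le (wt_meas hAwc).aemeasurable
              (wt_meas hBc).aemeasurable (by linarith) h0 (by ring)
    have hRt : ENNReal.ofReal (Real.exp (θ ^ 2 / 4)) * ((∫⁻ x, wt (b - a) Aw x ∂μ') ^ (1 - θ) *
          (∫⁻ x, wt (b - a) B x ∂μ') ^ θ) ≠ ⊤ := by
      refine ENNReal.mul_ne_top ENNReal.ofReal_ne_top (ENNReal.mul_ne_top ?_ ?_)
      · exact ENNReal.rpow_ne_top_of_nonneg (by linarith) hIwt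
      · exact ENNReal.rpow_ne_top_of_nonneg h0 hIBt
    have hGt : ∫⁻ x, wt (b - a) A (Fin.cons w x) ∂μ' ≠ ⊤ := ne_top_of_le_ne_top hRt hG
    set g := (∫⁻ x, wt (b - a) A (Fin.cons w x) ∂μ').toReal with hg
    have hgr : g ≤ Real.exp (θ ^ 2 / 4) * (iw ^ (1 - θ) * iB ^ θ) := by
      have := ENNReal.toReal_mono hRt hG
      rwa [ENNReal.toReal_mul, ENNReal.toReal_mul, ENNReal.toReal_ofReal (Real.exp_pos _).le,
        ← ENNReal.toReal_rpow, ← ENNReal.toReal_rpow] at this
    have hfin := realstep hα0 hαβ' ENNReal.toReal_nonneg ENNReal.toReal_nonneg r1 r2 h0 h1 hopt hgr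
    rw [← ENNReal.toReal_le_toReal]
    · rw [ENNReal.toReal_add, ENNReal.toReal_mul, ENNReal.toReal_mul, ENNReal.toReal_mul,
        ENNReal.toReal_mul, ENNReal.toReal_pow, ENNReal.toReal_pow]
      · simpa using hfin
      · exact ENNReal.mul_ne_top hGt (ENNReal.pow_ne_top hβt)
      · exact ENNReal.mul_ne_top hαt (ENNReal.pow_ne_top hM)
    · exact ENNReal.add_ne_top.mpr ⟨ENNReal.mul_ne_top hGt (ENNReal.pow_ne_top hβt),
        ENNReal.mul_ne_top hαt (ENNReal.pow_ne_top hM)⟩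
    · exact ENNReal.mul_ne_top (ENNReal.mul_ne_top (by norm_num) hβt) (ENNReal.pow_ne_top hM)

lemma cons_cont (w : ℝ) :
    Continuous (fun y : Fin n → ℝ => (Fin.cons w y : Fin (n + 1) → ℝ)) := by
  refine continuous_pi fun i => ?_
  refine Fin.cases ?_ (fun j => ?_) i
  · simpa using continuous_const
  · simpa using continuous_apply j

theorem core {a b : ℝ} (hab : a < b) : ∀ (n : ℕ) (μ : Fin n → Measure ℝ)
    [∀ i, IsFiniteMeasure (μ i)], (∀ i, ∀ᵐ x ∂(μ i), x ∈ Set.Icc a b) →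
    ∀ A : Set (Fin n → ℝ), A.Nonempty → IsCompact A → Convex ℝ A →
    (∀ y ∈ A, ∀ i, y i ∈ Set.Icc a b) →
    (∫⁻ x, wt (b - a) A x ∂(Measure.pi μ)) * Measure.pi μ A ≤ (Measure.pi μ Set.univ) ^ 2 := by
  intro n
  induction n with
  | zero =>
    intro μ _ hμ A hne hA hc hI
    have hAu : A = Set.univ := Subsingleton.eq_univ_of_nonempty hne
    have h1 : ∀ x, wt (b - a) A x = 1 := by
      intro x
      have h0 : dsq x A = 0 := by
        apply le_antisymm
        · have := dsq_le (x := x) (y := x) (A := A) (by rw [hAu]; trivial)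
          simpa using this
        · unfold dsq
          apply Real.sInf_nonneg
          rintro _ ⟨y, _, rfl⟩
          exact Finset.sum_nonneg fun i _ => sq_nonneg _
      unfold wt
      rw [h0]
      simp
    simp only [h1, lintegral_const, one_mul]
    rw [hAu, sq]
  | succ n ih =>
    intro μ _ hμ A hne hA hc hI
    set μ' := Measure.pi (fun j : Fin n => μ j.succ) with hμ'
    set B := Fin.tail '' A with hB
    have hBc : IsCompact B := hA.image tail_cont
    set e := MeasurableEquiv.piFinSuccAbove (fun _ : Fin (n + 1) => ℝ) 0 with he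
    have hmp0 := measurePreserving_piFinSuccAbove μ 0
    have hmp : MeasurePreserving e (Measure.pi μ) ((μ 0).prod μ') := by
      simpa only [Fin.zero_succAbove] using hmp0
    have hmps := hmp.symm e
    have hes : ∀ w x, e.symm (w, x) = Fin.cons w x := by
      intro w x
      rw [← Fin.insertNth_zero']
      rfl
    have hcoord : ∀ i : Fin n, ∀ᵐ x ∂(μ i.succ), x ∈ Set.Icc a b := fun i => hμ _
    -- univ
    have huniv : Measure.pi μ Set.univ = μ 0 Set.univ * μ' Set.univ := by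
      rw [Measure.pi_univ, Fin.prod_univ_succ, Measure.pi_univ]
    have hwtm : Measurable (fun p : ℝ × (Fin n → ℝ) => wt (b - a) A (Fin.cons p.1 p.2)) := by
      have h1 := (wt_meas (l := b - a) hA).comp e.symm.measurable
      have h2 : (fun p : ℝ × (Fin n → ℝ) => wt (b - a) A (Fin.cons p.1 p.2)) =
          wt (b - a) A ∘ e.symm := by
        funext p
        change _ = wt (b - a) A (e.symm (p.1, p.2))
        rw [hes]
      rw [h2]
      exact h1
    have hJ : ∫⁻ x, wt (b - a) A x ∂(Measure.pi μ) =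
        ∫⁻ w, ∫⁻ x, wt (b - a) A (Fin.cons w x) ∂μ' ∂(μ 0) := by
      rw [← hmps.lintegral_comp (wt_meas hA), lintegral_prod]
      · simp only [hes]
      · exact ((wt_meas (l := b - a) hA).comp e.symm.measurable).aemeasurable
    have hAm : MeasurableSet A := hA.measurableSet
    have hS : MeasurableSet (e.symm ⁻¹' A) := e.symm.measurable hAm
    have hset : ∀ w, (Prod.mk w ⁻¹' (e.symm ⁻¹' A)) =
        ({y | (Fin.cons w y : Fin (n + 1) → ℝ) ∈ A} : Set (Fin n → ℝ)) := by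
      intro w
      ext y
      simp only [Set.mem_preimage, Set.mem_ofPred_eq, hes]
    have hαt : Measure.pi μ A = ∫⁻ w, μ' {y | Fin.cons w y ∈ A} ∂(μ 0) := by
      rw [← hmps.measure_preimage hAm.nullMeasurableSet, Measure.prod_apply hS]
      simp only [hset]
    have hαm : Measurable (fun w => μ' {y | Fin.cons w y ∈ A}) := by
      have h1 := measurable_measure_prodMk_left (ν := μ') hS
      simpa only [hset] using h1
    have hsub : ∀ w, ({y | (Fin.cons w y : Fin (n + 1) → ℝ) ∈ A} : Set (Fin n → ℝ)) ⊆ B := by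
      intro w y hy
      exact ⟨_, hy, by simp⟩
    rcases eq_or_ne (μ' B) 0 with hβ | hβ
    · have : Measure.pi μ A = 0 := by
        rw [hαt]
        have : ∀ w, μ' {y | (Fin.cons w y : Fin (n + 1) → ℝ) ∈ A} = 0 := fun w =>
          measure_mono_null (hsub w) hβ
        simp [this]
      rw [this, mul_zero]
      exact zero_le
    · have hcBA : Convex ℝ B := by
        rintro _ ⟨y, hy, rfl⟩ _ ⟨z, hz, rfl⟩ s t hs ht hst
        exact ⟨s • y + t • z, hc hy hz hs ht hst, rfl⟩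
      have hIB : ∀ y ∈ B, ∀ i, y i ∈ Set.Icc a b := by
        rintro _ ⟨y, hy, rfl⟩ i
        exact hI y hy i.succ
      have IHB := ih (fun j => μ j.succ) hcoord B (hne.image _) hBc hcBA hIB
      have hfib : ∀ᵐ w ∂(μ 0), (∫⁻ x, wt (b - a) A (Fin.cons w x) ∂μ') * (μ' B) ^ 2 +
          μ' {y | Fin.cons w y ∈ A} * (μ' Set.univ) ^ 2 ≤ 2 * μ' B * (μ' Set.univ) ^ 2 := by
        filter_upwards [hμ 0] with w hw
        have hclosed : IsClosed ({y | (Fin.cons w y : Fin (n + 1) → ℝ) ∈ A} : Set (Fin n → ℝ)) :=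
          hA.isClosed.preimage (cons_cont w)
        have hcomp : IsCompact ({y | (Fin.cons w y : Fin (n + 1) → ℝ) ∈ A} : Set (Fin n → ℝ)) :=
          hBc.of_isClosed_subset hclosed (hsub w)
        refine fibre hab μ' hA hne hc hI hw _ B rfl hcomp rfl ?_ IHB hβ
        intro hwne
        refine ih (fun j => μ j.succ) hcoord _ hwne hcomp ?_ ?_
        · intro y hy z hz s t hs ht hst
          have h1 := hc hy hz hs ht hst
          have h2 : s • (Fin.cons w y : Fin (n + 1) → ℝ) + t • (Fin.cons w z : Fin (n + 1) → ℝ) =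
              Fin.cons w (s • y + t • z) := by
            funext i
            refine Fin.cases ?_ (fun j => ?_) i
            · simp only [Pi.add_apply, Pi.smul_apply, Fin.cons_zero, smul_eq_mul]
              rw [← add_mul, hst, one_mul]
            · simp
          rw [h2] at h1
          exact h1
        · intro y hy i
          exact hIB y (hsub w hy) i
      have hint := lintegral_mono_ae hfib
      rw [lintegral_add_left, lintegral_mul_const, lintegral_mul_const, lintegral_const, ← hJ,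
        ← hαt] at hint
      rotate_left
      · exact hαm
      · exact hwtm.lintegral_prod_right'
      · exact (hwtm.lintegral_prod_right').mul_const _
      rw [huniv]
      have hMt : μ' Set.univ ≠ ⊤ := measure_ne_top _ _
      have h0t : μ 0 Set.univ ≠ ⊤ := measure_ne_top _ _
      have hβt : μ' B ≠ ⊤ := measure_ne_top _ _
      have hAt : Measure.pi μ A ≠ ⊤ := measure_ne_top _ _
      have hRt : 2 * μ' B * (μ' Set.univ) ^ 2 * μ 0 Set.univ ≠ ⊤ :=
        ENNReal.mul_ne_top (ENNReal.mul_ne_top (ENNReal.mul_ne_top (by norm_num) hβt)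
          (ENNReal.pow_ne_top hMt)) h0t
      have hJβ : (∫⁻ x, wt (b - a) A x ∂(Measure.pi μ)) * (μ' B) ^ 2 ≠ ⊤ :=
        ne_top_of_le_ne_top hRt (le_trans le_self_add hint)
      have hJt : (∫⁻ x, wt (b - a) A x ∂(Measure.pi μ)) ≠ ⊤ := by
        intro ht
        rw [ht, ENNReal.top_mul (pow_ne_zero 2 hβ)] at hJβ
        exact hJβ rfl
      have hreal := ENNReal.toReal_mono hRt hint
      rw [ENNReal.toReal_add hJβ (ENNReal.mul_ne_top hAt (ENNReal.pow_ne_top hMt))] at hreal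
      simp only [ENNReal.toReal_mul, ENNReal.toReal_pow, ENNReal.toReal_ofNat] at hreal
      rw [← ENNReal.toReal_le_toReal (ENNReal.mul_ne_top hJt hAt)
        (ENNReal.pow_ne_top (ENNReal.mul_ne_top h0t hMt))]
      simp only [ENNReal.toReal_mul, ENNReal.toReal_pow]
      set j := (∫⁻ x, wt (b - a) A x ∂(Measure.pi μ)).toReal
      set α := (Measure.pi μ A).toReal
      set β := (μ' B).toReal with hβr
      set M := (μ' Set.univ).toReal
      set m := (μ 0 Set.univ).toReal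
      have hβ0 : 0 < β := ENNReal.toReal_pos hβ hβt
      have hα0 : 0 ≤ α := ENNReal.toReal_nonneg
      have h1 : j * α * β ^ 2 ≤ (m * M) ^ 2 * β ^ 2 := by
        nlinarith [mul_le_mul_of_nonneg_left hreal hα0, mul_nonneg (sq_nonneg M)
          (sq_nonneg (m * β - α))]
      exact le_of_mul_le_mul_right h1 (by positivity)

end Tal

/-- **TAL**: Talagrand's inequality for convex sets. -/
theorem tal : S_TAL := by
  intro n a b hab I hIm hIs hI0 A hne hA hc hAI
  have hfin : ∀ i, IsFiniteMeasure (volume.restrict (I i)) := by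
    intro i
    refine ⟨?_⟩
    rw [Measure.restrict_apply_univ]
    exact (measure_mono (hIs i)).trans_lt (by rw [Real.volume_Icc]; exact ENNReal.ofReal_lt_top)
  have hpi : (volume : Measure (Fin n → ℝ)).restrict (Set.pi Set.univ I) =
      Measure.pi (fun i => (volume : Measure ℝ).restrict (I i)) := by
    rw [volume_pi, Measure.restrict_pi_pi]
  have hcore := Tal.core hab n (fun i => (volume : Measure ℝ).restrict (I i))
    (fun i => by
      filter_upwards [ae_restrict_mem (hIm i)] with x hx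
      exact hIs i hx) A hne hA hc hAI
  rw [← hpi] at hcore
  have hPm : MeasurableSet (Set.pi Set.univ I) := MeasurableSet.univ_pi hIm
  rw [Measure.restrict_apply_univ, Measure.restrict_apply hA.measurableSet] at hcore
  have hfinP : volume (Set.pi Set.univ I) ≠ ⊤ := by
    rw [volume_pi_pi]
    refine (ENNReal.prod_lt_top fun i _ => ?_).ne
    exact (measure_mono (hIs i)).trans_lt (by rw [Real.volume_Icc]; exact ENNReal.ofReal_lt_top)
  have hcont : Continuous (fun x : Fin n → ℝ => Real.exp (dsq x A / (4 * (b - a) ^ 2))) := by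
    have := Tal.dsq_continuous hA
    fun_prop
  have hIint : (∫ x in Set.pi Set.univ I, Real.exp (dsq x A / (4 * (b - a) ^ 2))) =
      (∫⁻ x in Set.pi Set.univ I, Tal.wt (b - a) A x).toReal := by
    rw [integral_eq_lintegral_of_nonneg_ae]
    · rfl
    · exact Filter.Eventually.of_forall fun x => (Real.exp_pos _).le
    · exact hcont.aestronglyMeasurable
  rw [hIint, Measure.real, Measure.real, ← ENNReal.toReal_mul, ← ENNReal.toReal_pow]
  exact ENNReal.toReal_mono (ENNReal.pow_ne_top hfinP) hcore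

end Pool.Agent.NC
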