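import Pool.Agent.NewtonCov.Stmts

/-!
MP_a2070a_co: module VOL. Volume of `AU` and subadditivity over a covering.
-/

set_option autoImplicit false

namespace Pool.Agent.NC

open MeasureTheory Finset

/-- The one dimensional factor of `AU` for `k ∈ U`. -/
def volJ (σ : ℝ) : Set ℝ :=
  Set.Icc (-(1/2 + σ)) (-(1/2 + σ/2)) ∪ Set.Icc (1/2 + σ/2) (1/2 + σ)

/-- The factors of `AU`. -/
def volI {d : ℕ} (σ : ℝ) (U : Finset (Fin d)) (k : Fin d) : Set ℝ :=
  if k ∈ U then volJ σ else Set.Icc (-(1/2 + σ)) (1/2 + σ)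

theorem vol_AU_eq {d : ℕ} (σ : ℝ) (hσ : 0 < σ) (U : Finset (Fin d)) :
    AU σ U = Set.pi Set.univ (volI σ U) := by
  ext x
  simp only [AU, Set.mem_ofPred_eq, Set.mem_pi, Set.mem_univ, true_implies, volI]
  constructor
  · rintro ⟨h1, h2⟩ k
    have h3 := abs_le.mp (h1 k)
    by_cases hk : k ∈ U
    · rw [if_pos hk]
      rcases le_abs.mp (h2 k hk) with h4 | h4
      · right; exact ⟨h4, h3.2⟩
      · left; exact ⟨h3.1, by linarith⟩
    · rw [if_neg hk]; exact ⟨h3.1, h3.2⟩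
  · intro h
    refine ⟨fun k => ?_, fun k hk => ?_⟩
    · have h1 := h k
      by_cases hk : k ∈ U
      · rw [if_pos hk] at h1
        rcases h1 with h1 | h1
        · exact abs_le.mpr ⟨h1.1, by linarith [h1.2]⟩
        · exact abs_le.mpr ⟨by linarith [h1.1], h1.2⟩
      · rw [if_neg hk] at h1
        exact abs_le.mpr ⟨h1.1, h1.2⟩
    · have h1 := h k
      rw [if_pos hk] at h1
      rcases h1 with h1 | h1
      · exact le_abs.mpr (Or.inr (by linarith [h1.2]))
      · exact le_abs.mpr (Or.inl h1.1)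

theorem vol_J (σ : ℝ) (hσ : 0 < σ) : volume (volJ σ) = ENNReal.ofReal σ := by
  unfold volJ
  rw [measure_union _ measurableSet_Icc]
  · rw [Real.volume_Icc, Real.volume_Icc, ← ENNReal.ofReal_add (by linarith) (by linarith)]
    congr 1; ring
  · rw [Set.disjoint_left]
    intro y h1 h2
    linarith [h1.2, h2.1]

theorem vol_I {d : ℕ} (σ : ℝ) (hσ : 0 < σ) (U : Finset (Fin d)) (k : Fin d) :
    volume (volI σ U k) = ENNReal.ofReal (if k ∈ U then σ else 1 + 2 * σ) := by
  unfold volI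
  by_cases hk : k ∈ U
  · rw [if_pos hk, if_pos hk, vol_J σ hσ]
  · rw [if_neg hk, if_neg hk, Real.volume_Icc]
    congr 1; ring

theorem vol_AU_ennreal {d : ℕ} (σ : ℝ) (hσ : 0 < σ) (U : Finset (Fin d)) :
    volume (AU σ U) = ENNReal.ofReal (σ ^ U.card * (1 + 2 * σ) ^ (d - U.card)) := by
  rw [vol_AU_eq σ hσ U, volume_pi_pi]
  simp_rw [vol_I σ hσ U]
  rw [← ENNReal.ofReal_prod_of_nonneg]
  · congr 1
    rw [Finset.prod_ite, Finset.prod_const, Finset.prod_const]
    congr 2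
    · congr 1; ext k; simp
    · have h1 : (univ.filter (fun k => k ∉ U) : Finset (Fin d)) = Uᶜ := by ext k; simp
      rw [h1, Finset.card_compl, Fintype.card_fin]
  · intro k _
    split_ifs <;> linarith

theorem vol : S_VOL := by
  refine ⟨fun d U σ hσ => ?_, fun d n R c σ U hσ hcov => ?_⟩
  · have h1 : 0 < σ ^ U.card * (1 + 2 * σ) ^ (d - U.card) := by positivity
    have h2 : volume.real (AU σ U) = σ ^ U.card * (1 + 2 * σ) ^ (d - U.card) := by
      rw [Measure.real, vol_AU_ennreal σ hσ U, ENNReal.toReal_ofReal h1.le]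
    exact ⟨h2, h2 ▸ h1⟩
  · have h3 : volume (AU σ U) ≠ ⊤ := by
      rw [vol_AU_ennreal σ hσ U]; exact ENNReal.ofReal_ne_top
    have h4 : AU σ U ⊆ ⋃ j, (UC (R j) (c j) ∩ AU σ U) := by
      intro x hx
      obtain ⟨j, hj⟩ := hcov x hx.1
      exact Set.mem_iUnion.mpr ⟨j, hj, hx⟩
    have h5 : volume (AU σ U) ≤ ∑ j, volume (UC (R j) (c j) ∩ AU σ U) :=
      (measure_mono h4).trans ((measure_iUnion_fintype_le _ _))
    have h6 : ∀ j ∈ (univ : Finset (Fin n)), volume (UC (R j) (c j) ∩ AU σ U) ≠ ⊤ :=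
      fun j _ => ne_top_of_le_ne_top h3 (measure_mono Set.inter_subset_right)
    simp only [Measure.real]
    rw [← ENNReal.toReal_sum h6]
    exact ENNReal.toReal_mono (ENNReal.sum_ne_top.mpr h6) h5

end Pool.Agent.NC
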